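import Mathlib

/-!
Definitions for the proof that for infinitely many primes `p` the sum `∑_{k ≤ p/3} 1/k²` is not
divisible by `p`.  See `Iface.lean` for the plan.
-/

namespace Run7.K3

noncomputable section

open Finset

/-- `H^{(2)}_k = ∑_{j ≤ k} 1/j²`. -/
def H2 (k : ℕ) : ℚ := ∑ j ∈ range k, 1 / ((j : ℚ) + 1) ^ 2

/-- The hypothesis to be refuted. -/
def Hyp (P₀ : ℕ) : Prop := ∀ p : ℕ, p.Prime → P₀ < p → padicNorm p (H2 (p / 3)) ≤ (p : ℚ)⁻¹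

/-- Coefficients of the eight functions `1, L = ∑ u^k/k, Li₂, f_r = ∑ H2_k/(6k+r) u^k`
(`i = r + 2`, `r = 1, ..., 5`). -/
def cf (i k : ℕ) : ℚ :=
  if i = 0 then (if k = 0 then 1 else 0)
  else if i = 1 then 1 / (k : ℚ)
  else if i = 2 then 1 / (k : ℚ) ^ 2
  else H2 k / (6 * (k : ℚ) + ((i : ℚ) - 2))

/-- The `r`-th row (`r < 8 D`): type `i = r / D`, shift `j = r % D`; the coefficients of
`u^j f_i(u)`. -/
def row (D r n : ℕ) : ℚ := if r % D ≤ n then cf (r / D) (n - r % D) else 0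

/-- Rows `row D r`, columns of index `n t`. -/
def mat (D : ℕ) (n : Fin (8 * D) → ℕ) : Matrix (Fin (8 * D)) (Fin (8 * D)) ℚ :=
  Matrix.of fun r t => row D r (n t)

/-- The extra pole of the `f_r`-coefficients of index `≤ n` at `p > 3`. -/
def dd (P₀ p n : ℕ) : ℕ := if p ≤ P₀ ∨ 7 * p ≤ 6 * n + 5 then Nat.log p (6 * n + 5) else 0

/-! ### The change of variables `u = v/(1+v)` (for `p = 2, 3`) -/

/-- The coefficient of `v^n` in `v^k (1+v)^(D-1-k)` (`k ≤ n`). -/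
def tc (D k n : ℕ) : ℤ := if k ≤ n then Ring.choose ((D : ℤ) - 1 - k) (n - k) else 0

/-- `g(u) ↦ (1+v)^(D-1) g(v/(1+v))` on coefficients. -/
def TT (D : ℕ) (g : ℕ → ℚ) (n : ℕ) : ℚ := ∑ k ∈ range (n + 1), (tc D k n : ℚ) * g k

/-- Coefficients of `f_i(v/(1+v))`. -/
def tf (i : ℕ) : ℕ → ℚ := TT 1 (cf i)

/-- Rows in the variable `v`: `v^j f_i(v/(1+v))`. -/
def vrow (D r n : ℕ) : ℚ := if r % D ≤ n then tf (r / D) (n - r % D) else 0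

def vmat (D : ℕ) (n : Fin (8 * D) → ℕ) : Matrix (Fin (8 * D)) (Fin (8 * D)) ℚ :=
  Matrix.of fun r t => vrow D r (n t)

/-- `f_r(v/(1+v)) = A Li₂ + B log(1+v) + C` with the coefficients `al, be, ga` of `A, B, C`
(the series `Li₂` is `tf 2`, the logarithm is `tf 1`). -/
def al (r : ℕ) (k : ℕ) : ℚ :=
  if k = 0 then 1 / r
  else (-6) ^ (k - 1) * (Nat.factorial (k - 1)) / ∏ i ∈ Icc 1 k, (6 * (i : ℚ) + r)

def be (r : ℕ) (k : ℕ) : ℚ :=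
  if k = 0 then -6 / (r : ℚ) ^ 2
  else al r k * (-6 * ∑ i ∈ Icc 1 k, 1 / (6 * (i : ℚ) + r))

def ga (r : ℕ) (k : ℕ) : ℚ :=
  if k = 0 then 0
  else al r k * (36 / (r : ℚ) ^ 2 +
    ∑ i ∈ Icc 2 k, (-6 * ∑ l ∈ Icc 1 (i - 1), 1 / (6 * (l : ℚ) + r)) / ((i : ℚ) - 1))

/-! ### The archimedean side: the rational functions `R`.
`D = 100 M`.  A cell is given by `c ∈ {0,1,2}`, `b ≤ g ≤ 100`, `ζ` with
`100 c + (7 - c)(b + 100 - g) ≤ ζ`.  `Z ≥ ζ M`, `n = D + Z`. -/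

/-- The numerator: double zeros at `k`, simple zeros at `k + r/6` for `k < b M` and `g M ≤ k < 100 M`,
a zero of multiplicity `c` at the other `k < 100 M`. -/
def qq (c b g M : ℕ) (s : ℂ) : ℂ :=
  ∏ k ∈ range (100 * M), if k < b * M ∨ g * M ≤ k then
    (s - k) ^ 2 * ∏ r ∈ Icc (1 : ℕ) 5, (s - k - (r : ℂ) / 6) else (s - k) ^ c

/-- The normalisation, `Z! / |qq (-Z-1)|`. -/
def AA (c b g M Z : ℕ) : ℝ :=
  (Nat.factorial Z : ℝ) / ∏ k ∈ range (100 * M), if k < b * M ∨ g * M ≤ k then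
    ((Z : ℝ) + 1 + k) ^ 2 * ∏ r ∈ Icc (1 : ℕ) 5, ((Z : ℝ) + 1 + k + (r : ℝ) / 6) else ((Z : ℝ) + 1 + k) ^ c

def RR (c b g M Z : ℕ) (s : ℂ) : ℂ :=
  (AA c b g M Z : ℂ) * qq c b g M s / ∏ i ∈ range (Z + 1), (s + i + 1)

/-- admissible parameters -/
def Adm (c b g ζ : ℕ) : Prop :=
  c ≤ 2 ∧ 1 ≤ b ∧ b ≤ g ∧ g ≤ 100 ∧ 1 ≤ ζ ∧ 100 * c + (7 - c) * (b + 100 - g) ≤ ζ

/-- `x log x - x`. -/
def FF (x : ℝ) : ℝ := x * Real.log x - x

/-- `∫_0^u ½ log(t²+e²) dt`. -/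
def Ph (u e : ℝ) : ℝ := 1 / 2 * u * Real.log (u ^ 2 + e ^ 2) - u + e * Real.arctan (u / e)

def KK (c z b g : ℝ) : ℝ :=
  FF z - 7 * (FF (z + b) - FF z) - c * (FF (z + g) - FF (z + b)) - 7 * (FF (z + 1) - FF (z + g))

/-- The potential on the real axis (at the points of the middle part `[b, g]`). -/
def VV (c z b g s : ℝ) : ℝ :=
  KK c z b g + 8 * FF s + 7 * FF (1 - s) - (7 - c) * (FF (s - b) + FF (g - s)) - FF (s + z)

/-- The potential at `1 + i e`. -/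
def VL (c z b g e : ℝ) : ℝ :=
  KK c z b g + 8 * Ph 1 e - (7 - c) * Ph (1 - b) e + (7 - c) * Ph (1 - g) e - Ph (1 + z) e

/-- The cells `(ζ, c, b, g, κ)`; `κ` in hundredths. -/
def cells : List (ℕ × ℕ × ℕ × ℕ × ℕ) :=
  [(50, 0, 5, 98, 85), (60, 0, 6, 98, 102), (70, 0, 7, 97, 127), (80, 0, 7, 96, 146),
   (90, 0, 8, 96, 165), (100, 0, 9, 95, 193), (110, 0, 10, 95, 214), (120, 1, 3, 100, 255),
   (130, 1, 5, 100, 311), (140, 1, 6, 100, 338), (150, 1, 7, 99, 375), (160, 1, 9, 99, 412),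
   (170, 1, 9, 98, 436), (180, 1, 11, 98, 475), (190, 1, 12, 97, 512), (200, 1, 13, 97, 536),
   (210, 1, 14, 96, 569), (220, 1, 15, 95, 603), (230, 1, 16, 95, 626), (240, 1, 17, 94, 661),
   (250, 2, 9, 99, 702), (260, 2, 10, 98, 745), (270, 2, 11, 97, 784), (280, 2, 12, 96, 822),
   (290, 2, 13, 95, 860), (300, 2, 14, 94, 897), (310, 2, 15, 93, 934), (320, 2, 16, 92, 969),
   (330, 2, 17, 91, 1005), (340, 2, 18, 90, 1040), (350, 2, 18, 88, 1076), (360, 2, 19, 87, 1114),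
   (370, 2, 20, 86, 1152), (380, 2, 21, 85, 1187), (390, 2, 21, 83, 1222), (400, 2, 22, 82, 1261),
   (410, 2, 23, 81, 1295), (420, 2, 23, 79, 1333), (430, 2, 23, 77, 1369), (440, 2, 24, 76, 1404),
   (450, 2, 24, 74, 1441), (460, 2, 24, 72, 1478), (470, 2, 24, 70, 1514), (480, 2, 24, 68, 1549),
   (490, 2, 24, 66, 1584), (500, 2, 24, 64, 1619), (510, 2, 23, 61, 1656), (520, 2, 23, 59, 1690),
   (530, 2, 22, 56, 1724), (540, 2, 22, 54, 1758), (550, 2, 21, 51, 1793), (560, 2, 21, 49, 1825),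
   (570, 2, 20, 46, 1859), (580, 2, 19, 43, 1892), (590, 2, 18, 40, 1924), (600, 2, 18, 38, 1955),
   (610, 1, 18, 33, 1988), (620, 2, 16, 32, 2019), (630, 0, 16, 26, 2050), (640, 1, 14, 24, 2081),
   (650, 2, 12, 22, 2111), (660, 2, 11, 19, 2141), (670, 1, 10, 15, 2171), (680, 2, 8, 12, 2201),
   (690, 2, 7, 9, 2230)]

/-- The constant `∑_{l ≥ 1} (1/l² - 1/(l - r/6)²)`. -/
def cr (r : ℕ) : ℝ := ∑' l : ℕ, (1 / ((l : ℝ) + 1) ^ 2 - 1 / ((l : ℝ) + 1 - r / 6) ^ 2)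

/-- The point `D - 1/12 + i η`. -/
def lin (D : ℕ) (η : ℝ) : ℂ := ((D : ℂ) - 1 / 12) + η * Complex.I

/-- The kernel `π²/sin²(π s)` at `lin D η`. -/
def ker (D : ℕ) (η : ℝ) : ℂ := (Real.pi : ℂ) ^ 2 / Complex.sin (Real.pi * lin D η) ^ 2

end

end Run7.K3
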