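import Mathlib
import Pool.Agent.Run7.K3.Defs

/-!
Piece L, second half (`cells_line`) of project K3.

`W(e) = VL(e) - 6.28 e` is concave on `[0, 1.02]` (a cubic with integer coefficients), decreasing for
`e ≥ 1.02`.  With `e₀ = q/400`, `W'(e₀) ≤ 0` (arctangents from a table of `arctan (j/16)`), and for
`e ≤ 1.02`: `W(e) ≤ W(e₀) - e₀ W'(e₀)`; the arctangents cancel, and what remains is an integer combination
of logarithms of integers, compared with `-κ/100` by comparing integer powers exactly.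
-/

namespace Run7.K3

noncomputable section

open Real Set

/-! ### Arctangents -/

lemma nl_arctan_le (y : ℝ) (hy : 0 ≤ y) : arctan y ≤ y - y ^ 3 / 3 + y ^ 5 / 5 := by
  have hd : ∀ x : ℝ, HasDerivAt (fun y : ℝ => y - y ^ 3 / 3 + y ^ 5 / 5 - arctan y)
      (x ^ 6 / (1 + x ^ 2)) x := by
    intro x
    have h3 := ((hasDerivAt_id x).pow 3).div_const 3
    have h5 := ((hasDerivAt_id x).pow 5).div_const 5
    have := (((hasDerivAt_id x).sub h3).add h5).sub (hasDerivAt_arctan x)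
    refine this.congr_deriv ?_
    have : 1 + x ^ 2 ≠ 0 := by positivity
    simp only [id]
    field_simp
    ring
  have hm : Monotone (fun y : ℝ => y - y ^ 3 / 3 + y ^ 5 / 5 - arctan y) :=
    monotone_of_hasDerivAt_nonneg hd fun x => by positivity
  have := hm hy
  simp only [arctan_zero] at this
  linarith

lemma nl_le_arctan (y : ℝ) (hy : 0 ≤ y) : y - y ^ 3 / 3 ≤ arctan y := by
  have hd : ∀ x : ℝ, HasDerivAt (fun y : ℝ => arctan y - (y - y ^ 3 / 3))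
      (x ^ 4 / (1 + x ^ 2)) x := by
    intro x
    have h3 := ((hasDerivAt_id x).pow 3).div_const 3
    have := (hasDerivAt_arctan x).sub ((hasDerivAt_id x).sub h3)
    refine this.congr_deriv ?_
    have : 1 + x ^ 2 ≠ 0 := by positivity
    simp only [id]
    field_simp
    ring
  have hm : Monotone (fun y : ℝ => arctan y - (y - y ^ 3 / 3)) :=
    monotone_of_hasDerivAt_nonneg hd fun x => by positivity
  have := hm hy
  simp only [arctan_zero] at this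
  linarith

/-- upper bound of `10^12 arctan (a/b)` for small `a/b` -/
def nlUp (a b : ℕ) : ℤ :=
  (10 ^ 12 * a / b : ℕ) + 1 - (10 ^ 12 * a ^ 3 / (3 * b ^ 3) : ℕ) +
    ((10 ^ 12 * a ^ 5 / (5 * b ^ 5) : ℕ) + 1)

/-- lower bound of `10^12 arctan (a/b)` for small `a/b` -/
def nlLo (a b : ℕ) : ℤ := (10 ^ 12 * a / b : ℕ) - ((10 ^ 12 * a ^ 3 / (3 * b ^ 3) : ℕ) + 1)

lemma nl_div_le (a b : ℕ) : ((a / b : ℕ) : ℝ) ≤ (a : ℝ) / b := Nat.cast_div_le

lemma nl_lt_div (a b : ℕ) (hb : 0 < b) : (a : ℝ) / b ≤ ((a / b : ℕ) : ℝ) + 1 := by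
  rw [div_le_iff₀ (by exact_mod_cast hb)]
  have := Nat.lt_div_mul_add hb (a := a)
  have h2 : a ≤ (a / b + 1) * b := by
    rw [add_mul, one_mul]; exact this.le
  exact_mod_cast h2

lemma nl_up (a b : ℕ) (hb : 0 < b) : 10 ^ 12 * arctan ((a : ℝ) / b) ≤ (nlUp a b : ℝ) := by
  have h := nl_arctan_le ((a : ℝ) / b) (by positivity)
  have hb' : (b : ℝ) ≠ 0 := by positivity
  have h1 := nl_lt_div (10 ^ 12 * a) b hb
  have h2 := nl_div_le (10 ^ 12 * a ^ 3) (3 * b ^ 3)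
  have h3 := nl_lt_div (10 ^ 12 * a ^ 5) (5 * b ^ 5) (by positivity)
  have e1 : (((10 ^ 12 * a : ℕ) : ℝ)) / b = 10 ^ 12 * ((a : ℝ) / b) := by push_cast; ring
  have e2 : (((10 ^ 12 * a ^ 3 : ℕ) : ℝ)) / ((3 * b ^ 3 : ℕ) : ℝ) =
      10 ^ 12 * (((a : ℝ) / b) ^ 3 / 3) := by push_cast; field_simp; ring
  have e3 : (((10 ^ 12 * a ^ 5 : ℕ) : ℝ)) / ((5 * b ^ 5 : ℕ) : ℝ) =
      10 ^ 12 * (((a : ℝ) / b) ^ 5 / 5) := by push_cast; field_simp; ring
  rw [e1] at h1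
  rw [e2] at h2
  rw [e3] at h3
  unfold nlUp
  generalize (10 ^ 12 * a / b) = A at h1 ⊢
  generalize (10 ^ 12 * a ^ 3 / (3 * b ^ 3)) = B at h2 ⊢
  generalize (10 ^ 12 * a ^ 5 / (5 * b ^ 5)) = C at h3 ⊢
  push_cast
  linarith

lemma nl_lo (a b : ℕ) (hb : 0 < b) : (nlLo a b : ℝ) ≤ 10 ^ 12 * arctan ((a : ℝ) / b) := by
  have h := nl_le_arctan ((a : ℝ) / b) (by positivity)
  have hb' : (b : ℝ) ≠ 0 := by positivity
  have h1 := nl_div_le (10 ^ 12 * a) b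
  have h2 := nl_lt_div (10 ^ 12 * a ^ 3) (3 * b ^ 3) (by positivity)
  have e1 : (((10 ^ 12 * a : ℕ) : ℝ)) / b = 10 ^ 12 * ((a : ℝ) / b) := by push_cast; ring
  have e2 : (((10 ^ 12 * a ^ 3 : ℕ) : ℝ)) / ((3 * b ^ 3 : ℕ) : ℝ) =
      10 ^ 12 * (((a : ℝ) / b) ^ 3 / 3) := by push_cast; field_simp; ring
  rw [e1] at h1
  rw [e2] at h2
  unfold nlLo
  generalize (10 ^ 12 * a / b) = A at h1 ⊢
  generalize (10 ^ 12 * a ^ 3 / (3 * b ^ 3)) = B at h2 ⊢
  push_cast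
  linarith

def nlTU : ℕ → ℤ
  | 0 => 0
  | j + 1 => nlTU j + nlUp 16 (256 + j * (j + 1))

def nlTL : ℕ → ℤ
  | 0 => 0
  | j + 1 => nlTL j + nlLo 16 (256 + j * (j + 1))

lemma nl_add (j a b : ℕ) (hb : 0 < b) (h : j * b ≤ 16 * a) :
    arctan ((a : ℝ) / b) = arctan ((j : ℝ) / 16) +
      arctan (((16 * a - j * b : ℕ) : ℝ) / ((16 * b + j * a : ℕ) : ℝ)) := by
  have hb' : (0 : ℝ) < b := by exact_mod_cast hb
  have h' : (j : ℝ) * b ≤ 16 * a := by exact_mod_cast h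
  have hden : (0 : ℝ) < 16 * b + j * a := by positivity
  push_cast [Nat.cast_sub h]
  rw [arctan_add]
  · congr 1
    have : (0 : ℝ) < 1 - j / 16 * ((16 * a - j * b) / (16 * b + j * a)) := by
      rw [div_mul_div_comm, sub_pos, div_lt_one (by positivity)]
      nlinarith [mul_nonneg (Nat.cast_nonneg (α := ℝ) j) (Nat.cast_nonneg (α := ℝ) j),
        mul_nonneg (mul_nonneg (Nat.cast_nonneg (α := ℝ) j) (Nat.cast_nonneg (α := ℝ) j)) hb'.le]
    rw [eq_div_iff this.ne']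
    field_simp
    ring
  · rw [div_mul_div_comm, div_lt_one (by positivity)]
    nlinarith [mul_nonneg (Nat.cast_nonneg (α := ℝ) j) (Nat.cast_nonneg (α := ℝ) j),
      mul_nonneg (mul_nonneg (Nat.cast_nonneg (α := ℝ) j) (Nat.cast_nonneg (α := ℝ) j)) hb'.le]

lemma nl_step (j : ℕ) : arctan (((j + 1 : ℕ) : ℝ) / 16) = arctan ((j : ℝ) / 16) +
    arctan (((16 : ℕ) : ℝ) / ((256 + j * (j + 1) : ℕ) : ℝ)) := by
  have := nl_add j (j + 1) 16 (by norm_num) (by omega)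
  have e1 : 16 * (j + 1) - j * 16 = 16 := by omega
  have e2 : 16 * 16 + j * (j + 1) = 256 + j * (j + 1) := by ring
  rw [e1, e2] at this
  exact_mod_cast this

lemma nl_TU (j : ℕ) : 10 ^ 12 * arctan ((j : ℝ) / 16) ≤ (nlTU j : ℝ) := by
  induction j with
  | zero => simp [nlTU]
  | succ j ih =>
    rw [nl_step, nlTU]
    have := nl_up 16 (256 + j * (j + 1)) (by positivity)
    push_cast at this ⊢
    linarith

lemma nl_TL (j : ℕ) : (nlTL j : ℝ) ≤ 10 ^ 12 * arctan ((j : ℝ) / 16) := by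
  induction j with
  | zero => simp [nlTL]
  | succ j ih =>
    rw [nl_step, nlTL]
    have := nl_lo 16 (256 + j * (j + 1)) (by positivity)
    push_cast at this ⊢
    linarith

def nlAU (a b : ℕ) : ℤ :=
  nlTU (16 * a / b) + nlUp (16 * a - (16 * a / b) * b) (16 * b + (16 * a / b) * a)

def nlAL (a b : ℕ) : ℤ :=
  nlTL (16 * a / b) + nlLo (16 * a - (16 * a / b) * b) (16 * b + (16 * a / b) * a)

lemma nl_AU (a b : ℕ) (hb : 0 < b) : 10 ^ 12 * arctan ((a : ℝ) / b) ≤ (nlAU a b : ℝ) := by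
  rw [nl_add (16 * a / b) a b hb (Nat.div_mul_le_self _ _)]
  have h1 := nl_TU (16 * a / b)
  have h2 := nl_up (16 * a - (16 * a / b) * b) (16 * b + (16 * a / b) * a) (by positivity)
  unfold nlAU
  push_cast at h1 h2 ⊢
  linarith

lemma nl_AL (a b : ℕ) (hb : 0 < b) : (nlAL a b : ℝ) ≤ 10 ^ 12 * arctan ((a : ℝ) / b) := by
  rw [nl_add (16 * a / b) a b hb (Nat.div_mul_le_self _ _)]
  have h1 := nl_TL (16 * a / b)
  have h2 := nl_lo (16 * a - (16 * a / b) * b) (16 * b + (16 * a / b) * a) (by positivity)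
  unfold nlAL
  push_cast at h1 h2 ⊢
  linarith

lemma nl_at102 (x : ℝ) (hx : 102 / 100 < x) : arctan (1 / x) ≤ 628 / 800 := by
  have h1 : arctan (1 / x) ≤ arctan (((100 : ℕ) : ℝ) / ((102 : ℕ) : ℝ)) := by
    refine arctan_strictMono.monotone ?_
    rw [div_le_div_iff₀ (by linarith) (by norm_num)]
    norm_num
    linarith
  have h2 := nl_AU 100 102 (by norm_num)
  have h3 : nlAU 100 102 ≤ 785 * 10 ^ 9 := by decide +kernel
  have h3' : (nlAU 100 102 : ℝ) ≤ 785 * 10 ^ 9 := by exact_mod_cast h3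
  linarith

/-! ### Calculus -/

lemma nl_hasDerivAt_Ph (u e : ℝ) (he : 0 < e) : HasDerivAt (Ph u) (arctan (u / e)) e := by
  have h1 : HasDerivAt (fun e : ℝ => u ^ 2 + e ^ 2) (2 * e) e := by
    simpa using ((hasDerivAt_id e).pow 2).const_add (u ^ 2)
  have hpos : u ^ 2 + e ^ 2 ≠ 0 := by positivity
  have h2 : HasDerivAt (fun e : ℝ => Real.log (u ^ 2 + e ^ 2)) (2 * e / (u ^ 2 + e ^ 2)) e :=
    h1.log hpos
  have h3 : HasDerivAt (fun e : ℝ => u / e) (-u / e ^ 2) e := by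
    have := (hasDerivAt_inv he.ne').const_mul u
    refine this.congr_deriv ?_ |>.congr_of_eventuallyEq ?_
    · ring
    · filter_upwards with x
      simp [div_eq_mul_inv]
  have h4 : HasDerivAt (fun e : ℝ => arctan (u / e)) (1 / (1 + (u / e) ^ 2) * (-u / e ^ 2)) e :=
    h3.arctan
  have h5 : HasDerivAt (fun e : ℝ => e * arctan (u / e))
      (1 * arctan (u / e) + e * (1 / (1 + (u / e) ^ 2) * (-u / e ^ 2))) e :=
    (hasDerivAt_id e).mul h4
  have h6 := (((h2.const_mul (1 / 2 * u)).sub_const u).add h5)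
  refine h6.congr_deriv ?_
  have he' := he.ne'
  have hden : 1 + (u / e) ^ 2 ≠ 0 := by positivity
  field_simp
  ring

lemma nl_hasDerivAt_at (u e : ℝ) (he : 0 < e) :
    HasDerivAt (fun e : ℝ => arctan (u / e)) (-u / (u ^ 2 + e ^ 2)) e := by
  have h3 : HasDerivAt (fun e : ℝ => u / e) (-u / e ^ 2) e := by
    have := (hasDerivAt_inv he.ne').const_mul u
    refine this.congr_deriv ?_ |>.congr_of_eventuallyEq ?_
    · ring
    · filter_upwards with x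
      simp [div_eq_mul_inv]
  refine h3.arctan.congr_deriv ?_
  have he' := he.ne'
  have hpos : u ^ 2 + e ^ 2 ≠ 0 := by positivity
  have hden : 1 + (u / e) ^ 2 ≠ 0 := by positivity
  field_simp
  ring

lemma nl_cont_Ph (u : ℝ) (hu : 0 ≤ u) : ContinuousOn (Ph u) (Ici 0) := by
  intro e he
  rcases eq_or_lt_of_le (show (0 : ℝ) ≤ e from he) with h | h
  · subst h
    rcases eq_or_lt_of_le hu with h0 | h0
    · subst h0
      have : Ph 0 = fun _ => 0 := by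
        funext e; simp [Ph]
      rw [this]
      exact continuousWithinAt_const
    · apply ContinuousAt.continuousWithinAt
      unfold Ph
      refine ContinuousAt.add (ContinuousAt.sub (ContinuousAt.mul continuousAt_const ?_)
        continuousAt_const) ?_
      · refine ContinuousAt.log (by fun_prop) ?_
        positivity
      · have : Filter.Tendsto (fun e : ℝ => e * arctan (u / e)) (nhds 0) (nhds 0) := by
          refine squeeze_zero_norm (a := fun e => |e| * (π / 2)) ?_ ?_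
          · intro e
            rw [norm_mul, Real.norm_eq_abs, Real.norm_eq_abs]
            refine mul_le_mul_of_nonneg_left ?_ (abs_nonneg _)
            exact (abs_lt.2 ⟨neg_pi_div_two_lt_arctan _, arctan_lt_pi_div_two _⟩).le
          · have : Continuous fun e : ℝ => |e| * (π / 2) := by fun_prop
            simpa using this.tendsto 0
        have h2 : (0 : ℝ) * arctan (u / 0) = 0 := by simp
        rw [ContinuousAt, h2]
        exact this
  · exact (nl_hasDerivAt_Ph u e h).continuousAt.continuousWithinAt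

/-- `W(e) = K + 8 Ph 1 e - d Ph u e + d Ph γ e - Ph v e - 6.28 e` -/
def nlW (K d u γ v : ℝ) (e : ℝ) : ℝ :=
  K + 8 * Ph 1 e - d * Ph u e + d * Ph γ e - Ph v e - 628 / 100 * e

def nlW1 (d u γ v : ℝ) (e : ℝ) : ℝ :=
  8 * arctan (1 / e) - d * arctan (u / e) + d * arctan (γ / e) - arctan (v / e) - 628 / 100

def nlW2 (d u γ v : ℝ) (e : ℝ) : ℝ :=
  8 * (-1 / (1 ^ 2 + e ^ 2)) - d * (-u / (u ^ 2 + e ^ 2)) + d * (-γ / (γ ^ 2 + e ^ 2)) -
    (-v / (v ^ 2 + e ^ 2))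

lemma nl_W_deriv (K d u γ v e : ℝ) (he : 0 < e) :
    HasDerivAt (nlW K d u γ v) (nlW1 d u γ v e) e := by
  have := (((((nl_hasDerivAt_Ph 1 e he).const_mul 8).const_add K).sub
    ((nl_hasDerivAt_Ph u e he).const_mul d)).add
    ((nl_hasDerivAt_Ph γ e he).const_mul d)).sub (nl_hasDerivAt_Ph v e he)
  have h2 := this.sub ((hasDerivAt_id e).const_mul (628 / 100))
  refine h2.congr_deriv ?_
  unfold nlW1
  ring

lemma nl_W1_deriv (d u γ v e : ℝ) (he : 0 < e) :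
    HasDerivAt (nlW1 d u γ v) (nlW2 d u γ v e) e := by
  have := (((((nl_hasDerivAt_at 1 e he).const_mul 8)).sub
    ((nl_hasDerivAt_at u e he).const_mul d)).add
    ((nl_hasDerivAt_at γ e he).const_mul d)).sub (nl_hasDerivAt_at v e he)
  exact this.sub_const _

lemma nl_W_cont (K d u γ v : ℝ) (hu : 0 ≤ u) (hγ : 0 ≤ γ) (hv : 0 ≤ v) :
    ContinuousOn (nlW K d u γ v) (Ici 0) := by
  unfold nlW
  have h1 := nl_cont_Ph 1 zero_le_one
  have h2 := nl_cont_Ph u hu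
  have h3 := nl_cont_Ph γ hγ
  have h4 := nl_cont_Ph v hv
  exact ((((continuousOn_const.add (continuousOn_const.mul h1)).sub
    (continuousOn_const.mul h2)).add (continuousOn_const.mul h3)).sub h4).sub
    (continuousOn_const.mul continuousOn_id)

/-- the calculus part -/
lemma nl_main (K d u γ v T e₀ B : ℝ) (hd : 0 ≤ d) (hγ : 0 ≤ γ) (hγu : γ ≤ u) (hv : 0 ≤ v)
    (hT : 102 / 100 ≤ T) (he₀ : 0 < e₀) (he₀T : e₀ < T)
    (hconc : ∀ e, 0 < e → e < T → nlW2 d u γ v e ≤ 0)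
    (h1 : nlW1 d u γ v e₀ ≤ 0) (h2 : nlW K d u γ v e₀ - e₀ * nlW1 d u γ v e₀ ≤ B) :
    ∀ e, 0 ≤ e → nlW K d u γ v e ≤ B := by
  have hu : 0 ≤ u := hγ.trans hγu
  have hcont := nl_W_cont K d u γ v hu hγ hv
  -- W' is antitone on (0, T)
  have hanti : AntitoneOn (nlW1 d u γ v) (Ioo 0 T) := by
    refine antitoneOn_of_hasDerivWithinAt_nonpos (f' := nlW2 d u γ v) (convex_Ioo 0 T) ?_ ?_ ?_
    · intro e he
      exact (nl_W1_deriv d u γ v e he.1).continuousAt.continuousWithinAt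
    · intro e he
      rw [interior_Ioo] at he
      exact (nl_W1_deriv d u γ v e he.1).hasDerivWithinAt
    · intro e he
      rw [interior_Ioo] at he
      exact hconc e he.1 he.2
  -- the bound on [0, T]
  have hlow : ∀ e, 0 ≤ e → e ≤ T → nlW K d u γ v e ≤ B := by
    intro e he heT
    rcases lt_trichotomy e e₀ with h | h | h
    · obtain ⟨ξ, hξ, hξ'⟩ := exists_hasDerivAt_eq_slope (nlW K d u γ v) (nlW1 d u γ v) h
        (hcont.mono (fun x hx => he.trans hx.1))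
        (fun x hx => nl_W_deriv K d u γ v x (lt_of_le_of_lt he hx.1))
      have hξpos : 0 < ξ := lt_of_le_of_lt he hξ.1
      have := hanti ⟨hξpos, hξ.2.trans he₀T⟩ ⟨he₀, he₀T⟩ hξ.2.le
      rw [hξ', le_div_iff₀ (by linarith)] at this
      nlinarith [mul_nonneg he (neg_nonneg.2 h1)]
    · subst h
      nlinarith [mul_nonneg he (neg_nonneg.2 h1)]
    · obtain ⟨ξ, hξ, hξ'⟩ := exists_hasDerivAt_eq_slope (nlW K d u γ v) (nlW1 d u γ v) h
        (hcont.mono (fun x hx => he₀.le.trans hx.1))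
        (fun x hx => nl_W_deriv K d u γ v x (he₀.trans hx.1))
      have := hanti ⟨he₀, he₀T⟩ ⟨he₀.trans hξ.1, hξ.2.trans_le heT⟩ hξ.1.le
      rw [hξ', div_le_iff₀ (by linarith)] at this
      nlinarith [mul_nonneg he₀.le (neg_nonneg.2 h1), mul_nonneg (sub_nonneg.2 h.le) (neg_nonneg.2 h1)]
  intro e he
  rcases le_or_gt e T with h | h
  · exact hlow e he h
  · have hTpos : 0 < T := by linarith
    refine le_trans ?_ (hlow T hTpos.le le_rfl)
    have hant : AntitoneOn (nlW K d u γ v) (Ici T) := by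
      refine antitoneOn_of_hasDerivWithinAt_nonpos (f' := nlW1 d u γ v) (convex_Ici T) ?_ ?_ ?_
      · exact hcont.mono (fun x hx => hTpos.le.trans hx)
      · intro x hx
        rw [interior_Ici] at hx
        exact (nl_W_deriv K d u γ v x (hTpos.trans hx)).hasDerivWithinAt
      · intro x hx
        rw [interior_Ici] at hx
        have hxpos : 0 < x := hTpos.trans hx
        have hx1 : 102 / 100 < x := lt_of_le_of_lt hT hx
        unfold nlW1
        have a1 : arctan (γ / x) ≤ arctan (u / x) :=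
          arctan_strictMono.monotone (by gcongr)
        have a2 : 0 ≤ arctan (v / x) := arctan_nonneg.2 (by positivity)
        have a3 : arctan (1 / x) ≤ 628 / 800 := nl_at102 x hx1
        nlinarith [mul_nonneg hd (sub_nonneg.2 a1)]
    exact hant (self_mem_Ici) h.le h.le

/-! ### The concavity check -/

def nlC0 (d G U V : ℤ) : ℤ :=
  800 * (G ^ 2 * U ^ 2 * V ^ 2) + d * G * (10 ^ 4 * U ^ 2 * V ^ 2) - d * U * (10 ^ 4 * G ^ 2 * V ^ 2) -
    V * (10 ^ 4 * G ^ 2 * U ^ 2)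

def nlC1 (d G U V : ℤ) : ℤ :=
  800 * (G ^ 2 * U ^ 2 + G ^ 2 * V ^ 2 + U ^ 2 * V ^ 2) +
    d * G * (10 ^ 4 * (U ^ 2 + V ^ 2) + U ^ 2 * V ^ 2) -
    d * U * (10 ^ 4 * (G ^ 2 + V ^ 2) + G ^ 2 * V ^ 2) -
    V * (10 ^ 4 * (G ^ 2 + U ^ 2) + G ^ 2 * U ^ 2)

def nlC2 (d G U V : ℤ) : ℤ :=
  800 * (G ^ 2 + U ^ 2 + V ^ 2) + d * G * (10 ^ 4 + U ^ 2 + V ^ 2) -
    d * U * (10 ^ 4 + G ^ 2 + V ^ 2) - V * (10 ^ 4 + G ^ 2 + U ^ 2)

def nlC3 (d G U V : ℤ) : ℤ := 800 + d * G - d * U - V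

lemma nl_conc (d G U V : ℕ) (hU : 0 < U) (hV : 0 < V) (h0 : 0 ≤ nlC0 d G U V) (h1 : 0 ≤ nlC1 d G U V)
    (h2 : 0 ≤ nlC2 d G U V) (h3 : 0 ≤ nlC2 d G U V + 10404 * nlC3 d G U V) (e : ℝ) (he : 0 < e)
    (heT : e < 102 / 100) : nlW2 d (U / 100) (G / 100) (V / 100) e ≤ 0 := by
  set t : ℝ := 10 ^ 4 * e ^ 2 with ht
  have htpos : 0 < t := by positivity
  have htT : t ≤ 10404 := by
    rw [ht]
    nlinarith
  have h0' : (0 : ℝ) ≤ nlC0 d G U V := by exact_mod_cast h0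
  have h1' : (0 : ℝ) ≤ nlC1 d G U V := by exact_mod_cast h1
  have h2' : (0 : ℝ) ≤ nlC2 d G U V := by exact_mod_cast h2
  have h3' : (0 : ℝ) ≤ nlC2 d G U V + 10404 * nlC3 d G U V := by exact_mod_cast h3
  have h4 : (0 : ℝ) ≤ nlC2 d G U V + nlC3 d G U V * t := by
    have e1 : 10404 * ((nlC2 d G U V : ℝ) + nlC3 d G U V * t) =
        nlC2 d G U V * (10404 - t) + (nlC2 d G U V + 10404 * nlC3 d G U V) * t := by ring
    have : 0 ≤ 10404 * ((nlC2 d G U V : ℝ) + nlC3 d G U V * t) := by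
      rw [e1]
      have := mul_nonneg h2' (sub_nonneg.2 htT)
      have := mul_nonneg h3' htpos.le
      linarith
    linarith
  have hP : (0 : ℝ) ≤ nlC0 d G U V + nlC1 d G U V * t + nlC2 d G U V * t ^ 2 +
      nlC3 d G U V * t ^ 3 := by
    have a1 := mul_nonneg h1' htpos.le
    have a2 := mul_nonneg h4 (sq_nonneg t)
    nlinarith
  have key : nlW2 d (U / 100) (G / 100) (V / 100) e =
      -(100 * (nlC0 d G U V + nlC1 d G U V * t + nlC2 d G U V * t ^ 2 + nlC3 d G U V * t ^ 3) /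
        ((10 ^ 4 + t) * (G ^ 2 + t) * (U ^ 2 + t) * (V ^ 2 + t))) := by
    have k1 : ∀ X : ℝ, (X / 100) ^ 2 + e ^ 2 = (X ^ 2 + t) / 10 ^ 4 := by
      intro X; rw [ht]; ring
    have k0 : (1 : ℝ) ^ 2 + e ^ 2 = (10 ^ 4 + t) / 10 ^ 4 := by rw [ht]; ring
    unfold nlW2 nlC0 nlC1 nlC2 nlC3
    rw [k0, k1, k1, k1]
    have n0 : (10 ^ 4 : ℝ) + t ≠ 0 := by positivity
    have n1 : (G : ℝ) ^ 2 + t ≠ 0 := by positivity
    have n2 : (U : ℝ) ^ 2 + t ≠ 0 := by positivity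
    have n3 : (V : ℝ) ^ 2 + t ≠ 0 := by positivity
    clear_value t
    push_cast
    field_simp
    ring
  rw [key, neg_nonpos]
  positivity

/-! ### The check of the derivative at `q/400` -/

def nlB (d G U V q : ℕ) : Bool :=
  decide (8 * (1570796500000 - nlAL q 400) +
    (d : ℤ) * (if G = 0 then 0 else 1570796500000 - nlAL q (4 * G)) ≤
    628 * 10 ^ 10 + (d : ℤ) * (1570796000000 - nlAU q (4 * U)) + (1570796000000 - nlAU q (4 * V)))

lemma nl_at_up (G q : ℕ) (hG : 0 < G) (hq : 0 < q) :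
    10 ^ 12 * arctan ((G / 100 : ℝ) / (q / 400)) ≤ ((1570796500000 - nlAL q (4 * G) : ℤ) : ℝ) := by
  have hG' : (0 : ℝ) < G := by exact_mod_cast hG
  have hq' : (0 : ℝ) < q := by exact_mod_cast hq
  have e1 : (G / 100 : ℝ) / (q / 400) = ((q : ℝ) / ((4 * G : ℕ) : ℝ))⁻¹ := by
    push_cast; field_simp; ring
  rw [e1, arctan_inv_of_pos (by positivity)]
  have h1 := nl_AL q (4 * G) (by positivity)
  have h2 := Real.pi_lt_d6
  push_cast at h1 ⊢
  nlinarith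

lemma nl_at_lo (G q : ℕ) (hG : 0 < G) (hq : 0 < q) :
    ((1570796000000 - nlAU q (4 * G) : ℤ) : ℝ) ≤ 10 ^ 12 * arctan ((G / 100 : ℝ) / (q / 400)) := by
  have hG' : (0 : ℝ) < G := by exact_mod_cast hG
  have hq' : (0 : ℝ) < q := by exact_mod_cast hq
  have e1 : (G / 100 : ℝ) / (q / 400) = ((q : ℝ) / ((4 * G : ℕ) : ℝ))⁻¹ := by
    push_cast; field_simp; ring
  rw [e1, arctan_inv_of_pos (by positivity)]
  have h1 := nl_AU q (4 * G) (by positivity)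
  have h2 := Real.pi_gt_d6
  push_cast at h1 ⊢
  nlinarith

lemma nl_W1_nonpos (d G U V q : ℕ) (hU : 0 < U) (hV : 0 < V) (hq : 0 < q)
    (h : nlB d G U V q = true) : nlW1 d (U / 100) (G / 100) (V / 100) (q / 400) ≤ 0 := by
  have h' := of_decide_eq_true h
  have h1 := nl_at_up 100 q (by norm_num) hq
  have h2 := nl_at_lo U q hU hq
  have h3 := nl_at_lo V q hV hq
  have e1 : (((100 : ℕ) : ℝ) / 100) / ((q : ℝ) / 400) = 1 / ((q : ℝ) / 400) := by norm_num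
  rw [e1] at h1
  have h4 : 10 ^ 12 * arctan ((G / 100 : ℝ) / (q / 400)) ≤
      ((if G = 0 then 0 else 1570796500000 - nlAL q (4 * G) : ℤ) : ℝ) := by
    split_ifs with hG
    · subst hG; simp
    · exact nl_at_up G q (Nat.pos_of_ne_zero hG) hq
  have h5 : ((8 * (1570796500000 - nlAL q 400) +
    (d : ℤ) * (if G = 0 then 0 else 1570796500000 - nlAL q (4 * G)) : ℤ) : ℝ) ≤
    ((628 * 10 ^ 10 + (d : ℤ) * (1570796000000 - nlAU q (4 * U)) +
      (1570796000000 - nlAU q (4 * V)) : ℤ) : ℝ) := by exact_mod_cast h'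
  have hd : (0 : ℝ) ≤ d := Nat.cast_nonneg d
  have h6 := mul_le_mul_of_nonneg_left h4 hd
  have h7 := mul_le_mul_of_nonneg_left h2 hd
  unfold nlW1
  generalize (if G = 0 then 0 else 1570796500000 - nlAL q (4 * G) : ℤ) = X at h5 h6
  push_cast at h1 h2 h3 h5 h6 h7
  linarith

/-! ### The comparison of integer powers -/

def nlPw (ζ c b g κ q : ℕ) : Bool :=
  Nat.ble
    ((4 * ζ) ^ (16 * ζ) * (4 * ζ + 4 * g) ^ (2 * (7 - c) * (ζ + g)) *
      ((4 * 100) ^ 2 + q ^ 2) ^ 800 * ((4 * (100 - g)) ^ 2 + q ^ 2) ^ ((7 - c) * (100 - g)) *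
      27182818286 ^ (2 * κ))
    ((4 * ζ + 4 * b) ^ (2 * (7 - c) * (ζ + b)) * (4 * ζ + 400) ^ (14 * (ζ + 100)) *
      ((4 * (100 - b)) ^ 2 + q ^ 2) ^ ((7 - c) * (100 - b)) *
      ((4 * (100 + ζ)) ^ 2 + q ^ 2) ^ (100 + ζ) * 10000000000 ^ (2 * κ))

lemma nl_FF (X : ℕ) (hX : 0 < X) : FF ((X : ℝ) / 100) =
    (X : ℝ) / 100 * (Real.log ((4 * X : ℕ) : ℝ) - Real.log 400) - (X : ℝ) / 100 := by
  unfold FF
  have hX' : (0 : ℝ) < X := by exact_mod_cast hX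
  have : (X : ℝ) / 100 = ((4 * X : ℕ) : ℝ) / 400 := by push_cast; ring
  rw [show Real.log ((X : ℝ) / 100) = Real.log (((4 * X : ℕ) : ℝ) / 400) by rw [this],
    Real.log_div (by positivity) (by norm_num)]

lemma nl_Ph (X q : ℕ) (hq : 0 < q) :
    Ph ((X : ℝ) / 100) (q / 400) - q / 400 * arctan ((X : ℝ) / 100 / (q / 400)) =
      1 / 2 * (X / 100) * (Real.log (((4 * X) ^ 2 + q ^ 2 : ℕ) : ℝ) - 2 * Real.log 400) -
        (X : ℝ) / 100 := by
  unfold Ph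
  have hq' : (0 : ℝ) < q := by exact_mod_cast hq
  have : ((X : ℝ) / 100) ^ 2 + ((q : ℝ) / 400) ^ 2 = (((4 * X) ^ 2 + q ^ 2 : ℕ) : ℝ) / 400 ^ 2 := by
    push_cast; ring
  rw [this, Real.log_div (by positivity) (by norm_num), Real.log_pow]
  push_cast
  ring

lemma nl_log5 (a₁ a₂ a₃ a₄ a₅ n₁ n₂ n₃ n₄ n₅ : ℕ) (h₁ : 0 < a₁) (h₂ : 0 < a₂) (h₃ : 0 < a₃)
    (h₄ : 0 < a₄) (h₅ : 0 < a₅) :
    Real.log ((a₁ ^ n₁ * a₂ ^ n₂ * a₃ ^ n₃ * a₄ ^ n₄ * a₅ ^ n₅ : ℕ) : ℝ) =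
      n₁ * Real.log a₁ + n₂ * Real.log a₂ + n₃ * Real.log a₃ + n₄ * Real.log a₄ +
        n₅ * Real.log a₅ := by
  push_cast
  rw [Real.log_mul (by positivity) (by positivity), Real.log_mul (by positivity) (by positivity),
    Real.log_mul (by positivity) (by positivity), Real.log_mul (by positivity) (by positivity)]
  simp only [Real.log_pow]

lemma nl_pw (ζ c b g κ q : ℕ) (hζ : 0 < ζ) (hc : c ≤ 7) (hb : b ≤ 100) (hg : g ≤ 100) (hq : 0 < q)
    (h : nlPw ζ c b g κ q = true) :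
    nlW (KK c (ζ / 100) (b / 100) (g / 100)) ((7 - c : ℕ) : ℝ) (((100 - b : ℕ) : ℝ) / 100)
      (((100 - g : ℕ) : ℝ) / 100) (((100 + ζ : ℕ) : ℝ) / 100) (q / 400) -
      q / 400 * nlW1 ((7 - c : ℕ) : ℝ) (((100 - b : ℕ) : ℝ) / 100)
      (((100 - g : ℕ) : ℝ) / 100) (((100 + ζ : ℕ) : ℝ) / 100) (q / 400) ≤ -((κ : ℝ) / 100) := by
  have h' := Nat.le_of_ble_eq_true h
  have h2 := Real.log_le_log (by positivity) (by exact_mod_cast h' :
    (((4 * ζ) ^ (16 * ζ) * (4 * ζ + 4 * g) ^ (2 * (7 - c) * (ζ + g)) *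
      ((4 * 100) ^ 2 + q ^ 2) ^ 800 * ((4 * (100 - g)) ^ 2 + q ^ 2) ^ ((7 - c) * (100 - g)) *
      27182818286 ^ (2 * κ) : ℕ) : ℝ) ≤
    (((4 * ζ + 4 * b) ^ (2 * (7 - c) * (ζ + b)) * (4 * ζ + 400) ^ (14 * (ζ + 100)) *
      ((4 * (100 - b)) ^ 2 + q ^ 2) ^ ((7 - c) * (100 - b)) *
      ((4 * (100 + ζ)) ^ 2 + q ^ 2) ^ (100 + ζ) * 10000000000 ^ (2 * κ) : ℕ) : ℝ))
  rw [nl_log5 _ _ _ _ _ _ _ _ _ _ (by positivity) (by positivity) (by positivity) (by positivity)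
    (by positivity), nl_log5 _ _ _ _ _ _ _ _ _ _ (by positivity) (by positivity) (by positivity)
    (by positivity) (by positivity)] at h2
  have he : 1 ≤ Real.log ((27182818286 : ℕ) : ℝ) - Real.log ((10000000000 : ℕ) : ℝ) := by
    rw [← Real.log_div (by norm_num) (by norm_num), Real.le_log_iff_exp_le (by norm_num)]
    have := Real.exp_one_lt_d9
    norm_num
    linarith
  have hκ : (0 : ℝ) ≤ κ := Nat.cast_nonneg κ
  have hek := mul_le_mul_of_nonneg_left he hκ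
  -- the left-hand side
  have p1 := nl_Ph 100 q hq
  have p2 := nl_Ph (100 - b) q hq
  have p3 := nl_Ph (100 - g) q hq
  have p4 := nl_Ph (100 + ζ) q hq
  have f1 := nl_FF ζ hζ
  have f2 := nl_FF (ζ + b) (by omega)
  have f3 := nl_FF (ζ + g) (by omega)
  have f4 := nl_FF (ζ + 100) (by omega)
  have hU : ((100 - b : ℕ) : ℝ) = 100 - b := by rw [Nat.cast_sub hb]; norm_num
  have hG : ((100 - g : ℕ) : ℝ) = 100 - g := by rw [Nat.cast_sub hg]; norm_num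
  have hd : ((7 - c : ℕ) : ℝ) = 7 - c := by rw [Nat.cast_sub hc]; norm_num
  have e1 : (ζ : ℝ) / 100 + (b : ℝ) / 100 = ((ζ + b : ℕ) : ℝ) / 100 := by push_cast; ring
  have e2 : (ζ : ℝ) / 100 + (g : ℝ) / 100 = ((ζ + g : ℕ) : ℝ) / 100 := by push_cast; ring
  have e3 : (ζ : ℝ) / 100 + 1 = ((ζ + 100 : ℕ) : ℝ) / 100 := by push_cast; ring
  have m1 : 4 * (ζ + b) = 4 * ζ + 4 * b := by ring
  have m2 : 4 * (ζ + g) = 4 * ζ + 4 * g := by ring
  have m3 : 4 * (ζ + 100) = 4 * ζ + 400 := by ring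
  rw [m1] at f2
  rw [m2] at f3
  rw [m3] at f4
  have hone : (((100 : ℕ) : ℝ) / 100) = 1 := by norm_num
  rw [hone] at p1
  unfold nlW nlW1 KK
  rw [e1, e2, e3, f1, f2, f3, f4]
  generalize Real.log ((4 * ζ : ℕ) : ℝ) = A1 at *
  generalize Real.log ((4 * ζ + 4 * b : ℕ) : ℝ) = A2 at *
  generalize Real.log ((4 * ζ + 4 * g : ℕ) : ℝ) = A3 at *
  generalize Real.log ((4 * ζ + 400 : ℕ) : ℝ) = A4 at *
  generalize Real.log (((4 * 100) ^ 2 + q ^ 2 : ℕ) : ℝ) = B1 at *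
  generalize Real.log (((4 * (100 - b)) ^ 2 + q ^ 2 : ℕ) : ℝ) = B2 at *
  generalize Real.log (((4 * (100 - g)) ^ 2 + q ^ 2 : ℕ) : ℝ) = B3 at *
  generalize Real.log (((4 * (100 + ζ)) ^ 2 + q ^ 2 : ℕ) : ℝ) = B4 at *
  generalize Real.log ((27182818286 : ℕ) : ℝ) = E1 at *
  generalize Real.log ((10000000000 : ℕ) : ℝ) = E2 at *
  generalize Real.log 400 = L at *
  push_cast [hU, hG, hd] at h2 p1 p2 p3 p4 hek ⊢
  generalize Ph 1 ((q : ℝ) / 400) = Q1 at *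
  generalize Ph ((100 - (b : ℝ)) / 100) ((q : ℝ) / 400) = Q2 at *
  generalize Ph ((100 - (g : ℝ)) / 100) ((q : ℝ) / 400) = Q3 at *
  generalize Ph ((100 + (ζ : ℝ)) / 100) ((q : ℝ) / 400) = Q4 at *
  generalize arctan (1 / ((q : ℝ) / 400)) = R1 at *
  generalize arctan ((100 - (b : ℝ)) / 100 / ((q : ℝ) / 400)) = R2 at *
  generalize arctan ((100 - (g : ℝ)) / 100 / ((q : ℝ) / 400)) = R3 at *
  generalize arctan ((100 + (ζ : ℝ)) / 100 / ((q : ℝ) / 400)) = R4 at *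
  have q1 : Q1 = q / 400 * R1 + (1 / 2 * (B1 - 2 * L) - 1) := by linarith
  have q2 : Q2 = q / 400 * R2 + (1 / 2 * ((100 - b) / 100) * (B2 - 2 * L) - (100 - b) / 100) := by
    linarith
  have q3 : Q3 = q / 400 * R3 + (1 / 2 * ((100 - g) / 100) * (B3 - 2 * L) - (100 - g) / 100) := by
    linarith
  have q4 : Q4 = q / 400 * R4 + (1 / 2 * ((100 + ζ) / 100) * (B4 - 2 * L) - (100 + ζ) / 100) := by
    linarith
  subst q1 q2 q3 q4
  linear_combination (1 / 200) * h2 + (1 / 100) * hek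

/-! ### The 65 cells -/

def nlQs : List ℕ :=
  [7, 7, 10, 13, 13, 17, 17, 1, 1, 1, 4, 4, 8, 8, 12, 12, 16, 20, 20, 24, 6, 11, 16, 22, 27, 32, 36,
    41, 46, 51, 60, 65, 70, 74, 83, 88, 93, 101, 109, 114, 122, 130, 137, 145, 152, 159, 168, 174,
    183, 189, 196, 202, 209, 215, 222, 227, 233, 238, 244, 249, 253, 258, 262, 266, 270]

def nlQ (ζ : ℕ) : ℕ := nlQs.getD ((ζ - 50) / 10) 0

def nlChk (x : ℕ × ℕ × ℕ × ℕ × ℕ) : Bool :=
  decide (0 < x.1 ∧ x.2.1 ≤ 7 ∧ x.2.2.1 ≤ x.2.2.2.1 ∧ x.2.2.2.1 ≤ 100 ∧ x.2.2.1 < 100 ∧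
    0 < nlQ x.1 ∧ nlQ x.1 < 408) &&
  (decide (0 ≤ nlC0 (7 - x.2.1 : ℕ) (100 - x.2.2.2.1 : ℕ) (100 - x.2.2.1 : ℕ) (100 + x.1 : ℕ) ∧
    0 ≤ nlC1 (7 - x.2.1 : ℕ) (100 - x.2.2.2.1 : ℕ) (100 - x.2.2.1 : ℕ) (100 + x.1 : ℕ) ∧
    0 ≤ nlC2 (7 - x.2.1 : ℕ) (100 - x.2.2.2.1 : ℕ) (100 - x.2.2.1 : ℕ) (100 + x.1 : ℕ) ∧
    0 ≤ nlC2 (7 - x.2.1 : ℕ) (100 - x.2.2.2.1 : ℕ) (100 - x.2.2.1 : ℕ) (100 + x.1 : ℕ) +
      10404 * nlC3 (7 - x.2.1 : ℕ) (100 - x.2.2.2.1 : ℕ) (100 - x.2.2.1 : ℕ) (100 + x.1 : ℕ)) &&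
  (nlB (7 - x.2.1) (100 - x.2.2.2.1) (100 - x.2.2.1) (100 + x.1) (nlQ x.1) &&
    nlPw x.1 x.2.1 x.2.2.1 x.2.2.2.1 x.2.2.2.2 (nlQ x.1)))

set_option maxRecDepth 100000 in
lemma nl_all : cells.all nlChk = true := by
  decide +kernel

theorem cells_line : ∀ x ∈ cells, ∀ e : ℝ, 0 ≤ e →
    VL x.2.1 ((x.1 : ℝ) / 100) ((x.2.2.1 : ℝ) / 100) ((x.2.2.2.1 : ℝ) / 100) e ≤
      628 / 100 * e - (x.2.2.2.2 : ℝ) / 100 := by
  intro x hx e he
  have hchk := List.all_eq_true.1 nl_all x hx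
  obtain ⟨ζ, c, b, g, κ⟩ := x
  simp only [nlChk, Bool.and_eq_true, decide_eq_true_eq] at hchk
  obtain ⟨⟨hζ, hc, hbg, hg, hb, hq0, hq408⟩, ⟨h0, h1, h2, h3⟩, hB, hP⟩ := hchk
  set q := nlQ ζ
  have hU : 0 < 100 - b := by omega
  have hV : 0 < 100 + ζ := by omega
  have hW1 := nl_W1_nonpos (7 - c) (100 - g) (100 - b) (100 + ζ) q hU hV hq0 hB
  have hL := nl_pw ζ c b g κ q hζ hc hb.le hg hq0 hP
  have hqr : (0 : ℝ) < q := by exact_mod_cast hq0
  have hqr2 : (q : ℝ) < 408 := by exact_mod_cast hq408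
  have hmain := nl_main (KK c (ζ / 100) (b / 100) (g / 100)) ((7 - c : ℕ) : ℝ)
    (((100 - b : ℕ) : ℝ) / 100) (((100 - g : ℕ) : ℝ) / 100) (((100 + ζ : ℕ) : ℝ) / 100) (102 / 100)
    (q / 400) (-((κ : ℝ) / 100)) (Nat.cast_nonneg _) (by positivity)
    (by gcongr) (by positivity) le_rfl (by positivity) (by linarith)
    (fun e he heT => nl_conc (7 - c) (100 - g) (100 - b) (100 + ζ) hU hV h0 h1 h2 h3 e he heT)
    hW1 hL e he
  have hU' : (((100 - b : ℕ) : ℝ)) / 100 = 1 - b / 100 := by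
    rw [Nat.cast_sub hb.le]; push_cast; ring
  have hG' : (((100 - g : ℕ) : ℝ)) / 100 = 1 - g / 100 := by
    rw [Nat.cast_sub hg]; push_cast; ring
  have hV' : (((100 + ζ : ℕ) : ℝ)) / 100 = 1 + ζ / 100 := by push_cast; ring
  have hd' : ((7 - c : ℕ) : ℝ) = 7 - c := by rw [Nat.cast_sub hc]; norm_num
  rw [hU', hG', hV', hd'] at hmain
  unfold nlW at hmain
  unfold VL
  simp only
  linarith

end

end Run7.K3
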