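import Pool.Agent.Run7.K3.Defs
import Pool.Agent.Run7.K3.LogTab

/-!
Piece L, first half: `cells_real`.  The scale is `1/400`; on an interval `[n, n+2]` the convex
terms are bounded by chords, the concave ones by tangents at the midpoint, and the two end values
are compared with the help of the table of logarithms.
-/

namespace Run7.K3

open Real

/-- upper value of `10^12 log n` -/
def hi (n : ℕ) : ℕ := lo n + 50000

theorem lo_zero : lo 0 = 0 := by decide +kernel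

theorem lo_le (n : ℕ) (h : n ≤ 3200) : (lo n : ℝ) ≤ 10 ^ 12 * Real.log n := by
  rcases Nat.eq_zero_or_pos n with h0 | h0
  · subst h0; simp [lo_zero]
  · exact (log_tab n h0 h).1

theorem le_hi (n : ℕ) (h : n ≤ 3200) : 10 ^ 12 * Real.log n ≤ (hi n : ℝ) := by
  rcases Nat.eq_zero_or_pos n with h0 | h0
  · subst h0; simp only [Nat.cast_zero, Real.log_zero, mul_zero]; positivity
  · have := (log_tab n h0 h).2
    rw [hi]; push_cast; exact this

def PK (c ζ γ : ℕ) : ℕ := 8 * ζ * hi ζ + (7 - c) * (ζ + γ) * hi (ζ + γ)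

def NK (c ζ β : ℕ) : ℕ := (7 - c) * (ζ + β) * lo (ζ + β) + 7 * (ζ + 400) * lo (ζ + 400)

def endOK (c ζ β γ κ P N mid n : ℕ) : Bool :=
  Nat.ble (P + 8 * n * hi n + 7 * (400 - n) * hi (400 - n) + SS * mid + κ * SS)
   (N + (7 - c) * ((n - β) * lo (mid - β) + (γ - n) * lo (γ - mid)) + (n + ζ) * lo (mid + ζ)
     + SS * n)

def loopOK (c ζ β γ κ P N : ℕ) : ℕ → Bool
  | 0 => true
  | k + 1 => (endOK c ζ β γ κ P N (β + 2 * k + 1) (β + 2 * k) &&
      endOK c ζ β γ κ P N (β + 2 * k + 1) (β + 2 * k + 2)) && loopOK c ζ β γ κ P N k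

def cellOK (x : ℕ × ℕ × ℕ × ℕ × ℕ) : Bool :=
  (Nat.ble x.2.1 2 && Nat.blt x.2.2.1 x.2.2.2.1 && Nat.ble x.2.2.2.1 100 && Nat.ble x.1 690 &&
    Nat.ble 1 x.1) &&
  loopOK x.2.1 (4 * x.1) (4 * x.2.2.1) (4 * x.2.2.2.1) (4 * x.2.2.2.2)
    (PK x.2.1 (4 * x.1) (4 * x.2.2.2.1)) (NK x.2.1 (4 * x.1) (4 * x.2.2.1))
    (2 * (x.2.2.2.1 - x.2.2.1))

set_option maxRecDepth 100000 in
theorem all_cellOK : cells.all cellOK = true := by decide +kernel

/-! ### The potential in the scale `1/400` -/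

/-- `400 VV` at `ζ/400, β/400, γ/400, σ/400`. -/
noncomputable def VS (c ζ β γ σ : ℝ) : ℝ :=
  8 * (ζ * log ζ) + (7 - c) * ((ζ + γ) * log (ζ + γ)) - (7 - c) * ((ζ + β) * log (ζ + β))
    - 7 * ((ζ + 400) * log (ζ + 400)) + 8 * (σ * log σ) + 7 * ((400 - σ) * log (400 - σ))
    - (7 - c) * ((σ - β) * log (σ - β) + (γ - σ) * log (γ - σ)) - (σ + ζ) * log (σ + ζ)

theorem FF_scaleN (x : ℝ) (hx : 0 ≤ x) :
    FF (x / 400) = (x * log x - x * (log 400 + 1)) / 400 := by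
  rw [FF]
  rcases hx.eq_or_lt with h | h
  · rw [← h]; simp
  · rw [Real.log_div h.ne' (by norm_num)]; ring

theorem VV_scaleN (c ζ β γ σ : ℝ) (hζ : 0 ≤ ζ) (hβ : 0 ≤ β) (hβσ : β ≤ σ) (hσγ : σ ≤ γ)
    (hγ : γ ≤ 400) :
    VV c (ζ / 400) (β / 400) (γ / 400) (σ / 400) = VS c ζ β γ σ / 400 := by
  have e1 : ζ / 400 + β / 400 = (ζ + β) / 400 := by ring
  have e2 : ζ / 400 + γ / 400 = (ζ + γ) / 400 := by ring
  have e3 : ζ / 400 + 1 = (ζ + 400) / 400 := by ring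
  have e4 : 1 - σ / 400 = (400 - σ) / 400 := by ring
  have e5 : σ / 400 - β / 400 = (σ - β) / 400 := by ring
  have e6 : γ / 400 - σ / 400 = (γ - σ) / 400 := by ring
  have e7 : σ / 400 + ζ / 400 = (σ + ζ) / 400 := by ring
  rw [VV, KK, VS, e1, e2, e3, e4, e5, e6, e7, FF_scaleN _ hζ, FF_scaleN (ζ + β) (by linarith),
    FF_scaleN (ζ + γ) (by linarith), FF_scaleN (ζ + 400) (by linarith), FF_scaleN σ (by linarith),
    FF_scaleN (400 - σ) (by linarith), FF_scaleN (σ - β) (by linarith),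
    FF_scaleN (γ - σ) (by linarith), FF_scaleN (σ + ζ) (by linarith)]
  ring

/-- The tangent inequality for `x log x`. -/
theorem xlog_tangent (x m : ℝ) (hx : 0 ≤ x) (hm : 0 < m) : x * log m + x - m ≤ x * log x := by
  rcases hx.eq_or_lt with h | h
  · rw [← h]; simp; exact hm.le
  · have h1 := Real.log_le_sub_one_of_pos (div_pos hm h)
    rw [Real.log_div hm.ne' h.ne'] at h1
    have h2 : x * (log m - log x) ≤ x * (m / x - 1) := mul_le_mul_of_nonneg_left h1 hx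
    have h3 : x * (m / x - 1) = m - x := by field_simp
    nlinarith

/-- The chord inequality for `x log x`. -/
theorem xlog_chord (u v t : ℝ) (hu : 0 ≤ u) (hv : 0 ≤ v) (h0 : 0 ≤ t) (h1 : t ≤ 1) :
    ((1 - t) * u + t * v) * log ((1 - t) * u + t * v) ≤
      (1 - t) * (u * log u) + t * (v * log v) := by
  have := Real.convexOn_mul_log.2 (Set.mem_Ici.2 hu) (Set.mem_Ici.2 hv)
    (sub_nonneg.2 h1) h0 (by ring)
  simpa using this

/-- the linear majorant at an end -/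
noncomputable def EE (c ζ β γ m n : ℝ) : ℝ :=
  8 * (ζ * log ζ) + (7 - c) * ((ζ + γ) * log (ζ + γ)) - (7 - c) * ((ζ + β) * log (ζ + β))
    - 7 * ((ζ + 400) * log (ζ + 400)) + 8 * (n * log n) + 7 * ((400 - n) * log (400 - n))
    - (7 - c) * ((n - β) * log (m - β) + (γ - n) * log (γ - m)) - (n + ζ) * log (m + ζ) - (n - m)

theorem VS_le_of_ends (c ζ β γ n σ κ : ℝ) (hc : c ≤ 7) (hζ : 0 ≤ ζ) (hβ : 0 ≤ β) (hβn : β ≤ n)
    (hγ : n + 2 ≤ γ) (hγ' : γ ≤ 400) (h1 : n ≤ σ) (h2 : σ ≤ n + 2)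
    (hE1 : EE c ζ β γ (n + 1) n ≤ κ) (hE2 : EE c ζ β γ (n + 1) (n + 2) ≤ κ) :
    VS c ζ β γ σ ≤ κ := by
  set t : ℝ := (σ - n) / 2 with ht
  have hσ : σ = (1 - t) * n + t * (n + 2) := by rw [ht]; ring
  have hσ' : 400 - σ = (1 - t) * (400 - n) + t * (400 - (n + 2)) := by rw [hσ]; ring
  have t0 : 0 ≤ t := by rw [ht]; linarith
  have t1 : t ≤ 1 := by rw [ht]; linarith
  have c1 : σ * log σ ≤ (1 - t) * (n * log n) + t * ((n + 2) * log (n + 2)) := by
    have := xlog_chord n (n + 2) t (by linarith) (by linarith) t0 t1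
    rwa [← hσ] at this
  have c2 : (400 - σ) * log (400 - σ) ≤ (1 - t) * ((400 - n) * log (400 - n)) +
      t * ((400 - (n + 2)) * log (400 - (n + 2))) := by
    have := xlog_chord (400 - n) (400 - (n + 2)) t (by linarith) (by linarith) t0 t1
    rwa [← hσ'] at this
  have d1 := xlog_tangent (σ - β) (n + 1 - β) (by linarith) (by linarith)
  have d2 := xlog_tangent (γ - σ) (γ - (n + 1)) (by linarith) (by linarith)
  have d3 := xlog_tangent (σ + ζ) (n + 1 + ζ) (by linarith) (by linarith)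
  have d12 : (7 - c) * ((σ - β) * log (n + 1 - β) + (γ - σ) * log (γ - (n + 1))) ≤
      (7 - c) * ((σ - β) * log (σ - β) + (γ - σ) * log (γ - σ)) := by
    apply mul_le_mul_of_nonneg_left _ (by linarith)
    linarith
  have hconv : (1 - t) * EE c ζ β γ (n + 1) n + t * EE c ζ β γ (n + 1) (n + 2) ≤ κ := by
    have i1 : (1 - t) * EE c ζ β γ (n + 1) n ≤ (1 - t) * κ :=
      mul_le_mul_of_nonneg_left hE1 (by linarith)
    have i2 : t * EE c ζ β γ (n + 1) (n + 2) ≤ t * κ := mul_le_mul_of_nonneg_left hE2 t0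
    linarith
  refine le_trans ?_ hconv
  have key : (1 - t) * EE c ζ β γ (n + 1) n + t * EE c ζ β γ (n + 1) (n + 2) =
      8 * (ζ * log ζ) + (7 - c) * ((ζ + γ) * log (ζ + γ)) - (7 - c) * ((ζ + β) * log (ζ + β))
      - 7 * ((ζ + 400) * log (ζ + 400)) +
      8 * ((1 - t) * (n * log n) + t * ((n + 2) * log (n + 2))) +
      7 * ((1 - t) * ((400 - n) * log (400 - n)) +
      t * ((400 - (n + 2)) * log (400 - (n + 2)))) -
      (7 - c) * ((σ - β) * log (n + 1 - β) + (γ - σ) * log (γ - (n + 1))) -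
      ((σ + ζ) * log (n + 1 + ζ)) - (σ - (n + 1)) := by
    rw [hσ, EE, EE]; ring
  rw [key, VS]
  linarith

theorem EE_le_of_endOK {c ζ β γ κ mid n : ℕ}
    (h : endOK c ζ β γ κ (PK c ζ γ) (NK c ζ β) mid n = true)
    (hc : c ≤ 7) (hζ : ζ ≤ 2760) (hβn : β ≤ n) (hnγ : n ≤ γ) (hβm : β ≤ mid) (hmγ : mid ≤ γ)
    (hγ : γ ≤ 400) :
    EE c ζ β γ mid n ≤ -(κ : ℝ) := by
  have h := Nat.le_of_ble_eq_true h
  rw [PK, NK] at h
  have hR : (((8 * ζ * hi ζ + (7 - c) * (ζ + γ) * hi (ζ + γ)) + 8 * n * hi n +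
      7 * (400 - n) * hi (400 - n) + SS * mid + κ * SS : ℕ) : ℝ) ≤
      (((7 - c) * (ζ + β) * lo (ζ + β) + 7 * (ζ + 400) * lo (ζ + 400) +
        (7 - c) * ((n - β) * lo (mid - β) + (γ - n) * lo (γ - mid)) +
        (n + ζ) * lo (mid + ζ) + SS * n : ℕ) : ℝ) := by exact_mod_cast h
  have q1 : ((7 - c : ℕ) : ℝ) = 7 - c := by push_cast [Nat.cast_sub hc]; ring
  have q2 : ((400 - n : ℕ) : ℝ) = 400 - n := by push_cast [Nat.cast_sub (hnγ.trans hγ)]; ring
  have q3 : ((n - β : ℕ) : ℝ) = n - β := by push_cast [Nat.cast_sub hβn]; ring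
  have q4 : ((γ - n : ℕ) : ℝ) = γ - n := by push_cast [Nat.cast_sub hnγ]; ring
  have q5 : ((mid - β : ℕ) : ℝ) = mid - β := by push_cast [Nat.cast_sub hβm]; ring
  have q6 : ((γ - mid : ℕ) : ℝ) = γ - mid := by push_cast [Nat.cast_sub hmγ]; ring
  have hS : (SS : ℝ) = 10 ^ 12 := by rw [SS]; norm_num
  push_cast [q1, q2, q3, q4, hS] at hR
  have c0 : (0 : ℝ) ≤ 7 - c := by
    have : (c : ℝ) ≤ 7 := by exact_mod_cast hc
    linarith
  have n0 : (0 : ℝ) ≤ 400 - n := by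
    have : (n : ℝ) ≤ 400 := by exact_mod_cast hnγ.trans hγ
    linarith
  have b0 : (0 : ℝ) ≤ n - β := by
    have : (β : ℝ) ≤ n := by exact_mod_cast hβn
    linarith
  have g0 : (0 : ℝ) ≤ γ - n := by
    have : (n : ℝ) ≤ γ := by exact_mod_cast hnγ
    linarith
  have u1 : (ζ : ℝ) * (10 ^ 12 * log ζ) ≤ ζ * hi ζ :=
    mul_le_mul_of_nonneg_left (le_hi ζ (by omega)) (by positivity)
  have u2 : ((7 : ℝ) - c) * ((ζ + γ) * (10 ^ 12 * log (ζ + γ))) ≤ (7 - c) * ((ζ + γ) * hi (ζ + γ)) := by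
    have := le_hi (ζ + γ) (by omega)
    push_cast at this
    exact mul_le_mul_of_nonneg_left (mul_le_mul_of_nonneg_left this (by positivity)) c0
  have u3 : (n : ℝ) * (10 ^ 12 * log n) ≤ n * hi n :=
    mul_le_mul_of_nonneg_left (le_hi n (by omega)) (by positivity)
  have u4 : ((400 : ℝ) - n) * (10 ^ 12 * log (400 - n)) ≤ (400 - n) * hi (400 - n) := by
    have := le_hi (400 - n) (by omega)
    rw [q2] at this
    exact mul_le_mul_of_nonneg_left this n0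
  have l1 : ((7 : ℝ) - c) * ((ζ + β) * lo (ζ + β)) ≤ (7 - c) * ((ζ + β) * (10 ^ 12 * log (ζ + β))) := by
    have := lo_le (ζ + β) (by omega)
    push_cast at this
    exact mul_le_mul_of_nonneg_left (mul_le_mul_of_nonneg_left this (by positivity)) c0
  have l2 : ((ζ : ℝ) + 400) * lo (ζ + 400) ≤ (ζ + 400) * (10 ^ 12 * log (ζ + 400)) := by
    have := lo_le (ζ + 400) (by omega)
    push_cast at this
    exact mul_le_mul_of_nonneg_left this (by positivity)
  have l3 : ((7 : ℝ) - c) * ((n - β) * lo (mid - β) + (γ - n) * lo (γ - mid)) ≤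
      (7 - c) * ((n - β) * (10 ^ 12 * log (mid - β)) + (γ - n) * (10 ^ 12 * log (γ - mid))) := by
    have i1 := lo_le (mid - β) (by omega)
    have i2 := lo_le (γ - mid) (by omega)
    rw [q5] at i1
    rw [q6] at i2
    exact mul_le_mul_of_nonneg_left (add_le_add (mul_le_mul_of_nonneg_left i1 b0)
      (mul_le_mul_of_nonneg_left i2 g0)) c0
  have l4 : ((n : ℝ) + ζ) * lo (mid + ζ) ≤ (n + ζ) * (10 ^ 12 * log (mid + ζ)) := by
    have := lo_le (mid + ζ) (by omega)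
    push_cast at this
    exact mul_le_mul_of_nonneg_left this (by positivity)
  have key : (10 : ℝ) ^ 12 * EE c ζ β γ mid n ≤ 10 ^ 12 * (-(κ : ℝ)) := by
    rw [EE]
    nlinarith
  exact le_of_mul_le_mul_left key (by norm_num)

theorem VS_le_of_loopOK {c ζ β γ κ : ℕ} (hc : c ≤ 7) (hζ : ζ ≤ 2760) (hγ : γ ≤ 400) (k : ℕ)
    (hk : β + 2 * k ≤ γ)
    (h : loopOK c ζ β γ κ (PK c ζ γ) (NK c ζ β) k = true) (σ : ℝ) (h1 : (β : ℝ) ≤ σ)
    (h2 : σ ≤ β + 2 * k) (hk0 : 0 < k) :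
    VS c ζ β γ σ ≤ -(κ : ℝ) := by
  induction k with
  | zero => omega
  | succ k ih =>
    rw [loopOK, Bool.and_eq_true, Bool.and_eq_true] at h
    obtain ⟨⟨ha, hb⟩, hr⟩ := h
    rcases lt_or_ge σ ((β : ℝ) + 2 * k) with h3 | h3
    · have hk0' : 0 < k := by
        rcases Nat.eq_zero_or_pos k with h0 | h0
        · subst h0; push_cast at h3; linarith
        · exact h0
      exact ih (by omega) hr h3.le hk0'
    · have A := EE_le_of_endOK ha hc hζ (by omega) (by omega) (by omega) (by omega) hγ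
      have B := EE_le_of_endOK hb hc hζ (by omega) (by omega) (by omega) (by omega) hγ
      push_cast at A B h2
      have hk' : (β : ℝ) + 2 * (k + 1) ≤ γ := by exact_mod_cast hk
      have hγ' : (γ : ℝ) ≤ 400 := by exact_mod_cast hγ
      have hc' : (c : ℝ) ≤ 7 := by exact_mod_cast hc
      exact VS_le_of_ends c ζ β γ (β + 2 * k) σ _ hc' (by positivity) (by positivity)
        (by linarith [(Nat.cast_nonneg k : (0 : ℝ) ≤ k)]) (by linarith) hγ' h3 (by linarith) A B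

/-- piece L, first half -/
theorem cells_real : ∀ x ∈ cells, ∀ s : ℝ, (x.2.2.1 : ℝ) / 100 ≤ s → s ≤ (x.2.2.2.1 : ℝ) / 100 →
    VV x.2.1 ((x.1 : ℝ) / 100) ((x.2.2.1 : ℝ) / 100) ((x.2.2.2.1 : ℝ) / 100) s ≤
      -((x.2.2.2.2 : ℝ) / 100) := by
  intro x hx s hs1 hs2
  have h := List.all_eq_true.1 all_cellOK x hx
  rw [cellOK, Bool.and_eq_true, Bool.and_eq_true, Bool.and_eq_true, Bool.and_eq_true,
    Bool.and_eq_true] at h
  obtain ⟨⟨⟨⟨⟨hc, hbg⟩, hg⟩, hz⟩, hz1⟩, hl⟩ := h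
  have hc := Nat.le_of_ble_eq_true hc
  have hbg := Nat.le_of_ble_eq_true hbg
  have hg := Nat.le_of_ble_eq_true hg
  have hz := Nat.le_of_ble_eq_true hz
  obtain ⟨Z, c, b, g, K⟩ := x
  simp only at hc hbg hg hz hl hs1 hs2 ⊢
  have e : s = (400 * s) / 400 := by ring
  have e1 : (Z : ℝ) / 100 = ((4 * Z : ℕ) : ℝ) / 400 := by push_cast; ring
  have e2 : (b : ℝ) / 100 = ((4 * b : ℕ) : ℝ) / 400 := by push_cast; ring
  have e3 : (g : ℝ) / 100 = ((4 * g : ℕ) : ℝ) / 400 := by push_cast; ring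
  have hs1' : ((4 * b : ℕ) : ℝ) ≤ 400 * s := by push_cast; linarith
  have hs2' : 400 * s ≤ ((4 * g : ℕ) : ℝ) := by push_cast; linarith
  have hg' : ((4 * g : ℕ) : ℝ) ≤ 400 := by
    have : 4 * g ≤ 400 := by omega
    exact_mod_cast this
  rw [e, e1, e2, e3, VV_scaleN _ _ _ _ _ (by positivity) (by positivity) hs1' hs2' hg']
  have := VS_le_of_loopOK (c := c) (ζ := 4 * Z) (β := 4 * b) (γ := 4 * g) (κ := 4 * K) (by omega)
    (by omega) (by omega) (2 * (g - b)) (by omega) hl (400 * s) hs1'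
    (by
      have : ((4 * g : ℕ) : ℝ) = ((4 * b : ℕ) : ℝ) + 2 * ((2 * (g - b) : ℕ) : ℝ) := by
        have : 4 * g = 4 * b + 2 * (2 * (g - b)) := by omega
        exact_mod_cast this
      linarith) (by omega)
  push_cast at this ⊢
  linarith

end Run7.K3
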