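import Mathlib
import Pool.Agent.Run7.K3.Defs

/-! Piece K (`RBnd`), part 1: bounds for `R` on the real axis by the potentials. -/

set_option linter.all false

namespace Run7.K3

noncomputable section

open Finset

/-! ### Sums of `½ log(m² + e²)` against `Ph` -/

/-- `∑_{m ≤ n} ½ log(m² + e²)` -/
def Sg (e : ℝ) (n : ℕ) : ℝ := ∑ m ∈ range n, 1 / 2 * Real.log (((m : ℝ) + 1) ^ 2 + e ^ 2)

theorem Sg_succ (e : ℝ) (n : ℕ) :
    Sg e (n + 1) = Sg e n + 1 / 2 * Real.log (((n : ℝ) + 1) ^ 2 + e ^ 2) := by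
  unfold Sg
  rw [sum_range_succ]

theorem Ph_zero (e : ℝ) : Ph 0 e = 0 := by
  unfold Ph
  simp

theorem FF_eq (x : ℝ) : FF x = Ph x 0 := by
  unfold FF Ph
  have : Real.log (x ^ 2 + 0 ^ 2) = 2 * Real.log x := by
    rw [zero_pow two_ne_zero, add_zero, Real.log_pow]
    norm_num
  rw [this]
  ring

theorem hasDerivAt_Ph (e u : ℝ) (hu : 0 < u) :
    HasDerivAt (fun u => Ph u e) (1 / 2 * Real.log (u ^ 2 + e ^ 2)) u := by
  have hne : u ^ 2 + e ^ 2 ≠ 0 := by positivity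
  have h1 : HasDerivAt (fun u : ℝ => u ^ 2 + e ^ 2) (2 * u) u := by
    have := (hasDerivAt_pow 2 u).add_const (e ^ 2)
    simpa using this
  have h2 := h1.log hne
  have h3 : HasDerivAt (fun u : ℝ => 1 / 2 * u) (1 / 2) u := by
    simpa using (hasDerivAt_id u).const_mul (1 / 2 : ℝ)
  have h4 := h3.mul h2
  have h5 : HasDerivAt (fun u : ℝ => u / e) (1 / e) u := by
    simpa using (hasDerivAt_id u).div_const e
  have h6 := (h5.arctan).const_mul e
  have h7 := (h4.sub (hasDerivAt_id u)).add h6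
  have h8 : (fun u => Ph u e) = (((fun u : ℝ => 1 / 2 * u) * fun u : ℝ => Real.log (u ^ 2 + e ^ 2)) - id)
      + fun u : ℝ => e * Real.arctan (u / e) := by
    funext x
    rfl
  rw [h8]
  refine h7.congr_deriv ?_
  by_cases he : e = 0
  · subst he
    have hu' : u ≠ 0 := hu.ne'
    have e1 : 1 / 2 * u * (2 * u / (u ^ 2 + 0 ^ 2)) = 1 := by
      field_simp
      ring
    rw [e1]
    ring
  · have e1 : 1 / 2 * u * (2 * u / (u ^ 2 + e ^ 2)) = u ^ 2 / (u ^ 2 + e ^ 2) := by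
      field_simp
    have e2 : e * (1 / (1 + (u / e) ^ 2) * (1 / e)) = e ^ 2 / (u ^ 2 + e ^ 2) := by
      have e3 : 1 + (u / e) ^ 2 = (u ^ 2 + e ^ 2) / e ^ 2 := by
        field_simp
        ring
      rw [e3]
      field_simp
    have e4 : u ^ 2 / (u ^ 2 + e ^ 2) + e ^ 2 / (u ^ 2 + e ^ 2) = 1 := by
      rw [← add_div, div_self hne]
    rw [e1, e2]
    linear_combination e4

theorem continuous_Ph (e : ℝ) : Continuous (fun u => Ph u e) := by
  by_cases he : e = 0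
  · subst he
    have : (fun u => Ph u 0) = fun u : ℝ => u * Real.log u - u := by
      funext u
      rw [← FF_eq]
      rfl
    rw [this]
    exact Real.continuous_mul_log.sub continuous_id
  · unfold Ph
    have h1 : ∀ u : ℝ, u ^ 2 + e ^ 2 ≠ 0 := fun u => by positivity
    have h2 : Continuous fun u : ℝ => Real.log (u ^ 2 + e ^ 2) :=
      Continuous.log (by fun_prop) h1
    have h3 : Continuous fun u : ℝ => Real.arctan (u / e) :=
      Real.continuous_arctan.comp (by fun_prop)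
    exact (((continuous_const.mul continuous_id).mul h2).sub continuous_id).add
      (continuous_const.mul h3)

theorem Ph_step (e : ℝ) (n : ℕ) : ∃ ξ : ℝ, (n : ℝ) < ξ ∧ ξ < n + 1 ∧
    Ph (n + 1) e - Ph n e = 1 / 2 * Real.log (ξ ^ 2 + e ^ 2) := by
  have hn : (0 : ℝ) ≤ n := Nat.cast_nonneg n
  obtain ⟨ξ, hξ, h⟩ := exists_hasDerivAt_eq_slope (fun u => Ph u e)
    (fun u => 1 / 2 * Real.log (u ^ 2 + e ^ 2)) (a := (n : ℝ)) (b := n + 1) (by linarith)
    (continuous_Ph e).continuousOn (fun x hx => hasDerivAt_Ph e x (lt_of_le_of_lt hn hx.1))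
  refine ⟨ξ, hξ.1, hξ.2, ?_⟩
  have h' : 1 / 2 * Real.log (ξ ^ 2 + e ^ 2) = (Ph (n + 1) e - Ph n e) / ((n : ℝ) + 1 - n) := h
  rw [h']
  have : (n : ℝ) + 1 - n = 1 := by ring
  rw [this, div_one]

theorem Ph_step_le (e : ℝ) (n : ℕ) :
    Ph (n + 1) e - Ph n e ≤ 1 / 2 * Real.log (((n : ℝ) + 1) ^ 2 + e ^ 2) := by
  obtain ⟨ξ, h1, h2, h3⟩ := Ph_step e n
  have hn : (0 : ℝ) ≤ n := Nat.cast_nonneg n
  rw [h3]
  have : Real.log (ξ ^ 2 + e ^ 2) ≤ Real.log (((n : ℝ) + 1) ^ 2 + e ^ 2) := by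
    apply Real.log_le_log
    · have : 0 < ξ := lt_of_le_of_lt hn h1
      positivity
    · nlinarith
  linarith

theorem Ph_step_ge (e : ℝ) (n : ℕ) (hn : 1 ≤ n) :
    1 / 2 * Real.log ((n : ℝ) ^ 2 + e ^ 2) ≤ Ph (n + 1) e - Ph n e := by
  obtain ⟨ξ, h1, h2, h3⟩ := Ph_step e n
  have hn : (1 : ℝ) ≤ n := by exact_mod_cast hn
  rw [h3]
  have : Real.log ((n : ℝ) ^ 2 + e ^ 2) ≤ Real.log (ξ ^ 2 + e ^ 2) := by
    apply Real.log_le_log
    · positivity
    · nlinarith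
  linarith

theorem Ph_one (e : ℝ) (he : 0 ≤ e) : -1 ≤ Ph 1 e := by
  have h1 : 0 ≤ Real.log ((1 : ℝ) ^ 2 + e ^ 2) := Real.log_nonneg (by nlinarith)
  have h2 : 0 ≤ Real.arctan (1 / e) := by
    rw [← Real.arctan_zero]
    exact Real.arctan_mono (by positivity)
  have h3 : 0 ≤ e * Real.arctan (1 / e) := mul_nonneg he h2
  have h4 : Ph 1 e = 1 / 2 * Real.log ((1 : ℝ) ^ 2 + e ^ 2) - 1 + e * Real.arctan (1 / e) := by
    unfold Ph
    rw [mul_one]
  rw [h4]
  generalize Real.log ((1 : ℝ) ^ 2 + e ^ 2) = x at *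
  generalize e * Real.arctan (1 / e) = y at *
  linarith

theorem Sg_lower (e : ℝ) (n : ℕ) : Ph n e ≤ Sg e n := by
  induction n with
  | zero =>
    rw [Nat.cast_zero, Ph_zero]
    simp [Sg]
  | succ n ih =>
    rw [Sg_succ]
    have := Ph_step_le e n
    push_cast
    linarith

theorem Sg_upper' (e : ℝ) (he : 0 ≤ e) (n : ℕ) :
    Sg e (n + 1) ≤ Ph (n + 1) e + 1 + 1 / 2 * Real.log (((n : ℝ) + 1) ^ 2 + e ^ 2) := by
  induction n with
  | zero =>
    have h1 := Ph_one e he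
    have : Sg e (0 + 1) = 1 / 2 * Real.log ((((0 : ℕ) : ℝ) + 1) ^ 2 + e ^ 2) := by
      simp [Sg]
    rw [this]
    simp only [Nat.cast_zero, zero_add]
    linarith
  | succ n ih =>
    rw [Sg_succ]
    have h1 := Ph_step_ge e (n + 1) (by omega)
    push_cast at h1 ih ⊢
    linarith

theorem hlog_le (e : ℝ) (he : 0 ≤ e) (n : ℝ) (hn : 0 ≤ n) :
    1 / 2 * Real.log ((n + 1) ^ 2 + e ^ 2) ≤ Real.log (n + 1 + e) := by
  have h1 : Real.log ((n + 1) ^ 2 + e ^ 2) ≤ Real.log ((n + 1 + e) ^ 2) := by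
    apply Real.log_le_log (by positivity)
    nlinarith [mul_nonneg he hn]
  rw [Real.log_pow] at h1
  push_cast at h1
  linarith

theorem Sg_upper (e : ℝ) (he : 0 ≤ e) (n : ℕ) :
    Sg e n ≤ Ph n e + 1 + Real.log (n + 1 + e) := by
  cases n with
  | zero =>
    have : Sg e 0 = 0 := by simp [Sg]
    rw [this, Nat.cast_zero, Ph_zero]
    have := Real.log_nonneg (x := 0 + 1 + e) (by linarith)
    linarith
  | succ n =>
    have h1 := Sg_upper' e he n
    have h2 := hlog_le e he n (Nat.cast_nonneg n)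
    have h3 : Real.log ((n : ℝ) + 1 + e) ≤ Real.log ((n : ℝ) + 1 + 1 + e) := by
      apply Real.log_le_log (by positivity)
      linarith
    push_cast
    linarith

theorem Ph_scale (D u e : ℝ) (hD : 0 < D) : Ph (D * u) (D * e) = D * Ph u e + D * u * Real.log D := by
  by_cases hu : u = 0
  · subst hu
    rw [mul_zero, Ph_zero, Ph_zero]
    ring
  · unfold Ph
    have h1 : (D * u) ^ 2 + (D * e) ^ 2 = D ^ 2 * (u ^ 2 + e ^ 2) := by ring
    have h2 : u ^ 2 + e ^ 2 ≠ 0 := by positivity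
    rw [h1, Real.log_mul (by positivity) h2, Real.log_pow, mul_div_mul_left _ _ hD.ne']
    push_cast
    ring

theorem FF_scale (D u : ℝ) (hD : 0 < D) : FF (D * u) = D * FF u + D * u * Real.log D := by
  rw [FF_eq, FF_eq, ← Ph_scale D u 0 hD, mul_zero]

theorem log_fact (n : ℕ) : Real.log (Nat.factorial n : ℝ) = Sg 0 n := by
  induction n with
  | zero => simp [Sg]
  | succ n ih =>
    rw [Sg_succ, Nat.factorial_succ, Nat.cast_mul, Real.log_mul (by positivity) (by positivity), ih,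
      zero_pow two_ne_zero, add_zero, Real.log_pow]
    push_cast
    ring

/-! ### The weights -/

/-- the multiplicity of the zeros near `k` -/
def wt (c b g M k : ℕ) : ℕ := if k < b * M ∨ g * M ≤ k then 7 else c

theorem sum_wt {c b g M : ℕ} (_hc : c ≤ 7) (hbg : b ≤ g) (hg : g ≤ 100) (a : ℕ → ℝ) :
    ∑ k ∈ range (100 * M), (wt c b g M k : ℝ) * a k =
      7 * ∑ k ∈ range (100 * M), a k -
        (7 - c) * (∑ k ∈ range (g * M), a k - ∑ k ∈ range (b * M), a k) := by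
  have hbM : b * M ≤ g * M := Nat.mul_le_mul_right _ hbg
  have hgM : g * M ≤ 100 * M := Nat.mul_le_mul_right _ hg
  rw [← sum_Ico_eq_sub _ hbM]
  have h1 : ∀ k ∈ range (100 * M), (wt c b g M k : ℝ) * a k =
      7 * a k - (if k ∈ Ico (b * M) (g * M) then (7 - (c : ℝ)) * a k else 0) := by
    intro k _
    unfold wt
    by_cases h : k < b * M ∨ g * M ≤ k
    · have h' : ¬ (k ∈ Ico (b * M) (g * M)) := by
        rw [mem_Ico]; omega
      rw [if_pos h, if_neg h']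
      push_cast
      ring
    · have h' : k ∈ Ico (b * M) (g * M) := by
        rw [mem_Ico]; omega
      rw [if_neg h, if_pos h']
      ring
  rw [sum_congr rfl h1, sum_sub_distrib, ← mul_sum]
  congr 1
  rw [← sum_filter]
  have h2 : (range (100 * M)).filter (fun k => k ∈ Ico (b * M) (g * M)) = Ico (b * M) (g * M) := by
    ext k
    simp only [mem_filter, mem_range, mem_Ico]
    omega
  rw [h2, mul_sum]

/-! ### The general estimate -/

/-- the product in the denominator of `AA` -/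
def PA (c b g M Z : ℕ) : ℝ := ∏ k ∈ range (100 * M), if k < b * M ∨ g * M ≤ k then
    ((Z : ℝ) + 1 + k) ^ 2 * ∏ r ∈ Icc (1 : ℕ) 5, ((Z : ℝ) + 1 + k + (r : ℝ) / 6) else
    ((Z : ℝ) + 1 + k) ^ c

theorem AA_eq (c b g M Z : ℕ) : AA c b g M Z = (Nat.factorial Z : ℝ) / PA c b g M Z := rfl

theorem PA_pos (c b g M Z : ℕ) : 0 < PA c b g M Z := by
  unfold PA
  refine prod_pos fun k _ => ?_
  split_ifs <;> positivity

theorem PA_mono (c b g M Z : ℕ) : PA c b g M Z ≤ PA c b g M (Z + 1) := by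
  unfold PA
  refine prod_le_prod (fun k _ => ?_) (fun k _ => ?_)
  · split_ifs <;> positivity
  · have h : ((Z : ℝ) + 1 + k) ≤ ((Z + 1 : ℕ) : ℝ) + 1 + k := by push_cast; linarith
    have h0 : (0 : ℝ) ≤ (Z : ℝ) + 1 + k := by positivity
    split_ifs
    · refine mul_le_mul (pow_le_pow_left₀ h0 h 2) ?_ (by positivity) (by positivity)
      refine prod_le_prod (fun r _ => by positivity) (fun r _ => by linarith)
    · exact pow_le_pow_left₀ h0 h c

theorem PA_ge (c b g M Z : ℕ) :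
    ∏ k ∈ range (100 * M), ((Z : ℝ) + 1 + k) ^ wt c b g M k ≤ PA c b g M Z := by
  unfold PA wt
  refine prod_le_prod (fun k _ => by positivity) (fun k _ => ?_)
  have h0 : (0 : ℝ) ≤ (Z : ℝ) + 1 + k := by positivity
  split_ifs
  · have h1 : ((Z : ℝ) + 1 + k) ^ 7 = ((Z : ℝ) + 1 + k) ^ 2 * ∏ r ∈ Icc (1 : ℕ) 5, ((Z : ℝ) + 1 + k) := by
      rw [prod_const, Nat.card_Icc]
      ring
    rw [h1]
    refine mul_le_mul_of_nonneg_left ?_ (by positivity)
    refine prod_le_prod (fun r _ => h0) (fun r _ => ?_)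
    have : (0 : ℝ) ≤ (r : ℝ) / 6 := by positivity
    linarith
  · exact le_rfl

theorem RR_mono_step (c b g M Z : ℕ) (s : ℂ) (hs : 0 ≤ s.re) :
    ‖RR c b g M (Z + 1) s‖ ≤ ‖RR c b g M Z s‖ := by
  have hA : ∀ Z, 0 ≤ AA c b g M Z := fun Z => by
    rw [AA_eq]
    exact div_nonneg (by positivity) (PA_pos _ _ _ _ _).le
  have hn : ∀ Z, ‖RR c b g M Z s‖ = AA c b g M Z * ‖qq c b g M s‖ /
      ∏ i ∈ range (Z + 1), ‖s + i + 1‖ := fun Z => by
    unfold RR
    rw [norm_div, norm_mul, Complex.norm_real, Real.norm_of_nonneg (hA Z), norm_prod]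
  have h1 : AA c b g M (Z + 1) ≤ ((Z : ℝ) + 1) * AA c b g M Z := by
    rw [AA_eq, AA_eq, Nat.factorial_succ, ← mul_div_assoc]
    push_cast
    exact div_le_div_of_nonneg_left (by positivity) (PA_pos _ _ _ _ _) (PA_mono _ _ _ _ _)
  have h2 : (Z : ℝ) + 1 ≤ ‖s + ((Z + 1 : ℕ) : ℂ) + 1‖ := by
    refine le_trans ?_ (Complex.re_le_norm _)
    simp
    linarith
  rw [hn, hn, prod_range_succ _ (Z + 1), mul_comm (∏ i ∈ range (Z + 1), ‖s + i + 1‖), ← div_div]
  refine div_le_div_of_nonneg_right ?_ (prod_nonneg fun i _ => norm_nonneg _)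
  have h3 : 0 < ‖s + ((Z + 1 : ℕ) : ℂ) + 1‖ := lt_of_lt_of_le (by positivity) h2
  rw [div_le_iff₀ h3]
  have h4 : AA c b g M (Z + 1) ≤ ‖s + ((Z + 1 : ℕ) : ℂ) + 1‖ * AA c b g M Z :=
    h1.trans (mul_le_mul_of_nonneg_right h2 (hA Z))
  calc AA c b g M (Z + 1) * ‖qq c b g M s‖ ≤
      (‖s + ((Z + 1 : ℕ) : ℂ) + 1‖ * AA c b g M Z) * ‖qq c b g M s‖ :=
        mul_le_mul_of_nonneg_right h4 (norm_nonneg _)
    _ = AA c b g M Z * ‖qq c b g M s‖ * ‖s + ((Z + 1 : ℕ) : ℂ) + 1‖ := by ring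

theorem RR_mono (c b g M : ℕ) (s : ℂ) (hs : 0 ≤ s.re) {Z₀ Z : ℕ} (h : Z₀ ≤ Z) :
    ‖RR c b g M Z s‖ ≤ ‖RR c b g M Z₀ s‖ := by
  induction Z, h using Nat.le_induction with
  | base => exact le_rfl
  | succ Z _ ih => exact (RR_mono_step c b g M Z s hs).trans ih

theorem qq_le (c b g M : ℕ) (s : ℂ) (ρ : ℕ → ℝ) (hρ : ∀ k < 100 * M, ‖s - k‖ ≤ ρ k)
    (hρ' : ∀ k < 100 * M, ∀ r ∈ Icc (1 : ℕ) 5, ‖s - k - (r : ℂ) / 6‖ ≤ ρ k) :
    ‖qq c b g M s‖ ≤ ∏ k ∈ range (100 * M), ρ k ^ wt c b g M k := by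
  unfold qq wt
  rw [norm_prod]
  refine prod_le_prod (fun k _ => norm_nonneg _) (fun k hk => ?_)
  rw [mem_range] at hk
  have h0 : 0 ≤ ρ k := (norm_nonneg _).trans (hρ k hk)
  split_ifs
  · rw [norm_mul, norm_pow, norm_prod]
    have h1 : ρ k ^ 7 = ρ k ^ 2 * ∏ r ∈ Icc (1 : ℕ) 5, ρ k := by
      rw [prod_const, Nat.card_Icc]
      ring
    rw [h1]
    refine mul_le_mul (pow_le_pow_left₀ (norm_nonneg _) (hρ k hk) 2) ?_
      (prod_nonneg fun r _ => norm_nonneg _) (by positivity)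
    exact prod_le_prod (fun r _ => norm_nonneg _) (fun r hr => hρ' k hk r hr)
  · rw [norm_pow]
    exact pow_le_pow_left₀ (norm_nonneg _) (hρ k hk) c

theorem sum_log_shift (Z n : ℕ) :
    ∑ k ∈ range n, Real.log ((Z : ℝ) + 1 + k) = Sg 0 (Z + n) - Sg 0 Z := by
  induction n with
  | zero => simp
  | succ n ih =>
    rw [sum_range_succ, ih, ← add_assoc, Sg_succ, zero_pow two_ne_zero, add_zero, Real.log_pow]
    push_cast
    rw [show (Z : ℝ) + 1 + n = (Z : ℝ) + n + 1 by ring]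
    ring

theorem RR_le {c b g M : ℕ} (hc : c ≤ 7) (hbg : b ≤ g) (hg : g ≤ 100) (Z : ℕ) (s : ℂ)
    (ρ τ : ℕ → ℝ) (hρ0 : ∀ k < 100 * M, 0 < ρ k) (hτ0 : ∀ i < Z + 1, 0 < τ i)
    (hρ : ∀ k < 100 * M, ‖s - k‖ ≤ ρ k)
    (hρ' : ∀ k < 100 * M, ∀ r ∈ Icc (1 : ℕ) 5, ‖s - k - (r : ℂ) / 6‖ ≤ ρ k)
    (hτ : ∀ i < Z + 1, τ i ≤ ‖s + i + 1‖) :
    ‖RR c b g M Z s‖ ≤ Real.exp (8 * Sg 0 Z - 7 * Sg 0 (Z + 100 * M) +
      (7 - c) * (Sg 0 (Z + g * M) - Sg 0 (Z + b * M)) +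
      (7 * ∑ k ∈ range (100 * M), Real.log (ρ k) -
        (7 - c) * (∑ k ∈ range (g * M), Real.log (ρ k) - ∑ k ∈ range (b * M), Real.log (ρ k))) -
      ∑ i ∈ range (Z + 1), Real.log (τ i)) := by
  have hPA : 0 < ∏ k ∈ range (100 * M), ((Z : ℝ) + 1 + k) ^ wt c b g M k :=
    prod_pos fun k _ => by positivity
  have hQ : 0 < ∏ k ∈ range (100 * M), ρ k ^ wt c b g M k :=
    prod_pos fun k hk => pow_pos (hρ0 k (mem_range.1 hk)) _
  have hT : 0 < ∏ i ∈ range (Z + 1), τ i := prod_pos fun i hi => hτ0 i (mem_range.1 hi)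
  have hF : (0 : ℝ) < Nat.factorial Z := by positivity
  have h1 : ‖RR c b g M Z s‖ ≤ (Nat.factorial Z : ℝ) /
      (∏ k ∈ range (100 * M), ((Z : ℝ) + 1 + k) ^ wt c b g M k) *
      (∏ k ∈ range (100 * M), ρ k ^ wt c b g M k) / ∏ i ∈ range (Z + 1), τ i := by
    unfold RR
    rw [norm_div, norm_mul, Complex.norm_real, norm_prod, AA_eq,
      Real.norm_of_nonneg (div_nonneg hF.le (PA_pos _ _ _ _ _).le)]
    refine div_le_div₀ (by positivity) ?_ hT ?_
    · refine mul_le_mul ?_ (qq_le c b g M s ρ hρ hρ') (norm_nonneg _) (by positivity)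
      exact div_le_div_of_nonneg_left hF.le hPA (PA_ge c b g M Z)
    · exact prod_le_prod (fun i hi => (hτ0 i (mem_range.1 hi)).le)
        (fun i hi => hτ i (mem_range.1 hi))
  refine h1.trans (le_of_eq ?_)
  rw [← Real.exp_log (show 0 < (Nat.factorial Z : ℝ) /
      (∏ k ∈ range (100 * M), ((Z : ℝ) + 1 + k) ^ wt c b g M k) *
      (∏ k ∈ range (100 * M), ρ k ^ wt c b g M k) / ∏ i ∈ range (Z + 1), τ i by positivity)]
  congr 1
  rw [Real.log_div (by positivity) hT.ne', Real.log_mul (by positivity) hQ.ne',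
    Real.log_div hF.ne' hPA.ne', log_fact,
    Real.log_prod (fun k _ => by positivity),
    Real.log_prod (fun k hk => (pow_pos (hρ0 k (mem_range.1 hk)) _).ne'),
    Real.log_prod (fun i hi => (hτ0 i (mem_range.1 hi)).ne')]
  simp only [Real.log_pow]
  rw [sum_wt hc hbg hg (fun k => Real.log ((Z : ℝ) + 1 + k)), sum_wt hc hbg hg (fun k => Real.log (ρ k)),
    sum_log_shift, sum_log_shift, sum_log_shift]
  ring

/-! ### Bounds for the sums with the logarithmic error -/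

theorem Sg_mono (n m : ℕ) (h : n ≤ m) : Sg 0 n ≤ Sg 0 m := by
  induction m, h using Nat.le_induction with
  | base => exact le_rfl
  | succ m _ ih =>
    rw [Sg_succ, zero_pow two_ne_zero, add_zero, Real.log_pow]
    have : 0 ≤ Real.log ((m : ℝ) + 1) := Real.log_nonneg (by
      have : (0 : ℝ) ≤ m := Nat.cast_nonneg m
      linarith)
    push_cast
    linarith

theorem Sg_up (e : ℝ) (he : 0 ≤ e) (n : ℕ) (N : ℝ) (hN : (n : ℝ) + 1 ≤ N) :
    Sg e n ≤ Ph n e + (1 + Real.log (N + e)) := by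
  have h1 := Sg_upper e he n
  have h2 : Real.log ((n : ℝ) + 1 + e) ≤ Real.log (N + e) := by
    apply Real.log_le_log (by positivity)
    linarith
  linarith

theorem Sg0_low (n : ℕ) : FF n ≤ Sg 0 n := by
  rw [FF_eq]
  exact Sg_lower 0 n

theorem Sg0_up (n : ℕ) (N : ℝ) (hN : (n : ℝ) + 1 ≤ N) : Sg 0 n ≤ FF n + (1 + Real.log N) := by
  have := Sg_up 0 le_rfl n N hN
  rwa [add_zero, ← FF_eq] at this

theorem Sg0_succ_up (n : ℕ) (N : ℝ) (hN : (n : ℝ) + 1 ≤ N) :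
    Sg 0 (n + 1) ≤ Sg 0 n + Real.log N := by
  rw [Sg_succ, zero_pow two_ne_zero, add_zero, Real.log_pow]
  have : Real.log ((n : ℝ) + 1) ≤ Real.log N := Real.log_le_log (by positivity) hN
  push_cast
  linarith

/-! ### The real axis -/

theorem A_low (k n : ℕ) (hn : n ≤ k + 1) :
    ∑ j ∈ range n, Real.log (|(k : ℝ) - j| + 2) = Sg 0 (k + 2) - Sg 0 (k + 2 - n) := by
  induction n with
  | zero => simp
  | succ n ih =>
    rw [sum_range_succ, ih (by omega)]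
    have h1 : k + 2 - n = (k + 2 - (n + 1)) + 1 := by omega
    rw [h1, Sg_succ 0 (k + 2 - (n + 1)), zero_pow two_ne_zero, add_zero, Real.log_pow]
    have h2 : (n : ℝ) ≤ k := by exact_mod_cast (by omega : n ≤ k)
    have h3 : |(k : ℝ) - n| = k - n := abs_of_nonneg (by linarith)
    have h4 : ((k + 2 - (n + 1) : ℕ) : ℝ) + 1 = (k : ℝ) - n + 2 := by
      have : ((k + 2 - (n + 1) : ℕ) : ℝ) = (k : ℝ) + 2 - (n + 1) := by
        rw [Nat.cast_sub (by omega)]
        push_cast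
        ring
      rw [this]
      ring
    rw [h3, h4]
    push_cast
    ring

theorem A_high (k m : ℕ) :
    ∑ j ∈ range (k + 1 + m), Real.log (|(k : ℝ) - j| + 2) =
      Sg 0 (k + 2) - Sg 0 1 + (Sg 0 (m + 2) - Sg 0 2) := by
  induction m with
  | zero =>
    rw [add_zero, A_low k (k + 1) le_rfl]
    have : k + 2 - (k + 1) = 1 := by omega
    rw [this]
    simp
  | succ m ih =>
    rw [← add_assoc, sum_range_succ, ih]
    have h1 : m + 1 + 2 = (m + 2) + 1 := by ring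
    rw [h1, Sg_succ 0 (m + 2), zero_pow two_ne_zero, add_zero, Real.log_pow]
    have h3 : |(k : ℝ) - ((k + 1 + m : ℕ) : ℝ)| = m + 1 := by
      rw [abs_of_nonpos (by push_cast; have : (0 : ℝ) ≤ m := Nat.cast_nonneg m; linarith)]
      push_cast
      ring
    rw [h3]
    push_cast
    rw [show (m : ℝ) + 1 + 2 = (m : ℝ) + 2 + 1 by ring]
    ring

theorem sum_log_tau (a n : ℕ) (e : ℝ) :
    ∑ i ∈ range n, 1 / 2 * Real.log (((a : ℝ) + i + 1) ^ 2 + e ^ 2) = Sg e (a + n) - Sg e a := by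
  induction n with
  | zero => simp
  | succ n ih =>
    rw [sum_range_succ, ih, ← add_assoc, Sg_succ]
    push_cast
    ring

theorem VV_scale (D c z b g s Dz Db Dg Ds : ℝ) (hD : 0 < D) (h1 : D * z = Dz) (h2 : D * b = Db)
    (h3 : D * g = Dg) (h4 : D * s = Ds) :
    D * VV c z b g s = 8 * FF Dz - 7 * FF (Dz + D) +
      (7 - c) * (FF (Dz + Dg) - FF (Dz + Db)) + 8 * FF Ds + 7 * FF (D - Ds) -
      (7 - c) * (FF (Ds - Db) + FF (Dg - Ds)) - FF (Ds + Dz) := by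
  have e1 : Dz + D = D * (z + 1) := by rw [← h1]; ring
  have e2 : Dz + Dg = D * (z + g) := by rw [← h1, ← h3]; ring
  have e3 : Dz + Db = D * (z + b) := by rw [← h1, ← h2]; ring
  have e4 : D - Ds = D * (1 - s) := by rw [← h4]; ring
  have e5 : Ds - Db = D * (s - b) := by rw [← h4, ← h2]; ring
  have e6 : Dg - Ds = D * (g - s) := by rw [← h4, ← h3]; ring
  have e7 : Ds + Dz = D * (s + z) := by rw [← h4, ← h1]; ring
  rw [e1, e2, e3, e4, e5, e6, e7, ← h1, ← h4]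
  simp only [FF_scale D _ hD, VV, KK]
  ring

theorem VL_scale (D c z b g e Dz Db Dg De : ℝ) (hD : 0 < D) (h1 : D * z = Dz) (h2 : D * b = Db)
    (h3 : D * g = Dg) (h4 : D * e = De) :
    D * VL c z b g e = 8 * FF Dz - 7 * FF (Dz + D) +
      (7 - c) * (FF (Dz + Dg) - FF (Dz + Db)) + 8 * Ph D De -
      (7 - c) * Ph (D - Db) De + (7 - c) * Ph (D - Dg) De - Ph (D + Dz) De := by
  have e1 : Dz + D = D * (z + 1) := by rw [← h1]; ring
  have e2 : Dz + Dg = D * (z + g) := by rw [← h1, ← h3]; ring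
  have e3 : Dz + Db = D * (z + b) := by rw [← h1, ← h2]; ring
  have e4 : D - Db = D * (1 - b) := by rw [← h2]; ring
  have e5 : D - Dg = D * (1 - g) := by rw [← h3]; ring
  have e6 : D + Dz = D * (1 + z) := by rw [← h1]; ring
  have e7 : Ph D De = Ph (D * 1) (D * e) := by rw [mul_one, h4]
  rw [e1, e2, e3, e4, e5, e6, e7, ← h1, ← h4]
  simp only [FF_scale D _ hD, Ph_scale D _ _ hD, VL, KK]
  ring

theorem arith_real {c E x1 x2 x3 x4 x5 x6 x7 x8 x9 y1 y2 y3 y4 y5 y6 y7 y8 y8' y9 y10 y11 y12 : ℝ}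
    (u1 : y1 ≤ x1 + E) (u2 : y2 ≤ x2 + E) (u3 : y10 ≤ x9 + E) (u3' : y9 ≤ y10 + 2 * E)
    (u4 : y8' ≤ x8 + E) (u4' : y8 ≤ y8' + E) (u5 : y11 ≤ y10) (l1 : x4 ≤ y4) (l2 : x3 ≤ y3)
    (l3 : x7 ≤ y7) (l4 : x6 ≤ y6) (l5 : x5 ≤ y5) (s2 : y12 ≤ 1) (s2' : 0 ≤ y12)
    (hc' : 0 ≤ 7 - c) (hc7 : 7 - c ≤ 7) (hE : 1 ≤ E) :
    8 * y1 - 7 * y4 + (7 - c) * (y2 - y3) + (7 * (y9 - 0 + (y8 - y12)) -
      (7 - c) * (y9 - 0 + (y7 - y12) - (y9 - y6))) - (y5 - y11) ≤
    8 * x1 - 7 * x4 + (7 - c) * (x2 - x3) + 8 * x9 + 7 * x8 - (7 - c) * (x6 + x7) - x5 +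
      65 * E := by
  have w1 := mul_le_mul_of_nonneg_left
    (by linarith : y2 - y3 ≤ x2 + E - x3) hc'
  have w2 := mul_le_mul_of_nonneg_left
    (by linarith : x7 + x6 - 1 ≤ y9 - 0 + (y7 - y12) - (y9 - y6)) hc'
  have w3 : (7 - c) * E ≤ 7 * E := mul_le_mul_of_nonneg_right hc7 (by linarith)
  linarith

theorem arith_line {c E x1 x2 x3 x4 x5 x6 x7 x8 y1 y2 y3 y4 y5 y6 y7 y8 y9 : ℝ}
    (u1 : y1 ≤ x1 + E) (u2 : y2 ≤ x2 + E) (u3 : y9 ≤ x8 + E) (u4 : y7 ≤ x7 + E) (u5 : y8 ≤ y9)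
    (l1 : x4 ≤ y4) (l2 : x3 ≤ y3) (l3 : x6 ≤ y6) (l4 : x5 ≤ y5)
    (hc' : 0 ≤ 7 - c) (hc7 : 7 - c ≤ 7) (hE : 1 ≤ E) :
    8 * y1 - 7 * y4 + (7 - c) * (y2 - y3) + (7 * y9 -
      (7 - c) * (y9 - y7 - (y9 - y6))) - (y5 - y8) ≤
    8 * x1 - 7 * x4 + (7 - c) * (x2 - x3) + 8 * x8 - (7 - c) * x6 + (7 - c) * x7 - x5 +
      30 * E := by
  have w1 := mul_le_mul_of_nonneg_left
    (by linarith : y2 - y3 ≤ x2 + E - x3) hc'
  have w2 := mul_le_mul_of_nonneg_left
    (by linarith : y7 - y6 ≤ x7 + E - x6) hc'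
  have w3 : (7 - c) * E ≤ 7 * E := mul_le_mul_of_nonneg_right hc7 (by linarith)
  linarith

theorem exp_fin (X V N : ℝ) (K : ℕ) (hN : 0 < N) (h : X ≤ V + K * (1 + Real.log N)) :
    Real.exp X ≤ Real.exp K * N ^ K * Real.exp V := by
  have h1 : Real.exp X ≤ Real.exp (V + K * (1 + Real.log N)) := Real.exp_le_exp.2 h
  refine h1.trans (le_of_eq ?_)
  rw [Real.exp_add, mul_add, mul_one, Real.exp_add, ← Real.log_pow, Real.exp_log (by positivity)]
  ring

theorem RR_real (c b g ζ : ℕ) (h : Adm c b g ζ) : ∃ (C : ℝ) (K : ℕ), ∀ M Z k : ℕ, 1 ≤ M →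
    ζ * M ≤ Z → b * M ≤ k → k < g * M → ∀ s : ℂ, ‖s - k‖ ≤ 1 →
      ‖RR c b g M Z s‖ ≤ C * (M : ℝ) ^ K *
        Real.exp (100 * M * VV c (ζ / 100) (b / 100) (g / 100) (k / (100 * M))) := by
  obtain ⟨hc, hb, hbg, hg, hζ, -⟩ := h
  refine ⟨Real.exp (65 : ℕ) * ((ζ : ℝ) + 200) ^ 65, 65, ?_⟩
  intro M Z k hM hZ hbk hkg s hs
  have hM0 : (0 : ℝ) < M := by exact_mod_cast hM
  have hM1 : (1 : ℝ) ≤ M := by exact_mod_cast hM
  have hbM : b * 1 ≤ b * M := Nat.mul_le_mul_left _ hM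
  have hk1 : 1 ≤ k := by omega
  have hk1' : (1 : ℝ) ≤ k := by exact_mod_cast hk1
  have hgM : g * M ≤ 100 * M := Nat.mul_le_mul_right _ hg
  have hre : (k : ℝ) - 1 ≤ s.re := by
    have h1 := Complex.abs_re_le_norm (s - k)
    rw [Complex.sub_re, Complex.natCast_re] at h1
    have h2 := (abs_le.1 (h1.trans hs)).1
    linarith
  have hre0 : 0 ≤ s.re := by linarith
  refine (RR_mono c b g M s hre0 hZ).trans ?_
  obtain ⟨m₁, hm₁⟩ : ∃ m, 100 * M = k + 1 + m := ⟨100 * M - (k + 1), by omega⟩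
  obtain ⟨m₂, hm₂⟩ : ∃ m, g * M = k + 1 + m := ⟨g * M - (k + 1), by omega⟩
  obtain ⟨m₃, hm₃⟩ : ∃ m, k = b * M + m := ⟨k - b * M, by omega⟩
  have hmain := RR_le (c := c) (b := b) (g := g) (M := M) (by omega) hbg hg (ζ * M) s
    (fun j => |(k : ℝ) - j| + 2) (fun i => (k : ℝ) + i) (fun j _ => by positivity)
    (fun i _ => by positivity) ?_ ?_ ?_
  · refine hmain.trans ?_
    set N : ℝ := ((ζ : ℝ) + 200) * M with hN
    have hN0 : 0 < N := by positivity
    have hN1 : 1 ≤ N := by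
      have : (0 : ℝ) ≤ ζ := Nat.cast_nonneg ζ
      rw [hN]
      nlinarith
    have key : Real.exp (65 : ℕ) * ((ζ : ℝ) + 200) ^ 65 * (M : ℝ) ^ 65 *
        Real.exp (100 * M * VV c (ζ / 100) (b / 100) (g / 100) (k / (100 * M))) =
        Real.exp (65 : ℕ) * N ^ 65 *
        Real.exp (100 * M * VV c (ζ / 100) (b / 100) (g / 100) (k / (100 * M))) := by
      rw [hN, mul_pow]
      ring
    rw [key]
    apply exp_fin _ _ _ _ hN0
    -- the sums
    have sD : ∑ j ∈ range (100 * M), Real.log (|(k : ℝ) - j| + 2) =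
        Sg 0 (k + 2) - Sg 0 1 + (Sg 0 (m₁ + 2) - Sg 0 2) := by
      rw [hm₁]; exact A_high k m₁
    have sg : ∑ j ∈ range (g * M), Real.log (|(k : ℝ) - j| + 2) =
        Sg 0 (k + 2) - Sg 0 1 + (Sg 0 (m₂ + 2) - Sg 0 2) := by
      rw [hm₂]; exact A_high k m₂
    have sb : ∑ j ∈ range (b * M), Real.log (|(k : ℝ) - j| + 2) =
        Sg 0 (k + 2) - Sg 0 (m₃ + 2) := by
      rw [A_low k (b * M) (by omega)]
      congr 2
      omega
    have sτ : ∑ i ∈ range (ζ * M + 1), Real.log ((k : ℝ) + i) =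
        Sg 0 (k - 1 + (ζ * M + 1)) - Sg 0 (k - 1) := by
      rw [← sum_log_tau (k - 1) (ζ * M + 1) 0]
      refine sum_congr rfl fun i _ => ?_
      rw [zero_pow two_ne_zero, add_zero, Real.log_pow]
      have : ((k - 1 : ℕ) : ℝ) = k - 1 := by
        rw [Nat.cast_sub hk1, Nat.cast_one]
      rw [this, show (k : ℝ) - 1 + i + 1 = k + i by ring]
      push_cast
      ring
    have ek : k - 1 + (ζ * M + 1) = k + ζ * M := by omega
    rw [ek] at sτ
    simp only [sD, sg, sb, sτ]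
    -- sizes
    have hNζ : ((ζ * M : ℕ) : ℝ) = ζ * M := by push_cast; ring
    have cM1 : (m₁ : ℝ) = 100 * M - k - 1 := by
      have : ((100 * M : ℕ) : ℝ) = ((k + 1 + m₁ : ℕ) : ℝ) := by rw [hm₁]
      push_cast at this
      linarith
    have cM2 : (m₂ : ℝ) = g * M - k - 1 := by
      have : ((g * M : ℕ) : ℝ) = ((k + 1 + m₂ : ℕ) : ℝ) := by rw [hm₂]
      push_cast at this
      linarith
    have cM3 : (m₃ : ℝ) = k - b * M := by
      have : (k : ℝ) = ((b * M + m₃ : ℕ) : ℝ) := by exact_mod_cast hm₃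
      push_cast at this
      linarith
    have hg' : (g : ℝ) ≤ 100 := by exact_mod_cast hg
    have hbg' : (b : ℝ) ≤ g := by exact_mod_cast hbg
    have hb' : (1 : ℝ) ≤ b := by exact_mod_cast hb
    have hζ0 : (0 : ℝ) ≤ ζ := Nat.cast_nonneg ζ
    have hζM : (0 : ℝ) ≤ ζ * M := by positivity
    have hk0 : (k : ℝ) + 1 ≤ 100 * M := by
      have : k + 1 ≤ 100 * M := by omega
      exact_mod_cast this
    have hgM' : (g : ℝ) * M ≤ 100 * M := mul_le_mul_of_nonneg_right hg' hM0.le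
    have hbM' : (b : ℝ) * M ≤ g * M := mul_le_mul_of_nonneg_right hbg' hM0.le
    have hbM1 : (0 : ℝ) ≤ b * M := by positivity
    have hNe : N = ζ * M + 200 * M := by rw [hN]; ring
    have hlogN : 0 ≤ Real.log N := Real.log_nonneg hN1
    set E : ℝ := 1 + Real.log N with hE
    have hE1 : 1 ≤ E := by rw [hE]; linarith
    -- upper bounds
    have u1 : Sg 0 (ζ * M) ≤ FF (ζ * M) + E := by
      have := Sg0_up (ζ * M) N (by rw [hNe]; push_cast; linarith)
      rwa [hNζ] at this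
    have u2 : Sg 0 (ζ * M + g * M) ≤ FF (ζ * M + g * M) + E := by
      have := Sg0_up (ζ * M + g * M) N (by rw [hNe]; push_cast; linarith)
      push_cast at this
      exact this
    have u3 : Sg 0 k ≤ FF k + E := Sg0_up k N (by rw [hNe]; linarith)
    have u3' : Sg 0 (k + 2) ≤ Sg 0 k + 2 * E := by
      have h1 := Sg0_succ_up k N (by rw [hNe]; linarith)
      have h2 := Sg0_succ_up (k + 1) N (by rw [hNe]; push_cast; linarith)
      have h3 : k + 2 = k + 1 + 1 := rfl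
      rw [h3]
      linarith
    have u4 : Sg 0 (m₁ + 1) ≤ FF (100 * M - k) + E := by
      have := Sg0_up (m₁ + 1) N (by rw [hNe]; push_cast; linarith)
      push_cast at this
      rw [cM1, show (100 : ℝ) * M - k - 1 + 1 = 100 * M - k by ring] at this
      exact this
    have u4' : Sg 0 (m₁ + 2) ≤ Sg 0 (m₁ + 1) + E := by
      have h2 := Sg0_succ_up (m₁ + 1) N (by rw [hNe]; push_cast; linarith)
      have h3 : m₁ + 2 = m₁ + 1 + 1 := rfl
      rw [h3]
      linarith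
    have u5 : Sg 0 (k - 1) ≤ Sg 0 k := Sg_mono _ _ (by omega)
    -- lower bounds
    have l1 : FF (ζ * M + 100 * M) ≤ Sg 0 (ζ * M + 100 * M) := by
      have := Sg0_low (ζ * M + 100 * M)
      push_cast at this
      exact this
    have l2 : FF (ζ * M + b * M) ≤ Sg 0 (ζ * M + b * M) := by
      have := Sg0_low (ζ * M + b * M)
      push_cast at this
      exact this
    have l3 : FF (g * M - k) ≤ Sg 0 (m₂ + 2) := by
      have := Sg0_low (m₂ + 1)
      push_cast at this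
      rw [cM2, show (g : ℝ) * M - k - 1 + 1 = g * M - k by ring] at this
      exact this.trans (Sg_mono _ _ (by omega))
    have l4 : FF (k - b * M) ≤ Sg 0 (m₃ + 2) := by
      have := Sg0_low m₃
      rw [cM3] at this
      exact this.trans (Sg_mono _ _ (by omega))
    have l5 : FF (k + ζ * M) ≤ Sg 0 (k + ζ * M) := by
      have := Sg0_low (k + ζ * M)
      push_cast at this
      exact this
    have s1 : Sg 0 1 = 0 := by simp [Sg]
    have s2 : Sg 0 2 ≤ 1 := by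
      have h1 := Sg_succ 0 1
      rw [s1, zero_pow two_ne_zero, add_zero, Real.log_pow] at h1
      have h2 : Real.log 2 ≤ 1 := by
        have := Real.log_two_lt_d9
        linarith
      have h3 : (((1 : ℕ) : ℝ) + 1) = 2 := by norm_num
      rw [h3] at h1
      push_cast at h1
      have h4 : Sg 0 2 = Real.log 2 := by
        rw [show (2 : ℕ) = 1 + 1 from rfl, h1]
        ring
      rw [h4]
      exact h2
    have s2' : 0 ≤ Sg 0 2 := by
      have := Sg_mono 1 2 (by norm_num)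
      rwa [s1] at this
    -- the potential
    have hD : (0 : ℝ) < 100 * M := by positivity
    have f5 : (100 * (M : ℝ)) * ((k : ℝ) / (100 * M)) = k := by field_simp
    have hV := VV_scale (100 * M) c (ζ / 100) (b / 100) (g / 100) (k / (100 * M)) (ζ * M) (b * M)
      (g * M) k hD (by ring) (by ring) (by ring) f5
    rw [hV, s1]
    have hc' : (0 : ℝ) ≤ 7 - c := by
      have : (c : ℝ) ≤ 2 := by exact_mod_cast hc
      linarith
    have hc7 : (7 : ℝ) - c ≤ 7 := by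
      have : (0 : ℝ) ≤ c := Nat.cast_nonneg c
      linarith
    exact_mod_cast arith_real u1 u2 u3 u3' u4 u4' u5 l1 l2 l3 l4 l5 s2 s2' hc' hc7 hE1
  · intro j _
    show ‖s - j‖ ≤ |(k : ℝ) - j| + 2
    have h1 : s - (j : ℂ) = (s - k) + (((k : ℝ) - j : ℝ) : ℂ) := by push_cast; ring
    have h2 := norm_add_le (s - (k : ℂ)) ((((k : ℝ) - j : ℝ) : ℂ))
    rw [← h1, Complex.norm_real, Real.norm_eq_abs] at h2
    linarith
  · intro j _ r hr
    show ‖s - j - (r : ℂ) / 6‖ ≤ |(k : ℝ) - j| + 2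
    rw [mem_Icc] at hr
    have h1 : s - (j : ℂ) - (r : ℂ) / 6 = ((s - k) + (((k : ℝ) - j : ℝ) : ℂ)) +
        ((-(r : ℝ) / 6 : ℝ) : ℂ) := by push_cast; ring
    have h2 := norm_add_le (s - (k : ℂ)) ((((k : ℝ) - j : ℝ) : ℂ))
    have h3 := norm_add_le ((s - k) + (((k : ℝ) - j : ℝ) : ℂ)) ((-(r : ℝ) / 6 : ℝ) : ℂ)
    rw [← h1] at h3
    rw [Complex.norm_real, Real.norm_eq_abs] at h2 h3
    have h4 : |-(r : ℝ) / 6| ≤ 5 / 6 := by
      rw [neg_div, abs_neg, abs_of_nonneg (by positivity)]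
      have : (r : ℝ) ≤ 5 := by exact_mod_cast hr.2
      linarith
    linarith
  · intro i _
    show (k : ℝ) + i ≤ ‖s + i + 1‖
    refine le_trans ?_ (Complex.re_le_norm _)
    simp
    linarith

end

end Run7.K3
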