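import Mathlib
import Pool.Agent.Run7.K3.Defs
import Pool.Agent.Run7.K3.RBndReal

/-! Piece K (`RBnd`), part 2: bounds for `R` on the line by the potentials. -/

set_option linter.all false

namespace Run7.K3

noncomputable section

open Finset

theorem norm_le_sq {w : ℂ} {x y : ℝ} (h1 : |w.re| ≤ x) (h2 : w.im ^ 2 = y ^ 2) :
    ‖w‖ ≤ Real.sqrt (x ^ 2 + y ^ 2) := by
  apply Real.le_sqrt_of_sq_le
  rw [← Complex.normSq_eq_norm_sq, Complex.normSq_apply]
  have h3 : w.re * w.re ≤ x ^ 2 := by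
    rw [← sq, ← sq_abs]
    exact pow_le_pow_left₀ (abs_nonneg _) h1 2
  nlinarith

theorem norm_ge_sq {w : ℂ} {x y : ℝ} (hx : 0 ≤ x) (h1 : x ≤ w.re) (h2 : w.im ^ 2 = y ^ 2) :
    Real.sqrt (x ^ 2 + y ^ 2) ≤ ‖w‖ := by
  rw [Real.sqrt_le_left (norm_nonneg _)]
  rw [← Complex.normSq_eq_norm_sq, Complex.normSq_apply]
  have h3 : x ^ 2 ≤ w.re * w.re := by
    rw [← sq]
    exact pow_le_pow_left₀ hx h1 2
  nlinarith

theorem A_line (D n : ℕ) (e : ℝ) (hn : n ≤ D) :
    ∑ k ∈ range n, 1 / 2 * Real.log (((D : ℝ) - k) ^ 2 + e ^ 2) = Sg e D - Sg e (D - n) := by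
  induction n with
  | zero => simp
  | succ n ih =>
    rw [sum_range_succ, ih (by omega)]
    have h1 : D - n = (D - (n + 1)) + 1 := by omega
    rw [h1, Sg_succ e (D - (n + 1))]
    have h4 : ((D - (n + 1) : ℕ) : ℝ) + 1 = (D : ℝ) - n := by
      rw [Nat.cast_sub (by omega)]
      push_cast
      ring
    rw [h4]
    ring

theorem RR_line (c b g ζ : ℕ) (h : Adm c b g ζ) : ∃ (C : ℝ) (K : ℕ), ∀ M Z : ℕ, 1 ≤ M →
    ζ * M ≤ Z → ∀ η : ℝ,
      ‖RR c b g M Z (lin (100 * M) η)‖ ≤ C * ((M : ℝ) + |η|) ^ K *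
        Real.exp (100 * M * VL c (ζ / 100) (b / 100) (g / 100) (|η| / (100 * M))) := by
  obtain ⟨hc, hb, hbg, hg, hζ, -⟩ := h
  refine ⟨Real.exp (30 : ℕ) * ((ζ : ℝ) + 200) ^ 30, 30, ?_⟩
  intro M Z hM hZ η
  have hM0 : (0 : ℝ) < M := by exact_mod_cast hM
  have hM1 : (1 : ℝ) ≤ M := by exact_mod_cast hM
  have hgM : g * M ≤ 100 * M := Nat.mul_le_mul_right _ hg
  have hbM : b * M ≤ g * M := Nat.mul_le_mul_right _ hbg
  have he : 0 ≤ |η| := abs_nonneg η
  have hsre : (lin (100 * M) η).re = 100 * M - 1 / 12 := by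
    unfold lin
    simp
  have hsim : (lin (100 * M) η).im = η := by
    unfold lin
    simp
  have hre0 : 0 ≤ (lin (100 * M) η).re := by
    rw [hsre]; linarith
  refine (RR_mono c b g M _ hre0 hZ).trans ?_
  have hpos : ∀ k < 100 * M, (1 : ℝ) ≤ 100 * M - k := by
    intro k hk
    have : k + 1 ≤ 100 * M := hk
    have : ((k + 1 : ℕ) : ℝ) ≤ ((100 * M : ℕ) : ℝ) := by exact_mod_cast this
    push_cast at this
    linarith
  have hmain := RR_le (c := c) (b := b) (g := g) (M := M) (by omega) hbg hg (ζ * M)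
    (lin (100 * M) η)
    (fun k => Real.sqrt ((100 * (M : ℝ) - k) ^ 2 + |η| ^ 2))
    (fun i => Real.sqrt ((100 * (M : ℝ) + i) ^ 2 + |η| ^ 2))
    (fun k hk => Real.sqrt_pos.2 (by have := hpos k hk; positivity))
    (fun i _ => Real.sqrt_pos.2 (by positivity)) ?_ ?_ ?_
  · refine hmain.trans ?_
    obtain ⟨N, hN⟩ : ∃ N : ℝ, N = ((ζ : ℝ) + 200) * ((M : ℝ) + |η|) := ⟨_, rfl⟩
    have hN0 : 0 < N := by rw [hN]; positivity
    have hζ0 : (0 : ℝ) ≤ ζ := Nat.cast_nonneg ζ
    have hζη : 0 ≤ (ζ : ℝ) * |η| := by positivity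
    have hζM : (0 : ℝ) ≤ ζ * M := by positivity
    have hNe : N = (ζ * M + 200 * M + ζ * |η| + 199 * |η|) + |η| := by rw [hN]; ring
    have hN1 : 1 ≤ N := by rw [hNe]; clear * - hM1 hζM hζη he; linarith
    have key : Real.exp (30 : ℕ) * ((ζ : ℝ) + 200) ^ 30 * ((M : ℝ) + |η|) ^ 30 *
        Real.exp (100 * M * VL c (ζ / 100) (b / 100) (g / 100) (|η| / (100 * M))) =
        Real.exp (30 : ℕ) * N ^ 30 *
        Real.exp (100 * M * VL c (ζ / 100) (b / 100) (g / 100) (|η| / (100 * M))) := by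
      rw [hN, mul_pow]
      ring
    rw [key]
    apply exp_fin _ _ _ _ hN0
    -- the sums
    have lρ : ∀ k : ℕ, Real.log (Real.sqrt ((100 * (M : ℝ) - k) ^ 2 + |η| ^ 2)) =
        1 / 2 * Real.log ((((100 * M : ℕ) : ℝ) - k) ^ 2 + |η| ^ 2) := by
      intro k
      rw [Real.log_sqrt (by positivity)]
      push_cast
      ring
    have sD : ∑ k ∈ range (100 * M), Real.log (Real.sqrt ((100 * (M : ℝ) - k) ^ 2 + |η| ^ 2)) =
        Sg |η| (100 * M) := by
      rw [sum_congr rfl fun k _ => lρ k, A_line _ _ _ le_rfl, Nat.sub_self]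
      simp [Sg]
    have sg : ∑ k ∈ range (g * M), Real.log (Real.sqrt ((100 * (M : ℝ) - k) ^ 2 + |η| ^ 2)) =
        Sg |η| (100 * M) - Sg |η| (100 * M - g * M) := by
      rw [sum_congr rfl fun k _ => lρ k, A_line _ _ _ hgM]
    have sb : ∑ k ∈ range (b * M), Real.log (Real.sqrt ((100 * (M : ℝ) - k) ^ 2 + |η| ^ 2)) =
        Sg |η| (100 * M) - Sg |η| (100 * M - b * M) := by
      rw [sum_congr rfl fun k _ => lρ k, A_line _ _ _ (hbM.trans hgM)]
    have sτ : ∑ i ∈ range (ζ * M + 1), Real.log (Real.sqrt ((100 * (M : ℝ) + i) ^ 2 + |η| ^ 2)) =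
        Sg |η| (100 * M + ζ * M) - Sg |η| (100 * M - 1) := by
      have h1 := sum_log_tau (100 * M - 1) (ζ * M + 1) |η|
      have h2 : 100 * M - 1 + (ζ * M + 1) = 100 * M + ζ * M := by omega
      rw [h2] at h1
      rw [← h1]
      refine sum_congr rfl fun i _ => ?_
      rw [Real.log_sqrt (by positivity)]
      have h3 : ((100 * M - 1 : ℕ) : ℝ) = 100 * M - 1 := by
        rw [Nat.cast_sub (by omega)]
        push_cast
        ring
      rw [h3, show (100 : ℝ) * M - 1 + i + 1 = 100 * M + i by ring]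
      ring
    simp only [sD, sg, sb, sτ]
    have hg' : (g : ℝ) ≤ 100 := by exact_mod_cast hg
    have hgM' : (g : ℝ) * M ≤ 100 * M := mul_le_mul_of_nonneg_right hg' hM0.le
    have hg0 : (0 : ℝ) ≤ g * M := by positivity
    obtain ⟨E, hE⟩ : ∃ E : ℝ, E = 1 + Real.log N := ⟨_, rfl⟩
    have hlogN : 0 ≤ Real.log N := Real.log_nonneg hN1
    have hE1 : 1 ≤ E := by rw [hE]; clear * - hlogN; linarith
    have z1 : ((ζ * M : ℕ) : ℝ) + 1 ≤ N := by
      rw [hNe]; push_cast; clear * - hM1 hζM hζη he; linarith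
    have z2 : ((ζ * M + g * M : ℕ) : ℝ) + 1 ≤ N := by
      rw [hNe]; push_cast; clear * - hM1 hζM hζη he hgM'; linarith
    have z3 : ((100 * M : ℕ) : ℝ) + 1 ≤ ζ * M + 200 * M + ζ * |η| + 199 * |η| := by
      push_cast; clear * - hM1 hζM hζη he; linarith
    have cg : ((100 * M - g * M : ℕ) : ℝ) = 100 * M - g * M := by
      rw [Nat.cast_sub hgM]; push_cast; ring
    have cb : ((100 * M - b * M : ℕ) : ℝ) = 100 * M - b * M := by
      rw [Nat.cast_sub (hbM.trans hgM)]; push_cast; ring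
    have u1 : Sg 0 (ζ * M) ≤ FF (ζ * M) + E := by
      have := Sg0_up (ζ * M) N z1
      rw [← hE] at this
      push_cast at this
      exact this
    have u2 : Sg 0 (ζ * M + g * M) ≤ FF (ζ * M + g * M) + E := by
      have := Sg0_up (ζ * M + g * M) N z2
      rw [← hE] at this
      push_cast at this
      exact this
    have hN' : N = (ζ * M + 200 * M + ζ * |η| + 199 * |η|) + |η| := hNe
    have u3 : Sg |η| (100 * M) ≤ Ph (100 * M) |η| + E := by
      have := Sg_up |η| he (100 * M) (ζ * M + 200 * M + ζ * |η| + 199 * |η|) z3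
      rw [← hN', ← hE] at this
      push_cast at this
      exact this
    have u4 : Sg |η| (100 * M - g * M) ≤ Ph (100 * M - g * M) |η| + E := by
      have := Sg_up |η| he (100 * M - g * M) (ζ * M + 200 * M + ζ * |η| + 199 * |η|)
        (by rw [cg]; clear * - hM1 hζM hζη he hg0; linarith)
      rw [← hN', ← hE, cg] at this
      exact this
    have u5 : Sg |η| (100 * M - 1) ≤ Sg |η| (100 * M) := by
      have h1 : 100 * M = (100 * M - 1) + 1 := by omega
      have h2 := Sg_succ |η| (100 * M - 1)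
      rw [← h1] at h2
      have h3 : ((100 * M - 1 : ℕ) : ℝ) + 1 = 100 * M := by
        rw [Nat.cast_sub (by omega)]
        push_cast
        ring
      rw [h3] at h2
      have h4 : 0 ≤ Real.log ((100 * (M : ℝ)) ^ 2 + |η| ^ 2) := by
        apply Real.log_nonneg
        have h5 : (1 : ℝ) ≤ 100 * M := by clear * - hM1; linarith
        have h6 : (1 : ℝ) ≤ (100 * (M : ℝ)) ^ 2 := one_le_pow₀ h5
        have h7 : (0 : ℝ) ≤ |η| ^ 2 := by positivity
        clear * - h6 h7
        linarith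
      rw [h2]
      clear * - h4
      linarith
    have l1 : FF (ζ * M + 100 * M) ≤ Sg 0 (ζ * M + 100 * M) := by
      have := Sg0_low (ζ * M + 100 * M)
      push_cast at this
      exact this
    have l2 : FF (ζ * M + b * M) ≤ Sg 0 (ζ * M + b * M) := by
      have := Sg0_low (ζ * M + b * M)
      push_cast at this
      exact this
    have l3 : Ph (100 * M - b * M) |η| ≤ Sg |η| (100 * M - b * M) := by
      have := Sg_lower |η| (100 * M - b * M)
      rw [cb] at this
      exact this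
    have l4 : Ph (100 * M + ζ * M) |η| ≤ Sg |η| (100 * M + ζ * M) := by
      have := Sg_lower |η| (100 * M + ζ * M)
      push_cast at this
      exact this
    have hD : (0 : ℝ) < 100 * M := by positivity
    have f5 : (100 * (M : ℝ)) * (|η| / (100 * M)) = |η| := by field_simp
    have hV := VL_scale (100 * M) c (ζ / 100) (b / 100) (g / 100) (|η| / (100 * M)) (ζ * M) (b * M)
      (g * M) |η| hD (by ring) (by ring) (by ring) f5
    rw [hV, ← hE]
    have hc' : (0 : ℝ) ≤ 7 - c := by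
      have : (c : ℝ) ≤ 2 := by exact_mod_cast hc
      clear * - this
      linarith
    have hc7 : (7 : ℝ) - c ≤ 7 := by
      have : (0 : ℝ) ≤ c := Nat.cast_nonneg c
      clear * - this
      linarith
    exact_mod_cast arith_line u1 u2 u3 u4 u5 l1 l2 l3 l4 hc' hc7 hE1
  · intro k hk
    have h1 := hpos k hk
    apply norm_le_sq
    · rw [Complex.sub_re, hsre, Complex.natCast_re, abs_of_nonneg (by linarith)]
      linarith
    · rw [Complex.sub_im, hsim, Complex.natCast_im, sub_zero, sq_abs]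
  · intro k hk r hr
    have h1 := hpos k hk
    rw [mem_Icc] at hr
    have hr5 : (r : ℝ) ≤ 5 := by exact_mod_cast hr.2
    have hr0 : (0 : ℝ) ≤ r := Nat.cast_nonneg r
    have e1 : ((r : ℂ) / 6) = (((r : ℝ) / 6 : ℝ) : ℂ) := by push_cast; ring
    apply norm_le_sq
    · rw [Complex.sub_re, Complex.sub_re, hsre, Complex.natCast_re, e1, Complex.ofReal_re,
        abs_of_nonneg (by linarith)]
      linarith
    · rw [Complex.sub_im, Complex.sub_im, hsim, Complex.natCast_im, e1, Complex.ofReal_im, sub_zero,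
        sub_zero, sq_abs]
  · intro i _
    apply norm_ge_sq
    · positivity
    · rw [Complex.add_re, Complex.add_re, hsre, Complex.natCast_re, Complex.one_re]
      linarith
    · rw [Complex.add_im, Complex.add_im, hsim, Complex.natCast_im, Complex.one_im, add_zero,
        add_zero, sq_abs]

end

end Run7.K3
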