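import Pool.Agent.Run7.K3.ArchColD
import Pool.Agent.Run7.K3.RBnd
import Pool.Agent.Run7.K3.NumReal
import Pool.Agent.Run7.K3.NumLine

/-! Piece M: `arch_col`. -/

namespace Run7.K3

noncomputable section

open Finset

theorem arch_col : ∀ x ∈ cells, ∃ (C : ℝ) (K : ℕ), ∀ M n : ℕ, 1 ≤ M → (100 + x.1) * M ≤ n →
    ∃ lam : ℕ → ℝ, |lam n| = 1 ∧ ∀ r < 8 * (100 * M),
      |∑ k ∈ range (n + 1), lam k * ((row (100 * M) r k : ℚ) : ℝ)| ≤
        C * (M : ℝ) ^ K * Real.exp (-((x.2.2.2.2 : ℝ) * M)) :=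
  arch_col_of RR_real RR_line cells_real cells_line

end

end Run7.K3
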