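import Mathlib
import Pool.Agent.Run7.K3.Defs

/-!
Piece G (`DetK`), core: the `p`-adic bound (`p = 2, 3`) for the determinant of the rows in the
variable `v`, with the statements of piece F as hypotheses.
-/

set_option autoImplicit false
set_option linter.unusedSectionVars false

namespace Run7.K3.DetKCore

noncomputable section

open Finset

/-! ### The `p`-adic norm with real values -/

section norm
variable (p : ℕ) [hp : Fact p.Prime]

/-- the `p`-adic norm as a real number -/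
def nr (x : ℚ) : ℝ := ((padicNorm p x : ℚ) : ℝ)

lemma nr_nonneg (x : ℚ) : 0 ≤ nr p x := by
  unfold nr
  exact_mod_cast padicNorm.nonneg (p := p) x

lemma nr_mul (x y : ℚ) : nr p (x * y) = nr p x * nr p y := by
  unfold nr
  rw [padicNorm.mul]
  push_cast
  rfl

lemma nr_zero : nr p 0 = 0 := by
  unfold nr
  rw [padicNorm.zero]
  norm_num

lemma nr_one : nr p 1 = 1 := by
  unfold nr
  rw [padicNorm.one]
  norm_num

lemma nr_add_le {x y : ℚ} {B : ℝ} (hx : nr p x ≤ B) (hy : nr p y ≤ B) : nr p (x + y) ≤ B := by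
  have h1 : padicNorm p (x + y) ≤ max (padicNorm p x) (padicNorm p y) := padicNorm.nonarchimedean
  have h2 : nr p (x + y) ≤ max (nr p x) (nr p y) := by
    unfold nr
    exact_mod_cast h1
  exact h2.trans (max_le hx hy)

lemma nr_sum_le {ι : Type*} (s : Finset ι) (f : ι → ℚ) {B : ℝ} (hB : 0 ≤ B)
    (h : ∀ i ∈ s, nr p (f i) ≤ B) : nr p (∑ i ∈ s, f i) ≤ B := by
  classical
  induction s using Finset.induction_on with
  | empty =>
    rw [Finset.sum_empty, nr_zero]
    exact hB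
  | insert a s ha ih =>
    rw [Finset.sum_insert ha]
    exact nr_add_le p (h a (Finset.mem_insert_self _ _))
      (ih fun i hi => h i (Finset.mem_insert_of_mem hi))

lemma nr_prod {ι : Type*} (s : Finset ι) (f : ι → ℚ) :
    nr p (∏ i ∈ s, f i) = ∏ i ∈ s, nr p (f i) := by
  classical
  induction s using Finset.induction_on with
  | empty =>
    rw [Finset.prod_empty, Finset.prod_empty, nr_one]
  | insert a s ha ih =>
    rw [Finset.prod_insert ha, Finset.prod_insert ha, nr_mul, ih]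

lemma nr_prod_le {ι : Type*} (s : Finset ι) (f : ι → ℚ) (z : ι → ℝ)
    (h : ∀ i ∈ s, nr p (f i) ≤ (p : ℝ) ^ (z i)) :
    nr p (∏ i ∈ s, f i) ≤ (p : ℝ) ^ (∑ i ∈ s, z i) := by
  have hp0 : (0 : ℝ) < p := by exact_mod_cast hp.out.pos
  rw [nr_prod, Real.rpow_sum_of_pos hp0]
  exact Finset.prod_le_prod (fun i _ => nr_nonneg p _) h

lemma nr_det_le {N : ℕ} (A : Matrix (Fin N) (Fin N) ℚ) (z : ℝ)
    (h : ∀ r t, nr p (A r t) ≤ (p : ℝ) ^ z) : nr p A.det ≤ (p : ℝ) ^ (N * z) := by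
  classical
  have hp0 : (0 : ℝ) < p := by exact_mod_cast hp.out.pos
  rw [Matrix.det_apply]
  refine nr_sum_le p _ _ (Real.rpow_nonneg hp0.le _) fun σ _ => ?_
  have h1 : nr p (Equiv.Perm.sign σ • ∏ i, A (σ i) i) = nr p (∏ i, A (σ i) i) := by
    rcases Int.units_eq_one_or (Equiv.Perm.sign σ) with h2 | h2
    · rw [h2, one_smul]
    · rw [h2]
      simp [nr]
  rw [h1]
  have h2 := nr_prod_le p Finset.univ (fun i => A (σ i) i) (fun _ => z) fun i _ => h _ _
  rw [Finset.sum_const, Finset.card_univ, Fintype.card_fin, nsmul_eq_mul] at h2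
  exact h2

end norm

/-! ### expansion of a determinant -/

theorem det_expand {N : ℕ} {K : Type} [Fintype K] (T : Fin N → K → ℚ) (E : K → Fin N → ℚ) :
    (Matrix.of fun r t => ∑ κ, T r κ * E κ t).det =
      ∑ φ : Fin N → K, (∏ r, T r (φ r)) * (Matrix.of fun r => E (φ r)).det := by
  classical
  have h1 : (Matrix.of fun r t => ∑ κ, T r κ * E κ t).det =
      Matrix.detRowAlternating.toMultilinearMap (fun r => ∑ κ, T r κ • E κ) := by
    show Matrix.det _ = Matrix.det _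
    congr 1
    ext r t
    simp [Finset.sum_apply]
  rw [h1, MultilinearMap.map_sum]
  refine Finset.sum_congr rfl fun φ _ => ?_
  rw [MultilinearMap.map_smul_univ, smul_eq_mul]
  rfl

/-! ### the expansion of the rows -/

/-- elementary rows `v^m f_τ` -/
def Ee (τ m n : ℕ) : ℚ := if m ≤ n then tf τ (n - m) else 0

/-- coefficients of `A, B, C` -/
def c3 (r τ k : ℕ) : ℚ := if τ = 2 then al r k else if τ = 1 then be r k else if τ = 0 then ga r k else 0

/-- the coefficients of the row `r` -/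
def Tc (S : Finset ℕ) (D r τ m : ℕ) : ℚ :=
  if r / D ∈ S then (if r % D ≤ m then c3 (r / D - 2) τ (m - r % D) else 0)
  else (if τ = r / D ∧ m = r % D then 1 else 0)

lemma conv (f g : ℕ → ℚ) (j n L : ℕ) (hn : n < L) :
    ∑ m ∈ range L, (if j ≤ m then f (m - j) else 0) * (if m ≤ n then g (n - m) else 0) =
      if j ≤ n then ∑ k ∈ range (n - j + 1), f k * g (n - j - k) else 0 := by
  split_ifs with hj
  · have h1 : ∑ m ∈ range L, (if j ≤ m then f (m - j) else 0) * (if m ≤ n then g (n - m) else 0) =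
        ∑ m ∈ Ico j (n + 1), f (m - j) * g (n - m) := by
      have hsub : Ico j (n + 1) ⊆ range L := by
        intro m hm
        rw [mem_Ico] at hm
        rw [mem_range]
        omega
      rw [← Finset.sum_subset hsub]
      · refine Finset.sum_congr rfl fun m hm => ?_
        rw [mem_Ico] at hm
        rw [if_pos hm.1, if_pos (by omega)]
      · intro m _ hm
        rw [mem_Ico] at hm
        by_cases h2 : j ≤ m
        · rw [if_neg (show ¬ m ≤ n by omega), mul_zero]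
        · rw [if_neg h2, zero_mul]
    rw [h1, Finset.sum_Ico_eq_sum_range, show n + 1 - j = n - j + 1 by omega]
    refine Finset.sum_congr rfl fun k _ => ?_
    rw [show j + k - j = k by omega, show n - (j + k) = n - j - k by omega]
  · refine Finset.sum_eq_zero fun m _ => ?_
    by_cases h2 : j ≤ m
    · rw [if_neg (show ¬ m ≤ n by omega), mul_zero]
    · rw [if_neg h2, zero_mul]

lemma row_eq (S : Finset ℕ) (hS : ∀ i ∈ S, 3 ≤ i ∧ i ≤ 7)
    (h0 : ∀ n, tf 0 n = if n = 0 then 1 else 0)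
    (hst : ∀ r : ℕ, 1 ≤ r → r ≤ 5 → ∀ n : ℕ,
      tf (r + 2) n = ∑ k ∈ range (n + 1), (al r k * tf 2 (n - k) + be r k * tf 1 (n - k)) + ga r n)
    (D r n L : ℕ) (hD : 1 ≤ D) (hr : r < 8 * D) (hL : D ≤ L) (hn : n < L) :
    vrow D r n = ∑ κ : Fin 8 × Fin L, Tc S D r κ.1 κ.2 * Ee κ.1 κ.2 n := by
  have hrD : r / D < 8 := Nat.div_lt_of_lt_mul (by rwa [mul_comm] at hr)
  have hjD : r % D < D := Nat.mod_lt _ hD
  rw [Fintype.sum_prod_type]
  have e0 : ∀ τ : ℕ, ∑ m : Fin L, Tc S D r τ m * Ee τ m n =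
      ∑ m ∈ range L, Tc S D r τ m * Ee τ m n := fun τ =>
    (Finset.sum_range (fun m => Tc S D r τ m * Ee τ m n)).symm
  have e1 : ∑ τ : Fin 8, ∑ m : Fin L, Tc S D r τ m * Ee τ m n =
      ∑ τ ∈ range 8, ∑ m ∈ range L, Tc S D r τ m * Ee τ m n := by
    rw [Finset.sum_range (fun τ => ∑ m ∈ range L, Tc S D r τ m * Ee τ m n)]
    exact Finset.sum_congr rfl fun τ _ => e0 τ
  show vrow D r n = ∑ τ : Fin 8, ∑ m : Fin L, Tc S D r τ m * Ee τ m n
  rw [e1]
  by_cases hi : r / D ∈ S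
  · obtain ⟨i3, i7⟩ := hS _ hi
    have e2 : ∀ τ, ∑ m ∈ range L, Tc S D r τ m * Ee τ m n =
        if r % D ≤ n then ∑ k ∈ range (n - r % D + 1), c3 (r / D - 2) τ k * tf τ (n - r % D - k)
          else 0 := by
      intro τ
      rw [← conv (c3 (r / D - 2) τ) (tf τ) (r % D) n L hn]
      refine Finset.sum_congr rfl fun m _ => ?_
      unfold Tc Ee
      rw [if_pos hi]
    rw [Finset.sum_congr rfl fun τ _ => e2 τ]
    unfold vrow
    split_ifs with hj
    · have h3 := hst (r / D - 2) (by omega) (by omega) (n - r % D)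
      rw [show r / D - 2 + 2 = r / D by omega] at h3
      rw [h3]
      simp only [Finset.sum_range_succ _ 7, Finset.sum_range_succ _ 6, Finset.sum_range_succ _ 5,
        Finset.sum_range_succ _ 4, Finset.sum_range_succ _ 3, Finset.sum_range_succ _ 2,
        Finset.sum_range_succ _ 1, Finset.sum_range_succ _ 0, Finset.sum_range_zero]
      have z : ∀ τ k, 3 ≤ τ → c3 (r / D - 2) τ k = 0 := by
        intro τ k hτ
        unfold c3
        rw [if_neg (by omega), if_neg (by omega), if_neg (by omega)]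
      have z' : ∀ τ, 3 ≤ τ → ∑ k ∈ range (n - r % D + 1), c3 (r / D - 2) τ k * tf τ (n - r % D - k)
          = 0 := fun τ hτ => Finset.sum_eq_zero fun k _ => by rw [z τ k hτ, zero_mul]
      rw [z' 3 (by omega), z' 4 (by omega), z' 5 (by omega), z' 6 (by omega), z' 7 (by omega)]
      have g0 : ∑ k ∈ range (n - r % D + 1), c3 (r / D - 2) 0 k * tf 0 (n - r % D - k) =
          ga (r / D - 2) (n - r % D) := by
        rw [Finset.sum_eq_single (n - r % D)]
        · rw [h0, if_pos (by omega), mul_one]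
          unfold c3
          norm_num
        · intro k hk hk2
          rw [mem_range] at hk
          rw [h0, if_neg (by omega), mul_zero]
        · intro h
          exact absurd (mem_range.2 (by omega)) h
      have g1 : ∀ k, c3 (r / D - 2) 1 k = be (r / D - 2) k := fun k => by
        unfold c3
        norm_num
      have g2 : ∀ k, c3 (r / D - 2) 2 k = al (r / D - 2) k := fun k => by
        unfold c3
        norm_num
      rw [g0]
      simp only [g1, g2]
      rw [Finset.sum_add_distrib]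
      ring
    · simp
  · rw [Finset.sum_eq_single (r / D)]
    · rw [Finset.sum_eq_single (r % D)]
      · unfold Tc Ee vrow
        rw [if_neg hi]
        simp
      · intro m _ hm
        unfold Tc
        rw [if_neg hi, if_neg (fun h => hm h.2), zero_mul]
      · intro h
        exact absurd (mem_range.2 (by omega)) h
    · intro τ _ hτ
      refine Finset.sum_eq_zero fun m _ => ?_
      unfold Tc
      rw [if_neg hi, if_neg (fun h => hτ h.1), zero_mul]
    · intro h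
      exact absurd (mem_range.2 hrD) h

/-! ### sums over the rows -/

lemma sum_rows (D : ℕ) (hD : 1 ≤ D) (F : ℕ → ℕ → ℝ) :
    ∑ r : Fin (8 * D), F ((r : ℕ) / D) ((r : ℕ) % D) = ∑ i ∈ range 8, ∑ j ∈ range D, F i j := by
  rw [← finProdFinEquiv.sum_comp, Fintype.sum_prod_type, Finset.sum_range]
  refine Finset.sum_congr rfl fun i _ => ?_
  rw [Finset.sum_range]
  refine Finset.sum_congr rfl fun j _ => ?_
  rw [finProdFinEquiv_apply_val]
  rw [Nat.add_mul_div_left _ _ hD, Nat.div_eq_of_lt j.2, zero_add, Nat.add_mul_mod_self_left,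
    Nat.mod_eq_of_lt j.2]

/-- the rows of type in `S` -/
def RS (S : Finset ℕ) (D : ℕ) : Finset (Fin (8 * D)) := univ.filter fun r => (r : ℕ) / D ∈ S

lemma sum_RS (S : Finset ℕ) (hS : ∀ i ∈ S, 3 ≤ i ∧ i ≤ 7) (D : ℕ) (hD : 1 ≤ D) (F : ℕ → ℝ) :
    ∑ r ∈ RS S D, F ((r : ℕ) % D) = (S.card : ℝ) * ∑ j ∈ range D, F j := by
  unfold RS
  rw [Finset.sum_filter]
  have h1 := sum_rows D hD (fun i j => if i ∈ S then F j else 0)
  rw [h1]
  have h2 : ∀ i ∈ range 8, ∑ j ∈ range D, (if i ∈ S then F j else 0) =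
      if i ∈ S then ∑ j ∈ range D, F j else 0 := by
    intro i _
    split_ifs
    · rfl
    · simp
  rw [Finset.sum_congr rfl h2, ← Finset.sum_filter, Finset.sum_const, nsmul_eq_mul]
  congr 2
  have : (range 8).filter (fun i => i ∈ S) = S := by
    ext i
    rw [mem_filter, mem_range]
    constructor
    · exact fun h => h.2
    · intro h
      have := hS i h
      exact ⟨by omega, h⟩
  rw [this]

lemma card_RS (S : Finset ℕ) (hS : ∀ i ∈ S, 3 ≤ i ∧ i ≤ 7) (D : ℕ) (hD : 1 ≤ D) :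
    ((RS S D).card : ℝ) = (S.card : ℝ) * D := by
  have h := sum_RS S hS D hD (fun _ => 1)
  rw [Finset.sum_const, nsmul_eq_mul, mul_one, Finset.sum_const, card_range, nsmul_eq_mul,
    mul_one] at h
  exact h

lemma sum_mod_RS (S : Finset ℕ) (hS : ∀ i ∈ S, 3 ≤ i ∧ i ≤ 7) (D : ℕ) (hD : 1 ≤ D) :
    2 * ∑ r ∈ RS S D, (((r : ℕ) % D : ℕ) : ℝ) = (S.card : ℝ) * (D * (D - 1)) := by
  have h := sum_RS S hS D hD (fun j => (j : ℝ))
  rw [h]
  have h2 : 2 * ∑ j ∈ range D, (j : ℝ) = D * (D - 1) := by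
    have h3 := Finset.sum_range_id_mul_two D
    have h4 : ((D - 1 : ℕ) : ℝ) = (D : ℝ) - 1 := by
      push_cast [hD]
      ring
    have h5 : ((∑ j ∈ range D, j : ℕ) : ℝ) * 2 = D * ((D - 1 : ℕ) : ℝ) := by exact_mod_cast h3
    rw [h4] at h5
    push_cast at h5
    linarith
  linear_combination (S.card : ℝ) * h2

/-! ### the positions used by a term -/

theorem sum_desc (a k : ℕ) : 2 * ∑ m ∈ Finset.Ico a (a + k), (a + k - m) = k * (k + 1) := by
  induction k with
  | zero => simp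
  | succ k ih =>
    have h1 : ∑ m ∈ Finset.Ico a (a + (k + 1)), (a + (k + 1) - m) =
        ∑ m ∈ Finset.Ico a (a + k), (a + k - m) + (k + 1) := by
      rw [← add_assoc, Finset.sum_Ico_succ_top (by omega)]
      have h2 : ∀ m ∈ Finset.Ico a (a + k), a + k + 1 - m = (a + k - m) + 1 := by
        intro m hm
        rw [Finset.mem_Ico] at hm
        omega
      rw [Finset.sum_congr rfl h2, Finset.sum_add_distrib, Finset.sum_const, Nat.card_Ico,
        smul_eq_mul]
      omega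
    rw [h1]
    nlinarith

/-- the sum of the positions of the rows of type in `S` -/
theorem sum_pos (S : Finset ℕ) (hS : ∀ i ∈ S, 3 ≤ i ∧ i ≤ 7) (D : ℕ) (hD : 1 ≤ D)
    (b m : Fin (8 * D) → ℕ) (hinj : ∀ r r', b r = b r' → m r = m r' → r = r')
    (h1 : ∀ r : Fin (8 * D), (r : ℕ) / D ∉ S → b r = (r : ℕ) / D ∧ m r = (r : ℕ) % D)
    (h2 : ∀ r : Fin (8 * D), (r : ℕ) / D ∈ S → b r ≤ 2) (K : ℕ) :
    2 * ((RS S D).card * (D + K)) ≤ 2 * ∑ r ∈ RS S D, m r + 3 * (K * (K + 1)) := by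
  classical
  have hge : ∀ r ∈ RS S D, D ≤ m r := by
    intro r hr
    have hrS : (r : ℕ) / D ∈ S := (mem_filter.1 hr).2
    by_contra hcon
    push Not at hcon
    have hb := h2 r hrS
    have hlt : b r * D + m r < 8 * D := by nlinarith
    have e1 : (b r * D + m r) / D = b r := by
      rw [mul_comm, Nat.mul_add_div hD, Nat.div_eq_of_lt hcon, add_zero]
    have e2 : (b r * D + m r) % D = m r := by
      rw [mul_comm, Nat.mul_add_mod, Nat.mod_eq_of_lt hcon]
    have hns : (b r * D + m r) / D ∉ S := by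
      rw [e1]
      intro h
      have := hS _ h
      omega
    obtain ⟨f1, f2⟩ := h1 ⟨b r * D + m r, hlt⟩ hns
    simp only [e1, e2] at f1 f2
    have e3 := hinj _ _ f1 f2
    rw [← e3] at hrS
    exact hns hrS
  set A : Finset (ℕ × ℕ) := (range 3) ×ˢ (Ico D (D + K)) with hA
  have hsum : ∑ r ∈ RS S D, (D + K - m r) ≤ ∑ κ ∈ A, (D + K - κ.2) := by
    have e1 : ∑ r ∈ RS S D, (D + K - m r) =
        ∑ r ∈ (RS S D).filter (fun r => m r < D + K), (D + K - m r) := by
      refine (Finset.sum_filter_of_ne fun r _ h => ?_).symm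
      omega
    have e2 : ∑ r ∈ (RS S D).filter (fun r => m r < D + K), (D + K - m r) =
        ∑ κ ∈ ((RS S D).filter (fun r => m r < D + K)).image (fun r => (b r, m r)),
          (D + K - κ.2) := by
      rw [Finset.sum_image]
      intro r _ r' _ h
      simp only [Prod.mk.injEq] at h
      exact hinj r r' h.1 h.2
    rw [e1, e2]
    refine Finset.sum_le_sum_of_subset fun κ hκ => ?_
    obtain ⟨r, hr, rfl⟩ := Finset.mem_image.1 hκ
    obtain ⟨hr1, hr2⟩ := Finset.mem_filter.1 hr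
    rw [hA, Finset.mem_product, mem_range, mem_Ico]
    have := h2 r (mem_filter.1 hr1).2
    exact ⟨by show b r < 3; omega, hge r hr1, hr2⟩
  have hA2 : 2 * ∑ κ ∈ A, (D + K - κ.2) = 3 * (K * (K + 1)) := by
    rw [hA, Finset.sum_product]
    simp only
    rw [Finset.sum_const, card_range, smul_eq_mul, ← sum_desc D K]
    ring
  have hfin : (RS S D).card * (D + K) ≤ ∑ r ∈ RS S D, m r + ∑ r ∈ RS S D, (D + K - m r) := by
    rw [← Finset.sum_add_distrib, ← smul_eq_mul, ← Finset.sum_const]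
    refine Finset.sum_le_sum fun r _ => ?_
    omega
  nlinarith

theorem log_le (p : ℕ) (hp : 2 ≤ p) (δ : ℝ) (hδ : 0 < δ) : ∃ C : ℝ, 0 ≤ C ∧ ∀ n : ℕ,
    (Nat.log p n : ℝ) ≤ δ * n + C := by
  have hl2 : 0 < Real.log 2 := Real.log_pos (by norm_num)
  obtain ⟨η, hη⟩ : ∃ η : ℝ, η = δ * Real.log 2 := ⟨_, rfl⟩
  have hη0 : 0 < η := by rw [hη]; positivity
  refine ⟨|(-1 - Real.log η) / Real.log 2|, abs_nonneg _, fun n => ?_⟩
  rcases Nat.eq_zero_or_pos n with h0 | h0
  · rw [h0, Nat.log_zero_right]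
    simp
  have hn0 : (0 : ℝ) < n := by exact_mod_cast h0
  have h0' : (Nat.log p n : ℝ) ≤ Nat.log 2 n := by
    exact_mod_cast Nat.log_anti_left (by norm_num) hp
  have h1 : (Nat.log 2 n : ℝ) ≤ Real.log n / Real.log 2 := by
    have h2 := Real.natLog_le_logb n 2
    unfold Real.logb at h2
    push_cast at h2
    exact h2
  have h2 : Real.log n ≤ η * n - 1 - Real.log η := by
    have h3 := Real.log_le_sub_one_of_pos (show (0 : ℝ) < η * n by positivity)
    rw [Real.log_mul hη0.ne' hn0.ne'] at h3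
    linarith
  have h3 : Real.log n / Real.log 2 ≤ (η * n - 1 - Real.log η) / Real.log 2 :=
    div_le_div_of_nonneg_right h2 hl2.le
  have h4 : (η * n - 1 - Real.log η) / Real.log 2 = δ * n + (-1 - Real.log η) / Real.log 2 := by
    rw [hη]
    field_simp
    ring
  have h5 := le_abs_self ((-1 - Real.log η) / Real.log 2)
  linarith

/-! ### the bound -/

theorem core (p : ℕ) (hp : p.Prime) (S : Finset ℕ) (hS : ∀ i ∈ S, 3 ≤ i ∧ i ≤ 7) (σ B : ℝ)
    (hpos : ∀ D : ℕ, 1 ≤ D → ∀ sm : ℝ, (∀ K : ℕ, 2 * ((S.card : ℝ) * D * (D + K)) ≤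
      2 * sm + 3 * (K * (K + 1))) →
      B * (D : ℝ) ^ 2 ≤ σ * (sm - (S.card : ℝ) * (D * (D - 1)) / 2) + 3)
    (h0 : ∀ n, tf 0 n = if n = 0 then 1 else 0)
    (hst : ∀ r : ℕ, 1 ≤ r → r ≤ 5 → ∀ n : ℕ,
      tf (r + 2) n = ∑ k ∈ range (n + 1), (al r k * tf 2 (n - k) + be r k * tf 1 (n - k)) + ga r n)
    (htf : ∀ i : ℕ, i < 8 → ∀ n : ℕ, padicNorm p (tf i n) ≤ (p : ℚ) ^ (3 * Nat.log p (6 * n + 5)))
    (hal : ∀ i ∈ S, ∀ k : ℕ,
      ((padicNorm p (al (i - 2) k) : ℚ) : ℝ) ≤ (p : ℝ) ^ (-(σ * k) + 3 * Nat.log p (k + 1) + 6) ∧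
      ((padicNorm p (be (i - 2) k) : ℚ) : ℝ) ≤ (p : ℝ) ^ (-(σ * k) + 3 * Nat.log p (k + 1) + 6) ∧
      ((padicNorm p (ga (i - 2) k) : ℚ) : ℝ) ≤ (p : ℝ) ^ (-(σ * k) + 3 * Nat.log p (k + 1) + 6))
    (ε : ℝ) (hε : 0 < ε) : ∃ C : ℝ, ∀ D : ℕ, 1 ≤ D →
    ∀ n : Fin (8 * D) → ℕ, (∀ t, n t ≤ 9 * D) → (vmat D n).det ≠ 0 →
      (B - ε) * (D : ℝ) ^ 2 - C ≤ (padicValRat p (vmat D n).det : ℝ) := by
  classical
  have : Fact p.Prime := ⟨hp⟩
  have hp2 : 2 ≤ p := hp.two_le
  have hp0 : (0 : ℝ) < p := by exact_mod_cast hp.pos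
  have hp1 : (1 : ℝ) < p := by exact_mod_cast hp.one_lt
  have hs0 : (0 : ℝ) ≤ S.card := Nat.cast_nonneg _
  -- the error term
  obtain ⟨a, ha⟩ : ∃ a : ℝ, a = 24 + 3 * (S.card : ℝ) := ⟨_, rfl⟩
  have ha0 : 0 < a := by rw [ha]; positivity
  obtain ⟨δ, hδ⟩ : ∃ δ : ℝ, δ = ε / (2 * (59 * a)) := ⟨_, rfl⟩
  have hδ0 : 0 < δ := by rw [hδ]; positivity
  obtain ⟨C₀, hC₀, hlog⟩ := log_le p hp2 δ hδ0
  obtain ⟨C₁, hC₁⟩ : ∃ C₁ : ℝ, C₁ = a * C₀ + 6 * (S.card : ℝ) := ⟨_, rfl⟩
  have hC₁0 : 0 ≤ C₁ := by rw [hC₁]; positivity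
  refine ⟨C₁ ^ 2 / (2 * ε) + 3, fun D hD n hn hdet => ?_⟩
  have hD0 : (1 : ℝ) ≤ D := by exact_mod_cast hD
  set L : ℕ := 9 * D + 1 with hL
  set T : Fin (8 * D) → Fin 8 × Fin L → ℚ := fun r κ => Tc S D r κ.1 κ.2 with hT
  set E : Fin 8 × Fin L → Fin (8 * D) → ℚ := fun κ t => Ee κ.1 κ.2 (n t) with hE
  have hmat : vmat D n = Matrix.of fun r t => ∑ κ, T r κ * E κ t := by
    ext r t
    exact row_eq S hS h0 hst D r (n t) L hD r.2 (by omega) (by have := hn t; omega)
  obtain ⟨lg, hlg⟩ : ∃ l : ℝ, l = (Nat.log p (54 * D + 5) : ℝ) := ⟨_, rfl⟩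
  have hlg0 : 0 ≤ lg := by rw [hlg]; positivity
  obtain ⟨X, hX⟩ : ∃ X : ℝ, X = -(B * (D : ℝ) ^ 2) + 3 + (a * lg + 6 * S.card) * D := ⟨_, rfl⟩
  have key : nr p (vmat D n).det ≤ (p : ℝ) ^ X := by
    rw [hmat, det_expand]
    refine nr_sum_le p _ _ (Real.rpow_nonneg hp0.le _) (fun φ _ => ?_)
    by_cases hterm : (∏ r, T r (φ r)) * (Matrix.of fun r => E (φ r)).det = 0
    · rw [hterm, nr_zero]
      exact Real.rpow_nonneg hp0.le _
    have hT0 : ∀ r, T r (φ r) ≠ 0 := fun r h =>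
      hterm (by rw [Finset.prod_eq_zero (Finset.mem_univ r) h, zero_mul])
    have hE0 : (Matrix.of fun r => E (φ r)).det ≠ 0 := fun h => hterm (by rw [h, mul_zero])
    have hinj : Function.Injective φ := by
      intro r r' h
      by_contra hne
      exact hE0 (Matrix.det_zero_of_row_eq hne (by
        show E (φ r) = E (φ r')
        rw [h]))
    -- the positions
    have q1 : ∀ r : Fin (8 * D), (r : ℕ) / D ∉ S →
        ((φ r).1 : ℕ) = (r : ℕ) / D ∧ ((φ r).2 : ℕ) = (r : ℕ) % D := by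
      intro r hr
      by_contra hcon
      apply hT0 r
      show Tc S D r (φ r).1 (φ r).2 = 0
      unfold Tc
      rw [if_neg hr, if_neg hcon]
    have q2 : ∀ r : Fin (8 * D), (r : ℕ) / D ∈ S →
        ((φ r).1 : ℕ) ≤ 2 ∧ (r : ℕ) % D ≤ (φ r).2 := by
      intro r hr
      have h3 : Tc S D r (φ r).1 (φ r).2 ≠ 0 := hT0 r
      unfold Tc at h3
      rw [if_pos hr] at h3
      split_ifs at h3 with h4
      · refine ⟨?_, h4⟩
        by_contra hcon
        apply h3
        unfold c3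
        rw [if_neg (by omega), if_neg (by omega), if_neg (by omega)]
      · exact absurd rfl h3
    have q3 : ∀ K : ℕ, 2 * ((S.card : ℝ) * D * (D + K)) ≤
        2 * ∑ r ∈ RS S D, (((φ r).2 : ℕ) : ℝ) + 3 * (K * (K + 1)) := by
      intro K
      have h3 := sum_pos S hS D hD (fun r => ((φ r).1 : ℕ)) (fun r => ((φ r).2 : ℕ))
        (fun r r' h h' => hinj (Prod.ext (Fin.ext h) (Fin.ext h'))) q1 (fun r h => (q2 r h).1) K
      have h4 := card_RS S hS D hD
      have h5 : 2 * (((RS S D).card : ℝ) * (D + K)) ≤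
          2 * ∑ r ∈ RS S D, (((φ r).2 : ℕ) : ℝ) + 3 * (K * (K + 1)) := by exact_mod_cast h3
      rw [h4] at h5
      exact h5
    have q4 := hpos D hD _ q3
    have q5 := sum_mod_RS S hS D hD
    -- the norm of the coefficients
    have n1 : nr p (∏ r, T r (φ r)) ≤ (p : ℝ) ^ (∑ r : Fin (8 * D),
        (if r ∈ RS S D then -(σ * ((((φ r).2 : ℕ) : ℝ) - (((r : ℕ) % D : ℕ) : ℝ))) + (3 * lg + 6)
          else 0)) := by
      refine nr_prod_le p _ _ _ fun r _ => ?_
      by_cases hr : (r : ℕ) / D ∈ S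
      · have hrm : r ∈ RS S D := mem_filter.2 ⟨mem_univ _, hr⟩
        rw [if_pos hrm]
        obtain ⟨h3, h4⟩ := q2 r hr
        have e1 : T r (φ r) = c3 ((r : ℕ) / D - 2) (φ r).1 (((φ r).2 : ℕ) - (r : ℕ) % D) := by
          show Tc S D r (φ r).1 (φ r).2 = _
          unfold Tc
          rw [if_pos hr, if_pos h4]
        obtain ⟨k, hk⟩ : ∃ k : ℕ, k = ((φ r).2 : ℕ) - (r : ℕ) % D := ⟨_, rfl⟩
        have hkr : (k : ℝ) = (((φ r).2 : ℕ) : ℝ) - (((r : ℕ) % D : ℕ) : ℝ) := by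
          rw [hk, Nat.cast_sub h4]
        rw [e1, ← hk, ← hkr]
        have hk2 : k + 1 ≤ 54 * D + 5 := by
          have := (φ r).2.2
          omega
        have h5 : (p : ℝ) ^ (-(σ * k) + 3 * Nat.log p (k + 1) + 6 : ℝ) ≤
            (p : ℝ) ^ (-(σ * k) + (3 * lg + 6)) := by
          apply Real.rpow_le_rpow_of_exponent_le hp1.le
          have h6 : (Nat.log p (k + 1) : ℝ) ≤ lg := by
            rw [hlg]
            exact_mod_cast Nat.log_mono_right hk2
          linarith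
        obtain ⟨a1, a2, a3⟩ := hal _ hr k
        have hc : nr p (c3 ((r : ℕ) / D - 2) (φ r).1 k) ≤
            (p : ℝ) ^ (-(σ * k) + 3 * Nat.log p (k + 1) + 6 : ℝ) := by
          unfold c3
          have h7 : ((φ r).1 : ℕ) = 2 ∨ ((φ r).1 : ℕ) = 1 ∨ ((φ r).1 : ℕ) = 0 := by omega
          rcases h7 with h7 | h7 | h7
          · rw [if_pos h7]
            exact a1
          · rw [if_neg (by omega), if_pos h7]
            exact a2
          · rw [if_neg (by omega), if_neg (by omega), if_pos h7]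
            exact a3
        exact hc.trans h5
      · have hrm : r ∉ RS S D := fun h => hr (mem_filter.1 h).2
        rw [if_neg hrm, Real.rpow_zero]
        show nr p (Tc S D r (φ r).1 (φ r).2) ≤ 1
        unfold Tc
        rw [if_neg hr]
        split_ifs
        · rw [nr_one]
        · rw [nr_zero]
          exact zero_le_one
    have s1 : ∑ r : Fin (8 * D),
        (if r ∈ RS S D then -(σ * ((((φ r).2 : ℕ) : ℝ) - (((r : ℕ) % D : ℕ) : ℝ))) + (3 * lg + 6)
          else 0) =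
        -(σ * (∑ r ∈ RS S D, (((φ r).2 : ℕ) : ℝ) - (S.card : ℝ) * (D * (D - 1)) / 2)) +
          (S.card : ℝ) * D * (3 * lg + 6) := by
      rw [← Finset.sum_filter, Finset.filter_mem_eq_inter, Finset.univ_inter,
        Finset.sum_add_distrib, Finset.sum_const, nsmul_eq_mul, card_RS S hS D hD,
        Finset.sum_neg_distrib, ← Finset.mul_sum, Finset.sum_sub_distrib]
      have : ∑ r ∈ RS S D, (((r : ℕ) % D : ℕ) : ℝ) = (S.card : ℝ) * (D * (D - 1)) / 2 := by linarith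
      rw [this]
    -- the norm of the determinant of the elementary rows
    have n2 : nr p (Matrix.of fun r => E (φ r)).det ≤ (p : ℝ) ^ (((8 * D : ℕ) : ℝ) * (3 * lg)) := by
      refine nr_det_le p _ _ fun r t => ?_
      show nr p (Ee (φ r).1 (φ r).2 (n t)) ≤ _
      unfold Ee
      split_ifs with h3
      · have h4 : nr p (tf (φ r).1 (n t - (φ r).2)) ≤
            (p : ℝ) ^ (3 * Nat.log p (6 * (n t - (φ r).2) + 5)) := by
          unfold nr
          exact_mod_cast htf _ (φ r).1.2 _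
        refine h4.trans ?_
        rw [← Real.rpow_natCast]
        apply Real.rpow_le_rpow_of_exponent_le hp1.le
        push_cast
        have h6 : (Nat.log p (6 * (n t - (φ r).2) + 5) : ℝ) ≤ lg := by
          rw [hlg]
          have := hn t
          exact_mod_cast Nat.log_mono_right (by omega)
        linarith
      · rw [nr_zero]
        exact Real.rpow_nonneg hp0.le _
    rw [nr_mul]
    refine (mul_le_mul n1 n2 (nr_nonneg p _) (Real.rpow_nonneg hp0.le _)).trans ?_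
    rw [← Real.rpow_add hp0]
    apply Real.rpow_le_rpow_of_exponent_le hp1.le
    rw [s1, hX, ha]
    push_cast
    nlinarith
  -- conclusion
  have hXle : X ≤ -((B - ε) * (D : ℝ) ^ 2) + (C₁ ^ 2 / (2 * ε) + 3) := by
    have h1 : lg ≤ δ * (59 * D) + C₀ := by
      have h2 := hlog (54 * D + 5)
      rw [← hlg] at h2
      refine h2.trans ?_
      have h3 : ((54 * D + 5 : ℕ) : ℝ) ≤ 59 * D := by
        push_cast
        linarith
      have := mul_le_mul_of_nonneg_left h3 hδ0.le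
      linarith
    have h2 : a * lg ≤ ε / 2 * D + a * C₀ := by
      have h3 := mul_le_mul_of_nonneg_left h1 ha0.le
      have h4 : a * (δ * (59 * D) + C₀) = ε / 2 * D + a * C₀ := by
        rw [hδ]
        field_simp
      linarith
    have h3 : (a * lg + 6 * S.card) * D ≤ ε / 2 * (D : ℝ) ^ 2 + C₁ * D := by
      have h4 := mul_le_mul_of_nonneg_right h2 (by linarith : (0 : ℝ) ≤ D)
      rw [hC₁]
      nlinarith
    have h4 : C₁ * D ≤ ε / 2 * (D : ℝ) ^ 2 + C₁ ^ 2 / (2 * ε) := by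
      have h5 : 0 ≤ (ε * D - C₁) ^ 2 / (2 * ε) := by positivity
      have h6 : (ε * D - C₁) ^ 2 / (2 * ε) =
          ε / 2 * (D : ℝ) ^ 2 - C₁ * D + C₁ ^ 2 / (2 * ε) := by
        field_simp
        ring
      linarith
    rw [hX]
    linarith
  have k0 : nr p (vmat D n).det = (p : ℝ) ^ (-(padicValRat p (vmat D n).det : ℝ)) := by
    unfold nr
    rw [padicNorm.eq_zpow_of_nonzero hdet]
    push_cast
    rw [← Real.rpow_intCast]
    push_cast
    rfl
  rw [k0] at key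
  have k1 := (Real.rpow_le_rpow_left_iff hp1).1 key
  linarith

theorem pos_two (D : ℕ) (_ : 1 ≤ D) (sm : ℝ) (h : ∀ K : ℕ, 2 * (((({3, 5, 7} : Finset ℕ).card : ℕ) : ℝ) *
    D * (D + K)) ≤ 2 * sm + 3 * (K * (K + 1))) :
    6 * (D : ℝ) ^ 2 ≤ 2 * (sm - ((({3, 5, 7} : Finset ℕ).card : ℕ) : ℝ) * (D * (D - 1)) / 2) + 3 := by
  have h1 := h D
  have hc : ((({3, 5, 7} : Finset ℕ).card : ℕ) : ℝ) = 3 := by
    rw [show ({3, 5, 7} : Finset ℕ).card = 3 by decide]
    norm_num
  rw [hc] at h1 ⊢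
  nlinarith

theorem pos_three (D : ℕ) (_ : 1 ≤ D) (sm : ℝ) (h : ∀ K : ℕ,
    2 * (((({3, 4, 6, 7} : Finset ℕ).card : ℕ) : ℝ) * D * (D + K)) ≤ 2 * sm + 3 * (K * (K + 1))) :
    7 * (D : ℝ) ^ 2 ≤
      3 / 2 * (sm - ((({3, 4, 6, 7} : Finset ℕ).card : ℕ) : ℝ) * (D * (D - 1)) / 2) + 3 := by
  have h1 := h (4 * D / 3)
  have hc : ((({3, 4, 6, 7} : Finset ℕ).card : ℕ) : ℝ) = 4 := by
    rw [show ({3, 4, 6, 7} : Finset ℕ).card = 4 by decide]
    norm_num
  rw [hc] at h1 ⊢
  obtain ⟨K, hK⟩ : ∃ K : ℕ, K = 4 * D / 3 := ⟨_, rfl⟩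
  rw [← hK] at h1
  have h2 : 3 * K ≤ 4 * D ∧ 4 * D ≤ 3 * K + 3 := by omega
  have h3 : (3 : ℝ) * K ≤ 4 * D := by exact_mod_cast h2.1
  have h4 : (4 : ℝ) * D ≤ 3 * K + 3 := by exact_mod_cast h2.2
  nlinarith [mul_nonneg (sub_nonneg.2 h3) (sub_nonneg.2 h4)]

/-- piece G from the statements of piece F -/
theorem vdet_bound_of
    (h0 : ∀ n, tf 0 n = if n = 0 then 1 else 0)
    (hst : ∀ r : ℕ, 1 ≤ r → r ≤ 5 → ∀ n : ℕ,
      tf (r + 2) n = ∑ k ∈ range (n + 1), (al r k * tf 2 (n - k) + be r k * tf 1 (n - k)) + ga r n)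
    (htf : ∀ {p : ℕ}, p.Prime → ∀ i : ℕ, i < 8 → ∀ n : ℕ,
      padicNorm p (tf i n) ≤ (p : ℚ) ^ (3 * Nat.log p (6 * n + 5)))
    (hal : ∀ {p r : ℕ}, ((p = 2 ∧ (r = 1 ∨ r = 3 ∨ r = 5)) ∨
      (p = 3 ∧ (r = 1 ∨ r = 2 ∨ r = 4 ∨ r = 5))) → ∀ k : ℕ,
      ((padicNorm p (al r k) : ℚ) : ℝ) ≤
        (p : ℝ) ^ (-((if p = 2 then 2 else 3 / 2 : ℝ) * k) + 3 * Nat.log p (k + 1) + 6) ∧
      ((padicNorm p (be r k) : ℚ) : ℝ) ≤
        (p : ℝ) ^ (-((if p = 2 then 2 else 3 / 2 : ℝ) * k) + 3 * Nat.log p (k + 1) + 6) ∧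
      ((padicNorm p (ga r k) : ℚ) : ℝ) ≤
        (p : ℝ) ^ (-((if p = 2 then 2 else 3 / 2 : ℝ) * k) + 3 * Nat.log p (k + 1) + 6))
    (p : ℕ) (hp : p = 2 ∨ p = 3) (ε : ℝ) (hε : 0 < ε) : ∃ C : ℝ, ∀ D : ℕ, 1 ≤ D →
    ∀ n : Fin (8 * D) → ℕ, StrictMono n → (∀ t, n t ≤ 9 * D) → (vmat D n).det ≠ 0 →
      ((if p = 2 then 6 else 7 : ℝ) - ε) * (D : ℝ) ^ 2 - C ≤
        (padicValRat p (vmat D n).det : ℝ) := by
  rcases hp with rfl | rfl
  · obtain ⟨C, hC⟩ := core 2 Nat.prime_two {3, 5, 7} (by decide) 2 6 pos_two h0 hst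
      (fun i hi n => htf Nat.prime_two i hi n) (fun i hi k => by
        have h3 : i - 2 = 1 ∨ i - 2 = 3 ∨ i - 2 = 5 := by
          simp only [mem_insert, mem_singleton] at hi
          omega
        have h4 := hal (p := 2) (r := i - 2) (Or.inl ⟨rfl, h3⟩) k
        simpa using h4) ε hε
    refine ⟨C, fun D hD n _ hn hdet => ?_⟩
    have := hC D hD n hn hdet
    simpa using this
  · obtain ⟨C, hC⟩ := core 3 Nat.prime_three {3, 4, 6, 7} (by decide) (3 / 2) 7 pos_three h0 hst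
      (fun i hi n => htf Nat.prime_three i hi n) (fun i hi k => by
        have h3 : i - 2 = 1 ∨ i - 2 = 2 ∨ i - 2 = 4 ∨ i - 2 = 5 := by
          simp only [mem_insert, mem_singleton] at hi
          omega
        have h4 := hal (p := 3) (r := i - 2) (Or.inr ⟨rfl, h3⟩) k
        simpa using h4) ε hε
    refine ⟨C, fun D hD n _ hn hdet => ?_⟩
    have := hC D hD n hn hdet
    simpa using this

end

end Run7.K3.DetKCore
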