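import Pool.Agent.Run7.K3.SerK
import Pool.Agent.Run7.K3.DetKCore

/-!
Piece G (`DetK`): the determinant at `p = 2, 3`.
-/

set_option autoImplicit false

namespace Run7.K3

theorem vdet_bound (p : ℕ) (hp : p = 2 ∨ p = 3) (ε : ℝ) (hε : 0 < ε) : ∃ C : ℝ, ∀ D : ℕ, 1 ≤ D →
    ∀ n : Fin (8 * D) → ℕ, StrictMono n → (∀ t, n t ≤ 9 * D) → (vmat D n).det ≠ 0 →
      ((if p = 2 then 6 else 7 : ℝ) - ε) * (D : ℝ) ^ 2 - C ≤
        (padicValRat p (vmat D n).det : ℝ) :=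
  DetKCore.vdet_bound_of tf_zero (fun r h1 h5 n => tf_struct r h1 h5 n)
    (fun hp i hi n => tf_norm hp i hi n) (fun h k => al_norm h k) p hp ε hε

end Run7.K3
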