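import Pool.Agent.Run7.K3.Defs

/-!
Piece B: the `p`-adic norms of the entries.
-/

set_option autoImplicit false

namespace Run7.K3

open Finset

theorem norm_one_div_nat {p : ℕ} (hp : p.Prime) (k n : ℕ) (hk : k ≤ n) :
    padicNorm p (1 / (k : ℚ)) ≤ (p : ℚ) ^ Nat.log p n := by
  have : Fact p.Prime := ⟨hp⟩
  have hp1 : (1 : ℚ) ≤ p := by exact_mod_cast hp.one_le
  have hp0 : (p : ℚ) ≠ 0 := by exact_mod_cast hp.ne_zero
  rcases Nat.eq_zero_or_pos k with h0 | h0
  · subst h0; simp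
  · rw [padicNorm.div, padicNorm.one, padicNorm.eq_zpow_of_nonzero (by exact_mod_cast h0.ne'),
      padicValRat.of_nat, one_div, ← zpow_neg, neg_neg, zpow_natCast]
    apply pow_le_pow_right₀ hp1
    exact (padicValNat_le_nat_log k).trans (Nat.log_mono_right hk)

theorem norm_H2 {p : ℕ} (hp : p.Prime) (k n : ℕ) (hk : k ≤ n) :
    padicNorm p (H2 k) ≤ (p : ℚ) ^ (2 * Nat.log p n) := by
  have : Fact p.Prime := ⟨hp⟩
  have hp0 : (0 : ℚ) ≤ p := by exact_mod_cast hp.pos.le
  unfold H2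
  apply padicNorm.sum_le'
  · intro j hj
    rw [mem_range] at hj
    have h1 := norm_one_div_nat hp (j + 1) n (by omega)
    push_cast at h1
    have h2 : (1 : ℚ) / ((j : ℚ) + 1) ^ 2 = (1 / ((j : ℚ) + 1)) * (1 / ((j : ℚ) + 1)) := by
      field_simp
    rw [h2, padicNorm.mul, two_mul, pow_add]
    exact mul_le_mul h1 h1 (padicNorm.nonneg _) (by positivity)
  · positivity

/-- **Piece B.** -/
theorem row_norm {p P₀ : ℕ} (hp : p.Prime) (h3 : 3 < p) (hP : 5 ≤ P₀)
    (hH : P₀ < p → ∀ a : ℕ, 1 ≤ a → a ≤ 5 → padicNorm p (H2 (a * p / 6)) ≤ (p : ℚ)⁻¹)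
    (D r n : ℕ) (hr : r < 8 * D) :
    padicNorm p (row D r n) ≤ (p : ℚ) ^ ((if D ≤ r then Nat.log p n else 0) +
      (if 2 * D ≤ r then Nat.log p n else 0) + (if 3 * D ≤ r then dd P₀ p n else 0)) := by
  have : Fact p.Prime := ⟨hp⟩
  have hD : 0 < D := by omega
  have hp1 : (1 : ℚ) ≤ p := by exact_mod_cast hp.one_le
  have hpp : (0 : ℚ) < p := by linarith
  have hone : ∀ m : ℕ, (1 : ℚ) ≤ (p : ℚ) ^ m := fun m => one_le_pow₀ hp1
  unfold row
  by_cases hrn : r % D ≤ n
  swap
  · rw [if_neg hrn, padicNorm.zero]; positivity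
  rw [if_pos hrn]
  set k := n - r % D with hk
  have hkn : k ≤ n := by omega
  have hi8 : r / D < 8 := by
    rw [Nat.div_lt_iff_lt_mul hD]; exact hr
  have e1 : D ≤ r ↔ 1 ≤ r / D := by
    rw [Nat.le_div_iff_mul_le hD, one_mul]
  have e2 : 2 * D ≤ r ↔ 2 ≤ r / D := by
    rw [Nat.le_div_iff_mul_le hD]
  have e3 : 3 * D ≤ r ↔ 3 ≤ r / D := by
    rw [Nat.le_div_iff_mul_le hD]
  simp only [e1, e2, e3]
  generalize r / D = i at hi8
  unfold cf
  by_cases h0 : i = 0
  · subst h0
    simp only [if_true, show ¬ (1 ≤ 0) by omega, show ¬ (2 ≤ 0) by omega, show ¬ (3 ≤ 0) by omega,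
      if_false]
    split_ifs <;> simp
  rw [if_neg h0]
  have i1 : 1 ≤ i := by omega
  rw [if_pos i1]
  by_cases h1 : i = 1
  · subst h1
    simp only [if_true, show ¬ (2 ≤ 1) by omega, show ¬ (3 ≤ 1) by omega, if_false, add_zero]
    exact norm_one_div_nat hp k n hkn
  rw [if_neg h1]
  have i2 : 2 ≤ i := by omega
  rw [if_pos i2]
  by_cases h2 : i = 2
  · subst h2
    simp only [if_true, show ¬ (3 ≤ 2) by omega, if_false, add_zero]
    have h2 : (1 : ℚ) / (k : ℚ) ^ 2 = (1 / (k : ℚ)) * (1 / (k : ℚ)) := by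
      rw [one_div_mul_one_div, pow_two]
    rw [h2, padicNorm.mul, pow_add]
    exact mul_le_mul (norm_one_div_nat hp k n hkn) (norm_one_div_nat hp k n hkn)
      (padicNorm.nonneg _) (by positivity)
  rw [if_neg h2]
  have i3 : 3 ≤ i := by omega
  rw [if_pos i3]
  -- the types f_r
  obtain ⟨q, rfl⟩ : ∃ q, i = q + 2 := ⟨i - 2, by omega⟩
  have hq1 : 1 ≤ q := by omega
  have hq5 : q ≤ 5 := by omega
  have hden : (6 * (k : ℚ) + (((q + 2 : ℕ) : ℚ) - 2)) = ((6 * k + q : ℕ) : ℚ) := by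
    push_cast; ring
  rw [hden]
  have hlog : padicNorm p (H2 k) ≤ (p : ℚ) ^ (Nat.log p n + Nat.log p n) := by
    have := norm_H2 hp k n hkn
    rwa [two_mul] at this
  have hdiv : H2 k / ((6 * k + q : ℕ) : ℚ) = H2 k * (1 / ((6 * k + q : ℕ) : ℚ)) := by
    rw [mul_one_div]
  unfold dd
  split_ifs with hdd
  · rw [hdiv, padicNorm.mul, pow_add]
    exact mul_le_mul hlog (norm_one_div_nat hp _ _ (by omega)) (padicNorm.nonneg _) (by positivity)
  · push Not at hdd
    obtain ⟨hP0, h7⟩ := hdd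
    rw [add_zero]
    by_cases hpd : p ∣ 6 * k + q
    · obtain ⟨a, ha⟩ := hpd
      have ha1 : 1 ≤ a := by
        rcases Nat.eq_zero_or_pos a with h | h
        · subst h; omega
        · exact h
      have ha6 : a < 7 := by
        by_contra hcon
        push Not at hcon
        have : 7 * p ≤ p * a := by nlinarith
        omega
      have ha5 : a ≤ 5 := by
        by_contra hcon
        have : a = 6 := by omega
        subst this
        omega
      have hka : a * p / 6 = k := by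
        rw [mul_comm, ← ha]; omega
      have hH' := hH hP0 a ha1 ha5
      rw [hka] at hH'
      have hanorm : padicNorm p ((a : ℕ) : ℚ) = 1 := by
        rw [padicNorm.nat_eq_one_iff]
        intro h
        have := Nat.le_of_dvd (by omega) h
        omega
      have hn1 : padicNorm p ((6 * k + q : ℕ) : ℚ) = (p : ℚ)⁻¹ := by
        rw [ha, Nat.cast_mul, padicNorm.mul, hanorm, mul_one, padicNorm.padicNorm_p hp.one_lt]
      rw [padicNorm.div, hn1]
      calc padicNorm p (H2 k) / (p : ℚ)⁻¹ ≤ (p : ℚ)⁻¹ / (p : ℚ)⁻¹ := by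
            apply div_le_div_of_nonneg_right hH' (by positivity)
        _ = 1 := div_self (by positivity)
        _ ≤ _ := hone _
    · have hn1 : padicNorm p ((6 * k + q : ℕ) : ℚ) = 1 := by
        rw [padicNorm.nat_eq_one_iff]; exact hpd
      rw [padicNorm.div, hn1, div_one]
      exact hlog

end Run7.K3
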