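import Pool.Agent.Run7.K3.Defs

/-!
Piece A: if `p ∣ H2 (p/3)` then `p ∣ H2 (a p/6)` for `a = 1, ..., 5`.
-/

set_option autoImplicit false

namespace Run7.K3

open Finset

/-- the partial sums in `ZMod p` -/
def hz (p n : ℕ) : ZMod p := ∑ j ∈ range n, (((j : ZMod p) + 1) ^ 2)⁻¹

theorem hz_succ (p n : ℕ) : hz p (n + 1) = hz p n + (((n : ZMod p) + 1) ^ 2)⁻¹ := by
  rw [hz, hz, sum_range_succ]

theorem hz_zero (p : ℕ) : hz p 0 = 0 := by simp [hz]

theorem cast_ne {p : ℕ} (k : ℕ) (hk : 0 < k) (hkp : k < p) : (k : ZMod p) ≠ 0 := by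
  intro h
  rw [ZMod.natCast_eq_zero_iff] at h
  exact absurd (Nat.le_of_dvd hk h) (by omega)

/-- The numerator of `H2 n` over the denominator `(n!)²`. -/
def num (n : ℕ) : ℕ := ∑ j ∈ range n, (n.factorial / (j + 1)) ^ 2

theorem H2_eq (n : ℕ) : H2 n = (num n : ℚ) / (n.factorial : ℚ) ^ 2 := by
  unfold H2 num
  rw [eq_div_iff (by positivity)]
  simp only [Nat.cast_sum, Nat.cast_pow]
  rw [sum_mul]
  apply sum_congr rfl
  intro j hj
  rw [mem_range] at hj
  have hd : (j + 1) ∣ n.factorial := Nat.dvd_factorial (by omega) (by omega)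
  rw [Nat.cast_div hd (by positivity)]
  push_cast
  have : ((j : ℚ) + 1) ≠ 0 := by positivity
  field_simp

theorem num_eq {p : ℕ} [Fact p.Prime] (n : ℕ) (hn : n < p) :
    ((num n : ℕ) : ZMod p) = (n.factorial : ZMod p) ^ 2 * hz p n := by
  unfold num hz
  simp only [Nat.cast_sum, Nat.cast_pow]
  rw [mul_sum]
  apply sum_congr rfl
  intro j hj
  rw [mem_range] at hj
  have hd : (j + 1) ∣ n.factorial := Nat.dvd_factorial (by omega) (by omega)
  have h0 : ((j : ZMod p) + 1) ≠ 0 := by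
    have := cast_ne (p := p) (j + 1) (by omega) (by omega)
    push_cast at this
    exact this
  obtain ⟨c, hc⟩ := hd
  have h1 : n.factorial / (j + 1) = c := by
    rw [hc]; exact Nat.mul_div_cancel_left c (by omega)
  rw [h1, hc]
  push_cast
  field_simp

theorem norm_iff {p : ℕ} (hp : p.Prime) (n : ℕ) (hn : n < p) :
    padicNorm p (H2 n) ≤ (p : ℚ)⁻¹ ↔ hz p n = 0 := by
  have : Fact p.Prime := ⟨hp⟩
  have hf : ¬ p ∣ n.factorial := by
    rw [hp.dvd_factorial]; omega
  have hfn : padicNorm p ((n.factorial : ℕ) : ℚ) = 1 := by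
    rw [padicNorm.nat_eq_one_iff]; exact hf
  have h1 : padicNorm p (H2 n) = padicNorm p (((num n : ℕ) : ℤ) : ℚ) := by
    rw [H2_eq, padicNorm.div, pow_two, padicNorm.mul, hfn]; simp
  rw [h1]
  have h2 : padicNorm p (((num n : ℕ) : ℤ) : ℚ) ≤ (p : ℚ)⁻¹ ↔ ((p : ℤ)) ∣ ((num n : ℕ) : ℤ) := by
    have := padicNorm.dvd_iff_norm_le (p := p) (n := 1) (z := ((num n : ℕ) : ℤ))
    simp only [pow_one, Nat.cast_one, zpow_neg, zpow_one] at this
    exact this.symm
  rw [h2, Int.natCast_dvd_natCast, ← ZMod.natCast_eq_zero_iff, num_eq n hn]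
  have h3 : (n.factorial : ZMod p) ≠ 0 := by
    rw [Ne, ZMod.natCast_eq_zero_iff]; exact hf
  constructor
  · intro h
    exact (mul_eq_zero.1 h).resolve_left (pow_ne_zero _ h3)
  · intro h; rw [h, mul_zero]

/-- reflection -/
theorem hz_refl {p : ℕ} [Fact p.Prime] : ∀ n, n < p → hz p (p - 1) - hz p n = hz p (p - 1 - n)
  | 0, _ => by simp [hz_zero]
  | n + 1, h => by
    have ih := hz_refl (p := p) n (by omega)
    have h1 : p - 1 - n = (p - 1 - (n + 1)) + 1 := by omega
    rw [h1, hz_succ] at ih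
    rw [hz_succ]
    have h2 : ((p - 1 - (n + 1) : ℕ) : ZMod p) + 1 = -((n : ZMod p) + 1) := by
      have h3 : (p - 1 - (n + 1)) + 1 + (n + 1) = p := by omega
      have h4 : (((p - 1 - (n + 1)) + 1 + (n + 1) : ℕ) : ZMod p) = 0 := by
        rw [h3]; exact ZMod.natCast_self p
      push_cast at h4
      linear_combination h4
    rw [h2, neg_pow_two] at ih
    linear_combination ih

/-- duplication -/
theorem hz_dup {p : ℕ} [Fact p.Prime] (hp3 : 3 < p) : ∀ n, n < p →
    4 * hz p n = hz p (n / 2) + hz p ((p - 1) / 2) - hz p ((p - 1 - n) / 2)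
  | 0, _ => by simp [hz_zero]
  | n + 1, h => by
    have hprime : p.Prime := Fact.out
    have hodd : p % 2 = 1 := hprime.eq_two_or_odd.resolve_left (by omega)
    have ih := hz_dup (p := p) hp3 n (by omega)
    have h20 : (2 : ZMod p) ≠ 0 := by
      have := cast_ne (p := p) 2 (by omega) (by omega)
      exact_mod_cast this
    rw [hz_succ, mul_add, ih]
    rcases Nat.even_or_odd' n with ⟨m, hm | hm⟩
    · -- n = 2 m, n + 1 odd
      have e1 : (n + 1) / 2 = n / 2 := by omega
      have e2 : (p - 1 - n) / 2 = (p - 1 - (n + 1)) / 2 + 1 := by omega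
      rw [e1, e2, hz_succ]
      set t := (p - 1 - (n + 1)) / 2 with ht
      have h5 : 2 * (t + 1) + (n + 1) = p := by omega
      have h6 : (2 : ZMod p) * ((t : ZMod p) + 1) = -((n : ZMod p) + 1) := by
        have : ((2 * (t + 1) + (n + 1) : ℕ) : ZMod p) = 0 := by rw [h5]; exact ZMod.natCast_self p
        push_cast at this
        linear_combination this
      have h7 : ((n : ZMod p) + 1) ≠ 0 := by
        have := cast_ne (p := p) (n + 1) (by omega) (by omega)
        push_cast at this; exact this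
      have h8 : ((t : ZMod p) + 1) ≠ 0 := by
        have := cast_ne (p := p) (t + 1) (by omega) (by omega)
        push_cast at this; exact this
      have h9 : ((n : ZMod p) + 1) ^ 2 = 4 * ((t : ZMod p) + 1) ^ 2 := by
        have : ((n : ZMod p) + 1) ^ 2 = (2 * ((t : ZMod p) + 1)) ^ 2 := by rw [h6]; ring
        rw [this]; ring
      have h40 : (4 : ZMod p) ≠ 0 := by
        have : (4 : ZMod p) = 2 * 2 := by norm_num
        rw [this]; exact mul_ne_zero h20 h20
      rw [h9, mul_inv]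
      have : (4 : ZMod p) * (4⁻¹ * (((t : ZMod p) + 1) ^ 2)⁻¹) = (((t : ZMod p) + 1) ^ 2)⁻¹ := by
        rw [← mul_assoc, mul_inv_cancel₀ h40, one_mul]
      rw [this]; ring
    · -- n = 2 m + 1, n + 1 even
      have e1 : (n + 1) / 2 = n / 2 + 1 := by omega
      have e2 : (p - 1 - n) / 2 = (p - 1 - (n + 1)) / 2 := by omega
      rw [e1, e2, hz_succ]
      set t := n / 2 with ht
      have h5 : 2 * (t + 1) = n + 1 := by omega
      have h6 : (2 : ZMod p) * ((t : ZMod p) + 1) = ((n : ZMod p) + 1) := by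
        have : ((2 * (t + 1) : ℕ) : ZMod p) = ((n + 1 : ℕ) : ZMod p) := by rw [h5]
        push_cast at this
        exact this
      have h40 : (4 : ZMod p) ≠ 0 := by
        have : (4 : ZMod p) = 2 * 2 := by norm_num
        rw [this]; exact mul_ne_zero h20 h20
      have h9 : ((n : ZMod p) + 1) ^ 2 = 4 * ((t : ZMod p) + 1) ^ 2 := by
        rw [← h6]; ring
      rw [h9, mul_inv]
      have : (4 : ZMod p) * (4⁻¹ * (((t : ZMod p) + 1) ^ 2)⁻¹) = (((t : ZMod p) + 1) ^ 2)⁻¹ := by
        rw [← mul_assoc, mul_inv_cancel₀ h40, one_mul]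
      rw [this]; ring

theorem hz_half {p : ℕ} [Fact p.Prime] (hp3 : 3 < p) : hz p ((p - 1) / 2) = 0 := by
  have hprime : p.Prime := Fact.out
  have hodd : p % 2 = 1 := hprime.eq_two_or_odd.resolve_left (by omega)
  have h1 := hz_dup hp3 (p - 1) (by omega)
  have h2 := hz_refl (p := p) ((p - 1) / 2) (by omega)
  have e1 : p - 1 - (p - 1) / 2 = (p - 1) / 2 := by omega
  rw [e1] at h2
  rw [Nat.sub_self, Nat.zero_div, hz_zero] at h1
  have h3 : (6 : ZMod p) * hz p ((p - 1) / 2) = 0 := by linear_combination h1 - 4 * h2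
  have h6 : (6 : ZMod p) ≠ 0 := by
    have h20 := cast_ne (p := p) 2 (by omega) (by omega)
    have h30 := cast_ne (p := p) 3 (by omega) (by omega)
    have : (6 : ZMod p) = ((2 : ℕ) : ZMod p) * ((3 : ℕ) : ZMod p) := by norm_num
    rw [this]; exact mul_ne_zero h20 h30
  exact (mul_eq_zero.1 h3).resolve_left h6

theorem hz_kill {p : ℕ} [Fact p.Prime] (h5 : 5 < p) (h3 : hz p (p / 3) = 0) (a : ℕ) (ha1 : 1 ≤ a)
    (ha5 : a ≤ 5) : hz p (a * p / 6) = 0 := by
  have hprime : p.Prime := Fact.out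
  have hodd : p % 2 = 1 := hprime.eq_two_or_odd.resolve_left (by omega)
  have hm3 : p % 3 ≠ 0 := by
    intro h
    have := (Nat.prime_dvd_prime_iff_eq Nat.prime_three hprime).1 (Nat.dvd_of_mod_eq_zero h)
    omega
  have hh := hz_half (p := p) (by omega)
  have hfull : hz p (p - 1) = 0 := by
    have h2 := hz_refl (p := p) ((p - 1) / 2) (by omega)
    have e1 : p - 1 - (p - 1) / 2 = (p - 1) / 2 := by omega
    rw [e1, hh] at h2
    linear_combination h2
  have hneg : ∀ n, n < p → hz p (p - 1 - n) = - hz p n := by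
    intro n hn
    have := hz_refl (p := p) n hn
    rw [hfull] at this
    linear_combination -this
  have ht1 : hz p (p / 6) = 0 := by
    have h1 := hz_dup (p := p) (by omega) (p / 3) (by omega)
    have e1 : p / 3 / 2 = p / 6 := by omega
    have e2 : (p - 1 - p / 3) / 2 = p / 3 := by omega
    rw [e1, e2, hh, h3] at h1
    linear_combination -h1
  interval_cases a
  · rw [one_mul]; exact ht1
  · have : 2 * p / 6 = p / 3 := by omega
    rw [this]; exact h3
  · have : 3 * p / 6 = (p - 1) / 2 := by omega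
    rw [this]; exact hh
  · have : 4 * p / 6 = p - 1 - p / 3 := by omega
    rw [this, hneg _ (by omega), h3, neg_zero]
  · have : 5 * p / 6 = p - 1 - p / 6 := by omega
    rw [this, hneg _ (by omega), ht1, neg_zero]

theorem H2_kill {p : ℕ} (hp : p.Prime) (h5 : 5 < p) (h3 : padicNorm p (H2 (p / 3)) ≤ (p : ℚ)⁻¹)
    (a : ℕ) (ha1 : 1 ≤ a) (ha5 : a ≤ 5) : padicNorm p (H2 (a * p / 6)) ≤ (p : ℚ)⁻¹ := by
  have : Fact p.Prime := ⟨hp⟩
  rw [norm_iff hp _ (by omega)] at h3
  have hlt : a * p / 6 < p := by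
    rw [Nat.div_lt_iff_lt_mul (by norm_num)]
    nlinarith
  rw [norm_iff hp _ hlt]
  exact hz_kill h5 h3 a ha1 ha5

end Run7.K3
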