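import Mathlib
import Pool.Agent.Run7.K3.Defs

/-! Piece C (`Perm3`): bound for the determinant with three thresholds. -/

namespace Run7.K3

noncomputable section

open Finset

private theorem perm_sum_le {N : ℕ} (m : ℕ) (a : Fin N → ℕ) (ha : Monotone a)
    (σ : Equiv.Perm (Fin N)) :
    ∑ t : Fin N, (if m ≤ ((σ t : Fin N) : ℕ) then a t else 0) ≤
      ∑ t : Fin N, (if m ≤ (t : ℕ) then a t else 0) := by
  have hf : Monotone (fun t : Fin N => (if m ≤ (t : ℕ) then 1 else 0 : ℕ)) := by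
    intro s t hst
    have : (s : ℕ) ≤ t := hst
    simp only
    split_ifs <;> omega
  have hv : Monovary (fun t : Fin N => (if m ≤ (t : ℕ) then 1 else 0 : ℕ)) a :=
    hf.monovary ha
  have := hv.sum_comp_perm_mul_le_sum_mul (σ := σ)
  simpa using this

theorem det_norm_le3 {N p : ℕ} (hp : p.Prime) (A : Matrix (Fin N) (Fin N) ℚ) (m₁ m₂ m₃ : ℕ)
    (a b c : Fin N → ℕ) (ha : Monotone a) (hb : Monotone b) (hc : Monotone c)
    (h : ∀ r t, padicNorm p (A r t) ≤ (p : ℚ) ^ ((if m₁ ≤ (r : ℕ) then a t else 0) +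
      (if m₂ ≤ (r : ℕ) then b t else 0) + (if m₃ ≤ (r : ℕ) then c t else 0))) :
    padicNorm p A.det ≤ (p : ℚ) ^ (∑ t : Fin N, (if m₁ ≤ (t : ℕ) then a t else 0) +
      ∑ t : Fin N, (if m₂ ≤ (t : ℕ) then b t else 0) +
      ∑ t : Fin N, (if m₃ ≤ (t : ℕ) then c t else 0)) := by
  have : Fact p.Prime := ⟨hp⟩
  have hp1 : (1 : ℚ) ≤ (p : ℚ) := by exact_mod_cast hp.one_lt.le
  rw [Matrix.det_apply]
  refine padicNorm.sum_le' (fun σ _ => ?_) (by positivity)
  have h1 : padicNorm p (Equiv.Perm.sign σ • ∏ i, A (σ i) i) =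
      ∏ i, padicNorm p (A (σ i) i) := by
    have h2 : padicNorm p (Equiv.Perm.sign σ • ∏ i, A (σ i) i) =
        padicNorm p (∏ i, A (σ i) i) := by
      rcases Int.units_eq_one_or (Equiv.Perm.sign σ) with hs | hs
      · rw [hs, one_smul]
      · rw [hs, Units.neg_smul, one_smul, padicNorm.neg]
    rw [h2]
    have h3 : ∀ s : Finset (Fin N), padicNorm p (∏ i ∈ s, A (σ i) i) =
        ∏ i ∈ s, padicNorm p (A (σ i) i) := by
      intro s
      induction s using Finset.induction_on with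
      | empty => simp
      | insert x s hx ih => rw [Finset.prod_insert hx, Finset.prod_insert hx, padicNorm.mul, ih]
    exact h3 Finset.univ
  rw [h1]
  calc ∏ i, padicNorm p (A (σ i) i)
      ≤ ∏ i, (p : ℚ) ^ ((if m₁ ≤ ((σ i : Fin N) : ℕ) then a i else 0) +
          (if m₂ ≤ ((σ i : Fin N) : ℕ) then b i else 0) +
          (if m₃ ≤ ((σ i : Fin N) : ℕ) then c i else 0)) :=
        Finset.prod_le_prod (fun i _ => padicNorm.nonneg _) (fun i _ => h (σ i) i)
    _ = (p : ℚ) ^ (∑ i, ((if m₁ ≤ ((σ i : Fin N) : ℕ) then a i else 0) +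
          (if m₂ ≤ ((σ i : Fin N) : ℕ) then b i else 0) +
          (if m₃ ≤ ((σ i : Fin N) : ℕ) then c i else 0))) := by
        rw [Finset.prod_pow_eq_pow_sum]
    _ ≤ _ := by
        apply pow_le_pow_right₀ hp1
        rw [Finset.sum_add_distrib, Finset.sum_add_distrib]
        exact Nat.add_le_add (Nat.add_le_add (perm_sum_le m₁ a ha σ) (perm_sum_le m₂ b hb σ))
          (perm_sum_le m₃ c hc σ)

end

end Run7.K3
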