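import Mathlib
import Pool.Agent.Run7.K3.Defs

/-!
Piece E (`Trans`) of project K3: passing to the variable `v`, `u = v/(1+v)`.
-/

namespace Run7.K3

noncomputable section

open Finset

/-- Vandermonde, with a natural number `E` and `-(k : ℤ)`. -/
lemma tr_vandermonde (E k N : ℕ) :
    Ring.choose ((E : ℤ) - k) N = ∑ m ∈ range (E + 1), (E.choose m : ℤ) *
      (if m ≤ N then Ring.choose (-(k : ℤ)) (N - m) else 0) := by
  rw [sub_eq_add_neg, Ring.add_choose_eq N (Commute.all _ _),
    Finset.Nat.sum_antidiagonal_eq_sum_range_succ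
      (fun a b => Ring.choose (E : ℤ) a * Ring.choose (-(k : ℤ)) b)]
  have h1 : ∑ m ∈ range (N + 1), Ring.choose (E : ℤ) m * Ring.choose (-(k : ℤ)) (N - m) =
      ∑ m ∈ range (N + E + 1), (E.choose m : ℤ) *
        (if m ≤ N then Ring.choose (-(k : ℤ)) (N - m) else 0) := by
    have : range (N + 1) ⊆ range (N + E + 1) := range_subset_range.2 (by omega)
    rw [← sum_subset this]
    · refine sum_congr rfl fun m hm => ?_
      rw [Ring.choose_natCast, if_pos (by have := mem_range.1 hm; omega)]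
    · intro m _ hm
      rw [if_neg (by rw [mem_range] at hm; omega), mul_zero]
  have h2 : ∑ m ∈ range (E + 1), (E.choose m : ℤ) *
      (if m ≤ N then Ring.choose (-(k : ℤ)) (N - m) else 0) =
      ∑ m ∈ range (N + E + 1), (E.choose m : ℤ) *
        (if m ≤ N then Ring.choose (-(k : ℤ)) (N - m) else 0) := by
    refine sum_subset (range_subset_range.2 (by omega)) ?_
    intro m _ hm
    rw [Nat.choose_eq_zero_of_lt (by rw [mem_range] at hm; omega)]
    simp
  rw [h1, h2]

lemma tr_mod (D i j : ℕ) (hj : j < D) : (i * D + j) % D = j := by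
  rw [add_comm, Nat.add_mul_mod_self_right, Nat.mod_eq_of_lt hj]

lemma tr_div (D i j : ℕ) (hj : j < D) : (i * D + j) / D = i := by
  rw [mul_comm, Nat.mul_add_div (by omega), Nat.div_eq_of_lt hj, add_zero]

lemma tr_TT1 (g : ℕ → ℚ) (n m : ℕ) (hm : m ≤ n) :
    TT 1 g (n - m) = ∑ k ∈ range (n + 1),
      ((if m ≤ n - k ∧ k ≤ n then Ring.choose (-(k : ℤ)) (n - k - m) else 0 : ℤ) : ℚ) * g k := by
  unfold TT
  rw [← sum_subset (range_subset_range.2 (show n - m + 1 ≤ n + 1 by omega))]
  · refine sum_congr rfl fun k hk => ?_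
    have hk' := mem_range.1 hk
    congr 2
    unfold tc
    rw [if_pos (by omega), if_pos (by omega)]
    congr 1
    · simp
    · omega
  · intro k hk hk'
    rw [mem_range] at hk hk'
    rw [if_neg (by omega)]
    simp

lemma tr_row (D i j : ℕ) (hj : j < D) (n : ℕ) :
    TT D (row D (i * D + j)) n =
      ∑ m ∈ range (D - j), ((D - 1 - j).choose m : ℚ) * vrow D (i * D + j + m) n := by
  have hv : ∀ m ∈ range (D - j), ((D - 1 - j).choose m : ℚ) * vrow D (i * D + j + m) n =
      ((D - 1 - j).choose m : ℚ) * (if j + m ≤ n then TT 1 (cf i) (n - (j + m)) else 0) := by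
    intro m hm
    have hm' := mem_range.1 hm
    unfold vrow tf
    rw [add_assoc, tr_mod D i (j + m) (by omega), tr_div D i (j + m) (by omega)]
  rw [sum_congr rfl hv]
  unfold TT
  have hr : ∀ k ∈ range (n + 1), (tc D k n : ℚ) * row D (i * D + j) k =
      (tc D k n : ℚ) * (if j ≤ k then cf i (k - j) else 0) := by
    intro k _
    unfold row
    rw [tr_mod D i j hj, tr_div D i j hj]
  rw [sum_congr rfl hr]
  rcases lt_or_ge n j with hnj | hnj
  · rw [sum_eq_zero, sum_eq_zero]
    · intro m _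
      rw [if_neg (by omega), mul_zero]
    · intro k hk
      have := mem_range.1 hk
      rw [if_neg (by omega), mul_zero]
  · obtain ⟨n', rfl⟩ := Nat.exists_eq_add_of_le hnj
    have hL : ∑ k ∈ range (j + n' + 1), (tc D k (j + n') : ℚ) *
        (if j ≤ k then cf i (k - j) else 0) =
        ∑ k ∈ range (n' + 1), (Ring.choose (((D - 1 - j : ℕ) : ℤ) - k) (n' - k) : ℤ) * cf i k := by
      have e : j + n' + 1 = j + (n' + 1) := by ring
      rw [e, sum_range_add]
      rw [sum_eq_zero (s := range j), zero_add]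
      · refine sum_congr rfl fun k hk => ?_
        have hk' := mem_range.1 hk
        rw [if_pos (by omega)]
        unfold tc
        rw [if_pos (by omega)]
        have e1 : j + n' - (j + k) = n' - k := by omega
        have e2 : j + k - j = k := by omega
        have e3 : ((D : ℤ) - 1 - ((j + k : ℕ) : ℤ)) = ((D - 1 - j : ℕ) : ℤ) - k := by
          push_cast [Nat.cast_sub (show 1 ≤ D by omega), Nat.cast_sub (show j ≤ D - 1 by omega)]
          ring
        rw [e1, e2, e3]
      · intro k hk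
        have := mem_range.1 hk
        rw [if_neg (by omega), mul_zero]
    rw [hL]
    have hR : ∀ m ∈ range (D - j), ((D - 1 - j).choose m : ℚ) *
        (if j + m ≤ j + n' then ∑ k ∈ range (j + n' - (j + m) + 1),
          (tc 1 k (j + n' - (j + m)) : ℚ) * cf i k else 0) =
        ∑ k ∈ range (n' + 1), (((D - 1 - j).choose m : ℤ) *
          (if m ≤ n' - k then Ring.choose (-(k : ℤ)) (n' - k - m) else 0) : ℤ) * cf i k := by
      intro m hm
      split_ifs with h
      · have := tr_TT1 (cf i) n' m (by omega)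
        unfold TT at this
        have e1 : j + n' - (j + m) = n' - m := by omega
        rw [e1, this, mul_sum]
        refine sum_congr rfl fun k hk => ?_
        have hk' := mem_range.1 hk
        have : (m ≤ n' - k ∧ k ≤ n') ↔ m ≤ n' - k := by omega
        simp only [this]
        push_cast
        ring
      · rw [mul_zero, sum_eq_zero]
        intro k hk
        rw [if_neg (by omega)]
        simp
    rw [sum_congr rfl hR, sum_comm]
    refine sum_congr rfl fun k hk => ?_
    rw [← sum_mul, tr_vandermonde]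
    have e : D - j = D - 1 - j + 1 := by omega
    rw [e]
    push_cast
    rfl

/-- the transition matrix -/
def trT (D : ℕ) : Matrix (Fin (8 * D)) (Fin (8 * D)) ℚ :=
  Matrix.of fun r r' => ∑ m ∈ range (D - (r : ℕ) % D),
    if (r' : ℕ) = r + m then ((D - 1 - (r : ℕ) % D).choose m : ℚ) else 0

lemma trT_det (D : ℕ) (hD : 1 ≤ D) : (trT D).det = 1 := by
  rw [Matrix.det_of_isUpperTriangular]
  · refine prod_eq_one fun r _ => ?_
    unfold trT
    rw [Matrix.of_apply, sum_eq_single 0]
    · simp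
    · intro m _ hm
      rw [if_neg (by omega)]
    · intro h
      exfalso
      apply h
      rw [mem_range]
      have := Nat.mod_lt (r : ℕ) hD
      omega
  · intro r r' h
    unfold trT
    rw [Matrix.of_apply, sum_eq_zero]
    intro m _
    have : (r' : ℕ) < r := h
    rw [if_neg (by omega)]

/-- the intermediate matrix -/
def trW (D : ℕ) (n : Fin (8 * D) → ℕ) : Matrix (Fin (8 * D)) (Fin (8 * D)) ℚ :=
  Matrix.of fun r t => TT D (row D r) (n t)

lemma trW_eq (D : ℕ) (hD : 1 ≤ D) (n : Fin (8 * D) → ℕ) : trW D n = trT D * vmat D n := by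
  ext r t
  rw [Matrix.mul_apply]
  unfold trW trT vmat
  simp only [Matrix.of_apply]
  have hr : (r : ℕ) = (r : ℕ) / D * D + (r : ℕ) % D := (Nat.div_add_mod' _ _).symm
  have hlt : (r : ℕ) % D < D := Nat.mod_lt _ hD
  have hdiv : (r : ℕ) / D < 8 := by
    rw [Nat.div_lt_iff_lt_mul (by omega)]
    exact r.2
  have h1 := tr_row D ((r : ℕ) / D) ((r : ℕ) % D) hlt (n t)
  rw [← hr] at h1
  rw [h1]
  simp only [sum_mul]
  rw [sum_comm]
  refine sum_congr rfl fun m hm => ?_
  have hm' := mem_range.1 hm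
  rw [Fin.sum_univ_eq_sum_range (fun r' => (if r' = (r : ℕ) + m then
    ((D - 1 - (r : ℕ) % D).choose m : ℚ) else 0) * vrow D r' (n t)) (8 * D)]
  simp only [ite_mul, zero_mul]
  rw [sum_ite_eq' (range (8 * D)) ((r : ℕ) + m), if_pos]
  rw [mem_range]
  have : (r : ℕ) / D * D + D ≤ 8 * D := by
    have : (r : ℕ) / D + 1 ≤ 8 := hdiv
    nlinarith
  omega

lemma tr_span (D : ℕ) (n : Fin (8 * D) → ℕ)
    (hg : ∀ (t : Fin (8 * D)) (k : ℕ), k < n t → ∀ c : Fin (8 * D) → ℝ,
      (∀ s, s < t → ∑ r, c r * ((row D r (n s) : ℚ) : ℝ) = 0) →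
        ∑ r, c r * ((row D r k : ℚ) : ℝ) = 0) (t : Fin (8 * D)) (k : ℕ) (hk : k < n t) :
    (fun r : Fin (8 * D) => ((row D r k : ℚ) : ℝ)) ∈
      Submodule.span ℝ ((fun s : Fin (8 * D) => fun r : Fin (8 * D) =>
        ((row D r (n s) : ℚ) : ℝ)) '' {s | s < t}) := by
  by_contra hv
  obtain ⟨f, hfv, hf⟩ := Submodule.exists_le_ker_of_notMem hv
  apply hfv
  have hrep : ∀ w : Fin (8 * D) → ℝ,
      f w = ∑ r, (f fun j => if r = j then 1 else 0) * w r := by
    intro w
    rw [LinearMap.pi_apply_eq_sum_univ f w]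
    refine sum_congr rfl fun r _ => ?_
    rw [smul_eq_mul, mul_comm]
  rw [hrep]
  refine hg t k hk (fun r => f fun j => if r = j then 1 else 0) ?_
  intro s hs
  rw [← hrep]
  have : (fun r : Fin (8 * D) => ((row D r (n s) : ℚ) : ℝ)) ∈ LinearMap.ker f :=
    hf (Submodule.subset_span ⟨s, hs, rfl⟩)
  exact this

lemma tr_col (D : ℕ) (hD : 1 ≤ D) (n : Fin (8 * D) → ℕ)
    (hg : ∀ (t : Fin (8 * D)) (k : ℕ), k < n t → ∀ c : Fin (8 * D) → ℝ,
      (∀ s, s < t → ∑ r, c r * ((row D r (n s) : ℚ) : ℝ) = 0) →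
        ∑ r, c r * ((row D r k : ℚ) : ℝ) = 0) (t : Fin (8 * D)) :
    ∃ u : Fin (8 * D) → ℝ, ∀ r : Fin (8 * D), ((TT D (row D r) (n t) : ℚ) : ℝ) =
      ((row D r (n t) : ℚ) : ℝ) + ∑ s ∈ univ.filter (· < t), u s * ((row D r (n s) : ℚ) : ℝ) := by
  have hmem : (∑ k ∈ range (n t), ((tc D k (n t) : ℤ) : ℝ) •
      (fun r : Fin (8 * D) => ((row D r k : ℚ) : ℝ))) ∈
      Submodule.span ℝ ((fun s : Fin (8 * D) => fun r : Fin (8 * D) =>
        ((row D r (n s) : ℚ) : ℝ)) '' {s | s < t}) :=
    Submodule.sum_mem _ fun k hk => Submodule.smul_mem _ _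
      (tr_span D n hg t k (mem_range.1 hk))
  have hset : ({s | s < t} : Set (Fin (8 * D))) = ((univ.filter (· < t) : Finset _) : Set _) := by
    ext; simp
  rw [hset, Submodule.mem_span_image_finset_iff_exists_fun'] at hmem
  obtain ⟨u, hu⟩ := hmem
  refine ⟨u, fun r => ?_⟩
  have := congrFun hu r
  simp only [Finset.sum_apply, Pi.smul_apply, smul_eq_mul] at this
  rw [this]
  unfold TT
  rw [sum_range_succ]
  have : tc D (n t) (n t) = 1 := by
    unfold tc
    simp
  rw [this]
  push_cast
  ring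

theorem det_transfer (D : ℕ) (hD : 1 ≤ D) (n : Fin (8 * D) → ℕ) (hn : StrictMono n)
    (hg : ∀ (t : Fin (8 * D)) (k : ℕ), k < n t → ∀ c : Fin (8 * D) → ℝ,
      (∀ s, s < t → ∑ r, c r * ((row D r (n s) : ℚ) : ℝ) = 0) →
        ∑ r, c r * ((row D r k : ℚ) : ℝ) = 0) :
    (mat D n).det = (vmat D n).det := by
  have h1 : (trW D n).det = (vmat D n).det := by
    rw [trW_eq D hD, Matrix.det_mul, trT_det D hD, one_mul]
  rw [← h1]
  choose u hu using tr_col D hD n hg
  set U : Matrix (Fin (8 * D)) (Fin (8 * D)) ℝ :=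
    Matrix.of fun s t => if s = t then 1 else if s < t then u t s else 0 with hU
  have hUdet : U.det = 1 := by
    rw [Matrix.det_of_isUpperTriangular]
    · exact prod_eq_one fun t _ => by simp [hU]
    · intro s t h
      have h' : t < s := h
      simp only [hU, Matrix.of_apply]
      rw [if_neg (by rintro rfl; exact lt_irrefl _ h'), if_neg (not_lt.2 h'.le)]
  have hmul : (trW D n).map (fun x : ℚ => (x : ℝ)) = (mat D n).map (fun x : ℚ => (x : ℝ)) * U := by
    ext r t
    rw [Matrix.mul_apply]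
    simp only [Matrix.map_apply, trW, mat, Matrix.of_apply, hU]
    rw [hu t r]
    have e : ∀ s : Fin (8 * D), ((row D r (n s) : ℚ) : ℝ) *
        (if s = t then 1 else if s < t then u t s else 0) =
        (if s = t then ((row D r (n s) : ℚ) : ℝ) else 0) +
          (if s < t then u t s * ((row D r (n s) : ℚ) : ℝ) else 0) := by
      intro s
      rcases lt_trichotomy s t with h | h | h
      · rw [if_neg h.ne, if_pos h, if_neg h.ne, if_pos h]; ring
      · subst h; simp
      · rw [if_neg h.ne', if_neg (not_lt.2 h.le), if_neg h.ne', if_neg (not_lt.2 h.le)]; ring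
    rw [sum_congr rfl fun s _ => e s, sum_add_distrib, sum_ite_eq' univ t, sum_filter]
    simp
  have hdet := congrArg Matrix.det hmul
  rw [Matrix.det_mul, hUdet, mul_one] at hdet
  have c1 : ((trW D n).map (fun x : ℚ => (x : ℝ))).det = (((trW D n).det : ℚ) : ℝ) := by
    have := (RingHom.map_det (Rat.castHom ℝ) (trW D n)).symm
    simpa using this
  have c2 : ((mat D n).map (fun x : ℚ => (x : ℝ))).det = (((mat D n).det : ℚ) : ℝ) := by
    have := (RingHom.map_det (Rat.castHom ℝ) (mat D n)).symm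
    simpa using this
  rw [c1, c2] at hdet
  exact_mod_cast hdet.symm

end

end Run7.K3
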