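import Pool.Agent.Run7.K3.Defs

namespace Run7.K3

open Finset

namespace Zero

def zI (p : ℕ) (x : ℚ) : Prop := padicNorm p x ≤ 1
def zJ (p : ℕ) (x : ℚ) : Prop := padicNorm p x < 1

section
variable {p : ℕ} [hp : Fact p.Prime]

lemma zI_of_zJ {x : ℚ} (hx : zJ p x) : zI p x := le_of_lt hx

lemma zI_zero : zI p 0 := by simp [zI]
lemma zJ_zero : zJ p 0 := by simp [zJ]

lemma zI_add {x y : ℚ} (hx : zI p x) (hy : zI p y) : zI p (x + y) :=
  (padicNorm.nonarchimedean).trans (max_le hx hy)

lemma zJ_add {x y : ℚ} (hx : zJ p x) (hy : zJ p y) : zJ p (x + y) :=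
  (padicNorm.nonarchimedean).trans_lt (max_lt hx hy)

lemma zI_neg {x : ℚ} (hx : zI p x) : zI p (-x) := by
  unfold zI at *; rwa [padicNorm.neg]

lemma zJ_neg {x : ℚ} (hx : zJ p x) : zJ p (-x) := by
  unfold zJ at *; rwa [padicNorm.neg]

lemma zI_sub {x y : ℚ} (hx : zI p x) (hy : zI p y) : zI p (x - y) := by
  rw [sub_eq_add_neg]; exact zI_add hx (zI_neg hy)

lemma zJ_sub {x y : ℚ} (hx : zJ p x) (hy : zJ p y) : zJ p (x - y) := by
  rw [sub_eq_add_neg]; exact zJ_add hx (zJ_neg hy)

lemma zI_mul {x y : ℚ} (hx : zI p x) (hy : zI p y) : zI p (x * y) := by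
  unfold zI at *; rw [padicNorm.mul]
  exact mul_le_one₀ hx (padicNorm.nonneg _) hy

lemma zJ_mul {x y : ℚ} (hx : zI p x) (hy : zJ p y) : zJ p (x * y) := by
  unfold zI zJ at *; rw [padicNorm.mul]
  calc _ ≤ 1 * padicNorm p y := mul_le_mul_of_nonneg_right hx (padicNorm.nonneg _)
    _ < 1 := by simpa using hy

lemma zJ_mul' {x y : ℚ} (hx : zJ p x) (hy : zI p y) : zJ p (x * y) := by
  rw [mul_comm]; exact zJ_mul hy hx

lemma zI_sum {ι : Type*} (s : Finset ι) (f : ι → ℚ) (h : ∀ i ∈ s, zI p (f i)) :
    zI p (∑ i ∈ s, f i) := by
  classical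
  induction s using Finset.induction_on with
  | empty => simpa using zI_zero
  | insert a s ha ih =>
    rw [Finset.sum_insert ha]
    exact zI_add (h a (by simp)) (ih fun i hi => h i (by simp [hi]))

lemma zJ_sum {ι : Type*} (s : Finset ι) (f : ι → ℚ) (h : ∀ i ∈ s, zJ p (f i)) :
    zJ p (∑ i ∈ s, f i) := by
  classical
  induction s using Finset.induction_on with
  | empty => simpa using zJ_zero
  | insert a s ha ih =>
    rw [Finset.sum_insert ha]
    exact zJ_add (h a (by simp)) (ih fun i hi => h i (by simp [hi]))

lemma zI_nat (n : ℕ) : zI p (n : ℚ) := by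
  have := padicNorm.of_nat (p := p) n
  exact this

lemma zI_int (n : ℤ) : zI p (n : ℚ) := padicNorm.of_int n

lemma zJ_p : zJ p (p : ℚ) := by
  unfold zJ
  rw [padicNorm.padicNorm_p_of_prime]
  have : (1 : ℚ) < p := by exact_mod_cast hp.out.one_lt
  rw [inv_lt_one₀ (by linarith)]; exact this

lemma zI_inv_nat {n : ℕ} (h : ¬ p ∣ n) : zI p ((n : ℚ)⁻¹) := by
  have hn : (n : ℚ) ≠ 0 := by
    rintro h0; apply h; have : n = 0 := by exact_mod_cast h0
    simp [this]
  have h1 : padicNorm p (n : ℚ) = 1 := (padicNorm.nat_eq_one_iff n).2 h
  have h2 : padicNorm p ((n : ℚ) * (n : ℚ)⁻¹) = 1 := by rw [mul_inv_cancel₀ hn]; simp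
  rw [padicNorm.mul, h1, one_mul] at h2
  exact h2.le

lemma zI_one_div_nat {n : ℕ} (h : ¬ p ∣ n) : zI p (1 / (n : ℚ)) := by
  rw [one_div]; exact zI_inv_nat h

/-- a rational number whose denominator is less than `p` is `p`-integral -/
lemma zI_of_den {q : ℚ} (h : q.den < p) : zI p q := by
  have h1 : ¬ p ∣ q.den := fun h2 => by
    have := Nat.le_of_dvd q.den_pos h2
    omega
  rw [← Rat.num_div_den q, div_eq_mul_inv]
  exact zI_mul (zI_int _) (zI_inv_nat h1)

/-- division by `p`. -/
lemma zI_div_p {x : ℚ} (hx : zJ p x) : zI p (x / p) := by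
  by_cases h0 : x = 0
  · simp [h0, zI_zero]
  have hpp : (1 : ℚ) < p := by exact_mod_cast hp.out.one_lt
  unfold zI zJ at *
  have h1 : padicNorm p (x / p) = padicNorm p x * p := by
    rw [padicNorm.div, padicNorm.padicNorm_p_of_prime, div_inv_eq_mul]
  rw [h1]
  rw [padicNorm.eq_zpow_of_nonzero h0] at hx ⊢
  have h2 : -padicValRat p x < 0 := by
    by_contra h3
    push Not at h3
    have := one_le_zpow₀ hpp.le h3
    linarith
  have h3 : (p : ℚ) ^ (-padicValRat p x) * p = (p : ℚ) ^ (-padicValRat p x + 1) := by
    rw [zpow_add_one₀ (by linarith)]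
  rw [h3]
  exact zpow_le_one_of_nonpos₀ hpp.le (by linarith)


/-! ### Residues -/

lemma H2_succ (k : ℕ) : H2 (k + 1) = H2 k + 1 / ((k : ℚ) + 1) ^ 2 := by
  simp [H2, Finset.sum_range_succ]

lemma H2_zero : H2 0 = 0 := by simp [H2]

lemma H2_res (k : ℕ) : zI p (H2 k - H2 (k / p) / (p : ℚ) ^ 2) := by
  have hp0 : (p : ℚ) ≠ 0 := by exact_mod_cast hp.out.ne_zero
  induction k with
  | zero => simp [H2_zero, zI_zero]
  | succ k ih =>
    rw [H2_succ, Nat.succ_div]
    by_cases h : p ∣ k + 1
    · rw [if_pos h, H2_succ]
      obtain ⟨q, hq⟩ := h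
      have hq0 : q ≠ 0 := by rintro rfl; simp at hq
      have h1 : k / p + 1 = q := by
        have h2 := Nat.succ_div (a := k) (b := p)
        rw [if_pos ⟨q, hq⟩, hq, Nat.mul_div_cancel_left _ hp.out.pos] at h2
        exact h2.symm
      have h3 : ((k : ℚ) + 1) = p * q := by exact_mod_cast hq
      have h4 : (((k / p : ℕ) : ℚ) + 1) = q := by exact_mod_cast h1
      rw [h3, h4]
      have hq1 : (q : ℚ) ≠ 0 := by exact_mod_cast hq0
      have : H2 k + 1 / ((p : ℚ) * q) ^ 2 - (H2 (k / p) + 1 / (q : ℚ) ^ 2) / (p : ℚ) ^ 2
          = H2 k - H2 (k / p) / (p : ℚ) ^ 2 := by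
        field_simp
        ring
      rw [this]; exact ih
    · rw [if_neg h, add_zero]
      have h1 : zI p (1 / ((k : ℚ) + 1) ^ 2) := by
        have h2 := zI_one_div_nat (p := p) h
        have h3 : (1 : ℚ) / ((k : ℚ) + 1) ^ 2
            = (1 / ((k + 1 : ℕ) : ℚ)) * (1 / ((k + 1 : ℕ) : ℚ)) := by
          push_cast
          field_simp
        rw [h3]; exact zI_mul h2 h2
      have := zI_add ih h1
      convert this using 1
      ring

/-- the residue of `p ^ min i 3 * cf i k` -/
noncomputable def mu (p i k : ℕ) : ℚ :=
  if i = 1 then (if p ∣ k then 1 / ((k / p : ℕ) : ℚ) else 0)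
  else if i = 2 then (if p ∣ k then 1 / ((k / p : ℕ) : ℚ) ^ 2 else 0)
  else if p ∣ 6 * k + (i - 2) then H2 (k / p) / (((6 * k + (i - 2)) / p : ℕ) : ℚ) else 0

lemma H2_int {l : ℕ} (hl : l < p) : zI p (H2 l) := by
  have := H2_res (p := p) l
  rw [Nat.div_eq_of_lt hl, H2_zero] at this
  simpa using this

lemma mu_cong {i k : ℕ} (hi : 1 ≤ i) (hi7 : i ≤ 7) (hk : k < 8 * p) (hp0 : 48 < p) :
    zJ p ((p : ℚ) ^ (min i 3) * cf i k - mu p i k) := by
  have hpq : (p : ℚ) ≠ 0 := by exact_mod_cast hp.out.ne_zero
  rcases (by omega : i = 1 ∨ i = 2 ∨ 3 ≤ i) with h | h | h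
  · subst h
    simp only [cf, mu, if_neg (by norm_num : ¬ (1 : ℕ) = 0), if_true]
    split_ifs with hd
    · obtain ⟨q, rfl⟩ := hd
      rw [Nat.mul_div_cancel_left _ hp.out.pos]
      have : (p : ℚ) ^ (min 1 3) * (1 / ((p * q : ℕ) : ℚ)) - 1 / (q : ℚ) = 0 := by
        push_cast
        simp only [show min 1 3 = 1 from rfl, pow_one]
        by_cases hq : (q : ℚ) = 0
        · simp [hq]
        · field_simp; ring
      rw [this]; exact zJ_zero
    · simp only [show min 1 3 = 1 from rfl, pow_one, sub_zero]
      exact zJ_mul' zJ_p (zI_one_div_nat hd)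
  · subst h
    simp only [cf, mu, if_neg (by norm_num : ¬ (2 : ℕ) = 0), if_neg (by norm_num : ¬ (2 : ℕ) = 1),
      if_true]
    split_ifs with hd
    · obtain ⟨q, rfl⟩ := hd
      rw [Nat.mul_div_cancel_left _ hp.out.pos]
      have : (p : ℚ) ^ (min 2 3) * (1 / ((p * q : ℕ) : ℚ) ^ 2) - 1 / (q : ℚ) ^ 2 = 0 := by
        push_cast
        simp only [show min 2 3 = 2 from rfl]
        by_cases hq : (q : ℚ) = 0
        · simp [hq]
        · field_simp; ring
      rw [this]; exact zJ_zero
    · simp only [show min 2 3 = 2 from rfl, sub_zero]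
      have h1 := zJ_mul' zJ_p (zI_one_div_nat hd)
      have h2 := zJ_mul (zI_of_zJ h1) h1
      convert h2 using 1
      ring
  · have h1 : i ≠ 0 := by omega
    have h2 : i ≠ 1 := by omega
    have h3 : i ≠ 2 := by omega
    simp only [cf, mu, if_neg h1, if_neg h2, if_neg h3, show min i 3 = 3 by omega]
    have e1 : (6 * (k : ℚ) + ((i : ℚ) - 2)) = ((6 * k + (i - 2) : ℕ) : ℚ) := by
      push_cast [Nat.cast_sub (by omega : 2 ≤ i)]
      ring
    rw [e1]
    set t : ℕ := 6 * k + (i - 2) with ht
    have ht0 : t ≠ 0 := by omega
    have htq : (t : ℚ) ≠ 0 := by exact_mod_cast ht0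
    have h4 : zJ p ((p : ℚ) ^ 2 * H2 k - H2 (k / p)) := by
      have h5 := zJ_mul' (zJ_mul' (zJ_p (p := p)) (zI_nat p)) (H2_res (p := p) k)
      convert h5 using 1
      field_simp
    have h6 : zI p (H2 (k / p)) := by
      apply H2_int
      have : k / p < 8 := by rw [Nat.div_lt_iff_lt_mul hp.out.pos]; exact hk
      omega
    split_ifs with hd
    · obtain ⟨q, hq⟩ := hd
      have hq0 : q ≠ 0 := by rintro rfl; simp at hq; omega
      have hqp : q < p := by
        have : p * q < p * 48 := by
          rw [← hq]; omega
        have := lt_of_mul_lt_mul_left this (Nat.zero_le p)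
        omega
      have hqn : ¬ p ∣ q := fun h => by
        have := Nat.le_of_dvd (Nat.pos_of_ne_zero hq0) h
        omega
      rw [hq, Nat.mul_div_cancel_left _ hp.out.pos]
      have hq1 : (q : ℚ) ≠ 0 := by exact_mod_cast hq0
      have h7 := zJ_mul' h4 (zI_one_div_nat hqn)
      convert h7 using 1
      push_cast
      field_simp
    · rw [sub_zero]
      have h8 : zI p ((p : ℚ) ^ 2 * H2 k) := by
        have := zI_add (zI_of_zJ h4) h6
        convert this using 1
        ring
      have h9 := zJ_mul' (zJ_mul h8 (zJ_p (p := p))) (zI_one_div_nat hd)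
      convert h9 using 1
      field_simp

end

/-! ### The linear systems -/

/-- The values `H2 0, ..., H2 7`. -/
def hh : ℕ → ℚ
  | 0 => 0
  | 1 => 1
  | 2 => 5/4
  | 3 => 49/36
  | 4 => 205/144
  | 5 => 5269/3600
  | 6 => 5369/3600
  | 7 => 266681/176400
  | _ => 0

/-- The matrices of the linear systems. -/
def MM (m : ℕ) (l c : Fin 7) : ℚ :=
  if c.val = 0 then 1 / ((l.val + 1 : ℕ) : ℚ)
  else if c.val = 1 then 1 / ((l.val + 1 : ℕ) : ℚ) ^ 2
  else if c.val - 1 ≤ m then hh (l.val + 1) / ((c.val - 1 + 6 * (l.val + 1) : ℕ) : ℚ)
  else hh l.val / ((c.val - 1 + 6 * l.val : ℕ) : ℚ)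

/-- Their inverses. -/
def NN : ℕ → List (List ℚ)
  | 0 => [
    [3131585734/1846307719,
     -8262662069970/1846307719,
     442678379991120/1846307719,
     -4421367336216600/1846307719,
     14918960037290400/1846307719,
     -19834152564240000/1846307719,
     8986687544772000/1846307719],
    [-1285278015/1846307719,
     8262662069970/1846307719,
     -442678379991120/1846307719,
     4421367336216600/1846307719,
     -14918960037290400/1846307719,
     19834152564240000/1846307719,
     -8986687544772000/1846307719],
    [-432788461432847/19142518430592,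
     405769558841627981/9571259215296,
     -122150544957369929/66467077884,
     13367648306516447515/797604934608,
     -297732925351288700/5538923157,
     1149569512812755125/16616769471,
     -3055540933623266725/99700616826],
    [12328500201160/149550925239,
     -39009045598643120/149550925239,
     198769973764019840/16616769471,
     -5554948163520458560/49850308413,
     2001740443775072000/5538923157,
     -7781974302531520000/16616769471,
     10390231723805024000/49850308413],
    [-127278659562183/827145858112,
     36565788242751075/59081847008,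
     -109574063646753069/3692615438,
     29101176069308350425/103393232264,
     -1701875452795941150/1846307719,
     2218903495938123750/1846307719,
     -991667850284829375/1846307719],
    [22391806270240/149550925239,
     -101617743899228480/149550925239,
     560604512847579200/16616769471,
     -16194043598950624000/49850308413,
     5942185470917696000/5538923157,
     -23366005260505600000/16616769471,
     31443327973438304000/49850308413],
    [-1184248103661095/19142518430592,
     2826919027262726165/9571259215296,
     -1001139615260429645/66467077884,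
     117087789627830384275/797604934608,
     -2703802529370692750/5538923157,
     10679310895905392125/16616769471,
     -28831339439362854625/99700616826]]
  | 1 => [
    [-22088738453721625/1861155140234514,
     1147345954045812521/54739857065721,
     -15743640952127743872/18246619021907,
     2376237443173603807820/310192523372419,
     -7497144711914565708000/310192523372419,
     561332657484863544000/18246619021907,
     -4193740631101523454400/310192523372419],
    [125089457722124413/11166930841407084,
     -5857717428381345527/328439142394326,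
     13271888748284493544/18246619021907,
     -5979094575160396937170/930577570117257,
     6268103196064445954400/310192523372419,
     -468285148683078188000/18246619021907,
     10479009730971762856400/930577570117257],
    [130269326891286947/11166930841407084,
     -7184508071254707193/328439142394326,
     17302265426902752296/18246619021907,
     -8047324280522901404030/930577570117257,
     8603290610950838275200/310192523372419,
     -651332561612497492000/18246619021907,
     14715485136329652547600/930577570117257],
    [-264520555801570432/2791732710351771,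
     1303018745040556544/18246619021907,
     -133608592664010685312/54739857065721,
     55600147698489349795840/2791732710351771,
     -18572455101206031916800/310192523372419,
     4043284377504683584000/54739857065721,
     -88659237025750368723200/2791732710351771],
    [465688952282282463/1240770093489676,
     -13627402465543030593/36493238043814,
     243452234635126232373/18246619021907,
     -34379047666519105741290/310192523372419,
     104352497534846344615650/310192523372419,
     -7618134984262404588000/18246619021907,
     55910509015984647529050/310192523372419],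
    [-94206661463548480/164219571197163,
     111171968098288697600/164219571197163,
     -457327954814709711040/18246619021907,
     11571523632135929369600/54739857065721,
     -11806866083801076288000/18246619021907,
     14731494545460295680000/18246619021907,
     -19149744843586011424000/54739857065721],
    [106649716309787035/328439142394326,
     -23512949739732157705/54739857065721,
     895611446533131112015/54739857065721,
     -22953211690677330731900/164219571197163,
     7863585760356957881250/18246619021907,
     -29572194461489424976000/54739857065721,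
     38566853065928832510250/164219571197163]]
  | 2 => [
    [1923691446205113627/16507150214503082,
     -1877245783398993312305/24760725321754623,
     20179051873555296611680/8253575107251541,
     -478605819109823367668420/24760725321754623,
     470211499987323937869600/8253575107251541,
     -572260225997184223240000/8253575107251541,
     730879646177476634608000/24760725321754623],
    [-21032283872713646645/297128703861055476,
     6530329491172379267375/148564351930527738,
     -11428038716024306389440/8253575107251541,
     89203437263059461972630/8253575107251541,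
     -260819978783514061119600/8253575107251541,
     315689406703490391040000/8253575107251541,
     -133862625742646938060000/8253575107251541],
    [-194919648169426018475/297128703861055476,
     71509176052858055857345/148564351930527738,
     -402388336054638278508800/24760725321754623,
     9782419869713144534610730/74282175965263869,
     -3253339451917749709242000/8253575107251541,
     12003811267859608990520000/24760725321754623,
     -15448578711668725218596000/74282175965263869],
    [29097261138172747520/74282175965263869,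
     -2436645053225840737280/8253575107251541,
     249848068281699981533440/24760725321754623,
     -6116016246833828477542400/74282175965263869,
     2042970061132663510848000/8253575107251541,
     -7560941785933758302080000/24760725321754623,
     9752516072832540559552000/74282175965263869],
    [-7454594145429923499/33014300429006164,
     1314398983560651957969/16507150214503082,
     -17683638316097742977850/8253575107251541,
     128092981825818394469370/8253575107251541,
     -358536571371847066690800/8253575107251541,
     421724482237947823861500/8253575107251541,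
     -175248744162783996404700/8253575107251541],
    [54818704195395103040/74282175965263869,
     -23144621711639064116480/74282175965263869,
     216015890475040664993600/24760725321754623,
     -4776766538990618511539200/74282175965263869,
     1500193705751093219328000/8253575107251541,
     -5326980773588686889600000/24760725321754623,
     6669844670066296248992000/74282175965263869],
    [-99977045827283666965/148564351930527738,
     7982302680793008973405/24760725321754623,
     -231233956753695842958550/24760725321754623,
     5194642760042572221885500/74282175965263869,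
     -1646366359884624697704000/8253575107251541,
     5880798000380600184464500/24760725321754623,
     -7394028258072391043531500/74282175965263869]]
  | 3 => [
    [-22075644121653936569/13860681194792406,
     280905579769127498185/533103122876631,
     -31818124890098449966520/2310113532465401,
     17441244396548807819820/177701040958877,
     -628018012142021475402400/2310113532465401,
     733330729382751673250000/2310113532465401,
     -23315996109989563442000/177701040958877],
    [42825690386529171275/83164087168754436,
     -520094204357975812565/3198618737259786,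
     9640793298293446055160/2310113532465401,
     -5233542916302188364690/177701040958877,
     187318180844102499920400/2310113532465401,
     -217838973050268087490000/2310113532465401,
     6905714439588048238000/177701040958877],
    [104152577666249029295/3198618737259786,
     -5988142390072106038775/533103122876631,
     159367344595024024094650/533103122876631,
     -382313441153437146813460/177701040958877,
     3196697914791366719384000/533103122876631,
     -3748803410005158507677500/533103122876631,
     1554352313323235563637500/533103122876631],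
    [-6990769317652440320/177701040958877,
     21935873658994501606400/1599309368629893,
     -195602536911721163544320/533103122876631,
     470645452447776276070400/177701040958877,
     -3942958807300757468224000/533103122876631,
     4630283457179171792000000/533103122876631,
     -1921782788824605586880000/533103122876631],
    [111818912181448852485/9240454129861604,
     -1516614211800752259195/355402081917754,
     265254574741466144667750/2310113532465401,
     -147799594414405839772350/177701040958877,
     5378048570577706000362000/2310113532465401,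
     -6325867233569217357922500/2310113532465401,
     202210089418596918928500/177701040958877],
    [-7992420956688118720/20791021792188609,
     44901262617048597760/533103122876631,
     -13347617239292817342400/6930340597396203,
     2281550056220423296000/177701040958877,
     -236798790662737436672000/6930340597396203,
     269232556315250577280000/6930340597396203,
     -8398619360422873120000/533103122876631],
    [24149177044880200775/27721362389584812,
     -710521370173197658075/3198618737259786,
     36819074287610363256200/6930340597396203,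
     -6432428209476690909950/177701040958877,
     676305752424992967970000/6930340597396203,
     -775557251409543436988000/6930340597396203,
     24341280861986310530000/533103122876631]]
  | 4 => [
    [11317857487972447825/908372023192572,
     -579524047837726845854/227093005798143,
     17146869298212114022155/302790674397524,
     -28097738290969912459440/75697668599381,
     73968303747166768408800/75697668599381,
     -83467321962975510955500/75697668599381,
     33661128464837944888125/75697668599381],
    [-14942972431778241305/5450232139155432,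
     375343962044518401935/681279017394429,
     -7353537499904924929645/605581348795048,
     6004267091778667573680/75697668599381,
     -15773779007906562439600/75697668599381,
     17774883855959973321250/75697668599381,
     -14322547669444139538875/151395337198762],
    [-1137167344060027273175/2725116069577716,
     19832201651162637356620/227093005798143,
     -1775746875129905544591725/908372023192572,
     974481923373779706824120/75697668599381,
     -7718490018828939333256000/227093005798143,
     8726999744318690204825000/227093005798143,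
     -3524540787392889613724375/227093005798143],
    [452278765220935452800/681279017394429,
     -95622771543313908974080/681279017394429,
     238919056424028798097280/75697668599381,
     -1577396566880664014284800/75697668599381,
     4171505971184817289024000/75697668599381,
     -4721956106000985371520000/75697668599381,
     1908641485399172684160000/75697668599381],
    [-217097668439896011075/605581348795048,
     5823470445214799552175/75697668599381,
     -1054861685475826180582575/605581348795048,
     873998328513694717078200/75697668599381,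
     -2317248560345652239310000/75697668599381,
     2627715974292902682551250/75697668599381,
     -2127083843182713339164625/151395337198762],
    [45956420500956682640/681279017394429,
     -3356369380624382682560/227093005798143,
     76748799125933699718800/227093005798143,
     -170545866702476641376000/75697668599381,
     1361593046310740260864000/227093005798143,
     -1548087198812690819360000/227093005798143,
     627796797191609765720000/227093005798143],
    [-5363314081334602855/5450232139155432,
     125587682526202041145/681279017394429,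
     -2411404594685273985875/605581348795048,
     1950282530354909150400/75697668599381,
     -5095225901461217522000/75697668599381,
     5720804235296211272750/75697668599381,
     -4597883309613420413125/151395337198762]]
  | 5 => [
    [-1072044706065949/238653066219,
     148820707228660376/238653066219,
     -951828471795296040/79551022073,
     5778260355684594960/79551022073,
     -14506127256648216000/79551022073,
     15848518393570630800/79551022073,
     -6243504652046046000/79551022073],
    [484885300478194/715959198657,
     -64099466024085128/715959198657,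
     134592359009906930/79551022073,
     -811028257809216720/79551022073,
     2027131093278592000/79551022073,
     -2208294422822131600/79551022073,
     868161013287799000/79551022073],
    [1377449347054963086905/5567298728756832,
     -25879743805868479025135/695912341094604,
     454586887201248116039725/618588747639648,
     -29188591529789333172440/6443632787913,
     221891083932595093607500/19330898363739,
     -487908388202439108802625/38661796727478,
     772331683870489514646875/154647186909912],
    [-93825056390831846080/173978085273651,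
     14793064677150449930240/173978085273651,
     -33101372889778729215680/19330898363739,
     68705707642686802688000/6443632787913,
     -525605357036583503680000/19330898363739,
     580361292705040118272000/19330898363739,
     -230388986794317551200000/19330898363739],
    [626332581055190625/1272816353168,
     -13111115756909044875/159102044146,
     2163744348365909486925/1272816353168,
     -853075999977791171400/79551022073,
     2193108493105774755000/79551022073,
     -2435089193974241938125/79551022073,
     3882371535400064812875/318204088292],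
    [-39858783507002521600/173978085273651,
     7093803980521842584000/173978085273651,
     -16664416657127882165600/19330898363739,
     35513423142538505964800/6443632787913,
     -276222175601391120640000/19330898363739,
     308491304511206643904000/19330898363739,
     -123485008991408661520000/19330898363739],
    [252075761822726334185/5567298728756832,
     -5902621078731495933815/695912341094604,
     113336015950207877336125/618588747639648,
     -7638606577223394172400/6443632787913,
     59868904342169305883500/19330898363739,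
     -134438899529460964909625/38661796727478,
     216100515551830759416875/154647186909912]]
  | _ => []

def NE (m : ℕ) (i l : Fin 7) : ℚ := ((NN m).getD i.val []).getD l.val 0

theorem NM (m : ℕ) (hm : m < 6) : ∀ i j : Fin 7,
    ∑ l : Fin 7, NE m i l * MM m l j = if i = j then 1 else 0 := by
  interval_cases m <;> decide +kernel

theorem NE_den (m : ℕ) (hm : m < 6) : ∀ i l : Fin 7, (NE m i l).den < 10 ^ 20 := by
  interval_cases m <;> decide +kernel

theorem hh_eq : ∀ l : ℕ, l ≤ 7 → H2 l = hh l := by
  intro l hl
  interval_cases l <;> simp [H2, hh, Finset.sum_range_succ] <;> norm_num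

section
variable {p : ℕ} [hp : Fact p.Prime]

lemma lin_solve {m : ℕ} (hm : m < 6) (hp0 : 10 ^ 20 < p) (z : Fin 7 → ℚ)
    (hz : ∀ l : Fin 7, zJ p (∑ c, MM m l c * z c)) : ∀ c, zJ p (z c) := by
  intro c
  have : z c = ∑ l, NE m c l * (∑ j, MM m l j * z j) := by
    simp_rw [Finset.mul_sum, ← mul_assoc]
    rw [Finset.sum_comm]
    simp_rw [← Finset.sum_mul, NM m hm]
    simp
  rw [this]
  exact zJ_sum _ _ fun l _ => zJ_mul (zI_of_den (lt_trans (NE_den m hm c l) hp0)) (hz l)

/-- evaluation of the convolution sums -/
lemma conv_single {κ ν l : ℕ} (hκ : κ < p) (hν : ν < p) (hl : 1 ≤ l) (Z g h : ℕ → ℚ)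
    (hg : ∀ k, g k = if k % p = κ then h (k / p) else 0) :
    ∑ j ∈ range p, Z j * g (ν + l * p - j) =
      if κ ≤ ν then Z (ν - κ) * h l else Z (ν + p - κ) * h (l - 1) := by
  have hpp := hp.out.pos
  obtain ⟨l', rfl⟩ : ∃ l', l = l' + 1 := ⟨l - 1, by omega⟩
  have key : ∀ j, j < p → ((j ≤ ν → (ν + (l' + 1) * p - j) % p = ν - j ∧
      (ν + (l' + 1) * p - j) / p = l' + 1) ∧
      (ν < j → (ν + (l' + 1) * p - j) % p = ν + p - j ∧ (ν + (l' + 1) * p - j) / p = l')) := by
    intro j hj
    constructor
    · intro h1
      have e : ν + (l' + 1) * p - j = (ν - j) + p * (l' + 1) := by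
        rw [mul_comm p]; omega
      rw [e, Nat.add_mul_mod_self_left, Nat.add_mul_div_left _ _ hpp,
        Nat.mod_eq_of_lt (by omega), Nat.div_eq_of_lt (by omega)]
      simp
    · intro h1
      have e : ν + (l' + 1) * p - j = (ν + p - j) + p * l' := by
        have : (l' + 1) * p = p * l' + p := by ring
        rw [this]; omega
      rw [e, Nat.add_mul_mod_self_left, Nat.add_mul_div_left _ _ hpp,
        Nat.mod_eq_of_lt (by omega), Nat.div_eq_of_lt (by omega)]
      simp
  by_cases hc : κ ≤ ν
  · rw [if_pos hc, Finset.sum_eq_single (ν - κ)]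
    · have h1 := (key (ν - κ) (by omega)).1 (by omega)
      rw [hg, h1.1, h1.2, if_pos (by omega)]
    · intro j hj hne
      rw [Finset.mem_range] at hj
      rw [hg]
      rcases le_or_gt j ν with h2 | h2
      · have h1 := (key j hj).1 h2
        rw [h1.1, if_neg (by omega), mul_zero]
      · have h1 := (key j hj).2 h2
        rw [h1.1, if_neg (by omega), mul_zero]
    · intro h; exact absurd (Finset.mem_range.2 (by omega)) h
  · rw [if_neg hc, Finset.sum_eq_single (ν + p - κ)]
    · have h1 := (key (ν + p - κ) (by omega)).2 (by omega)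
      rw [hg, h1.1, h1.2, if_pos (by omega)]
      simp
    · intro j hj hne
      rw [Finset.mem_range] at hj
      rw [hg]
      rcases le_or_gt j ν with h2 | h2
      · have h1 := (key j hj).1 h2
        rw [h1.1, if_neg (by omega), mul_zero]
      · have h1 := (key j hj).2 h2
        rw [h1.1, if_neg (by omega), mul_zero]
    · intro h; exact absurd (Finset.mem_range.2 (by omega)) h

lemma mu_one (k : ℕ) : mu p 1 k = if k % p = 0 then 1 / ((k / p : ℕ) : ℚ) else 0 := by
  simp [mu, Nat.dvd_iff_mod_eq_zero]

lemma mu_two (k : ℕ) : mu p 2 k = if k % p = 0 then 1 / ((k / p : ℕ) : ℚ) ^ 2 else 0 := by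
  simp [mu, Nat.dvd_iff_mod_eq_zero]

lemma coprime_six (hp0 : 10 ^ 20 < p) : Nat.Coprime p 6 := by
  rw [Nat.Prime.coprime_iff_not_dvd hp.out]
  intro h
  have := Nat.le_of_dvd (by norm_num) h
  omega

lemma mod_six (hp0 : 10 ^ 20 < p) : p % 6 = 1 ∨ p % 6 = 5 := by
  have h2 : ¬ 2 ∣ p := fun h => by
    have := (Nat.prime_dvd_prime_iff_eq Nat.prime_two hp.out).1 h
    omega
  have h3 : ¬ 3 ∣ p := fun h => by
    have := (Nat.prime_dvd_prime_iff_eq Nat.prime_three hp.out).1 h
    omega
  omega

lemma mu_r (hp0 : 10 ^ 20 < p) {a : ℕ} (ha : 1 ≤ a) (ha5 : a ≤ 5) (k : ℕ) :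
    mu p (a * p % 6 + 2) k =
      if k % p = a * p / 6 then H2 (k / p) / ((a + 6 * (k / p) : ℕ) : ℚ) else 0 := by
  have hm := mod_six (p := p) hp0
  have hpp := hp.out.pos
  have hr : 1 ≤ a * p % 6 := by
    rcases hm with h | h <;> interval_cases a <;> simp [Nat.mul_mod, h]
  have hκ : a * p / 6 < p := by
    rw [Nat.div_lt_iff_lt_mul (by norm_num)]; nlinarith
  have hdm : 6 * (a * p / 6) + a * p % 6 = a * p := Nat.div_add_mod (a * p) 6
  have h1 : a * p % 6 + 2 ≠ 1 := by omega
  have h2 : a * p % 6 + 2 ≠ 2 := by omega
  simp only [mu, if_neg h1, if_neg h2, Nat.add_sub_cancel]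
  set r := a * p % 6 with hrdef
  set κ := a * p / 6 with hκdef
  have hkey : p ∣ 6 * k + r ↔ k % p = κ := by
    constructor
    · intro hd
      have h3 : (p : ℤ) ∣ 6 * ((k : ℤ) - κ) := by
        have h4 : (6 * ((k : ℤ) - κ)) = ((6 * k + r : ℕ) : ℤ) - (a : ℤ) * p := by
          have : (6 : ℤ) * κ + r = a * p := by exact_mod_cast hdm
          push_cast
          linarith
        rw [h4]
        exact dvd_sub (by exact_mod_cast hd) (Dvd.intro_left _ rfl)
      have h5 : (p : ℤ) ∣ (k : ℤ) - κ := by
        have hc : IsCoprime (p : ℤ) 6 := by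
          have := Nat.isCoprime_iff_coprime.2 (coprime_six (p := p) hp0)
          exact_mod_cast this
        exact hc.dvd_of_dvd_mul_left h3
      have h6 : (k : ℤ) % p = (κ : ℤ) % p := ((Int.modEq_iff_dvd).2 h5).symm
      have h7 : k % p = κ % p := by exact_mod_cast h6
      rw [h7, Nat.mod_eq_of_lt hκ]
    · intro hd
      have h3 : p * (k / p) + k % p = k := Nat.div_add_mod k p
      refine ⟨a + 6 * (k / p), ?_⟩
      rw [hd] at h3
      calc 6 * k + r = 6 * (p * (k / p) + κ) + r := by rw [h3]
        _ = 6 * p * (k / p) + (6 * κ + r) := by ring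
        _ = p * (a + 6 * (k / p)) := by rw [hdm]; ring
  by_cases hd : k % p = κ
  · rw [if_pos hd, if_pos (hkey.2 hd)]
    congr 2
    have h3 : p * (k / p) + k % p = k := Nat.div_add_mod k p
    rw [hd] at h3
    have h4 : 6 * k + r = p * (a + 6 * (k / p)) := by
      calc 6 * k + r = 6 * (p * (k / p) + κ) + r := by rw [h3]
        _ = 6 * p * (k / p) + (6 * κ + r) := by ring
        _ = p * (a + 6 * (k / p)) := by rw [hdm]; ring
    rw [h4, Nat.mul_div_cancel_left _ hpp]
  · rw [if_neg hd, if_neg (fun h => hd (hkey.1 h))]


lemma sum_perm (hp0 : 10 ^ 20 < p) (G : ℕ → ℚ) :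
    ∑ i ∈ Icc 1 7, G i = G 1 + G 2 + (G (1 * p % 6 + 2) + G (2 * p % 6 + 2) + G (3 * p % 6 + 2)
      + G (4 * p % 6 + 2) + G (5 * p % 6 + 2)) := by
  have h7 : ∑ i ∈ Icc 1 7, G i = G 1 + G 2 + G 3 + G 4 + G 5 + G 6 + G 7 := by
    rw [show Icc 1 7 = ({1, 2, 3, 4, 5, 6, 7} : Finset ℕ) from by decide]
    simp
    ring
  rw [h7]
  rcases mod_six (p := p) hp0 with h | h
  · have e1 : 1 * p % 6 = 1 := by omega
    have e2 : 2 * p % 6 = 2 := by omega
    have e3 : 3 * p % 6 = 3 := by omega
    have e4 : 4 * p % 6 = 4 := by omega
    have e5 : 5 * p % 6 = 5 := by omega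
    rw [e1, e2, e3, e4, e5]
    ring
  · have e1 : 1 * p % 6 = 5 := by omega
    have e2 : 2 * p % 6 = 4 := by omega
    have e3 : 3 * p % 6 = 3 := by omega
    have e4 : 4 * p % 6 = 2 := by omega
    have e5 : 5 * p % 6 = 1 := by omega
    rw [e1, e2, e3, e4, e5]
    ring

/-- the unknowns of the linear system of index `ν` -/
def zvec (p : ℕ) (Z : ℕ → ℕ → ℚ) (ν m : ℕ) (c : Fin 7) : ℚ :=
  if c.val = 0 then Z 1 ν
  else if c.val = 1 then Z 2 ν
  else if c.val - 1 ≤ m then Z ((c.val - 1) * p % 6 + 2) (ν - (c.val - 1) * p / 6)
  else Z ((c.val - 1) * p % 6 + 2) (ν + p - (c.val - 1) * p / 6)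

lemma eqn (hp0 : 10 ^ 20 < p) (Z : ℕ → ℕ → ℚ) {ν m : ℕ} (hν : ν < p)
    (hm : ∀ a, 1 ≤ a → a ≤ 5 → (a ≤ m ↔ a * p / 6 ≤ ν)) (l : Fin 7) :
    ∑ c, MM m l c * zvec p Z ν m c =
      ∑ i ∈ Icc 1 7, ∑ j ∈ range p, Z i j * mu p i (ν + (l.val + 1) * p - j) := by
  have hpp := hp.out.pos
  rw [sum_perm hp0]
  have hl7 : l.val < 7 := l.isLt
  rw [conv_single (κ := 0) hpp hν (by omega) (Z 1) (mu p 1) (fun k => 1 / (k : ℚ)) mu_one,
    conv_single (κ := 0) hpp hν (by omega) (Z 2) (mu p 2) (fun k => 1 / (k : ℚ) ^ 2) mu_two]
  have hT : ∀ a, 1 ≤ a → a ≤ 5 →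
      ∑ j ∈ range p, Z (a * p % 6 + 2) j * mu p (a * p % 6 + 2) (ν + (l.val + 1) * p - j) =
      if a ≤ m then Z (a * p % 6 + 2) (ν - a * p / 6) *
          (hh (l.val + 1) / ((a + 6 * (l.val + 1) : ℕ) : ℚ))
        else Z (a * p % 6 + 2) (ν + p - a * p / 6) * (hh l.val / ((a + 6 * l.val : ℕ) : ℚ)) := by
    intro a ha ha5
    have hκ : a * p / 6 < p := by
      rw [Nat.div_lt_iff_lt_mul (by norm_num)]; nlinarith
    rw [conv_single (κ := a * p / 6) hκ hν (by omega) (Z (a * p % 6 + 2)) (mu p (a * p % 6 + 2))
      (fun k => H2 k / ((a + 6 * k : ℕ) : ℚ)) (mu_r hp0 ha ha5)]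
    simp only [hm a ha ha5, Nat.add_sub_cancel, hh_eq (l.val + 1) (by omega),
      hh_eq l.val (by omega)]
  rw [hT 1 (by norm_num) (by norm_num), hT 2 (by norm_num) (by norm_num),
    hT 3 (by norm_num) (by norm_num), hT 4 (by norm_num) (by norm_num),
    hT 5 (by norm_num) (by norm_num)]
  rw [Fin.sum_univ_seven]
  simp only [MM, zvec, Fin.val_zero, Fin.val_one, Fin.val_two, Nat.sub_zero, zero_le, if_true,
    show ((3 : Fin 7).val) = 3 from rfl, show ((4 : Fin 7).val) = 4 from rfl,
    show ((5 : Fin 7).val) = 5 from rfl, show ((6 : Fin 7).val) = 6 from rfl,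
    show (2 : ℕ) - 1 = 1 from rfl, show (3 : ℕ) - 1 = 2 from rfl, show (4 : ℕ) - 1 = 3 from rfl,
    show (5 : ℕ) - 1 = 4 from rfl, show (6 : ℕ) - 1 = 5 from rfl,
    show ¬ (1 : ℕ) = 0 from by norm_num, show ¬ (2 : ℕ) = 0 from by norm_num,
    show ¬ (3 : ℕ) = 0 from by norm_num, show ¬ (4 : ℕ) = 0 from by norm_num,
    show ¬ (5 : ℕ) = 0 from by norm_num, show ¬ (6 : ℕ) = 0 from by norm_num,
    show ¬ (2 : ℕ) = 1 from by norm_num,
    show ¬ (3 : ℕ) = 1 from by norm_num, show ¬ (4 : ℕ) = 1 from by norm_num,
    show ¬ (5 : ℕ) = 1 from by norm_num, show ¬ (6 : ℕ) = 1 from by norm_num, if_false]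
  split_ifs <;> ring

lemma step (hp0 : 10 ^ 20 < p) (Z : ℕ → ℕ → ℚ)
    (hZ : ∀ i ∈ Icc 1 7, ∀ j < p, zI p (Z i j))
    (heq : ∀ n, p ≤ n → n < 8 * p →
      ∑ i ∈ Icc 1 7, ∑ j ∈ range p, Z i j * ((p : ℚ) ^ (min i 3) * cf i (n - j)) = 0) :
    ∀ i ∈ Icc 1 7, ∀ j < p, zJ p (Z i j) := by
  have hpp := hp.out.pos
  -- for every ν < p all unknowns of index ν are in J
  have main : ∀ ν < p, ∀ m, m < 6 → (∀ a, 1 ≤ a → a ≤ 5 → (a ≤ m ↔ a * p / 6 ≤ ν)) →
      ∀ c, zJ p (zvec p Z ν m c) := by
    intro ν hν m hm6 hm
    apply lin_solve hm6 hp0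
    intro l
    rw [eqn hp0 Z hν hm l]
    have h1 := heq (ν + (l.val + 1) * p) (by nlinarith) (by
      have : l.val < 7 := l.isLt
      have : (l.val + 1) * p ≤ 7 * p := Nat.mul_le_mul_right _ (by omega)
      omega)
    have h2 : ∑ i ∈ Icc 1 7, ∑ j ∈ range p, Z i j * mu p i (ν + (l.val + 1) * p - j) =
        -(∑ i ∈ Icc 1 7, ∑ j ∈ range p, Z i j *
          ((p : ℚ) ^ (min i 3) * cf i (ν + (l.val + 1) * p - j)
            - mu p i (ν + (l.val + 1) * p - j))) := by
      simp only [mul_sub, Finset.sum_sub_distrib]
      rw [h1]; ring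
    rw [h2]
    apply zJ_neg
    apply zJ_sum
    intro i hi
    apply zJ_sum
    intro j hj
    rw [Finset.mem_range] at hj
    have hi' := Finset.mem_Icc.1 hi
    refine zJ_mul (hZ i hi j hj) (mu_cong hi'.1 hi'.2 ?_ (by omega))
    have : l.val < 7 := l.isLt
    have : (l.val + 1) * p ≤ 7 * p := Nat.mul_le_mul_right _ (by omega)
    omega
  have hmex : ∀ ν < p, ∃ m, m < 6 ∧ (∀ a, 1 ≤ a → a ≤ 5 → (a ≤ m ↔ a * p / 6 ≤ ν)) := by
    intro ν hν
    refine ⟨Nat.findGreatest (fun a => a * p / 6 ≤ ν) 5,
      lt_of_le_of_lt (Nat.findGreatest_le 5) (by norm_num), ?_⟩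
    intro a ha ha5
    constructor
    · intro h
      have h1 : (Nat.findGreatest (fun a => a * p / 6 ≤ ν) 5) * p / 6 ≤ ν :=
        Nat.findGreatest_spec (P := fun a => a * p / 6 ≤ ν) (m := 0) (by norm_num) (by simp)
      exact le_trans (Nat.div_le_div_right (Nat.mul_le_mul_right _ h)) h1
    · intro h
      exact Nat.le_findGreatest ha5 h
  have h12 : ∀ ν < p, zJ p (Z 1 ν) ∧ zJ p (Z 2 ν) := by
    intro ν hν
    obtain ⟨m, hm6, hm⟩ := hmex ν hν
    have h := main ν hν m hm6 hm
    have h0 := h 0
    have h1 := h 1
    simp [zvec] at h0 h1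
    exact ⟨h0, h1⟩
  have ha : ∀ a, 1 ≤ a → a ≤ 5 → ∀ j < p, zJ p (Z (a * p % 6 + 2) j) := by
    intro a ha ha5 j hj
    have hκ : a * p / 6 < p := by
      rw [Nat.div_lt_iff_lt_mul (by norm_num)]; nlinarith
    have hz : ∀ ν m, zvec p Z ν m ⟨a + 1, by omega⟩ =
        if a ≤ m then Z (a * p % 6 + 2) (ν - a * p / 6)
        else Z (a * p % 6 + 2) (ν + p - a * p / 6) := by
      intro ν m
      simp only [zvec, Nat.add_sub_cancel, if_neg (show ¬ a + 1 = 0 by omega),
        if_neg (show ¬ a + 1 = 1 by omega)]
    by_cases hlt : j + a * p / 6 < p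
    · obtain ⟨m, hm6, hm⟩ := hmex (j + a * p / 6) hlt
      have h := main _ hlt m hm6 hm ⟨a + 1, by omega⟩
      rw [hz, if_pos ((hm a ha ha5).2 (by omega))] at h
      rwa [Nat.add_sub_cancel] at h
    · obtain ⟨m, hm6, hm⟩ := hmex (j + a * p / 6 - p) (by omega)
      have h := main _ (by omega) m hm6 hm ⟨a + 1, by omega⟩
      rw [hz, if_neg (fun h => by have := (hm a ha ha5).1 h; omega)] at h
      rwa [show j + a * p / 6 - p + p - a * p / 6 = j by omega] at h
  intro i hi j hj
  have hi' := Finset.mem_Icc.1 hi
  rcases (by omega : i = 1 ∨ i = 2 ∨ i = 3 ∨ i = 4 ∨ i = 5 ∨ i = 6 ∨ i = 7) with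
    h | h | h | h | h | h | h
  · subst h; exact (h12 j hj).1
  · subst h; exact (h12 j hj).2
  all_goals
    subst h
    rcases mod_six (p := p) hp0 with h | h
  · have := ha 1 (by norm_num) (by norm_num) j hj
    rwa [show 1 * p % 6 + 2 = 3 by omega] at this
  · have := ha 5 (by norm_num) (by norm_num) j hj
    rwa [show 5 * p % 6 + 2 = 3 by omega] at this
  · have := ha 2 (by norm_num) (by norm_num) j hj
    rwa [show 2 * p % 6 + 2 = 4 by omega] at this
  · have := ha 4 (by norm_num) (by norm_num) j hj
    rwa [show 4 * p % 6 + 2 = 4 by omega] at this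
  · have := ha 3 (by norm_num) (by norm_num) j hj
    rwa [show 3 * p % 6 + 2 = 5 by omega] at this
  · have := ha 3 (by norm_num) (by norm_num) j hj
    rwa [show 3 * p % 6 + 2 = 5 by omega] at this
  · have := ha 4 (by norm_num) (by norm_num) j hj
    rwa [show 4 * p % 6 + 2 = 6 by omega] at this
  · have := ha 2 (by norm_num) (by norm_num) j hj
    rwa [show 2 * p % 6 + 2 = 6 by omega] at this
  · have := ha 5 (by norm_num) (by norm_num) j hj
    rwa [show 5 * p % 6 + 2 = 7 by omega] at this
  · have := ha 1 (by norm_num) (by norm_num) j hj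
    rwa [show 1 * p % 6 + 2 = 7 by omega] at this

/-- integral solutions are divisible by `p` -/
lemma all_J (hp0 : 10 ^ 20 < p) (C : ℕ → ℕ → ℚ) (hC : ∀ i j, zI p (C i j))
    (heq : ∀ n, n < 8 * p →
      ∑ i ∈ range 8, ∑ j ∈ range p, C i j * (if j ≤ n then cf i (n - j) else 0) = 0) :
    ∀ i < 8, ∀ j < p, zJ p (C i j) := by
  have hpp := hp.out.pos
  have hpq : (p : ℚ) ≠ 0 := by exact_mod_cast hp.out.ne_zero
  have h8 : range 8 = insert 0 (Icc 1 7) := by decide
  have h0 : (0 : ℕ) ∉ Icc 1 7 := by decide
  have heq1 : ∀ n, p ≤ n → n < 8 * p →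
      ∑ i ∈ Icc 1 7, ∑ j ∈ range p, C i j * cf i (n - j) = 0 := by
    intro n hn hn8
    have h := heq n hn8
    rw [h8, Finset.sum_insert h0] at h
    have e0 : ∑ j ∈ range p, C 0 j * (if j ≤ n then cf 0 (n - j) else 0) = 0 := by
      apply Finset.sum_eq_zero
      intro j hj
      rw [Finset.mem_range] at hj
      rw [if_pos (by omega)]
      simp [cf, show n - j ≠ 0 by omega]
    rw [e0, zero_add] at h
    rw [← h]
    apply Finset.sum_congr rfl
    intro i _
    apply Finset.sum_congr rfl
    intro j hj
    rw [Finset.mem_range] at hj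
    rw [if_pos (by omega)]
  set Z : ℕ → ℕ → ℕ → ℚ := fun s i j => C i j * (p : ℚ) ^ (3 - min i 3) / (p : ℚ) ^ s with hZdef
  have hZeq : ∀ s, ∀ n, p ≤ n → n < 8 * p →
      ∑ i ∈ Icc 1 7, ∑ j ∈ range p, Z s i j * ((p : ℚ) ^ (min i 3) * cf i (n - j)) = 0 := by
    intro s n hn hn8
    have e : ∑ i ∈ Icc 1 7, ∑ j ∈ range p, Z s i j * ((p : ℚ) ^ (min i 3) * cf i (n - j)) =
        (p : ℚ) ^ 3 / (p : ℚ) ^ s * ∑ i ∈ Icc 1 7, ∑ j ∈ range p, C i j * cf i (n - j) := by
      rw [Finset.mul_sum]
      apply Finset.sum_congr rfl
      intro i _
      rw [Finset.mul_sum]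
      apply Finset.sum_congr rfl
      intro j _
      have e3 : (p : ℚ) ^ 3 = (p : ℚ) ^ (3 - min i 3) * (p : ℚ) ^ (min i 3) := by
        rw [← pow_add]; congr 1; omega
      simp only [hZdef]
      rw [e3]
      ring
    rw [e, heq1 n hn hn8, mul_zero]
  have hZs : ∀ s, (∀ i ∈ Icc 1 7, ∀ j < p, zI p (Z s i j)) →
      ∀ i ∈ Icc 1 7, ∀ j < p, zI p (Z (s + 1) i j) := by
    intro s hs i hi j hj
    have h1 := zI_div_p (step hp0 (Z s) hs (hZeq s) i hi j hj)
    have e : Z (s + 1) i j = Z s i j / p := by
      simp only [hZdef]
      rw [pow_succ, div_div]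
    rw [e]; exact h1
  have hZ0 : ∀ i ∈ Icc 1 7, ∀ j < p, zI p (Z 0 i j) := by
    intro i _ j _
    simp only [hZdef, pow_zero, div_one]
    apply zI_mul (hC i j)
    have := zI_nat (p := p) (p ^ (3 - min i 3))
    push_cast at this
    exact this
  have hZ3 := hZs 2 (hZs 1 (hZs 0 hZ0))
  have hCZ : ∀ i j, C i j = Z 3 i j * (p : ℚ) ^ (min i 3) := by
    intro i j
    simp only [hZdef]
    have e3 : (p : ℚ) ^ 3 = (p : ℚ) ^ (3 - min i 3) * (p : ℚ) ^ (min i 3) := by
      rw [← pow_add]; congr 1; omega
    rw [e3]
    field_simp
  have hJ : ∀ i ∈ Icc 1 7, ∀ j < p, zJ p (C i j) := by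
    intro i hi j hj
    have hi' := Finset.mem_Icc.1 hi
    rw [hCZ]
    apply zJ_mul (hZ3 i hi j hj)
    obtain ⟨t, ht⟩ : ∃ t, min i 3 = t + 1 := ⟨min i 3 - 1, by omega⟩
    rw [ht, pow_succ]
    apply zJ_mul _ zJ_p
    have := zI_nat (p := p) (p ^ t)
    push_cast at this
    exact this
  intro i hi j hj
  rcases Nat.eq_zero_or_pos i with rfl | hi0
  · have h := heq j (by omega)
    rw [h8, Finset.sum_insert h0] at h
    have e0 : ∑ j' ∈ range p, C 0 j' * (if j' ≤ j then cf 0 (j - j') else 0) = C 0 j := by
      rw [Finset.sum_eq_single j]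
      · simp [cf]
      · intro b _ hb
        split_ifs with h1
        · simp [cf, show j - b ≠ 0 by omega]
        · simp
      · intro h; exact absurd (Finset.mem_range.2 hj) h
    rw [e0] at h
    have e1 : C 0 j =
        -(∑ i ∈ Icc 1 7, ∑ j' ∈ range p, C i j' * (if j' ≤ j then cf i (j - j') else 0)) := by
      linarith
    rw [e1]
    apply zJ_neg
    apply zJ_sum
    intro i hi
    apply zJ_sum
    intro j' hj'
    rw [Finset.mem_range] at hj'
    split_ifs with h1
    · rw [hCZ, mul_assoc]
      apply zJ_mul (hZ3 i hi j' hj')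
      have hi' := Finset.mem_Icc.1 hi
      have hm := mu_cong (p := p) (k := j - j') hi'.1 hi'.2 (by omega) (by omega)
      have hm0 : mu p i (j - j') = 0 := by
        have hlt : j - j' < p := by omega
        simp only [mu, Nat.div_eq_of_lt hlt, H2_zero]
        simp
      rw [hm0, sub_zero] at hm
      exact hm
    · rw [mul_zero]; exact zJ_zero
  · exact hJ i (Finset.mem_Icc.2 ⟨hi0, by omega⟩) j hj

end

end Zero

open Run7.K3.Zero in
/-- **H.** -/
theorem zero_est (D p : ℕ) (hp : p.Prime) (hD : D ≤ p) (hp0 : 10 ^ 20 < p)
    (c : Fin (8 * D) → ℚ) (hc : ∀ n < 8 * p, ∑ r, c r * row D r n = 0) : c = 0 := by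
  have : Fact p.Prime := ⟨hp⟩
  have hpq : (p : ℚ) ≠ 0 := by exact_mod_cast hp.ne_zero
  by_contra hne
  obtain ⟨r1, hr1⟩ := Function.ne_iff.1 hne
  obtain ⟨r0, -, hr0⟩ := Finset.exists_max_image (Finset.univ : Finset (Fin (8 * D)))
    (fun r => padicNorm p (c r)) ⟨r1, Finset.mem_univ _⟩
  have hc0 : c r0 ≠ 0 := by
    intro h
    have h1 := hr0 r1 (Finset.mem_univ _)
    rw [h, padicNorm.zero] at h1
    have h2 : 0 < padicNorm p (c r1) := lt_of_le_of_ne (padicNorm.nonneg _)
      (Ne.symm (padicNorm.nonzero hr1))
    linarith
  have hcn : 0 < padicNorm p (c r0) := lt_of_le_of_ne (padicNorm.nonneg _)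
      (Ne.symm (padicNorm.nonzero hc0))
  set e : Fin (8 * D) → ℚ := fun r => c r / c r0 with he
  have heI : ∀ r, zI p (e r) := by
    intro r
    simp only [he, zI]
    rw [padicNorm.div, div_le_one hcn]
    exact hr0 r (Finset.mem_univ _)
  have heq : ∀ n < 8 * p, ∑ r, e r * row D r n = 0 := by
    intro n hn
    have : ∑ r, e r * row D r n = (∑ r, c r * row D r n) / c r0 := by
      rw [Finset.sum_div]
      apply Finset.sum_congr rfl
      intro r _
      simp only [he]; ring
    rw [this, hc n hn, zero_div]
  set C : ℕ → ℕ → ℚ := fun i j =>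
    if h : j + D * i < 8 * D ∧ j < D then e ⟨j + D * i, h.1⟩ else 0 with hCdef
  have hCI : ∀ i j, zI p (C i j) := by
    intro i j
    simp only [hCdef]
    split_ifs
    · exact heI _
    · exact zI_zero
  have hCeq : ∀ n, n < 8 * p →
      ∑ i ∈ range 8, ∑ j ∈ range p, C i j * (if j ≤ n then cf i (n - j) else 0) = 0 := by
    intro n hn
    refine Eq.trans ?_ (heq n hn)
    rw [← (finProdFinEquiv (m := 8) (n := D)).sum_comp
      (fun r => e r * row D r n), Fintype.sum_prod_type, Finset.sum_range]
    apply Finset.sum_congr rfl
    intro i _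
    have e1 : ∑ j ∈ range p, C i j * (if j ≤ n then cf i (n - j) else 0) =
        ∑ j ∈ range D, C i j * (if j ≤ n then cf i (n - j) else 0) := by
      symm
      apply Finset.sum_subset
      · intro x hx; rw [Finset.mem_range] at hx ⊢; omega
      · intro x _ hx
        rw [Finset.mem_range] at hx
        simp only [hCdef]
        rw [dif_neg (fun h => hx h.2), zero_mul]
    rw [e1, Finset.sum_range]
    apply Finset.sum_congr rfl
    intro j _
    have hj := j.isLt
    have hi := i.isLt
    have hlt : j.val + D * i.val < 8 * D := by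
      have : D * i.val ≤ D * 7 := Nat.mul_le_mul_left _ (by omega)
      omega
    have hval : (finProdFinEquiv (i, j) : Fin (8 * D)) = ⟨j.val + D * i.val, hlt⟩ := by
      apply Fin.ext
      simp [finProdFinEquiv]
    have hC1 : C i.val j.val = e (finProdFinEquiv (i, j)) := by
      simp only [hCdef]
      rw [dif_pos ⟨hlt, hj⟩, hval]
    rw [hC1]
    congr 1
    rw [hval]
    simp only [row, Nat.add_mul_mod_self_left, Nat.mod_eq_of_lt hj,
      Nat.add_mul_div_left _ _ (by omega : 0 < D), Nat.div_eq_of_lt hj, zero_add]
  have hJ := all_J hp0 C hCI hCeq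
  have hD0 : 0 < D := by
    have := r0.isLt
    omega
  have h1 := hJ (r0.val / D) (by rw [Nat.div_lt_iff_lt_mul hD0]; exact r0.isLt) (r0.val % D)
    (lt_of_lt_of_le (Nat.mod_lt _ hD0) hD)
  have h2 : C (r0.val / D) (r0.val % D) = e r0 := by
    simp only [hCdef]
    have h3 : r0.val % D + D * (r0.val / D) = r0.val := Nat.mod_add_div _ _
    rw [dif_pos ⟨by rw [h3]; exact r0.isLt, Nat.mod_lt _ hD0⟩]
    congr 1
    exact Fin.ext h3
  rw [h2] at h1
  simp only [he, div_self hc0, zJ, padicNorm.one, lt_irrefl] at h1

end Run7.K3
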