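import Mathlib
import Pool.Agent.Run7.K3.Final2
import Pool.Agent.Cov.PNT

/-!
The number of good primes.
-/

namespace Run7.K3

noncomputable section

open Finset Filter Topology

/-- **Theorem.** At least one in two hundred primes `p` has `p ∤ ∑_{k ≤ p/3} 1/k²`. -/
theorem count_good : ∃ x₀ : ℕ, ∀ x : ℕ, x₀ ≤ x → ∀ s : Finset ℕ,
    (∀ p ≤ x, p.Prime → 5 < p → GoodP p → p ∈ s) → Nat.primeCounting x ≤ 200 * s.card := by
  classical
  obtain ⟨x₁, h1⟩ := thG_ge
  have hpi := Pool.Agent.Cov.PNT.pi_tendsto.eventually (gt_mem_nhds (show (1 : ℝ) < 103 / 100 by norm_num))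
  obtain ⟨X, hX⟩ := eventually_atTop.mp hpi
  have hlim : Tendsto (fun x : ℕ => Real.log x / (x : ℝ)) atTop (𝓝 0) :=
    (Real.isLittleO_log_id_atTop.tendsto_div_nhds_zero).comp tendsto_natCast_atTop_atTop
  obtain ⟨x₂, h2⟩ := eventually_atTop.mp
    (hlim.eventually (gt_mem_nhds (show (0 : ℝ) < 1 / 100000 by norm_num)))
  refine ⟨x₁ + x₂ + ⌈X⌉₊ + 2, ?_⟩
  intro x hx s hs
  have hx1 : (2 : ℝ) ≤ x := by exact_mod_cast (by omega : 2 ≤ x)
  have hlog : 0 < Real.log x := Real.log_pos (by linarith)
  have hth := h1 x (by omega)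
  have hl := h2 x (by omega)
  rw [div_lt_iff₀ (by linarith)] at hl
  have hp := hX x ((Nat.le_ceil X).trans (by exact_mod_cast (by omega : ⌈X⌉₊ ≤ x)))
  rw [Nat.floor_natCast, div_lt_iff₀ (by linarith)] at hp
  -- the sum
  have hsub : (Finset.range (x + 1)).filter (fun p => p.Prime ∧ GoodP p) ⊆ s ∪ {2, 3, 5} := by
    intro p hp
    rw [Finset.mem_filter, Finset.mem_range] at hp
    obtain ⟨hpx, hpp, hpg⟩ := hp
    by_cases h5 : 5 < p
    · exact Finset.mem_union_left _ (hs p (by omega) hpp h5 hpg)
    · apply Finset.mem_union_right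
      have := hpp.two_le
      have h5' : p ≤ 5 := not_lt.mp h5
      interval_cases p
      · simp
      · simp
      · exact absurd hpp (by norm_num)
      · simp
  have hcard : thG x ≤ (s.card + 3 : ℝ) * Real.log x := by
    unfold thG
    calc ∑ p ∈ (Finset.range (x + 1)).filter (fun p => p.Prime ∧ GoodP p), Real.log p
        ≤ ∑ p ∈ (Finset.range (x + 1)).filter (fun p => p.Prime ∧ GoodP p), Real.log x := by
          apply Finset.sum_le_sum
          intro p hp
          rw [Finset.mem_filter, Finset.mem_range] at hp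
          apply Real.log_le_log
          · exact_mod_cast hp.2.1.pos
          · exact_mod_cast (by omega : p ≤ x)
      _ = (((Finset.range (x + 1)).filter (fun p => p.Prime ∧ GoodP p)).card : ℝ) * Real.log x := by
          rw [Finset.sum_const, nsmul_eq_mul]
      _ ≤ (s.card + 3 : ℝ) * Real.log x := by
          apply mul_le_mul_of_nonneg_right _ hlog.le
          have e1 := Finset.card_le_card hsub
          have e2 := Finset.card_union_le s {2, 3, 5}
          have e3 : ({2, 3, 5} : Finset ℕ).card = 3 := by decide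
          have e4 : ((Finset.range (x + 1)).filter (fun p => p.Prime ∧ GoodP p)).card ≤ s.card + 3 := by
            omega
          exact_mod_cast e4
  have hfin : (Nat.primeCounting x : ℝ) * Real.log x ≤ 200 * s.card * Real.log x := by
    nlinarith
  have := le_of_mul_le_mul_right hfin hlog
  exact_mod_cast this

end

end Run7.K3
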