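import Pool.Agent.Run7.K3.Harm

/-!
Piece O: the values `L_p(r, χ ω^{1-r})`, `r ≡ 2 (mod p - 1)`, of the Kubota–Leopoldt `p`-adic
`L`-function (`χ` the odd character modulo `3`), are `p`-adic units if and only if `p` does not divide
`H2 (p/3) = ∑_{k ≤ p/3} 1/k²`.
-/

set_option autoImplicit false

namespace Run7.K3.PL

open Finset Filter Topology

noncomputable section

/-- The odd Dirichlet character modulo `3` (the character of `ℚ(√-3)`). -/
def chi (m : ℕ) : ℤ := if m % 3 = 1 then 1 else if m % 3 = 2 then -1 else 0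

/-- The approximants `1/(r-1) · 1/(3 p^k) · ∑_{0 ≤ m < 3 p^k, p ∤ m} χ(m) m^{1-r}` of the value
`L_p(r, χ ω^{1-r})` of the Kubota–Leopoldt `p`-adic `L`-function. -/
def lApprox (p : ℕ) [Fact p.Prime] (r k : ℕ) : ℚ_[p] :=
  (∑ m ∈ (range (3 * p ^ k)).filter (fun m => ¬ p ∣ m),
    (chi m : ℚ_[p]) * ((m : ℚ_[p]) ^ (r - 1))⁻¹) / (((r : ℚ_[p]) - 1) * (3 * (p : ℚ_[p]) ^ k))

/-! ### Sums over blocks, the character -/

/-- `chi` is the quadratic residue symbol modulo `3`. -/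
theorem chi_eq_jacobi (m : ℕ) : chi m = jacobiSym (m : ℤ) 3 := by
  have h1 : m % 3 = 0 ∨ m % 3 = 1 ∨ m % 3 = 2 := by omega
  rw [jacobiSym.mod_left]
  have h2 : (m : ℤ) % ((3 : ℕ) : ℤ) = ((m % 3 : ℕ) : ℤ) := by push_cast; rfl
  rw [h2]
  unfold chi
  rcases h1 with h | h | h <;> rw [h] <;> norm_num

theorem sum_block {M : Type} [AddCommMonoid M] (F : ℕ → M) (N : ℕ) : ∀ q : ℕ,
    ∑ x ∈ range (N * q), F x = ∑ i ∈ range q, ∑ a ∈ range N, F (a + N * i)
  | 0 => by simp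
  | q + 1 => by
    rw [Nat.mul_succ, sum_range_add, sum_block F N q, sum_range_succ]
    congr 1
    apply sum_congr rfl
    intro a _
    rw [add_comm]

theorem chi_add (m t : ℕ) : chi (m + 3 * t) = chi m := by
  unfold chi
  rw [Nat.add_mul_mod_self_left]

theorem chi_sum (a q : ℕ) (hq : q % 3 ≠ 0) : chi a + chi (a + q) + chi (a + 2 * q) = 0 := by
  have h1 : a % 3 = 0 ∨ a % 3 = 1 ∨ a % 3 = 2 := by omega
  have h2 : q % 3 = 1 ∨ q % 3 = 2 := by omega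
  unfold chi
  rcases h1 with h1 | h1 | h1 <;> rcases h2 with h2 | h2 <;> simp [Nat.add_mod, Nat.mul_mod, h1, h2]

theorem chi_sum' (a q : ℕ) (hq : q % 3 ≠ 0) : ∑ j ∈ range 3, chi (a + q * j) = 0 := by
  have := chi_sum a q hq
  rw [sum_range_succ, sum_range_succ, sum_range_one, mul_zero, add_zero, mul_one, mul_comm q 2]
  exact this

/-- the measure of `a + p^k ℤ_p`, up to the factor `-1/3` -/
def ck (q a : ℕ) : ℤ := ∑ j ∈ range 3, (j : ℤ) * chi (a + q * j)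

theorem pow_mod3 {p : ℕ} (h : p % 3 ≠ 0) (k : ℕ) : p ^ k % 3 ≠ 0 := by
  have h3 : ¬ 3 ∣ p := fun hd => h (Nat.mod_eq_zero_of_dvd hd)
  intro hm
  exact h3 (Nat.prime_three.dvd_of_dvd_pow (Nat.dvd_of_mod_eq_zero hm))

/-- distribution relation -/
theorem ck_rel (q p a : ℕ) (hq : q % 3 ≠ 0) (hp : p % 3 ≠ 0) :
    ∑ i ∈ range p, ck (q * p) (a + q * i) = ck q a := by
  have hq0 : q ≠ 0 := by rintro rfl; simp at hq
  have hp0 : p ≠ 0 := by rintro rfl; simp at hp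
  have hqp : (q * p) % 3 ≠ 0 := by
    have h3q : ¬ 3 ∣ q := fun hd => hq (Nat.mod_eq_zero_of_dvd hd)
    have h3p : ¬ 3 ∣ p := fun hd => hp (Nat.mod_eq_zero_of_dvd hd)
    intro hm
    rcases (Nat.prime_three.dvd_mul).1 (Nat.dvd_of_mod_eq_zero hm) with h | h
    · exact h3q h
    · exact h3p h
  let G : ℕ → ℤ := fun l => ((a + q * l : ℕ) : ℤ) * chi (a + q * l)
  have h1 : ∑ l ∈ range (p * 3), G l = (q * p : ℤ) * ∑ i ∈ range p, ck (q * p) (a + q * i) := by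
    rw [sum_block, sum_comm, mul_sum]
    apply sum_congr rfl
    intro i _
    have : ∀ j ∈ range 3, G (i + p * j) = ((a + q * i : ℕ) : ℤ) * chi ((a + q * i) + (q * p) * j) +
        (q * p : ℤ) * ((j : ℤ) * chi ((a + q * i) + (q * p) * j)) := by
      intro j _
      have e : a + q * (i + p * j) = (a + q * i) + (q * p) * j := by ring
      simp only [G, e]
      push_cast
      ring
    rw [sum_congr rfl this, sum_add_distrib, ← mul_sum, ← mul_sum, chi_sum' _ _ hqp, mul_zero,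
      zero_add]
    rfl
  have h2 : ∑ l ∈ range (3 * p), G l = (q * p : ℤ) * ck q a := by
    rw [sum_block]
    have : ∀ t ∈ range p, ∑ j ∈ range 3, G (j + 3 * t) = (q : ℤ) * ck q a := by
      intro t _
      have h3 : ∀ j ∈ range 3, G (j + 3 * t) = ((a : ℤ) + q * 3 * t) * chi (a + q * j) +
          (q : ℤ) * ((j : ℤ) * chi (a + q * j)) := by
        intro j _
        have e : a + q * (j + 3 * t) = (a + q * j) + 3 * (q * t) := by ring
        simp only [G, e, chi_add]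
        push_cast
        ring
      rw [sum_congr rfl h3, sum_add_distrib, ← mul_sum, ← mul_sum, chi_sum' _ _ hq, mul_zero,
        zero_add]
      rfl
    rw [sum_congr rfl this, sum_const, card_range, nsmul_eq_mul]
    ring
  rw [mul_comm p 3] at h1
  rw [h1] at h2
  have h3 : ((q * p : ℕ) : ℤ) ≠ 0 := by exact_mod_cast Nat.mul_ne_zero hq0 hp0
  push_cast at h3
  exact mul_left_cancel₀ h3 h2

/-! ### `p`-adic estimates -/

variable {p : ℕ} [hp : Fact p.Prime]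

theorem sum_le {ι : Type} (s : Finset ι) (f : ι → ℚ_[p]) (C : ℝ) (hC : 0 ≤ C)
    (h : ∀ i ∈ s, ‖f i‖ ≤ C) : ‖∑ i ∈ s, f i‖ ≤ C := by
  classical
  induction s using Finset.induction_on with
  | empty => simpa using hC
  | insert a s ha ih =>
    rw [sum_insert ha]
    refine (Padic.nonarchimedean _ _).trans (max_le (h a (mem_insert_self _ _)) (ih ?_))
    intro i hi
    exact h i (mem_insert_of_mem hi)

theorem sub_le (x y : ℚ_[p]) (C : ℝ) (hx : ‖x‖ ≤ C) (hy : ‖y‖ ≤ C) : ‖x - y‖ ≤ C := by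
  rw [sub_eq_add_neg]
  exact (Padic.nonarchimedean _ _).trans (max_le hx (by rwa [norm_neg]))

theorem add_le (x y : ℚ_[p]) (C : ℝ) (hx : ‖x‖ ≤ C) (hy : ‖y‖ ≤ C) : ‖x + y‖ ≤ C :=
  (Padic.nonarchimedean _ _).trans (max_le hx hy)

theorem nat_norm_le (m : ℕ) : ‖(m : ℚ_[p])‖ ≤ 1 := by
  have := Padic.norm_int_le_one (p := p) (m : ℤ)
  simpa using this

theorem nat_norm_eq {m : ℕ} (h : ¬ p ∣ m) : ‖(m : ℚ_[p])‖ = 1 :=
  Padic.norm_natCast_eq_one_iff.2 ((Nat.Prime.coprime_iff_not_dvd hp.out).2 h)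

theorem nat_norm {m : ℕ} (h : m ≠ 0) : ‖(m : ℚ_[p])‖ = (((p : ℝ) ^ padicValNat p m))⁻¹ := by
  have h1 : ‖(m : ℚ_[p])‖ = ((padicNorm p (m : ℚ) : ℚ) : ℝ) := by
    rw [← Padic.eq_padicNorm]; simp
  rw [h1, padicNorm.eq_zpow_of_nonzero (by exact_mod_cast h), padicValRat.of_nat, zpow_neg,
    zpow_natCast]
  push_cast
  rfl

/-- `p ^ (-k)` -/
def ep (p k : ℕ) : ℝ := ((p : ℝ) ^ k)⁻¹

theorem ep_pos (k : ℕ) : 0 < ep p k := by
  have : (0 : ℝ) < p := by exact_mod_cast hp.out.pos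
  unfold ep; positivity

omit hp in
theorem ep_add (k l : ℕ) : ep p (k + l) = ep p k * ep p l := by
  unfold ep; rw [pow_add, mul_inv]

theorem ep_anti {k l : ℕ} (h : k ≤ l) : ep p l ≤ ep p k := by
  have h1 : (1 : ℝ) ≤ p := by exact_mod_cast hp.out.one_le
  unfold ep
  exact inv_anti₀ (by positivity) (pow_le_pow_right₀ h1 h)

theorem ep_le_one (k : ℕ) : ep p k ≤ 1 := by
  have := ep_anti (p := p) (Nat.zero_le k)
  simpa [ep] using this

theorem norm_pk (k : ℕ) : ‖(p : ℚ_[p]) ^ k‖ = ep p k := by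
  rw [norm_pow, Padic.norm_p, ep, inv_pow]

theorem val_le (hp2 : 2 < p) (l : ℕ) : padicValNat p (l + 2) ≤ l := by
  by_contra hcon
  push Not at hcon
  have h1 : p ^ (padicValNat p (l + 2)) ≤ l + 2 :=
    Nat.le_of_dvd (by omega) pow_padicValNat_dvd
  have h2 : 3 ^ (l + 1) ≤ p ^ (padicValNat p (l + 2)) :=
    (Nat.pow_le_pow_left (by omega) _).trans (Nat.pow_le_pow_right hp.out.pos (by omega))
  have h3 : ∀ l : ℕ, l + 2 < 3 ^ (l + 1) := by
    intro l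
    induction l with
    | zero => norm_num
    | succ l ih => rw [pow_succ]; omega
  have := h3 l
  omega

/-- Binomial theorem with an error term divisible by the exponent. -/
theorem binom_err (hp2 : 2 < p) (u δ : ℚ_[p]) (hu : ‖u‖ ≤ 1) (k : ℕ) (hk : 1 ≤ k)
    (hδ : ‖δ‖ ≤ ep p k) (n : ℕ) : ∃ E : ℚ_[p], ‖E‖ ≤ ep p (2 * k) ∧
      (u + δ) ^ (n + 1) = u ^ (n + 1) + (n + 1) * (δ * u ^ n) + (n + 1) * E := by
  refine ⟨∑ l ∈ range n, ((n.choose (l + 1) : ℕ) : ℚ_[p]) * (δ ^ (l + 2) / ((l + 2 : ℕ) : ℚ_[p])) *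
    u ^ (n + 1 - (l + 2)), ?_, ?_⟩
  · apply sum_le _ _ _ (ep_pos _).le
    intro l _
    have h1 : ‖δ ^ (l + 2) / ((l + 2 : ℕ) : ℚ_[p])‖ ≤ ep p (2 * k) := by
      rw [norm_div, norm_pow, nat_norm (p := p) (m := l + 2) (by omega), div_inv_eq_mul]
      have h2 : ‖δ‖ ^ (l + 2) ≤ ep p k ^ (l + 2) := pow_le_pow_left₀ (norm_nonneg _) hδ _
      have h3 : (p : ℝ) ^ padicValNat p (l + 2) ≤ (p : ℝ) ^ (k * l) := by
        apply pow_le_pow_right₀ (by exact_mod_cast hp.out.one_le)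
        exact (val_le hp2 l).trans (Nat.le_mul_of_pos_left _ hk)
      have h4 : ep p k ^ (l + 2) = ep p (2 * k) * ep p (k * l) := by
        unfold ep
        rw [← mul_inv, ← pow_add, inv_pow, ← pow_mul]
        congr 2; ring
      have h5 : ep p (k * l) * (p : ℝ) ^ (k * l) = 1 := by
        unfold ep
        exact inv_mul_cancel₀ (pow_ne_zero _ (by exact_mod_cast hp.out.ne_zero))
      calc ‖δ‖ ^ (l + 2) * (p : ℝ) ^ padicValNat p (l + 2)
          ≤ ep p k ^ (l + 2) * (p : ℝ) ^ (k * l) :=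
            mul_le_mul h2 h3 (by positivity) (pow_nonneg (ep_pos _).le _)
        _ = ep p (2 * k) := by rw [h4, mul_assoc, h5, mul_one]
    rw [norm_mul, norm_mul]
    calc ‖((n.choose (l + 1) : ℕ) : ℚ_[p])‖ * ‖δ ^ (l + 2) / ((l + 2 : ℕ) : ℚ_[p])‖ *
          ‖u ^ (n + 1 - (l + 2))‖ ≤ 1 * ep p (2 * k) * 1 := by
          apply mul_le_mul _ _ (norm_nonneg _) (by have := (ep_pos (p := p) (2 * k)).le; linarith)
          · exact mul_le_mul (nat_norm_le _) h1 (norm_nonneg _) (by norm_num)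
          · rw [norm_pow]; exact pow_le_one₀ (norm_nonneg _) hu
      _ = ep p (2 * k) := by ring
  · rw [add_comm u δ, add_pow, sum_range_succ', sum_range_succ']
    simp only [zero_add, pow_one, pow_zero, one_mul, Nat.sub_zero, Nat.choose_one_right,
      Nat.choose_zero_right, Nat.cast_one, mul_one, Nat.add_sub_cancel]
    rw [mul_sum]
    have : ∀ l ∈ range n, δ ^ (l + 1 + 1) * u ^ (n + 1 - (l + 1 + 1)) *
        (((n + 1).choose (l + 1 + 1) : ℕ) : ℚ_[p]) =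
        ((n : ℚ_[p]) + 1) * (((n.choose (l + 1) : ℕ) : ℚ_[p]) *
          (δ ^ (l + 2) / ((l + 2 : ℕ) : ℚ_[p])) * u ^ (n + 1 - (l + 2))) := by
      intro l _
      have h1 := Nat.add_one_mul_choose_eq n (l + 1)
      have h2 : ((n : ℚ_[p]) + 1) * ((n.choose (l + 1) : ℕ) : ℚ_[p]) =
          (((n + 1).choose (l + 2) : ℕ) : ℚ_[p]) * ((l + 2 : ℕ) : ℚ_[p]) := by
        have := congrArg (fun x : ℕ => (x : ℚ_[p])) h1
        simp only [Nat.cast_mul] at this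
        push_cast at this ⊢
        linear_combination this
      have h3 : ((l + 2 : ℕ) : ℚ_[p]) ≠ 0 := by exact_mod_cast (by omega : l + 2 ≠ 0)
      calc δ ^ (l + 1 + 1) * u ^ (n + 1 - (l + 1 + 1)) *
          (((n + 1).choose (l + 1 + 1) : ℕ) : ℚ_[p])
          = ((((n + 1).choose (l + 2) : ℕ) : ℚ_[p]) * ((l + 2 : ℕ) : ℚ_[p])) *
            (δ ^ (l + 2) / ((l + 2 : ℕ) : ℚ_[p])) * u ^ (n + 1 - (l + 2)) := by
            rw [show l + 1 + 1 = l + 2 from rfl]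
            field_simp
        _ = _ := by rw [← h2]; ring
    rw [sum_congr rfl this]
    push_cast
    ring

theorem norm_add_unit {u δ : ℚ_[p]} (hu : ‖u‖ = 1) {k : ℕ} (hk : 1 ≤ k) (hδ : ‖δ‖ ≤ ep p k) :
    ‖u + δ‖ = 1 := by
  have h1 : ep p k < 1 := by
    have h2 : ep p k ≤ ep p 1 := ep_anti hk
    have h3 : ep p 1 < 1 := by
      unfold ep
      rw [pow_one]
      exact inv_lt_one_of_one_lt₀ (by exact_mod_cast hp.out.one_lt)
    linarith
  rw [Padic.add_eq_max_of_ne (by rw [hu]; linarith [norm_nonneg δ]), hu]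
  exact max_eq_left (by linarith)

/-- The expansion of `(u + δ) ^ (-n)` with an error term divisible by `n`. -/
theorem inv_err (hp2 : 2 < p) (u δ : ℚ_[p]) (hu : ‖u‖ = 1) (k : ℕ) (hk : 1 ≤ k)
    (hδ : ‖δ‖ ≤ ep p k) (n : ℕ) (hn : 1 ≤ n) :
    ‖((u + δ) ^ n)⁻¹ - (u ^ n)⁻¹ + n * δ * (u ^ (n + 1))⁻¹‖ ≤ ‖(n : ℚ_[p])‖ * ep p (2 * k) := by
  obtain ⟨n, rfl⟩ : ∃ m, n = m + 1 := ⟨n - 1, by omega⟩
  obtain ⟨E, hE, hEq⟩ := binom_err hp2 u δ hu.le k hk hδ n
  have hY : ‖(u + δ) ^ (n + 1)‖ = 1 := by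
    rw [norm_pow, norm_add_unit hu hk hδ, one_pow]
  have hA : ‖u ^ (n + 1)‖ = 1 := by rw [norm_pow, hu, one_pow]
  have hY0 : (u + δ) ^ (n + 1) ≠ 0 := by intro h; rw [h, norm_zero] at hY; norm_num at hY
  have hu0 : u ≠ 0 := by intro h; rw [h, norm_zero] at hu; norm_num at hu
  have hA0 : u ^ (n + 1) ≠ 0 := pow_ne_zero _ hu0
  set B : ℚ_[p] := δ * u ^ n + E with hB
  have hBn : ‖B‖ ≤ ep p k := by
    apply add_le
    · rw [norm_mul, norm_pow, hu, one_pow, mul_one]; exact hδ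
    · exact hE.trans (ep_anti (by omega))
  have key : ((u + δ) ^ (n + 1))⁻¹ - (u ^ (n + 1))⁻¹ +
      ((n + 1 : ℕ) : ℚ_[p]) * δ * (u ^ (n + 1 + 1))⁻¹ =
      ((n + 1 : ℕ) : ℚ_[p]) * (((n + 1 : ℕ) : ℚ_[p]) * B ^ 2 / ((u ^ (n + 1)) ^ 2 * (u + δ) ^ (n + 1)) -
        E / (u ^ (n + 1)) ^ 2) := by
    have h1 : (u + δ) ^ (n + 1) = u ^ (n + 1) + ((n + 1 : ℕ) : ℚ_[p]) * B := by
      rw [hEq, hB]; push_cast; ring
    have h2 : ((u + δ) ^ (n + 1))⁻¹ = (u ^ (n + 1))⁻¹ -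
        ((n + 1 : ℕ) : ℚ_[p]) * B / (u ^ (n + 1)) ^ 2 +
        ((n + 1 : ℕ) : ℚ_[p]) ^ 2 * B ^ 2 / ((u ^ (n + 1)) ^ 2 * (u + δ) ^ (n + 1)) := by
      rw [h1] at hY0 ⊢
      field_simp
      ring
    have h3 : δ * (u ^ (n + 1 + 1))⁻¹ = δ * u ^ n / (u ^ (n + 1)) ^ 2 := by
      field_simp
      ring
    rw [h2, mul_assoc, h3, hB]
    ring
  rw [key, norm_mul]
  apply mul_le_mul_of_nonneg_left _ (norm_nonneg _)
  apply sub_le
  · rw [norm_div, norm_mul, norm_mul, norm_pow, norm_pow, hA, hY, one_pow, mul_one, div_one]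
    calc ‖((n + 1 : ℕ) : ℚ_[p])‖ * ‖B‖ ^ 2 ≤ 1 * (ep p k) ^ 2 :=
          mul_le_mul (nat_norm_le _) (pow_le_pow_left₀ (norm_nonneg _) hBn 2) (by positivity)
            (by norm_num)
      _ = ep p (2 * k) := by rw [two_mul, ep_add]; ring
  · rw [norm_div, norm_pow, hA, one_pow, div_one]; exact hE

/-! ### Step 1: the approximants and the sums `RS` -/

/-- the Riemann sums of `-1/3 ∫ x^{-r} dμ` -/
def RS (p : ℕ) [Fact p.Prime] (r k : ℕ) : ℚ_[p] :=
  -(∑ a ∈ range (p ^ k), if p ∣ a then 0 else (ck (p ^ k) a : ℚ_[p]) * ((a : ℚ_[p]) ^ r)⁻¹) / 3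

theorem norm_three (h5 : 5 < p) : ‖(3 : ℚ_[p])‖ = 1 := by
  have h : ¬ p ∣ 3 := fun hd => by have := Nat.le_of_dvd (by norm_num) hd; omega
  have := nat_norm_eq (p := p) h
  simpa using this

theorem norm_int_le (z : ℤ) : ‖(z : ℚ_[p])‖ ≤ 1 := Padic.norm_int_le_one z

omit hp in
theorem dvd_shift {k : ℕ} (hk : 1 ≤ k) (a i : ℕ) : p ∣ a + p ^ k * i ↔ p ∣ a := by
  have h : p ∣ p ^ k * i := Dvd.dvd.mul_right (dvd_pow_self p (by omega)) i
  exact (Nat.dvd_add_left h)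

theorem norm_pki (k i : ℕ) : ‖(p : ℚ_[p]) ^ k * i‖ ≤ ep p k := by
  rw [norm_mul, norm_pk]
  calc ep p k * ‖(i : ℚ_[p])‖ ≤ ep p k * 1 :=
        mul_le_mul_of_nonneg_left (nat_norm_le i) (ep_pos k).le
    _ = ep p k := mul_one _

theorem step1 (h5 : 5 < p) (r : ℕ) (hr : 2 ≤ r) (k : ℕ) (hk : 1 ≤ k) :
    ‖lApprox p r k - RS p r k‖ ≤ ep p k := by
  obtain ⟨n, rfl⟩ : ∃ n, r = n + 1 := ⟨r - 1, by omega⟩
  have hp3 : p % 3 ≠ 0 := by
    intro h
    have := (Nat.prime_dvd_prime_iff_eq Nat.prime_three hp.out).1 (Nat.dvd_of_mod_eq_zero h)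
    omega
  have hn0 : ((n : ℕ) : ℚ_[p]) ≠ 0 := by exact_mod_cast (by omega : n ≠ 0)
  have hpk0 : (p : ℚ_[p]) ^ k ≠ 0 := pow_ne_zero _ (by exact_mod_cast hp.out.ne_zero)
  have h3n : ‖(3 : ℚ_[p])‖ = 1 := norm_three h5
  have h30 : (3 : ℚ_[p]) ≠ 0 := by norm_num
  have hnum : (∑ m ∈ (range (3 * p ^ k)).filter (fun m => ¬ p ∣ m),
      (chi m : ℚ_[p]) * ((m : ℚ_[p]) ^ n)⁻¹) =
      ∑ a ∈ range (p ^ k), ∑ j ∈ range 3, if p ∣ a then 0 else
        (chi (a + p ^ k * j) : ℚ_[p]) * (((a : ℚ_[p]) + (p : ℚ_[p]) ^ k * j) ^ n)⁻¹ := by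
    rw [sum_filter, mul_comm 3 (p ^ k), sum_block, sum_comm]
    apply sum_congr rfl
    intro a _
    apply sum_congr rfl
    intro j _
    by_cases hpa : p ∣ a
    · rw [if_neg (not_not.2 ((dvd_shift hk a j).2 hpa)), if_pos hpa]
    · rw [if_pos (fun h => hpa ((dvd_shift hk a j).1 h)), if_neg hpa]
      push_cast
      rfl
  have hdiff : lApprox p (n + 1) k - RS p (n + 1) k =
      (∑ a ∈ range (p ^ k), ∑ j ∈ range 3, if p ∣ a then 0 else
        (chi (a + p ^ k * j) : ℚ_[p]) * ((((a : ℚ_[p]) + (p : ℚ_[p]) ^ k * j) ^ n)⁻¹ -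
          ((a : ℚ_[p]) ^ n)⁻¹ + n * ((p : ℚ_[p]) ^ k * j) * ((a : ℚ_[p]) ^ (n + 1))⁻¹)) /
        ((n : ℚ_[p]) * (3 * (p : ℚ_[p]) ^ k)) := by
    unfold lApprox RS
    rw [Nat.add_sub_cancel, hnum]
    have e1 : (((n + 1 : ℕ) : ℚ_[p]) - 1) = n := by push_cast; ring
    rw [e1, eq_div_iff (mul_ne_zero hn0 (mul_ne_zero h30 hpk0)), sub_mul,
      div_mul_cancel₀ _ (mul_ne_zero hn0 (mul_ne_zero h30 hpk0))]
    have e2 : (-∑ a ∈ range (p ^ k), if p ∣ a then (0 : ℚ_[p]) else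
        (ck (p ^ k) a : ℚ_[p]) * ((a : ℚ_[p]) ^ (n + 1))⁻¹) / 3 * ((n : ℚ_[p]) * (3 * (p : ℚ_[p]) ^ k)) =
        -∑ a ∈ range (p ^ k), (n : ℚ_[p]) * (p : ℚ_[p]) ^ k * (if p ∣ a then (0 : ℚ_[p]) else
        (ck (p ^ k) a : ℚ_[p]) * ((a : ℚ_[p]) ^ (n + 1))⁻¹) := by
      rw [← mul_sum]
      field_simp
    rw [e2, sub_neg_eq_add, ← sum_add_distrib]
    apply sum_congr rfl
    intro a _
    by_cases hpa : p ∣ a
    · simp [hpa]
    · simp only [if_neg hpa]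
      have h0 := chi_sum' a (p ^ k) (pow_mod3 hp3 k)
      have h0' : ∑ j ∈ range 3, (chi (a + p ^ k * j) : ℚ_[p]) = 0 := by
        have := congrArg (fun z : ℤ => (z : ℚ_[p])) h0
        simpa using this
      have hc : (ck (p ^ k) a : ℚ_[p]) = ∑ j ∈ range 3, (j : ℚ_[p]) * (chi (a + p ^ k * j) : ℚ_[p]) := by
        unfold ck; push_cast; rfl
      rw [hc]
      simp only [sum_range_succ, sum_range_zero, zero_add] at h0' ⊢
      linear_combination (((a : ℚ_[p]) ^ n)⁻¹) * h0'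
  rw [hdiff, norm_div, norm_mul, norm_mul, norm_pk, h3n, one_mul]
  have hn1 : 0 < ‖(n : ℚ_[p])‖ := norm_pos_iff.2 hn0
  rw [div_le_iff₀ (mul_pos hn1 (ep_pos k))]
  have hC : ep p k * (‖(n : ℚ_[p])‖ * ep p k) = ‖(n : ℚ_[p])‖ * ep p (2 * k) := by
    rw [two_mul, ep_add]; ring
  rw [hC]
  have hC0 : 0 ≤ ‖(n : ℚ_[p])‖ * ep p (2 * k) := by have := (ep_pos (p := p) (2 * k)).le; positivity
  apply sum_le _ _ _ hC0
  intro a _
  apply sum_le _ _ _ hC0
  intro j _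
  by_cases hpa : p ∣ a
  · rw [if_pos hpa, norm_zero]; exact hC0
  · rw [if_neg hpa, norm_mul]
    have h1 := inv_err (p := p) (by omega) (a : ℚ_[p]) ((p : ℚ_[p]) ^ k * j) (nat_norm_eq hpa) k hk
      (norm_pki k j) n (by omega)
    calc ‖(chi (a + p ^ k * j) : ℚ_[p])‖ * _ ≤ 1 * (‖(n : ℚ_[p])‖ * ep p (2 * k)) :=
          mul_le_mul (norm_int_le _) h1 (norm_nonneg _) (by norm_num)
      _ = _ := one_mul _

/-! ### Step 2: the sums `RS` form a Cauchy sequence -/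

theorem inv_diff (hp2 : 2 < p) (u δ : ℚ_[p]) (hu : ‖u‖ = 1) (k : ℕ) (hk : 1 ≤ k)
    (hδ : ‖δ‖ ≤ ep p k) (n : ℕ) (hn : 1 ≤ n) : ‖((u + δ) ^ n)⁻¹ - (u ^ n)⁻¹‖ ≤ ep p k := by
  have h1 := inv_err hp2 u δ hu k hk hδ n hn
  have h2 : ((u + δ) ^ n)⁻¹ - (u ^ n)⁻¹ = (((u + δ) ^ n)⁻¹ - (u ^ n)⁻¹ + n * δ * (u ^ (n + 1))⁻¹) -
      n * δ * (u ^ (n + 1))⁻¹ := by ring
  rw [h2]
  apply sub_le
  · refine h1.trans ?_
    calc ‖(n : ℚ_[p])‖ * ep p (2 * k) ≤ 1 * ep p k :=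
          mul_le_mul (nat_norm_le n) (ep_anti (by omega)) (ep_pos _).le (by norm_num)
      _ = ep p k := one_mul _
  · rw [norm_mul, norm_mul, norm_inv, norm_pow, hu, one_pow, inv_one, mul_one]
    calc ‖(n : ℚ_[p])‖ * ‖δ‖ ≤ 1 * ep p k :=
          mul_le_mul (nat_norm_le n) hδ (norm_nonneg _) (by norm_num)
      _ = ep p k := one_mul _

theorem step2 (h5 : 5 < p) (r : ℕ) (hr : 2 ≤ r) (k : ℕ) (hk : 1 ≤ k) :
    ‖RS p r (k + 1) - RS p r k‖ ≤ ep p k := by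
  have hp3 : p % 3 ≠ 0 := by
    intro h
    have := (Nat.prime_dvd_prime_iff_eq Nat.prime_three hp.out).1 (Nat.dvd_of_mod_eq_zero h)
    omega
  have hdiff : RS p r (k + 1) - RS p r k =
      -(∑ a ∈ range (p ^ k), ∑ i ∈ range p, if p ∣ a then 0 else
        (ck (p ^ (k + 1)) (a + p ^ k * i) : ℚ_[p]) *
        ((((a : ℚ_[p]) + (p : ℚ_[p]) ^ k * i) ^ r)⁻¹ - ((a : ℚ_[p]) ^ r)⁻¹)) / 3 := by
    unfold RS
    rw [← sub_div, neg_sub_neg]
    congr 1
    rw [← neg_sub]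
    congr 1
    rw [pow_succ p k, sum_block, sum_comm, ← sum_sub_distrib]
    apply sum_congr rfl
    intro a _
    by_cases hpa : p ∣ a
    · simp [hpa, (dvd_shift hk a _).2 hpa]
    · have hc : (ck (p ^ k) a : ℚ_[p]) = ∑ i ∈ range p, (ck (p ^ k * p) (a + p ^ k * i) : ℚ_[p]) := by
        rw [← ck_rel (p ^ k) p a (pow_mod3 hp3 k) hp3]
        push_cast; rfl
      simp only [if_neg hpa]
      rw [hc, sum_mul, ← sum_sub_distrib]
      apply sum_congr rfl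
      intro i _
      rw [if_neg (fun h => hpa ((dvd_shift hk a i).1 h))]
      push_cast
      ring
  rw [hdiff, norm_div, norm_neg, norm_three h5, div_one]
  apply sum_le _ _ _ (ep_pos k).le
  intro a _
  apply sum_le _ _ _ (ep_pos k).le
  intro i _
  by_cases hpa : p ∣ a
  · rw [if_pos hpa, norm_zero]; exact (ep_pos k).le
  · rw [if_neg hpa, norm_mul]
    have h1 := inv_diff (p := p) (by omega) (a : ℚ_[p]) ((p : ℚ_[p]) ^ k * i) (nat_norm_eq hpa) k hk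
      (norm_pki k i) r (by omega)
    calc _ ≤ 1 * ep p k := mul_le_mul (norm_int_le _) h1 (norm_nonneg _) (by norm_num)
      _ = _ := one_mul _

/-! ### Step 3: `RS p r 1` modulo `p` -/

/-- sums over a residue class modulo `3` -/
def TZ (p i : ℕ) : ZMod p := ∑ a ∈ range p, if a % 3 = i then ((a : ZMod p) ^ 2)⁻¹ else 0

theorem sum_three {M : Type} [AddCommMonoid M] (g : ℕ → M) : ∀ n : ℕ,
    (∑ a ∈ range n, if a % 3 = 0 then g a else 0) = ∑ j ∈ range ((n + 2) / 3), g (3 * j)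
  | 0 => by simp
  | n + 1 => by
    rw [sum_range_succ, sum_three g n]
    by_cases h : n % 3 = 0
    · rw [if_pos h]
      have h1 : (n + 1 + 2) / 3 = (n + 2) / 3 + 1 := by omega
      have h2 : 3 * ((n + 2) / 3) = n := by omega
      rw [h1, sum_range_succ, h2]
    · rw [if_neg h, add_zero]
      have h1 : (n + 1 + 2) / 3 = (n + 2) / 3 := by omega
      rw [h1]

theorem mod3_ne (h5 : 5 < p) : p % 3 ≠ 0 := by
  intro h
  have := (Nat.prime_dvd_prime_iff_eq Nat.prime_three hp.out).1 (Nat.dvd_of_mod_eq_zero h)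
  omega

theorem TZ_zero (h5 : 5 < p) : 9 * TZ p 0 = hz p (p / 3) := by
  have h30 : (3 : ZMod p) ≠ 0 := by
    have := cast_ne (p := p) 3 (by omega) (by omega)
    exact_mod_cast this
  have hm := mod3_ne h5
  unfold TZ
  rw [sum_three (fun a => ((a : ZMod p) ^ 2)⁻¹) p]
  have h1 : (p + 2) / 3 = p / 3 + 1 := by omega
  rw [h1, sum_range_succ']
  simp only [mul_zero, Nat.cast_zero, ne_eq, OfNat.ofNat_ne_zero, not_false_eq_true, zero_pow,
    inv_zero, add_zero]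
  unfold hz
  rw [mul_sum]
  apply sum_congr rfl
  intro j _
  push_cast
  rw [mul_pow, mul_inv]
  have : (9 : ZMod p) = 3 ^ 2 := by norm_num
  rw [this, ← mul_assoc, mul_inv_cancel₀ (pow_ne_zero _ h30), one_mul]

theorem hz_full (h5 : 5 < p) : hz p (p - 1) = 0 := by
  have h1 := hz_refl (p := p) ((p - 1) / 2) (by omega)
  have h2 := hz_half (p := p) (by omega)
  have hodd : p % 2 = 1 := hp.out.eq_two_or_odd.resolve_left (by omega)
  have e1 : p - 1 - (p - 1) / 2 = (p - 1) / 2 := by omega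
  rw [e1, h2, sub_zero] at h1
  exact h1

theorem sum_full (h5 : 5 < p) : ∑ a ∈ range p, ((a : ZMod p) ^ 2)⁻¹ = 0 := by
  have h2 := hz_full h5
  unfold hz at h2
  have h1 : (range p) = range ((p - 1) + 1) := by congr 1; omega
  rw [h1, sum_range_succ']
  simp only [Nat.cast_add, Nat.cast_one, Nat.cast_zero, ne_eq, OfNat.ofNat_ne_zero,
    not_false_eq_true, zero_pow, inv_zero, add_zero]
  exact h2

theorem TZ_sum (h5 : 5 < p) : TZ p 0 + TZ p 1 + TZ p 2 = 0 := by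
  rw [← sum_full h5]
  unfold TZ
  rw [← sum_add_distrib, ← sum_add_distrib]
  apply sum_congr rfl
  intro a _
  have : a % 3 = 0 ∨ a % 3 = 1 ∨ a % 3 = 2 := by omega
  rcases this with h | h | h <;> simp [h]

theorem TZ_refl (h5 : 5 < p) : TZ p (p % 3) = TZ p 0 := by
  have hm := mod3_ne h5
  obtain ⟨q, hq⟩ : ∃ q, p = q + 1 := ⟨p - 1, by omega⟩
  have key : ∀ i, TZ p i = ∑ j ∈ range q, if (j + 1) % 3 = i then (((j + 1 : ℕ) : ZMod p) ^ 2)⁻¹ else 0 := by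
    intro i
    have h0 : (range p) = range (q + 1) := by rw [hq]
    unfold TZ
    rw [h0, sum_range_succ']
    simp
  rw [key, key, ← sum_range_reflect]
  apply sum_congr rfl
  intro j hj
  rw [mem_range] at hj
  have h1 : q - 1 - j + 1 = p - (j + 1) := by omega
  have h2 : (((q - 1 - j + 1 : ℕ) : ZMod p)) = -((j + 1 : ℕ) : ZMod p) := by
    rw [h1, Nat.cast_sub (by omega), ZMod.natCast_self, zero_sub]
  rw [h2, neg_pow_two]
  by_cases h3 : (j + 1) % 3 = 0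
  · rw [if_pos h3, if_pos (by omega)]
  · rw [if_neg h3, if_neg (by omega)]

theorem ck_one (h5 : 5 < p) (a : ℕ) :
    ck p a = if p % 3 = 1 then (if a % 3 = 0 then -1 else if a % 3 = 1 then -1 else 2)
      else (if a % 3 = 0 then 1 else if a % 3 = 1 then -2 else 1) := by
  have hm := mod3_ne h5
  have h1 : a % 3 = 0 ∨ a % 3 = 1 ∨ a % 3 = 2 := by omega
  have h2 : p % 3 = 1 ∨ p % 3 = 2 := by omega
  unfold ck chi
  simp only [sum_range_succ, sum_range_zero, zero_add, Nat.cast_zero, zero_mul, Nat.cast_one, one_mul,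
    mul_one, Nat.cast_ofNat]
  rcases h1 with h1 | h1 | h1 <;> rcases h2 with h2 | h2 <;> simp [Nat.add_mod, Nat.mul_mod, h1, h2]

/-- the residue -/
theorem sum_ck (h5 : 5 < p) : ∑ a ∈ range p, (ck p a : ZMod p) * ((a : ZMod p) ^ 2)⁻¹ =
    if p % 3 = 1 then -6 * TZ p 0 else 6 * TZ p 0 := by
  have hm := mod3_ne h5
  have h0 := TZ_sum h5
  have h1 := TZ_refl h5
  have h2 : p % 3 = 1 ∨ p % 3 = 2 := by omega
  rcases h2 with h2 | h2
  · rw [h2] at h1
    have : ∑ a ∈ range p, (ck p a : ZMod p) * ((a : ZMod p) ^ 2)⁻¹ = -TZ p 0 - TZ p 1 + 2 * TZ p 2 := by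
      unfold TZ
      rw [← sum_neg_distrib, ← sum_sub_distrib, mul_sum, ← sum_add_distrib]
      apply sum_congr rfl
      intro a _
      have h3 : a % 3 = 0 ∨ a % 3 = 1 ∨ a % 3 = 2 := by omega
      rw [ck_one h5]
      rcases h3 with h3 | h3 | h3 <;> simp [h2, h3]
    rw [this, if_pos h2]
    linear_combination 2 * h0 - 3 * h1
  · rw [h2] at h1
    have : ∑ a ∈ range p, (ck p a : ZMod p) * ((a : ZMod p) ^ 2)⁻¹ = TZ p 0 - 2 * TZ p 1 + TZ p 2 := by
      unfold TZ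
      rw [mul_sum, ← sum_sub_distrib, ← sum_add_distrib]
      apply sum_congr rfl
      intro a _
      have h3 : a % 3 = 0 ∨ a % 3 = 1 ∨ a % 3 = 2 := by omega
      rw [ck_one h5]
      rcases h3 with h3 | h3 | h3 <;> simp [h2, h3]
    rw [this, if_neg (by omega)]
    linear_combination -2 * h0 + 3 * h1

theorem sum_ck_zero (h5 : 5 < p) : ∑ a ∈ range p, (ck p a : ZMod p) * ((a : ZMod p) ^ 2)⁻¹ = 0 ↔
    hz p (p / 3) = 0 := by
  have h9 := TZ_zero h5
  have h20 : (2 : ZMod p) ≠ 0 := by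
    have := cast_ne (p := p) 2 (by omega) (by omega)
    exact_mod_cast this
  have h30 : (3 : ZMod p) ≠ 0 := by
    have := cast_ne (p := p) 3 (by omega) (by omega)
    exact_mod_cast this
  have h6 : (6 : ZMod p) ≠ 0 := by
    have : (6 : ZMod p) = 2 * 3 := by norm_num
    rw [this]; exact mul_ne_zero h20 h30
  have h90 : (9 : ZMod p) ≠ 0 := by
    have : (9 : ZMod p) = 3 * 3 := by norm_num
    rw [this]; exact mul_ne_zero h30 h30
  rw [sum_ck h5, ← h9]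
  split_ifs <;> simp [h6, h90]

/-- the integer congruent to `-3 RS p r 1` -/
def II (p : ℕ) : ℤ := ∑ a ∈ range p, ck p a * (a : ℤ) ^ (p - 3)

theorem II_iff (h5 : 5 < p) : (p : ℤ) ∣ II p ↔ hz p (p / 3) = 0 := by
  rw [← sum_ck_zero h5, ← ZMod.intCast_zmod_eq_zero_iff_dvd]
  have : ((II p : ℤ) : ZMod p) = ∑ a ∈ range p, (ck p a : ZMod p) * ((a : ZMod p) ^ 2)⁻¹ := by
    unfold II
    push_cast
    apply sum_congr rfl
    intro a _
    congr 1
    by_cases ha : (a : ZMod p) = 0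
    · rw [ha, zero_pow (by omega), zero_pow (by omega), inv_zero]
    · apply eq_inv_of_mul_eq_one_left
      rw [← pow_add]
      have : p - 3 + 2 = p - 1 := by omega
      rw [this]
      exact ZMod.pow_card_sub_one_eq_one ha
  rw [this]

theorem step3 (h5 : 5 < p) (r : ℕ) (hr : 2 ≤ r) (hr2 : (p - 1) ∣ (r - 2)) :
    ‖RS p r 1 + (II p : ℚ_[p]) / 3‖ ≤ ep p 1 := by
  have h1 : RS p r 1 + (II p : ℚ_[p]) / 3 =
      -(∑ a ∈ range p, (ck p a : ℚ_[p]) * (if p ∣ a then -(a : ℚ_[p]) ^ (p - 3) else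
        ((a : ℚ_[p]) ^ r)⁻¹ - (a : ℚ_[p]) ^ (p - 3))) / 3 := by
    unfold RS II
    rw [pow_one, ← add_div]
    congr 1
    push_cast
    rw [← sub_eq_neg_add, ← neg_sub, ← sum_sub_distrib]
    congr 1
    apply sum_congr rfl
    intro a _
    by_cases h : p ∣ a
    · simp [h]
    · simp only [if_neg h]; ring
  rw [h1, norm_div, norm_neg, norm_three h5, div_one]
  apply sum_le _ _ _ (ep_pos 1).le
  intro a ha
  rw [mem_range] at ha
  rw [norm_mul]
  have h2 : ‖(if p ∣ a then -(a : ℚ_[p]) ^ (p - 3) else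
        ((a : ℚ_[p]) ^ r)⁻¹ - (a : ℚ_[p]) ^ (p - 3))‖ ≤ ep p 1 := by
    by_cases h : p ∣ a
    · have ha0 : a = 0 := Nat.eq_zero_of_dvd_of_lt h ha
      rw [if_pos h, ha0, Nat.cast_zero, zero_pow (by omega), neg_zero, norm_zero]
      exact (ep_pos 1).le
    · rw [if_neg h]
      have hu : ‖(a : ℚ_[p])‖ = 1 := nat_norm_eq h
      have hu0 : (a : ℚ_[p]) ≠ 0 := by intro h; rw [h, norm_zero] at hu; norm_num at hu
      have h3 : ((a : ℚ_[p]) ^ r)⁻¹ - (a : ℚ_[p]) ^ (p - 3) =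
          ((a : ℚ_[p]) ^ r)⁻¹ * (((1 - (a : ℤ) ^ (r + (p - 3)) : ℤ)) : ℚ_[p]) := by
        push_cast
        rw [pow_add]
        field_simp
      rw [h3, norm_mul, norm_inv, norm_pow, hu, one_pow, inv_one, one_mul]
      have h4 : (p : ℤ) ∣ (1 - (a : ℤ) ^ (r + (p - 3)) : ℤ) := by
        rw [← ZMod.intCast_zmod_eq_zero_iff_dvd]
        push_cast
        have ha0 : (a : ZMod p) ≠ 0 := by
          rw [Ne, ZMod.natCast_eq_zero_iff]; exact h
        obtain ⟨c, hc⟩ := hr2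
        have h5' : r + (p - 3) = (p - 1) * (c + 1) := by
          rw [Nat.mul_succ, ← hc]; omega
        rw [h5', pow_mul, ZMod.pow_card_sub_one_eq_one ha0, one_pow, sub_self]
      have h6 := (Padic.norm_int_le_pow_iff_dvd (p := p) (1 - (a : ℤ) ^ (r + (p - 3)) : ℤ) 1).2
        (by simpa using h4)
      rw [ep, pow_one]
      simpa using h6
  calc _ ≤ 1 * ep p 1 := mul_le_mul (norm_int_le _) h2 (norm_nonneg _) (by norm_num)
    _ = _ := one_mul _

/-! ### The result -/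

theorem ep_one_lt : ep p 1 < 1 := by
  unfold ep
  rw [pow_one]
  exact inv_lt_one_of_one_lt₀ (by exact_mod_cast hp.out.one_lt)

theorem norm_one_iff {x y : ℚ_[p]} (h : ‖x - y‖ ≤ ep p 1) : ‖x‖ = 1 ↔ ‖y‖ = 1 := by
  constructor
  · intro hx
    have h1 := norm_add_unit (δ := y - x) hx (k := 1) le_rfl (by rw [norm_sub_rev]; exact h)
    simpa using h1
  · intro hy
    have h1 := norm_add_unit (δ := x - y) hy (k := 1) le_rfl h
    simpa using h1

/-- Let `p > 5` be a prime and `r ≥ 2`, `r ≡ 2 (mod p - 1)`.  The numbers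
`1/(r-1) · 1/(3 p^k) · ∑_{0 ≤ m < 3 p^k, p ∤ m} χ(m) m^{1-r}` converge in `ℚ_p` for `k → ∞` to a
`p`-adic integer (the value `L_p(r, χ ω^{1-r})` of the Kubota–Leopoldt `p`-adic `L`-function), and the
limit is a unit if and only if `p` does not divide `H2 (p/3)`. -/
theorem padicL (h5 : 5 < p) (r : ℕ) (hr : 2 ≤ r) (hr2 : (p - 1) ∣ (r - 2)) :
    ∃ z : ℚ_[p], Tendsto (lApprox p r) atTop (𝓝 z) ∧ ‖z‖ ≤ 1 ∧
      (‖z‖ = 1 ↔ ¬ padicNorm p (H2 (p / 3)) ≤ (p : ℚ)⁻¹) := by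
  have hlt := ep_one_lt (p := p)
  let G : ℕ → ℚ_[p] := fun k => RS p r (k + 1)
  have hG : ∀ k, dist (G k) (G (k + 1)) ≤ 1 * (ep p 1) ^ k := by
    intro k
    rw [dist_comm, dist_eq_norm, one_mul]
    refine (step2 h5 r hr (k + 1) (by omega)).trans ?_
    have : ep p 1 ^ k = ep p k := by unfold ep; rw [pow_one, inv_pow]
    rw [this]
    exact ep_anti (by omega)
  have hc : CauchySeq G := cauchySeq_of_le_geometric (ep p 1) 1 hlt hG
  obtain ⟨z, hz'⟩ := cauchySeq_tendsto_of_complete hc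
  have hT : Tendsto (lApprox p r) atTop (𝓝 z) := by
    rw [← tendsto_add_atTop_iff_nat 1]
    have h0 : Tendsto (fun k => lApprox p r (k + 1) - RS p r (k + 1)) atTop (𝓝 0) := by
      apply squeeze_zero_norm (a := fun k => ep p (k + 1))
      · intro k; exact step1 h5 r hr (k + 1) (by omega)
      · have h1 : Tendsto (fun k => (ep p 1) ^ k) atTop (𝓝 0) :=
          tendsto_pow_atTop_nhds_zero_of_lt_one (ep_pos 1).le hlt
        have h2 := h1.comp (tendsto_add_atTop_nat 1)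
        refine h2.congr ?_
        intro k
        simp only [Function.comp]
        unfold ep; rw [pow_one, inv_pow]
    have h1 := h0.add hz'
    rw [zero_add] at h1
    refine h1.congr ?_
    intro k
    simp [G]
  have hd : ‖z - RS p r 1‖ ≤ ep p 1 := by
    have h1 : ∀ k, ‖G k - RS p r 1‖ ≤ ep p 1 := by
      intro k
      induction k with
      | zero => simp only [G, zero_add, sub_self, norm_zero]; exact (ep_pos 1).le
      | succ k ih =>
        have : G (k + 1) - RS p r 1 = (G (k + 1) - G k) + (G k - RS p r 1) := by ring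
        rw [this]
        apply add_le _ _ _ _ ih
        exact (step2 h5 r hr (k + 1) (by omega)).trans (ep_anti (by omega))
    have h2 : Tendsto (fun k => ‖G k - RS p r 1‖) atTop (𝓝 ‖z - RS p r 1‖) :=
      (hz'.sub_const _).norm
    exact le_of_tendsto' h2 h1
  have h3 := step3 h5 r hr hr2
  have hd2 : ‖z - (-((II p : ℚ_[p]) / 3))‖ ≤ ep p 1 := by
    have : z - (-((II p : ℚ_[p]) / 3)) = (z - RS p r 1) + (RS p r 1 + (II p : ℚ_[p]) / 3) := by ring
    rw [this]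
    exact add_le _ _ _ hd h3
  have hI : ‖(-((II p : ℚ_[p]) / 3))‖ = ‖(II p : ℚ_[p])‖ := by
    rw [norm_neg, norm_div, norm_three h5, div_one]
  refine ⟨z, hT, ?_, ?_⟩
  · have : z = (z - (-((II p : ℚ_[p]) / 3))) + (-((II p : ℚ_[p]) / 3)) := by ring
    rw [this]
    exact add_le _ _ _ (hd2.trans hlt.le) (by rw [hI]; exact norm_int_le _)
  · rw [norm_one_iff hd2, hI, norm_iff hp.out (p / 3) (by omega), ← II_iff h5,
      ← Padic.norm_intCast_lt_one_iff]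
    have h1 := norm_int_le (p := p) (II p)
    constructor
    · intro h; rw [h]; norm_num
    · intro h; exact le_antisymm h1 (not_lt.1 h)

end

end Run7.K3.PL
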