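import Pool.Agent.Run7.K3.PadicL

/-!
The generalised Bernoulli number `B_{1,χ}`, `χ = χ₋₃ ω⁻²` (`χ₋₃` the odd character modulo `3`, `ω` the
Teichmüller character modulo `p`), is a `p`-adic unit if and only if `p` does not divide
`H2 (p/3) = ∑_{k ≤ p/3} 1/k²`.
-/

set_option autoImplicit false

namespace Run7.K3.BO

open Finset Run7.K3.PL IsLocalRing

noncomputable section

/-- `ω` is the Teichmüller character modulo `p`. -/
def IsTeich (p : ℕ) [Fact p.Prime] (ω : DirichletCharacter ℤ_[p] p) : Prop :=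
  ∀ a : ℕ, (p : ℤ_[p]) ∣ ω (a : ZMod p) - (a : ℤ_[p])

/-- `B_{1,χ} = 1/(3p) ∑_{a < 3p} a χ(a)` for `χ = χ₋₃ ω⁻²`. -/
def bOne (p : ℕ) [Fact p.Prime] (ω : DirichletCharacter ℤ_[p] p) : ℚ_[p] :=
  (∑ a ∈ range (3 * p), (a : ℚ_[p]) * ((chi a : ℚ_[p]) *
    (((ω⁻¹ ^ 2 : DirichletCharacter ℤ_[p] p) (a : ZMod p) : ℤ_[p]) : ℚ_[p]))) / (3 * (p : ℚ_[p]))

variable {p : ℕ} [hp : Fact p.Prime]

theorem toZMod_p : (PadicInt.toZMod (p := p)) (p : ℤ_[p]) = 0 := by
  rw [map_natCast, ZMod.natCast_self]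

theorem teich_red {ω : DirichletCharacter ℤ_[p] p} (h : IsTeich p ω) (a : ℕ) :
    PadicInt.toZMod (ω (a : ZMod p)) = (a : ZMod p) := by
  obtain ⟨c, hc⟩ := h a
  have := congrArg (PadicInt.toZMod (p := p)) hc
  rw [map_sub, map_mul, toZMod_p, zero_mul, map_natCast (PadicInt.toZMod (p := p)) a] at this
  exact sub_eq_zero.1 this

theorem psi_red {ω : DirichletCharacter ℤ_[p] p} (h : IsTeich p ω) (a : ℕ) :
    PadicInt.toZMod ((ω⁻¹ ^ 2 : DirichletCharacter ℤ_[p] p) (a : ZMod p)) = ((a : ZMod p) ^ 2)⁻¹ := by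
  by_cases ha : (a : ZMod p) = 0
  · have hu : ¬ IsUnit (a : ZMod p) := by rw [ha]; exact not_isUnit_zero
    rw [MulChar.map_nonunit _ hu, map_zero, ha]
    simp
  · have hu : IsUnit (a : ZMod p) := isUnit_iff_ne_zero.2 ha
    have h1 : (ω⁻¹ ^ 2 : DirichletCharacter ℤ_[p] p) (a : ZMod p) * (ω (a : ZMod p)) ^ 2 = 1 := by
      have h2 : ((ω⁻¹ ^ 2 : DirichletCharacter ℤ_[p] p) * ω ^ 2) = 1 := by
        rw [inv_pow, inv_mul_cancel]
      have h3 := congrArg (fun χ : DirichletCharacter ℤ_[p] p => χ (a : ZMod p)) h2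
      simp only [MulChar.mul_apply] at h3
      rw [MulChar.one_apply hu] at h3
      rw [← h3]
      congr 1
      exact (MulChar.pow_apply' ω two_ne_zero _).symm
    have h4 := congrArg (PadicInt.toZMod (p := p)) h1
    rw [map_mul, map_pow, teich_red h, map_one] at h4
    exact eq_inv_of_mul_eq_one_left h4

/-- the number `3 B_{1,χ}` -/
def SS (p : ℕ) [Fact p.Prime] (ω : DirichletCharacter ℤ_[p] p) : ℤ_[p] :=
  ∑ a ∈ range p, (ck p a : ℤ_[p]) * (ω⁻¹ ^ 2 : DirichletCharacter ℤ_[p] p) (a : ZMod p)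

theorem bOne_eq (h5 : 5 < p) (ω : DirichletCharacter ℤ_[p] p) : bOne p ω = (SS p ω : ℚ_[p]) / 3 := by
  have hp0 : (p : ℚ_[p]) ≠ 0 := by exact_mod_cast hp.out.ne_zero
  have h30 : (3 : ℚ_[p]) ≠ 0 := by norm_num
  have hm := mod3_ne (p := p) h5
  have key : (∑ a ∈ range (3 * p), (a : ℚ_[p]) * ((chi a : ℚ_[p]) *
      (((ω⁻¹ ^ 2 : DirichletCharacter ℤ_[p] p) (a : ZMod p) : ℤ_[p]) : ℚ_[p]))) =
      (p : ℚ_[p]) * (SS p ω : ℚ_[p]) := by
    rw [mul_comm 3 p, sum_block, sum_comm]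
    unfold SS
    rw [PadicInt.coe_sum, mul_sum]
    apply sum_congr rfl
    intro a _
    have e : ∀ i ∈ range 3, ((a + p * i : ℕ) : ℚ_[p]) * ((chi (a + p * i) : ℚ_[p]) *
        (((ω⁻¹ ^ 2 : DirichletCharacter ℤ_[p] p) ((a + p * i : ℕ) : ZMod p) : ℤ_[p]) : ℚ_[p])) =
        (((a : ℚ_[p]) * (chi (a + p * i) : ℚ_[p])) + (p : ℚ_[p]) * ((i : ℚ_[p]) * (chi (a + p * i) : ℚ_[p]))) *
        (((ω⁻¹ ^ 2 : DirichletCharacter ℤ_[p] p) (a : ZMod p) : ℤ_[p]) : ℚ_[p]) := by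
      intro i _
      have h1 : ((a + p * i : ℕ) : ZMod p) = (a : ZMod p) := by
        push_cast; rw [ZMod.natCast_self, zero_mul, add_zero]
      rw [h1]
      push_cast
      ring
    rw [sum_congr rfl e, ← sum_mul, sum_add_distrib, ← mul_sum, ← mul_sum]
    have h0 : ∑ i ∈ range 3, (chi (a + p * i) : ℚ_[p]) = 0 := by
      have := congrArg (fun z : ℤ => (z : ℚ_[p])) (chi_sum' a p hm)
      simpa using this
    have h1 : ∑ i ∈ range 3, (i : ℚ_[p]) * (chi (a + p * i) : ℚ_[p]) = (ck p a : ℚ_[p]) := by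
      unfold ck; push_cast; rfl
    rw [h0, h1]
    push_cast
    ring
  unfold bOne
  rw [key]
  field_simp

theorem SS_red {ω : DirichletCharacter ℤ_[p] p} (h : IsTeich p ω) :
    PadicInt.toZMod (SS p ω) = ∑ a ∈ range p, (ck p a : ZMod p) * ((a : ZMod p) ^ 2)⁻¹ := by
  unfold SS
  rw [map_sum]
  apply sum_congr rfl
  intro a _
  rw [map_mul, psi_red h, map_intCast]

theorem norm_eq_one_iff (x : ℤ_[p]) : ‖x‖ = 1 ↔ PadicInt.toZMod x ≠ 0 := by
  rw [← PadicInt.isUnit_iff, Ne, ← RingHom.mem_ker, PadicInt.ker_toZMod, IsLocalRing.mem_maximalIdeal,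
    mem_nonunits_iff, not_not]

theorem bOne_unit (h5 : 5 < p) {ω : DirichletCharacter ℤ_[p] p} (h : IsTeich p ω) :
    ‖bOne p ω‖ = 1 ↔ ¬ padicNorm p (H2 (p / 3)) ≤ (p : ℚ)⁻¹ := by
  rw [bOne_eq h5, norm_div, norm_three h5, div_one, PadicInt.padic_norm_e_of_padicInt,
    norm_eq_one_iff, SS_red h, Ne, sum_ck_zero h5, norm_iff hp.out (p / 3) (by omega)]

/-! ### Existence of the Teichmüller character -/

theorem exists_teich : ∃ ω : DirichletCharacter ℤ_[p] p, IsTeich p ω := by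
  classical
  let I : Ideal ℤ_[p] := Ideal.span {(p : ℤ_[p])}
  have hI : maximalIdeal ℤ_[p] = I := PadicInt.maximalIdeal_eq_span_p
  have hchar : CharP (ℤ_[p] ⧸ I) p := by
    apply CharP.quotient
    intro h
    have h1 : (p : ℤ_[p]) ∈ maximalIdeal ℤ_[p] := by
      rw [hI]; exact Ideal.mem_span_singleton_self _
    exact ((IsLocalRing.mem_maximalIdeal _).1 h1) h
  have hcomp : IsAdicComplete I ℤ_[p] := hI ▸ inferInstance
  let φ : ZMod p →+* (ℤ_[p] ⧸ I) := ZMod.castHom (dvd_refl p) (ℤ_[p] ⧸ I)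
  let c : ZMod p →* Perfection (ℤ_[p] ⧸ I) p :=
    { toFun := fun a => ⟨fun _ => φ a, fun _ => by
        show φ a ^ p = φ a
        rw [← map_pow, ZMod.pow_card]⟩
      map_one' := by
        apply Subtype.ext
        funext n
        exact map_one φ
      map_mul' := fun a b => by
        apply Subtype.ext
        funext n
        exact map_mul φ a b }
  have hc0 : c 0 = 0 := by
    apply Subtype.ext
    funext n
    exact map_zero φ
  let T : ZMod p →* ℤ_[p] := (Perfection.teichmuller p I).comp c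
  have hT0 : T 0 = 0 := by
    show Perfection.teichmuller p I (c 0) = 0
    rw [hc0]
    exact Perfection.teichmuller_zero
  refine ⟨{ T with map_nonunit' := ?_ }, ?_⟩
  · intro a ha
    have ha0 : a = 0 := by
      by_contra h
      exact ha (isUnit_iff_ne_zero.2 h)
    rw [ha0]
    exact hT0
  · intro a
    have h1 : Ideal.Quotient.mk I (T (a : ZMod p)) = φ (a : ZMod p) := Perfection.mk_teichmuller _
    have h2 : φ (a : ZMod p) = Ideal.Quotient.mk I (a : ℤ_[p]) := by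
      rw [map_natCast, map_natCast]
    rw [h2, Ideal.Quotient.eq, Ideal.mem_span_singleton] at h1
    exact h1

end

end Run7.K3.BO
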