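import Mathlib
import Pool.Agent.Run7.K3.Defs

/-!
Piece M (`ArchCol`), first part: zeros, poles and derivatives of `RR`.
-/

namespace Run7.K3

noncomputable section

open Finset Filter Topology

lemma add_ne {s : ℂ} (hs : -1 < s.re) (i : ℕ) : s + i + 1 ≠ 0 := by
  intro h
  have h1 := congrArg Complex.re h
  simp only [Complex.add_re, Complex.natCast_re, Complex.one_re, Complex.zero_re] at h1
  have : (0 : ℝ) ≤ i := Nat.cast_nonneg i
  linarith

lemma qq_zero_int {c b g M k : ℕ} (hk : k < 100 * M) (h : k < b * M ∨ g * M ≤ k) :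
    qq c b g M (k : ℂ) = 0 := by
  unfold qq
  apply Finset.prod_eq_zero (Finset.mem_range.2 hk)
  rw [if_pos h]
  simp

lemma qq_zero_frac {c b g M k r : ℕ} (hk : k < 100 * M) (h : k < b * M ∨ g * M ≤ k)
    (hr : 1 ≤ r) (hr5 : r ≤ 5) : qq c b g M ((k : ℂ) + r / 6) = 0 := by
  unfold qq
  apply Finset.prod_eq_zero (Finset.mem_range.2 hk)
  rw [if_pos h]
  apply mul_eq_zero_of_right
  apply Finset.prod_eq_zero (Finset.mem_Icc.2 ⟨hr, hr5⟩)
  ring

lemma RR_of_qq {c b g M Z : ℕ} {s : ℂ} (h : qq c b g M s = 0) : RR c b g M Z s = 0 := by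
  unfold RR
  rw [h]
  simp

lemma qq_factor {c b g M k : ℕ} (hk : k < 100 * M) (h : k < b * M ∨ g * M ≤ k) :
    ∃ G : ℂ → ℂ, Differentiable ℂ G ∧ ∀ s, qq c b g M s = (s - k) ^ 2 * G s := by
  refine ⟨fun s => (∏ r ∈ Icc (1 : ℕ) 5, (s - k - (r : ℂ) / 6)) *
    ∏ j ∈ (range (100 * M)).erase k, (if j < b * M ∨ g * M ≤ j then
      (s - j) ^ 2 * ∏ r ∈ Icc (1 : ℕ) 5, (s - j - (r : ℂ) / 6) else (s - j) ^ c), ?_, ?_⟩
  · intro s
    apply DifferentiableAt.mul
    · apply DifferentiableAt.fun_finsetProd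
      intro r _
      fun_prop
    · apply DifferentiableAt.fun_finsetProd
      intro j _
      split_ifs
      · apply DifferentiableAt.mul (by fun_prop)
        apply DifferentiableAt.fun_finsetProd
        intro r _
        fun_prop
      · fun_prop
  · intro s
    unfold qq
    rw [← Finset.mul_prod_erase _ _ (mem_range.2 hk), if_pos h]
    ring

lemma qq_diff (c b g M : ℕ) : Differentiable ℂ (qq c b g M) := by
  unfold qq
  intro s
  apply DifferentiableAt.fun_finsetProd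
  intro j _
  split_ifs
  · apply DifferentiableAt.mul (by fun_prop)
    apply DifferentiableAt.fun_finsetProd
    intro r _
    fun_prop
  · fun_prop

lemma den_diff (Z : ℕ) : Differentiable ℂ fun s : ℂ => ∏ i ∈ range (Z + 1), (s + i + 1) := by
  intro s
  apply DifferentiableAt.fun_finsetProd
  intro j _
  fun_prop

lemma den_ne {Z : ℕ} {s : ℂ} (hs : -1 < s.re) : ∏ i ∈ range (Z + 1), (s + i + 1) ≠ 0 :=
  Finset.prod_ne_zero_iff.2 fun i _ => add_ne hs i

lemma RR_diff {c b g M Z : ℕ} {s : ℂ} (hs : -1 < s.re) : DifferentiableAt ℂ (RR c b g M Z) s := by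
  unfold RR
  exact (((qq_diff c b g M) s).const_mul _).div (den_diff Z s) (den_ne hs)

lemma deriv_RR_zero {c b g M Z k : ℕ} (hk : k < 100 * M) (h : k < b * M ∨ g * M ≤ k) :
    deriv (RR c b g M Z) (k : ℂ) = 0 := by
  obtain ⟨G, hG, hq⟩ := qq_factor (c := c) hk h
  have hre : -1 < (k : ℂ).re := by
    rw [Complex.natCast_re]
    have : (0 : ℝ) ≤ k := Nat.cast_nonneg k
    linarith
  have e : RR c b g M Z = fun s => (s - k) ^ 2 *
      ((AA c b g M Z : ℂ) * G s / ∏ i ∈ range (Z + 1), (s + i + 1)) := by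
    funext s
    unfold RR
    rw [hq s]
    ring
  have h1 : DifferentiableAt ℂ (fun s => (AA c b g M Z : ℂ) * G s /
      ∏ i ∈ range (Z + 1), (s + i + 1)) (k : ℂ) :=
    ((hG _).const_mul _).div (den_diff Z _) (den_ne hre)
  have h2 : HasDerivAt (fun s : ℂ => (s - k) ^ 2) (2 * ((k : ℂ) - k)) (k : ℂ) := by
    have := ((hasDerivAt_id (k : ℂ)).sub_const (k : ℂ)).fun_pow 2
    simpa using this
  rw [e]
  have h3 := (h2.mul h1.hasDerivAt).deriv
  have h4 : (fun s : ℂ => (s - k) ^ 2 * ((AA c b g M Z : ℂ) * G s /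
      ∏ i ∈ range (Z + 1), (s + i + 1))) = (fun s : ℂ => (s - k) ^ 2) *
      (fun s => (AA c b g M Z : ℂ) * G s / ∏ i ∈ range (Z + 1), (s + i + 1)) := rfl
  rw [h4, h3]
  simp

/-- Cauchy estimate -/
lemma deriv_RR_le {c b g M Z k : ℕ} (hk : 1 ≤ k) {B : ℝ}
    (hB : ∀ s : ℂ, ‖s - k‖ ≤ 1 → ‖RR c b g M Z s‖ ≤ B) : ‖deriv (RR c b g M Z) (k : ℂ)‖ ≤ B := by
  have hk1 : (1 : ℝ) ≤ k := by exact_mod_cast hk
  have h := Complex.norm_deriv_le_of_forall_mem_sphere_norm_le (c := (k : ℂ)) (R := 1) (C := B)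
    (f := RR c b g M Z) one_pos ?_ ?_
  · simpa using h
  · apply DifferentiableOn.diffContOnCl
    intro s hs
    have h1 := Metric.closure_ball_subset_closedBall hs
    rw [Metric.mem_closedBall, Complex.dist_eq] at h1
    refine (RR_diff ?_).differentiableWithinAt
    have h2 := (abs_le.1 ((Complex.abs_re_le_norm (s - k)).trans h1)).1
    rw [Complex.sub_re, Complex.natCast_re] at h2
    linarith
  · intro z hz
    apply hB
    rw [mem_sphere_iff_norm] at hz
    exact hz.le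

lemma deriv_RR_sum {c b g M Z : ℕ} {a : ℕ → ℝ}
    (ha : ∀ s : ℂ, (∀ i ∈ range (Z + 1), s + i + 1 ≠ 0) →
      RR c b g M Z s = ∑ i ∈ range (Z + 1), (a i : ℂ) / (s + i + 1)) {s : ℂ} (hs : -1 < s.re) :
    deriv (RR c b g M Z) s = -∑ i ∈ range (Z + 1), (a i : ℂ) / (s + i + 1) ^ 2 := by
  have h1 : RR c b g M Z =ᶠ[𝓝 s] fun s => ∑ i ∈ range (Z + 1), (a i : ℂ) / (s + i + 1) := by
    have h2 : ∀ᶠ z in 𝓝 s, -1 < z.re :=
      (Complex.continuous_re.tendsto s).eventually (lt_mem_nhds hs)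
    filter_upwards [h2] with z hz
    exact ha z fun i _ => add_ne hz i
  rw [h1.deriv_eq]
  have h3 : HasDerivAt (fun s : ℂ => ∑ i ∈ range (Z + 1), (a i : ℂ) / (s + i + 1))
      (∑ i ∈ range (Z + 1), -((a i : ℂ) / (s + i + 1) ^ 2)) s := by
    apply HasDerivAt.fun_sum
    intro i _
    have h4 : HasDerivAt (fun s : ℂ => s + i + 1) 1 s :=
      ((hasDerivAt_id s).add_const (i : ℂ)).add_const 1
    have h5 : HasDerivAt (fun s : ℂ => (a i : ℂ) * (s + i + 1)⁻¹)
        ((a i : ℂ) * (-1 / (s + i + 1) ^ 2)) s := (h4.fun_inv (add_ne hs i)).const_mul (a i : ℂ)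
    simp_rw [div_eq_mul_inv] at h5 ⊢
    exact h5.congr_deriv (by ring)
  rw [h3.deriv, Finset.sum_neg_distrib]

/-- an integrable majorant -/
lemma exp_poly (K : ℕ) : ∃ C : ℝ, 0 ≤ C ∧ ∀ η : ℝ,
    (1 + |η|) ^ K * Real.exp (-(3 / 1000 * |η|)) ≤ C * (1 + η ^ 2)⁻¹ := by
  refine ⟨Real.exp (3 / 1000) * (Nat.factorial (K + 2)) / (3 / 1000) ^ (K + 2), by positivity, ?_⟩
  intro η
  set x : ℝ := 1 + |η| with hx
  have hx0 : 0 ≤ x := by positivity
  have h1 : (1 + η ^ 2) ≤ x ^ 2 := by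
    rw [hx]
    have := abs_nonneg η
    have h := sq_abs η
    nlinarith
  have h2 := Real.pow_div_factorial_le_exp (3 / 1000 * x) (by positivity) (K + 2)
  rw [div_le_iff₀ (by positivity)] at h2
  have h3 : Real.exp (-(3 / 1000 * |η|)) = Real.exp (3 / 1000) * (Real.exp (3 / 1000 * x))⁻¹ := by
    rw [← Real.exp_neg, ← Real.exp_add]
    congr 1
    rw [hx]; ring
  rw [h3, le_mul_inv_iff₀ (by positivity)]
  have h4 : 0 < Real.exp (3 / 1000 * x) := Real.exp_pos _
  calc x ^ K * (Real.exp (3 / 1000) * (Real.exp (3 / 1000 * x))⁻¹) * (1 + η ^ 2)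
      ≤ x ^ K * (Real.exp (3 / 1000) * (Real.exp (3 / 1000 * x))⁻¹) * x ^ 2 := by gcongr
    _ = Real.exp (3 / 1000) * (x ^ (K + 2) * (Real.exp (3 / 1000 * x))⁻¹) := by ring
    _ ≤ Real.exp (3 / 1000) * ((Nat.factorial (K + 2)) / (3 / 1000) ^ (K + 2)) := by
        gcongr
        rw [← div_eq_mul_inv, div_le_div_iff₀ h4 (by positivity)]
        rw [mul_pow] at h2
        linarith
    _ = _ := by ring

lemma pi_exp (η : ℝ) : Real.exp (-(2 * Real.pi * |η|)) * Real.exp (628 / 100 * |η|) ≤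
    Real.exp (-(3 / 1000 * |η|)) := by
  rw [← Real.exp_add]
  apply Real.exp_le_exp.2
  have := Real.pi_gt_d4
  have h := abs_nonneg η
  nlinarith

end

end Run7.K3
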