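import Mathlib
import Pool.Agent.Run7.K3.Defs
import Pool.Agent.Run7.K3.ArchColA

/-!
Piece M (`ArchCol`), second part: the sums over a row, and the bounds, from hypotheses.
-/

namespace Run7.K3

noncomputable section

open Finset Filter Topology MeasureTheory

/-- the coefficients -/
def lamK (D : ℕ) (a : ℕ → ℝ) (k : ℕ) : ℝ := if k < D then 0 else a (k - D)

lemma row_shift (D Z : ℕ) (hD : 1 ≤ D) (a : ℕ → ℝ) (r : ℕ) :
    ∑ k ∈ range (D + Z + 1), lamK D a k * ((row D r k : ℚ) : ℝ) =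
      ∑ i ∈ range (Z + 1), a i * ((cf (r / D) (D - r % D + i) : ℚ) : ℝ) := by
  rw [add_assoc, Finset.sum_range_add]
  have h1 : ∑ k ∈ range D, lamK D a k * ((row D r k : ℚ) : ℝ) = 0 := by
    apply Finset.sum_eq_zero
    intro k hk
    rw [lamK, if_pos (Finset.mem_range.1 hk), zero_mul]
  rw [h1, zero_add]
  apply Finset.sum_congr rfl
  intro i _
  have hj : r % D < D := Nat.mod_lt _ hD
  rw [lamK, if_neg (by omega), Nat.add_sub_cancel_left, row, if_pos (by omega)]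
  congr 3
  omega

lemma lin_re (D : ℕ) (η : ℝ) : (lin D η).re = D - 1 / 12 := by
  unfold lin
  simp

lemma lin_cont (D : ℕ) : Continuous (lin D) := by
  unfold lin
  fun_prop

lemma lin_sub_ge {D k₀ q : ℕ} (hk : k₀ + 1 ≤ D) (hq : q ≤ 5) (η : ℝ) :
    1 / 12 ≤ ‖lin D η - ((k₀ : ℂ) + q / 6)‖ := by
  have h1 : (lin D η - ((k₀ : ℂ) + q / 6)).re = D - 1 / 12 - (k₀ + q / 6) := by
    rw [Complex.sub_re, lin_re]
    simp
  have h2 : (k₀ : ℝ) + 1 ≤ D := by exact_mod_cast hk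
  have h3 : (q : ℝ) ≤ 5 := by exact_mod_cast hq
  calc (1 / 12 : ℝ) ≤ (lin D η - ((k₀ : ℂ) + q / 6)).re := by rw [h1]; linarith
    _ ≤ _ := Complex.re_le_norm _

lemma lin_add_ge {D : ℕ} (hD : 1 ≤ D) (i : ℕ) (η : ℝ) : 1 ≤ ‖lin D η + i + 1‖ := by
  have h1 : (lin D η + i + 1).re = D - 1 / 12 + i + 1 := by
    rw [Complex.add_re, Complex.add_re, lin_re]
    simp
  have h2 : (1 : ℝ) ≤ D := by exact_mod_cast hD
  have h3 : (0 : ℝ) ≤ i := Nat.cast_nonneg i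
  calc (1 : ℝ) ≤ (lin D η + i + 1).re := by rw [h1]; linarith
    _ ≤ _ := Complex.re_le_norm _

lemma lin_re_gt {D : ℕ} (hD : 1 ≤ D) (η : ℝ) : -1 < (lin D η).re := by
  rw [lin_re]
  have h2 : (1 : ℝ) ≤ D := by exact_mod_cast hD
  linarith

lemma nat_re_gt (k : ℕ) : -1 < ((k : ℂ)).re := by
  rw [Complex.natCast_re]
  have : (0 : ℝ) ≤ k := Nat.cast_nonneg k
  linarith

lemma frac_re_gt (k q : ℕ) : -1 < ((k : ℂ) + q / 6).re := by
  have h1 : ((k : ℂ) + q / 6).re = k + q / 6 := by simp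
  rw [h1]
  have : (0 : ℝ) ≤ k := Nat.cast_nonneg k
  have : (0 : ℝ) ≤ q := Nat.cast_nonneg q
  linarith

lemma lin_sub_ne {D k₀ q : ℕ} (hk : k₀ + 1 ≤ D) (hq : q ≤ 5) (η : ℝ) :
    lin D η - ((k₀ : ℂ) + q / 6) ≠ 0 := by
  have := lin_sub_ge hk hq η
  intro h
  rw [h, norm_zero] at this
  linarith

/-- the integrals converge -/
lemma int_i {D k₀ q : ℕ} (hk : k₀ + 1 ≤ D) (hq : q ≤ 5) (i : ℕ)
    (HN : ∃ C : ℝ, ∀ (D : ℕ) (η : ℝ), ‖ker D η‖ ≤ C * Real.exp (-(2 * Real.pi * |η|)))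
    (HC : ∀ D : ℕ, Continuous (ker D)) :
    Integrable fun η : ℝ => ker D η / ((lin D η - ((k₀ : ℂ) + q / 6)) * (lin D η + i + 1)) := by
  obtain ⟨C, hC⟩ := HN
  obtain ⟨C', hC'0, hC'⟩ := exp_poly 0
  have hD : 1 ≤ D := by omega
  refine Integrable.mono' (g := fun η : ℝ => 12 * |C| * (C' * (1 + η ^ 2)⁻¹))
    ((integrable_inv_one_add_sq.const_mul _).const_mul _) ?_ ?_
  · apply Continuous.aestronglyMeasurable
    apply Continuous.div (HC D)
    · have := lin_cont D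
      fun_prop
    · intro η
      apply mul_ne_zero (lin_sub_ne hk hq η)
      have := lin_add_ge hD i η
      intro h
      rw [h, norm_zero] at this
      linarith
  · refine Filter.Eventually.of_forall fun η => ?_
    have h1 := lin_sub_ge hk hq η
    have h2 := lin_add_ge hD i η
    have h3 := hC D η
    have h4 := hC' η
    rw [pow_zero, one_mul] at h4
    have h5 := pi_exp η
    have h6 : 1 ≤ Real.exp (628 / 100 * |η|) := Real.one_le_exp (by positivity)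
    have h7 : Real.exp (-(2 * Real.pi * |η|)) ≤ C' * (1 + η ^ 2)⁻¹ := by
      refine le_trans ?_ h4
      refine le_trans ?_ h5
      have := Real.exp_pos (-(2 * Real.pi * |η|))
      nlinarith
    rw [norm_div, norm_mul]
    rw [div_le_iff₀ (by positivity)]
    have h8 : (1 : ℝ) ≤ 12 * (‖lin D η - ((k₀ : ℂ) + q / 6)‖ * ‖lin D η + i + 1‖) := by
      nlinarith
    calc ‖ker D η‖ ≤ |C| * (C' * (1 + η ^ 2)⁻¹) := by
          refine h3.trans ?_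
          have : C * Real.exp (-(2 * Real.pi * |η|)) ≤ |C| * Real.exp (-(2 * Real.pi * |η|)) := by
            gcongr
            exact le_abs_self C
          refine this.trans ?_
          gcongr
      _ ≤ |C| * (C' * (1 + η ^ 2)⁻¹) *
          (12 * (‖lin D η - ((k₀ : ℂ) + q / 6)‖ * ‖lin D η + i + 1‖)) := by
          have : 0 ≤ |C| * (C' * (1 + η ^ 2)⁻¹) := by positivity
          nlinarith
      _ = _ := by ring

section Core

variable {c b g M Z : ℕ} {a : ℕ → ℝ}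

lemma type1 (ha : ∀ s : ℂ, (∀ i ∈ range (Z + 1), s + i + 1 ≠ 0) →
      RR c b g M Z s = ∑ i ∈ range (Z + 1), (a i : ℂ) / (s + i + 1)) (k₀ : ℕ) :
    ((∑ i ∈ range (Z + 1), a i * ((cf 1 (k₀ + 1 + i) : ℚ) : ℝ) : ℝ) : ℂ) =
      RR c b g M Z (k₀ : ℂ) := by
  rw [ha _ fun i _ => add_ne (nat_re_gt k₀) i]
  push_cast
  apply Finset.sum_congr rfl
  intro i _
  unfold cf
  simp only [one_ne_zero, if_false, if_true]
  push_cast
  rw [show (k₀ : ℂ) + 1 + i = k₀ + i + 1 by ring]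
  ring

lemma type2 (ha : ∀ s : ℂ, (∀ i ∈ range (Z + 1), s + i + 1 ≠ 0) →
      RR c b g M Z s = ∑ i ∈ range (Z + 1), (a i : ℂ) / (s + i + 1)) (k₀ : ℕ) :
    ((∑ i ∈ range (Z + 1), a i * ((cf 2 (k₀ + 1 + i) : ℚ) : ℝ) : ℝ) : ℂ) =
      -deriv (RR c b g M Z) (k₀ : ℂ) := by
  rw [deriv_RR_sum ha (nat_re_gt k₀), neg_neg]
  push_cast
  apply Finset.sum_congr rfl
  intro i _
  unfold cf
  simp only [OfNat.ofNat_ne_zero, OfNat.ofNat_ne_one, if_false, if_true]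
  push_cast
  rw [show (k₀ : ℂ) + 1 + i = k₀ + i + 1 by ring]
  ring

lemma typer (ha : ∀ s : ℂ, (∀ i ∈ range (Z + 1), s + i + 1 ≠ 0) →
      RR c b g M Z s = ∑ i ∈ range (Z + 1), (a i : ℂ) / (s + i + 1))
    (HJ : ∀ D x i r : ℕ, 1 ≤ x → x ≤ D → 1 ≤ r → r ≤ 5 →
      ((H2 (x + i) : ℚ) : ℂ) / (6 * ((x : ℂ) + i) + r) =
      1 / 6 * ((cr r : ℂ) / (((x : ℂ) - 1 + r / 6) + i + 1) +
        ∑ k ∈ Ico x D, (1 / (((k : ℂ) - ((x : ℂ) - 1 + r / 6)) ^ 2 * ((k : ℂ) + i + 1)) +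
          1 / (((k : ℂ) - ((x : ℂ) - 1 + r / 6)) * ((k : ℂ) + i + 1) ^ 2)) +
        1 / (2 * (Real.pi : ℂ)) *
          ∫ η : ℝ, ker D η / ((lin D η - ((x : ℂ) - 1 + r / 6)) * (lin D η + i + 1))))
    (HN : ∃ C : ℝ, ∀ (D : ℕ) (η : ℝ), ‖ker D η‖ ≤ C * Real.exp (-(2 * Real.pi * |η|)))
    (HC : ∀ D : ℕ, Continuous (ker D)) (D k₀ q : ℕ) (hk : k₀ + 1 ≤ D) (hq : 1 ≤ q) (hq5 : q ≤ 5) :
    ((∑ i ∈ range (Z + 1), a i * ((cf (q + 2) (k₀ + 1 + i) : ℚ) : ℝ) : ℝ) : ℂ) =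
      1 / 6 * ((cr q : ℂ) * RR c b g M Z ((k₀ : ℂ) + q / 6) +
        ∑ k ∈ Ico (k₀ + 1) D, (RR c b g M Z (k : ℂ) / ((k : ℂ) - ((k₀ : ℂ) + q / 6)) ^ 2 -
          deriv (RR c b g M Z) (k : ℂ) / ((k : ℂ) - ((k₀ : ℂ) + q / 6))) +
        1 / (2 * (Real.pi : ℂ)) *
          ∫ η : ℝ, ker D η * RR c b g M Z (lin D η) / (lin D η - ((k₀ : ℂ) + q / 6))) := by
  have hD : 1 ≤ D := by omega
  have hw : ((k₀ + 1 : ℕ) : ℂ) - 1 + q / 6 = (k₀ : ℂ) + q / 6 := by push_cast; ring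
  have h1 : ∀ i ∈ range (Z + 1), ((a i * ((cf (q + 2) (k₀ + 1 + i) : ℚ) : ℝ) : ℝ) : ℂ) =
      1 / 6 * ((cr q : ℂ) * ((a i : ℂ) / (((k₀ : ℂ) + q / 6) + i + 1)) +
        ∑ k ∈ Ico (k₀ + 1) D, (((a i : ℂ) / ((k : ℂ) + i + 1)) / ((k : ℂ) - ((k₀ : ℂ) + q / 6)) ^ 2 +
          ((a i : ℂ) / ((k : ℂ) + i + 1) ^ 2) / ((k : ℂ) - ((k₀ : ℂ) + q / 6))) +
        1 / (2 * (Real.pi : ℂ)) *
          ∫ η : ℝ, (a i : ℂ) *
            (ker D η / ((lin D η - ((k₀ : ℂ) + q / 6)) * (lin D η + i + 1)))) := by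
    intro i _
    have h2 := HJ D (k₀ + 1) i q (by omega) hk hq hq5
    rw [hw] at h2
    have h3 : ((cf (q + 2) (k₀ + 1 + i) : ℚ) : ℂ) =
        ((H2 (k₀ + 1 + i) : ℚ) : ℂ) / (6 * (((k₀ + 1 : ℕ) : ℂ) + i) + q) := by
      unfold cf
      rw [if_neg (by omega), if_neg (by omega), if_neg (by omega)]
      push_cast
      congr 1
      ring
    rw [integral_const_mul]
    push_cast
    rw [h3, h2]
    rw [show ∑ k ∈ Ico (k₀ + 1) D, ((a i : ℂ) / ((k : ℂ) + i + 1) / ((k : ℂ) - ((k₀ : ℂ) + q / 6)) ^ 2 +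
          (a i : ℂ) / ((k : ℂ) + i + 1) ^ 2 / ((k : ℂ) - ((k₀ : ℂ) + q / 6))) =
        (a i : ℂ) * ∑ k ∈ Ico (k₀ + 1) D,
          (1 / (((k : ℂ) - ((k₀ : ℂ) + q / 6)) ^ 2 * ((k : ℂ) + i + 1)) +
            1 / (((k : ℂ) - ((k₀ : ℂ) + q / 6)) * ((k : ℂ) + i + 1) ^ 2)) by
      rw [Finset.mul_sum]
      apply Finset.sum_congr rfl
      intro k _
      rw [div_div, div_div, mul_add, mul_one_div, mul_one_div]
      congr 2 <;> ring]
    ring
  rw [Complex.ofReal_sum, Finset.sum_congr rfl h1, ← Finset.mul_sum]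
  congr 1
  rw [Finset.sum_add_distrib, Finset.sum_add_distrib, ← Finset.mul_sum, ← Finset.mul_sum,
    ← integral_finsetSum _ (fun i _ => (int_i hk hq5 i HN HC).const_mul _)]
  congr 1
  · congr 1
    · rw [ha _ fun i _ => add_ne (frac_re_gt k₀ q) i]
    · rw [Finset.sum_comm]
      apply Finset.sum_congr rfl
      intro k _
      rw [Finset.sum_add_distrib, deriv_RR_sum ha (nat_re_gt k), neg_div, sub_neg_eq_add,
        ha _ fun i _ => add_ne (nat_re_gt k) i, Finset.sum_div, Finset.sum_div]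
  · congr 1
    apply integral_congr_ae
    refine Filter.Eventually.of_forall fun η => ?_
    show ∑ i ∈ range (Z + 1), (a i : ℂ) *
            (ker D η / ((lin D η - ((k₀ : ℂ) + q / 6)) * (lin D η + i + 1))) =
      ker D η * RR c b g M Z (lin D η) / (lin D η - ((k₀ : ℂ) + q / 6))
    rw [ha _ fun i _ => add_ne (lin_re_gt hD η) i, Finset.mul_sum, Finset.sum_div]
    apply Finset.sum_congr rfl
    intro i _
    have e1 := lin_sub_ne hk hq5 η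
    have e2 := add_ne (lin_re_gt hD η) i
    field_simp

end Core

end

end Run7.K3
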