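import Mathlib
import Pool.Agent.Run7.K3.Defs
import Pool.Agent.Run7.K3.ArchColA
import Pool.Agent.Run7.K3.ArchColB

/-!
Piece M (`ArchCol`), third part: the bounds, from hypotheses.
-/

namespace Run7.K3

noncomputable section

open Finset Filter Topology MeasureTheory

attribute [local irreducible] RR ker cr lin

/-- the integral -/
lemma int_bound {D k₀ q : ℕ} (hk : k₀ + 1 ≤ D) (hq : q ≤ 5) {f : ℂ → ℂ} {C0 A : ℝ} {K : ℕ}
    {J Mr : ℝ} (hM : 1 ≤ Mr) (hJ0 : 0 ≤ J) (hA : 0 ≤ A)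
    (hJ : ∀ η : ℝ, (1 + |η|) ^ K * Real.exp (-(3 / 1000 * |η|)) ≤ J * (1 + η ^ 2)⁻¹)
    (hC0 : 0 ≤ C0) (hker : ∀ η : ℝ, ‖ker D η‖ ≤ C0 * Real.exp (-(2 * Real.pi * |η|)))
    (hf : ∀ η : ℝ, ‖f (lin D η)‖ ≤ A * (Mr + |η|) ^ K * Real.exp (628 / 100 * |η|)) :
    ‖∫ η : ℝ, ker D η * f (lin D η) / (lin D η - ((k₀ : ℂ) + q / 6))‖ ≤
      12 * C0 * A * Mr ^ K * J * Real.pi := by
  have h1 : ‖∫ η : ℝ, ker D η * f (lin D η) / (lin D η - ((k₀ : ℂ) + q / 6))‖ ≤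
      ∫ η : ℝ, (12 * C0 * A * Mr ^ K * J) * (1 + η ^ 2)⁻¹ := by
    apply norm_integral_le_of_norm_le (integrable_inv_one_add_sq.const_mul _)
    refine Filter.Eventually.of_forall fun η => ?_
    have e1 := lin_sub_ge hk hq η
    have e2 := hker η
    have e3 := hf η
    have e4 := hJ η
    have e5 := pi_exp η
    have e6 : (Mr + |η|) ^ K ≤ Mr ^ K * (1 + |η|) ^ K := by
      rw [← mul_pow]
      apply pow_le_pow_left₀ (by positivity)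
      have := abs_nonneg η
      nlinarith
    have e7 : 0 < ‖lin D η - ((k₀ : ℂ) + q / 6)‖ := by linarith
    rw [norm_div, norm_mul, div_le_iff₀ e7]
    calc ‖ker D η‖ * ‖f (lin D η)‖
        ≤ (C0 * Real.exp (-(2 * Real.pi * |η|))) *
          (A * (Mr + |η|) ^ K * Real.exp (628 / 100 * |η|)) := by gcongr
      _ = C0 * A * (Mr + |η|) ^ K *
          (Real.exp (-(2 * Real.pi * |η|)) * Real.exp (628 / 100 * |η|)) := by ring
      _ ≤ C0 * A * (Mr ^ K * (1 + |η|) ^ K) * Real.exp (-(3 / 1000 * |η|)) := by gcongr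
      _ = C0 * A * Mr ^ K * ((1 + |η|) ^ K * Real.exp (-(3 / 1000 * |η|))) := by ring
      _ ≤ C0 * A * Mr ^ K * (J * (1 + η ^ 2)⁻¹) := by gcongr
      _ ≤ C0 * A * Mr ^ K * (J * (1 + η ^ 2)⁻¹) *
          (12 * ‖lin D η - ((k₀ : ℂ) + q / 6)‖) := by
          have : 0 ≤ C0 * A * Mr ^ K * (J * (1 + η ^ 2)⁻¹) := by positivity
          have h12 : 1 ≤ 12 * ‖lin D η - ((k₀ : ℂ) + q / 6)‖ := by linarith
          nlinarith
      _ = _ := by ring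
  rw [integral_const_mul, integral_univ_inv_one_add_sq] at h1
  exact h1

lemma sum_bound {D k₀ q : ℕ} (hk : k₀ + 1 ≤ D) (hq : q ≤ 5) {u v : ℕ → ℂ} {B : ℝ}
    (hu : ∀ k < D, ‖u k‖ ≤ B) (hv : ∀ k < D, ‖v k‖ ≤ B) (hB : 0 ≤ B) :
    ‖∑ k ∈ Ico (k₀ + 1) D, (u k / ((k : ℂ) - ((k₀ : ℂ) + q / 6)) ^ 2 -
        v k / ((k : ℂ) - ((k₀ : ℂ) + q / 6)))‖ ≤ D * (42 * B) := by
  have h1 : ∀ k ∈ Ico (k₀ + 1) D, ‖u k / ((k : ℂ) - ((k₀ : ℂ) + q / 6)) ^ 2 -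
        v k / ((k : ℂ) - ((k₀ : ℂ) + q / 6))‖ ≤ 42 * B := by
    intro k hk'
    rw [mem_Ico] at hk'
    have h2 : (1 / 6 : ℝ) ≤ ‖(k : ℂ) - ((k₀ : ℂ) + q / 6)‖ := by
      have h3 : ((k : ℂ) - ((k₀ : ℂ) + q / 6)).re = k - (k₀ + q / 6) := by simp
      have h4 : (k₀ : ℝ) + 1 ≤ k := by exact_mod_cast hk'.1
      have h5 : (q : ℝ) ≤ 5 := by exact_mod_cast hq
      calc (1 / 6 : ℝ) ≤ ((k : ℂ) - ((k₀ : ℂ) + q / 6)).re := by rw [h3]; linarith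
        _ ≤ _ := Complex.re_le_norm _
    have h6 := hu k hk'.2
    have h7 := hv k hk'.2
    have h8 : 0 < ‖(k : ℂ) - ((k₀ : ℂ) + q / 6)‖ := by linarith
    have h9 : ‖u k / ((k : ℂ) - ((k₀ : ℂ) + q / 6)) ^ 2‖ ≤ 36 * B := by
      rw [norm_div, norm_pow, div_le_iff₀ (by positivity)]
      have : (1 / 36 : ℝ) ≤ ‖(k : ℂ) - ((k₀ : ℂ) + q / 6)‖ ^ 2 := by nlinarith
      nlinarith
    have h10 : ‖v k / ((k : ℂ) - ((k₀ : ℂ) + q / 6))‖ ≤ 6 * B := by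
      rw [norm_div, div_le_iff₀ h8]
      nlinarith
    refine (norm_sub_le _ _).trans ?_
    linarith
  refine (norm_sum_le_of_le _ h1).trans ?_
  rw [Finset.sum_const, nsmul_eq_mul, Nat.card_Ico]
  have : ((D - (k₀ + 1) : ℕ) : ℝ) ≤ D := by exact_mod_cast (by omega : D - (k₀ + 1) ≤ D)
  gcongr

theorem arch_core (c b g ζ κ : ℕ) (hb : 1 ≤ b)
    (HP : ∀ M Z : ℕ, 1 ≤ M → ζ * M ≤ Z → ∃ a : ℕ → ℝ, |a Z| = 1 ∧ ∀ s : ℂ,
      (∀ i ∈ range (Z + 1), s + i + 1 ≠ 0) →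
        RR c b g M Z s = ∑ i ∈ range (Z + 1), (a i : ℂ) / (s + i + 1))
    (HJ : ∀ D x i r : ℕ, 1 ≤ x → x ≤ D → 1 ≤ r → r ≤ 5 →
      ((H2 (x + i) : ℚ) : ℂ) / (6 * ((x : ℂ) + i) + r) =
      1 / 6 * ((cr r : ℂ) / (((x : ℂ) - 1 + r / 6) + i + 1) +
        ∑ k ∈ Ico x D, (1 / (((k : ℂ) - ((x : ℂ) - 1 + r / 6)) ^ 2 * ((k : ℂ) + i + 1)) +
          1 / (((k : ℂ) - ((x : ℂ) - 1 + r / 6)) * ((k : ℂ) + i + 1) ^ 2)) +
        1 / (2 * (Real.pi : ℂ)) *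
          ∫ η : ℝ, ker D η / ((lin D η - ((x : ℂ) - 1 + r / 6)) * (lin D η + i + 1))))
    (HN : ∃ C : ℝ, ∀ (D : ℕ) (η : ℝ), ‖ker D η‖ ≤ C * Real.exp (-(2 * Real.pi * |η|)))
    (HC : ∀ D : ℕ, Continuous (ker D))
    (HR : ∃ (C : ℝ) (K : ℕ), ∀ M Z k : ℕ, 1 ≤ M → ζ * M ≤ Z → b * M ≤ k → k < g * M →
      ∀ s : ℂ, ‖s - k‖ ≤ 1 → ‖RR c b g M Z s‖ ≤ C * (M : ℝ) ^ K * Real.exp (-((κ : ℝ) * M)))
    (HL : ∃ (C : ℝ) (K : ℕ), ∀ M Z : ℕ, 1 ≤ M → ζ * M ≤ Z → ∀ η : ℝ,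
      ‖RR c b g M Z (lin (100 * M) η)‖ ≤ C * ((M : ℝ) + |η|) ^ K *
        Real.exp (628 / 100 * |η| - (κ : ℝ) * M)) :
    ∃ (C : ℝ) (K : ℕ), ∀ M n : ℕ, 1 ≤ M → (100 + ζ) * M ≤ n →
      ∃ lam : ℕ → ℝ, |lam n| = 1 ∧ ∀ r < 8 * (100 * M),
        |∑ k ∈ range (n + 1), lam k * ((row (100 * M) r k : ℚ) : ℝ)| ≤
          C * (M : ℝ) ^ K * Real.exp (-((κ : ℝ) * M)) := by
  obtain ⟨C1, K1, hR⟩ := HR
  obtain ⟨C2, K2, hL⟩ := HL
  obtain ⟨C0, hC0⟩ := HN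
  obtain ⟨J, hJ0, hJ⟩ := exp_poly K2
  set S : ℝ := ∑ q ∈ range 6, |cr q| with hS
  have hS0 : 0 ≤ S := Finset.sum_nonneg fun _ _ => abs_nonneg _
  refine ⟨|C1| + S * |C1| + 700 * |C1| + |C0| * |C2| * J, K1 + K2 + 1, ?_⟩
  intro M n hM hn
  set D : ℕ := 100 * M with hD
  obtain ⟨Z, rfl⟩ : ∃ Z, n = D + Z := ⟨n - D, by rw [hD] at *; nlinarith [Nat.zero_le (ζ * M), Nat.add_sub_cancel' (show 100 * M ≤ n by nlinarith [Nat.zero_le (ζ * M)])]⟩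
  have hZ : ζ * M ≤ Z := by nlinarith
  obtain ⟨a, haZ, ha⟩ := HP M Z hM hZ
  have hD1 : 1 ≤ D := by omega
  have hMr : (1 : ℝ) ≤ M := by exact_mod_cast hM
  set E : ℝ := Real.exp (-((κ : ℝ) * M)) with hE
  have hE0 : 0 < E := Real.exp_pos _
  set B : ℝ := |C1| * (M : ℝ) ^ K1 * E with hB
  have hB0 : 0 ≤ B := by positivity
  -- values near the integers
  have key : ∀ k, b * M ≤ k → k < g * M → ∀ s : ℂ, ‖s - k‖ ≤ 1 → ‖RR c b g M Z s‖ ≤ B := by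
    intro k h1 h2 s hs
    refine (hR M Z k hM hZ h1 h2 s hs).trans ?_
    rw [hB]
    gcongr
    exact le_abs_self C1
  have hval : ∀ k < D, ‖RR c b g M Z (k : ℂ)‖ ≤ B := by
    intro k hk
    by_cases h : k < b * M ∨ g * M ≤ k
    · rw [RR_of_qq (qq_zero_int hk h), norm_zero]
      exact hB0
    · push Not at h
      apply key k h.1 h.2
      simp
  have hfrac : ∀ k < D, ∀ q : ℕ, 1 ≤ q → q ≤ 5 → ‖RR c b g M Z ((k : ℂ) + q / 6)‖ ≤ B := by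
    intro k hk q hq hq5
    by_cases h : k < b * M ∨ g * M ≤ k
    · rw [RR_of_qq (qq_zero_frac hk h hq hq5), norm_zero]
      exact hB0
    · push Not at h
      apply key k h.1 h.2
      have e : (k : ℂ) + q / 6 - k = ((q / 6 : ℝ) : ℂ) := by push_cast; ring
      rw [e, Complex.norm_real, Real.norm_eq_abs, abs_of_nonneg (by positivity)]
      have : (q : ℝ) ≤ 5 := by exact_mod_cast hq5
      linarith
  have hder : ∀ k < D, ‖deriv (RR c b g M Z) (k : ℂ)‖ ≤ B := by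
    intro k hk
    by_cases h : k < b * M ∨ g * M ≤ k
    · rw [deriv_RR_zero hk h, norm_zero]
      exact hB0
    · push Not at h
      apply deriv_RR_le
      · exact le_trans (Nat.one_le_iff_ne_zero.2 (by positivity)) h.1
      · exact key k h.1 h.2
  -- comparison with the final bound
  have hM1 : (M : ℝ) ^ K1 ≤ (M : ℝ) ^ (K1 + K2 + 1) := pow_le_pow_right₀ hMr (by omega)
  have hM2 : (M : ℝ) * (M : ℝ) ^ K1 ≤ (M : ℝ) ^ (K1 + K2 + 1) := by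
    rw [← pow_succ']
    exact pow_le_pow_right₀ hMr (by omega)
  have hM3 : (M : ℝ) ^ K2 ≤ (M : ℝ) ^ (K1 + K2 + 1) := pow_le_pow_right₀ hMr (by omega)
  have hfin1 : B ≤ (|C1| + S * |C1| + 700 * |C1| + |C0| * |C2| * J) *
      (M : ℝ) ^ (K1 + K2 + 1) * E := by
    rw [hB]
    have e1 : |C1| * (M : ℝ) ^ K1 * E ≤ |C1| * (M : ℝ) ^ (K1 + K2 + 1) * E := by gcongr
    have e2 : 0 ≤ (S * |C1| + 700 * |C1| + |C0| * |C2| * J) * (M : ℝ) ^ (K1 + K2 + 1) * E := by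
      positivity
    nlinarith
  refine ⟨lamK D a, ?_, ?_⟩
  · rw [lamK, if_neg (by omega), Nat.add_sub_cancel_left]
    exact haZ
  intro r hr
  rw [row_shift D Z hD1 a r]
  have hj : r % D < D := Nat.mod_lt _ hD1
  obtain ⟨k₀, hk₀⟩ : ∃ k₀, D - r % D = k₀ + 1 := ⟨D - r % D - 1, by omega⟩
  have hk₀D : k₀ + 1 ≤ D := by omega
  rw [hk₀]
  have ht : r / D < 8 := by
    rw [Nat.div_lt_iff_lt_mul hD1]
    exact hr
  rw [← Real.norm_eq_abs, ← Complex.norm_real]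
  generalize r / D = t at ht
  by_cases h0 : t = 0
  · subst h0
    have : ∑ i ∈ range (Z + 1), a i * ((cf 0 (k₀ + 1 + i) : ℚ) : ℝ) = 0 := by
      apply Finset.sum_eq_zero
      intro i _
      unfold cf
      rw [if_pos rfl, if_neg (by omega)]
      simp
    rw [this]
    simp only [Complex.ofReal_zero, norm_zero]
    exact hB0.trans hfin1
  by_cases h1 : t = 1
  · subst h1
    rw [type1 ha]
    exact (hval k₀ (by omega)).trans hfin1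
  by_cases h2 : t = 2
  · subst h2
    rw [type2 ha, norm_neg]
    exact (hder k₀ (by omega)).trans hfin1
  obtain ⟨q, rfl⟩ : ∃ q, t = q + 2 := ⟨t - 2, by omega⟩
  have hq1 : 1 ≤ q := by omega
  have hq5 : q ≤ 5 := by omega
  rw [typer ha HJ ⟨C0, hC0⟩ HC D k₀ q hk₀D hq1 hq5]
  have b1 := hfrac k₀ (by omega) q hq1 hq5
  have b2 := sum_bound (D := D) (k₀ := k₀) (q := q) hk₀D hq5
    (u := fun k => RR c b g M Z (k : ℂ)) (v := fun k => deriv (RR c b g M Z) (k : ℂ)) hval hder hB0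
  have b3 := int_bound (D := D) (k₀ := k₀) (q := q) (f := RR c b g M Z) (C0 := |C0|)
    (A := |C2| * E) (K := K2) (J := J) (Mr := (M : ℝ)) hk₀D hq5 hMr hJ0 (by positivity) hJ
    (abs_nonneg _) (fun η => (hC0 D η).trans (by gcongr; exact le_abs_self C0))
    (fun η => by
      refine (hL M Z hM hZ η).trans ?_
      rw [sub_eq_add_neg, Real.exp_add]
      have e1 : C2 * ((M : ℝ) + |η|) ^ K2 ≤ |C2| * ((M : ℝ) + |η|) ^ K2 := by
        gcongr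
        exact le_abs_self C2
      calc C2 * ((M : ℝ) + |η|) ^ K2 * (Real.exp (628 / 100 * |η|) * Real.exp (-(κ * M)))
          ≤ |C2| * ((M : ℝ) + |η|) ^ K2 * (Real.exp (628 / 100 * |η|) * Real.exp (-(κ * M))) := by
            gcongr
        _ = _ := by rw [hE]; ring)
  have b4 : |cr q| ≤ S :=
    Finset.single_le_sum (f := fun q => |cr q|) (fun _ _ => abs_nonneg _)
      (Finset.mem_range.2 (by omega))
  have hcr : ‖(cr q : ℂ)‖ = |cr q| := by rw [Complex.norm_real, Real.norm_eq_abs]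
  have hpi : ‖1 / (2 * (Real.pi : ℂ))‖ = 1 / (2 * Real.pi) := by
    rw [norm_div, norm_one, norm_mul, Complex.norm_real, Real.norm_eq_abs,
      abs_of_pos Real.pi_pos]
    norm_num
  have h6 : ‖(1 / 6 : ℂ)‖ = 1 / 6 := by norm_num
  rw [norm_mul, h6]
  have c1 : ‖(cr q : ℂ) * RR c b g M Z ((k₀ : ℂ) + q / 6)‖ ≤ S * B := by
    rw [norm_mul, hcr]
    exact mul_le_mul b4 b1 (norm_nonneg _) hS0
  have c3 : ‖1 / (2 * (Real.pi : ℂ)) *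
      ∫ η : ℝ, ker D η * RR c b g M Z (lin D η) / (lin D η - ((k₀ : ℂ) + q / 6))‖ ≤
      6 * (|C0| * |C2| * J) * (M : ℝ) ^ K2 * E := by
    rw [norm_mul, hpi]
    have hpp := Real.pi_pos
    calc 1 / (2 * Real.pi) * ‖∫ η : ℝ, ker D η * RR c b g M Z (lin D η) /
          (lin D η - ((k₀ : ℂ) + q / 6))‖
        ≤ 1 / (2 * Real.pi) * (12 * |C0| * (|C2| * E) * (M : ℝ) ^ K2 * J * Real.pi) :=
          mul_le_mul_of_nonneg_left b3 (by positivity)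
      _ = _ := by field_simp; ring
  have hDM : (D : ℝ) = 100 * M := by rw [hD]; push_cast; ring
  rw [hDM] at b2
  have e0 := norm_add₃_le (a := (cr q : ℂ) * RR c b g M Z ((k₀ : ℂ) + q / 6))
    (b := ∑ k ∈ Ico (k₀ + 1) D, (RR c b g M Z (k : ℂ) / ((k : ℂ) - ((k₀ : ℂ) + q / 6)) ^ 2 -
          deriv (RR c b g M Z) (k : ℂ) / ((k : ℂ) - ((k₀ : ℂ) + q / 6))))
    (c := 1 / (2 * (Real.pi : ℂ)) *
      ∫ η : ℝ, ker D η * RR c b g M Z (lin D η) / (lin D η - ((k₀ : ℂ) + q / 6)))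
  have e1 : S * B ≤ S * |C1| * (M : ℝ) ^ (K1 + K2 + 1) * E := by
    rw [hB]
    calc S * (|C1| * (M : ℝ) ^ K1 * E) = S * |C1| * (M : ℝ) ^ K1 * E := by ring
      _ ≤ _ := by gcongr
  have e2 : 100 * (M : ℝ) * (42 * B) ≤ 4200 * |C1| * (M : ℝ) ^ (K1 + K2 + 1) * E := by
    rw [hB]
    calc 100 * (M : ℝ) * (42 * (|C1| * (M : ℝ) ^ K1 * E))
        = 4200 * |C1| * ((M : ℝ) * (M : ℝ) ^ K1) * E := by ring
      _ ≤ _ := by gcongr
  have e3 : 6 * (|C0| * |C2| * J) * (M : ℝ) ^ K2 * E ≤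
      6 * (|C0| * |C2| * J) * (M : ℝ) ^ (K1 + K2 + 1) * E := by gcongr
  have e4 : 0 ≤ |C1| * (M : ℝ) ^ (K1 + K2 + 1) * E := by positivity
  have e5 : 0 ≤ S * |C1| * (M : ℝ) ^ (K1 + K2 + 1) * E := by positivity
  have e6 : (|C1| + S * |C1| + 700 * |C1| + |C0| * |C2| * J) * (M : ℝ) ^ (K1 + K2 + 1) * E =
      |C1| * (M : ℝ) ^ (K1 + K2 + 1) * E + S * |C1| * (M : ℝ) ^ (K1 + K2 + 1) * E +
      1 / 6 * (4200 * |C1| * (M : ℝ) ^ (K1 + K2 + 1) * E) +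
      1 / 6 * (6 * (|C0| * |C2| * J) * (M : ℝ) ^ (K1 + K2 + 1) * E) := by ring
  rw [e6]
  have f1 := c1.trans e1
  have f2 := b2.trans e2
  have f3 := c3.trans e3
  have f0 := e0.trans (add_le_add (add_le_add f1 f2) f3)
  have f4 := mul_le_mul_of_nonneg_left f0 (show (0 : ℝ) ≤ 1 / 6 by norm_num)
  refine f4.trans ?_
  linarith

end

end Run7.K3
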