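import Mathlib

/-!
Auxiliary integrals over vertical lines for piece J (`KerId`).
-/

set_option autoImplicit false

namespace Run7.K3.KI

noncomputable section

open MeasureTheory Filter Topology Complex

/-- `A + iη`. -/
def P (A η : ℝ) : ℂ := (A : ℂ) + η * I

lemma P_ne {A : ℝ} (hA : A ≠ 0) (η : ℝ) : P A η ≠ 0 := by
  intro h
  have := congrArg Complex.re h
  simp [P] at this
  exact hA this

lemma P_norm_sq (A η : ℝ) : ‖P A η‖ ^ 2 = A ^ 2 + η ^ 2 := by
  rw [← Complex.normSq_eq_norm_sq, Complex.normSq_apply]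
  simp [P]; ring

lemma P_norm_ge (A η : ℝ) : min 1 |A| * Real.sqrt (1 + η ^ 2) ≤ ‖P A η‖ := by
  have h0 : 0 ≤ min 1 |A| := by positivity
  have h1 : (min 1 |A| * Real.sqrt (1 + η ^ 2)) ^ 2 ≤ ‖P A η‖ ^ 2 := by
    rw [P_norm_sq, mul_pow, Real.sq_sqrt (by positivity)]
    have h2 : min 1 |A| ≤ 1 := min_le_left _ _
    have h3 : min 1 |A| ≤ |A| := min_le_right _ _
    have h4 : (min 1 |A|) ^ 2 ≤ 1 := by nlinarith
    have h5 : (min 1 |A|) ^ 2 ≤ A ^ 2 := by
      rw [← sq_abs A]; exact pow_le_pow_left₀ h0 h3 2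
    nlinarith [sq_nonneg η]
  exact le_of_sq_le_sq h1 (norm_nonneg _) |> fun h => h

lemma continuous_P (A : ℝ) : Continuous (P A) := by unfold P; fun_prop

lemma norm_inv_PP_le {A B : ℝ} (hA : A ≠ 0) (hB : B ≠ 0) (η : ℝ) :
    ‖1 / (P A η * P B η)‖ ≤ (min 1 |A| * min 1 |B|)⁻¹ * (1 + η ^ 2)⁻¹ := by
  have hA0 : 0 < |A| := abs_pos.2 hA
  have hB0 : 0 < |B| := abs_pos.2 hB
  have hs : 0 < Real.sqrt (1 + η ^ 2) := Real.sqrt_pos.2 (by positivity)
  have h1 : (min 1 |A| * min 1 |B|) * (1 + η ^ 2) ≤ ‖P A η * P B η‖ := by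
    rw [norm_mul]
    have := mul_le_mul (P_norm_ge A η) (P_norm_ge B η) (by positivity) (norm_nonneg _)
    calc (min 1 |A| * min 1 |B|) * (1 + η ^ 2)
        = min 1 |A| * Real.sqrt (1 + η ^ 2) * (min 1 |B| * Real.sqrt (1 + η ^ 2)) := by
          have h2 : Real.sqrt (1 + η ^ 2) * Real.sqrt (1 + η ^ 2) = 1 + η ^ 2 :=
            Real.mul_self_sqrt (by positivity)
          calc _ = (min 1 |A| * min 1 |B|) * (Real.sqrt (1 + η ^ 2) * Real.sqrt (1 + η ^ 2)) := by
                rw [h2]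
            _ = _ := by ring
      _ ≤ _ := this
  rw [norm_div, norm_one, ← mul_inv, one_div]
  exact inv_anti₀ (by positivity) h1

lemma integrable_inv_PP {A B : ℝ} (hA : A ≠ 0) (hB : B ≠ 0) :
    Integrable fun η : ℝ => 1 / (P A η * P B η) := by
  refine (integrable_inv_one_add_sq.const_mul ((min 1 |A| * min 1 |B|)⁻¹)).mono' ?_ ?_
  · refine Continuous.aestronglyMeasurable ?_
    exact continuous_const.div ((continuous_P A).mul (continuous_P B))
      fun η => mul_ne_zero (P_ne hA η) (P_ne hB η)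
  · exact Eventually.of_forall fun η => norm_inv_PP_le hA hB η

lemma norm_inv_P_le {B : ℝ} (hB : B ≠ 0) (η : ℝ) : ‖1 / P B η‖ ≤ |B|⁻¹ := by
  have h1 : |B| ≤ ‖P B η‖ := by
    have := Complex.abs_re_le_norm (P B η)
    simpa [P] using this
  rw [norm_div, norm_one, one_div]
  exact inv_anti₀ (abs_pos.2 hB) h1

lemma integrable_inv_PPP {A B : ℝ} (hA : A ≠ 0) (hB : B ≠ 0) :
    Integrable fun η : ℝ => 1 / (P A η * P B η ^ 2) := by
  have h1 : (fun η : ℝ => 1 / (P A η * P B η ^ 2)) =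
      fun η => (1 / P B η) * (1 / (P A η * P B η)) := by
    funext η
    have h2 := P_ne hA η
    have h3 := P_ne hB η
    field_simp
  rw [h1]
  refine (integrable_inv_PP hA hB).bdd_mul (c := |B|⁻¹) ?_ ?_
  · refine Continuous.aestronglyMeasurable ?_
    exact continuous_const.div (continuous_P B) fun η => P_ne hB η
  · exact Eventually.of_forall fun η => norm_inv_P_le hB η

lemma tendsto_P_cocompact (B : ℝ) : Tendsto (fun η => ‖P B η‖) (cocompact ℝ) atTop := by
  have h1 : ∀ η : ℝ, ‖η‖ ≤ ‖P B η‖ := by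
    intro η
    have := Complex.abs_im_le_norm (P B η)
    simpa [P] using this
  exact tendsto_atTop_mono h1 tendsto_norm_cocompact_atTop

lemma tendsto_inv_P (B : ℝ) (n : ℕ) (hn : n ≠ 0) (c : ℂ) :
    Tendsto (fun η => c / P B η ^ n) (cocompact ℝ) (𝓝 0) := by
  rw [tendsto_zero_iff_norm_tendsto_zero]
  have h1 : (fun η => ‖c / P B η ^ n‖) = fun η => ‖c‖ * (‖P B η‖ ^ n)⁻¹ := by
    funext η; rw [norm_div, norm_pow]; ring
  rw [h1]
  have h2 : Tendsto (fun η => (‖P B η‖ ^ n)⁻¹) (cocompact ℝ) (𝓝 0) :=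
    ((tendsto_pow_atTop hn).comp (tendsto_P_cocompact B)).inv_tendsto_atTop
  simpa using h2.const_mul ‖c‖

lemma hasDerivAt_P (B η : ℝ) : HasDerivAt (P B) I η := by
  unfold P
  have := ((Complex.ofRealCLM.hasDerivAt (x := η)).mul_const I).const_add (B : ℂ)
  simpa using this

/-- `∫ 1/(B+iη)^2 = 0`. -/
lemma integral_inv_sq {B : ℝ} (hB : B ≠ 0) : ∫ η : ℝ, 1 / P B η ^ 2 = 0 := by
  have h1 : ∀ η, HasDerivAt (fun η => I / P B η ^ 1) (1 / P B η ^ 2) η := by
    intro η
    have h2 := P_ne hB η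
    have h3 : HasDerivAt (fun η => I / P B η ^ 1) _ η :=
      (((hasDerivAt_P B η).pow 1).inv (pow_ne_zero 1 h2)).const_mul I
    refine h3.congr_deriv ?_
    show I * (-(((1 : ℕ) : ℂ) * P B η ^ (1 - 1) * I) / (P B η ^ 1) ^ 2) = 1 / P B η ^ 2
    have hI := Complex.I_mul_I
    simp only [Nat.cast_one, Nat.sub_self, pow_zero, one_mul, mul_one, pow_one]
    rw [neg_div, mul_neg, ← mul_div_assoc, hI]
    ring
  have h2 : Integrable fun η : ℝ => 1 / P B η ^ 2 := by
    have := integrable_inv_PP hB hB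
    simpa [sq] using this
  have h3 := tendsto_inv_P B 1 one_ne_zero I
  rw [cocompact_eq_atBot_atTop, tendsto_sup] at h3
  have := integral_of_hasDerivAt_of_tendsto h1 h2 h3.1 h3.2
  rw [this]; simp

/-- `∫ 1/(B+iη)^3 = 0`. -/
lemma integral_inv_cube {B : ℝ} (hB : B ≠ 0) : ∫ η : ℝ, 1 / (P B η * P B η ^ 2) = 0 := by
  have h1 : ∀ η, HasDerivAt (fun η => (I / 2) / P B η ^ 2) (1 / (P B η * P B η ^ 2)) η := by
    intro η
    have h2 := P_ne hB η
    have h3 : HasDerivAt (fun η => (I / 2) / P B η ^ 2) _ η :=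
      (((hasDerivAt_P B η).pow 2).inv (pow_ne_zero 2 h2)).const_mul (I / 2)
    refine h3.congr_deriv ?_
    show I / 2 * (-(((2 : ℕ) : ℂ) * P B η ^ (2 - 1) * I) / (P B η ^ 2) ^ 2) =
      1 / (P B η * P B η ^ 2)
    have hI := Complex.I_mul_I
    simp only [Nat.cast_ofNat, Nat.add_one_sub_one, pow_one]
    field_simp
    linear_combination (-1 : ℂ) * hI
  have h3 := tendsto_inv_P B 2 two_ne_zero (I / 2)
  rw [cocompact_eq_atBot_atTop, tendsto_sup] at h3
  have := integral_of_hasDerivAt_of_tendsto h1 (integrable_inv_PPP hB hB) h3.1 h3.2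
  rw [this]; simp

/-- `∫ A/(A²+η²) = π sgn A`. -/
lemma integral_poisson {A : ℝ} (hA : A ≠ 0) :
    ∫ η : ℝ, A / (A ^ 2 + η ^ 2) = Real.pi * SignType.sign A ∧
      Integrable fun η : ℝ => A / (A ^ 2 + η ^ 2) := by
  have h1 : (fun η : ℝ => A / (A ^ 2 + η ^ 2)) = fun η => A⁻¹ * (1 + (η / A) ^ 2)⁻¹ := by
    funext η
    have : 0 < A ^ 2 := by positivity
    have h2 : A ^ 2 + η ^ 2 ≠ 0 := by positivity
    have h3 : 1 + (η / A) ^ 2 ≠ 0 := by positivity
    field_simp
  constructor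
  · rw [h1, integral_const_mul, Measure.integral_comp_div (fun x : ℝ => (1 + x ^ 2)⁻¹) A,
      integral_univ_inv_one_add_sq, smul_eq_mul]
    rcases lt_or_gt_of_ne hA with h | h
    · rw [abs_of_neg h, sign_neg h]
      simp
      field_simp
    · rw [abs_of_pos h, sign_pos h]
      simp
      field_simp
  · rw [h1]
    exact (integrable_inv_one_add_sq.comp_div hA).const_mul _

/-- `∫ (1/(A+iη) - 1/(B+iη)) = π (sgn A - sgn B)`. -/
lemma integral_diff {A B : ℝ} (hA : A ≠ 0) (hB : B ≠ 0) :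
    ∫ η : ℝ, (1 / P A η - 1 / P B η) =
      (Real.pi : ℂ) * (((SignType.sign A : ℝ) - (SignType.sign B : ℝ) : ℝ) : ℂ) := by
  have hint : Integrable fun η : ℝ => 1 / P A η - 1 / P B η := by
    have h1 : (fun η : ℝ => 1 / P A η - 1 / P B η) =
        fun η => ((B - A : ℝ) : ℂ) * (1 / (P A η * P B η)) := by
      funext η
      have h2 := P_ne hA η
      have h3 := P_ne hB η
      have h4 : P B η - P A η = ((B - A : ℝ) : ℂ) := by simp [P]
      rw [← h4]
      field_simp
    rw [h1]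
    exact (integrable_inv_PP hA hB).const_mul _
  have h2 : ∫ η : ℝ, (1 / P A (-η) - 1 / P B (-η)) = ∫ η : ℝ, (1 / P A η - 1 / P B η) :=
    integral_neg_eq_self (fun η : ℝ => 1 / P A η - 1 / P B η) volume
  have hint' : Integrable fun η : ℝ => 1 / P A (-η) - 1 / P B (-η) := hint.comp_neg
  have hre : ∀ (A : ℝ), A ≠ 0 → ∀ η : ℝ, 1 / P A η + 1 / P A (-η) =
      ((2 * (A / (A ^ 2 + η ^ 2)) : ℝ) : ℂ) := by
    intro A hA η
    have h2 := P_ne hA η
    have h3 := P_ne hA (-η)
    have h4 : P A η * P A (-η) = ((A ^ 2 + η ^ 2 : ℝ) : ℂ) := by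
      simp only [P]
      push_cast
      have := Complex.I_mul_I
      linear_combination (-(η : ℂ) ^ 2) * this
    have h5 : P A η + P A (-η) = ((2 * A : ℝ) : ℂ) := by
      simp only [P]; push_cast; ring
    rw [div_add_div _ _ h2 h3, h4, one_mul, mul_one, add_comm, h5]
    push_cast
    ring
  have h3 : (∫ η : ℝ, (1 / P A η - 1 / P B η)) + ∫ η : ℝ, (1 / P A η - 1 / P B η) =
      ∫ η : ℝ, ((2 * (A / (A ^ 2 + η ^ 2)) - 2 * (B / (B ^ 2 + η ^ 2)) : ℝ) : ℂ) := by
    nth_rewrite 2 [← h2]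
    rw [← integral_add hint hint']
    congr 1
    funext η
    have e1 := hre A hA η
    have e2 := hre B hB η
    rw [Complex.ofReal_sub, ← e1, ← e2]
    ring
  have h5 : ∫ η : ℝ, (2 * (A / (A ^ 2 + η ^ 2)) - 2 * (B / (B ^ 2 + η ^ 2))) =
      2 * (Real.pi * SignType.sign A) - 2 * (Real.pi * SignType.sign B) := by
    rw [integral_sub ((integral_poisson hA).2.const_mul 2) ((integral_poisson hB).2.const_mul 2),
      integral_const_mul, integral_const_mul, (integral_poisson hA).1, (integral_poisson hB).1]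
  rw [integral_complex_ofReal, h5] at h3
  have h4 : (2 : ℂ) * (∫ η : ℝ, (1 / P A η - 1 / P B η)) = 2 * ((Real.pi : ℂ) *
      (((SignType.sign A : ℝ) - (SignType.sign B : ℝ) : ℝ) : ℂ)) := by
    rw [two_mul, h3]
    push_cast
    ring
  exact mul_left_cancel₀ two_ne_zero h4

/-- The basic integral. -/
lemma integral_J {A B : ℝ} (hA : 0 < A) (hB : B ≠ 0) :
    ∫ η : ℝ, 1 / (P A η * P B η ^ 2) =
      if 0 < B then 0 else 2 * (Real.pi : ℂ) / ((A : ℂ) - B) ^ 2 := by
  by_cases hAB : A = B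
  · subst hAB
    rw [integral_inv_cube hB, if_pos hA]
  · have hd : (A : ℂ) - B ≠ 0 := by
      rw [← Complex.ofReal_sub]
      exact_mod_cast sub_ne_zero.2 hAB
    have h1 : (fun η : ℝ => 1 / (P A η * P B η ^ 2)) = fun η =>
        ((A : ℂ) - B)⁻¹ * (1 / P B η ^ 2) + (((A : ℂ) - B) ^ 2)⁻¹ * (1 / P A η - 1 / P B η) := by
      funext η
      have h2 := P_ne hA.ne' η
      have h3 := P_ne hB η
      have h4 : (A : ℂ) - B = P A η - P B η := by simp [P]
      rw [h4]
      rw [h4] at hd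
      field_simp
      ring
    have i1 : Integrable fun η : ℝ => 1 / P B η ^ 2 := by
      have := integrable_inv_PP hB hB
      simpa [sq] using this
    have i2 : Integrable fun η : ℝ => 1 / P A η - 1 / P B η := by
      have h1 : (fun η : ℝ => 1 / P A η - 1 / P B η) =
          fun η => ((B - A : ℝ) : ℂ) * (1 / (P A η * P B η)) := by
        funext η
        have h2 := P_ne hA.ne' η
        have h3 := P_ne hB η
        have h4 : P B η - P A η = ((B - A : ℝ) : ℂ) := by simp [P]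
        rw [← h4]
        field_simp
      rw [h1]
      exact (integrable_inv_PP hA.ne' hB).const_mul _
    rw [h1, integral_add (i1.const_mul _) (i2.const_mul _), integral_const_mul,
      integral_const_mul, integral_inv_sq hB, integral_diff hA.ne' hB, sign_pos hA]
    rcases lt_or_gt_of_ne hB with h | h
    · rw [sign_neg h, if_neg (not_lt.2 h.le)]
      push_cast
      simp
      ring
    · rw [sign_pos h, if_pos h]
      simp

end

end Run7.K3.KI
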