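import Pool.Agent.Run7.K3.Defs

/-!
The kernel `π²/sin²(πs)` for piece J (`KerId`).
-/

set_option autoImplicit false

namespace Run7.K3

noncomputable section

open MeasureTheory Filter Topology Complex

namespace KI

lemma lin_re (D : ℕ) (η : ℝ) : (lin D η).re = (D : ℝ) - 1 / 12 := by
  simp [lin]

lemma lin_im (D : ℕ) (η : ℝ) : (lin D η).im = η := by
  simp [lin]

lemma lin_ne_int (D : ℕ) (η : ℝ) (k : ℤ) : lin D η ≠ k := by
  intro h
  have h1 := congrArg Complex.re h
  rw [lin_re, Complex.intCast_re] at h1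
  have h2 : (12 * (D : ℤ) - 1 : ℤ) = 12 * k := by
    have : (12 * (D : ℝ) - 1) = 12 * (k : ℝ) := by linarith
    exact_mod_cast this
  omega

lemma sin_ne (D : ℕ) (η : ℝ) : Complex.sin (Real.pi * lin D η) ≠ 0 := by
  intro h
  rw [Complex.sin_eq_zero_iff] at h
  obtain ⟨k, hk⟩ := h
  apply lin_ne_int D η k
  have hpi : (Real.pi : ℂ) ≠ 0 := by exact_mod_cast Real.pi_ne_zero
  apply mul_left_cancel₀ hpi
  rw [hk]; ring

lemma continuous_lin (D : ℕ) : Continuous (lin D) := by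
  unfold lin; fun_prop

end KI

open KI

theorem ker_cont (D : ℕ) : Continuous (ker D) := by
  unfold ker
  refine continuous_const.div ?_ (fun η => pow_ne_zero 2 (sin_ne D η))
  exact (Complex.continuous_sin.comp (continuous_const.mul (continuous_lin D))).pow 2

theorem ker_norm : ∃ C : ℝ, ∀ (D : ℕ) (η : ℝ), ‖ker D η‖ ≤ C * Real.exp (-(2 * Real.pi * |η|)) := by
  have hs0 : 0 < Real.sin (Real.pi / 12) :=
    Real.sin_pos_of_pos_of_lt_pi (by positivity) (by linarith [Real.pi_pos])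
  refine ⟨4 * Real.pi ^ 2 / Real.sin (Real.pi / 12) ^ 2, fun D η => ?_⟩
  set x : ℝ := Real.pi * ((D : ℝ) - 1 / 12) with hx
  set y : ℝ := Real.pi * η with hy
  have h1 : Complex.sin (Real.pi * lin D η) = Complex.sin ((x : ℂ) + y * I) := by
    congr 1
    simp only [lin, hx, hy]
    push_cast
    ring
  have h2 : ‖Complex.sin (Real.pi * lin D η)‖ ^ 2 = Real.sin x ^ 2 + Real.sinh y ^ 2 := by
    rw [h1, Complex.sin_add_mul_I, ← Complex.normSq_eq_norm_sq, ← Complex.ofReal_sin,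
      ← Complex.ofReal_cos, ← Complex.ofReal_cosh, ← Complex.ofReal_sinh, ← Complex.ofReal_mul,
      ← Complex.ofReal_mul, Complex.normSq_add_mul_I]
    have e1 := Real.cosh_sq y
    have e2 := Real.sin_sq_add_cos_sq x
    rw [mul_pow, mul_pow, e1]
    linear_combination (Real.sinh y ^ 2) * e2
  have h3 : Real.sin x ^ 2 = Real.sin (Real.pi / 12) ^ 2 := by
    have e1 : x = (D : ℝ) * Real.pi - Real.pi / 12 := by rw [hx]; ring
    rw [e1, Real.sin_sub, Real.sin_nat_mul_pi, Real.cos_nat_mul_pi]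
    have e2 : (((-1 : ℝ)) ^ D) ^ 2 = 1 := by
      rw [← pow_mul, mul_comm, pow_mul]; norm_num
    linear_combination (Real.sin (Real.pi / 12) ^ 2) * e2
  have h4 : Real.sin (Real.pi / 12) ^ 2 / 4 * Real.exp (2 * Real.pi * |η|) ≤
      ‖Complex.sin (Real.pi * lin D η)‖ ^ 2 := by
    rw [h2, h3]
    have e1 : Real.sin (Real.pi / 12) ^ 2 ≤ 1 := Real.sin_sq_le_one _
    have e2 : Real.exp |y| / 2 ≤ Real.cosh y := by
      rw [← Real.cosh_abs y, Real.cosh_eq]
      have := Real.exp_pos (-|y|)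
      linarith
    have e3 : (Real.exp |y| / 2) ^ 2 ≤ Real.cosh y ^ 2 :=
      pow_le_pow_left₀ (by positivity) e2 2
    have e4 : (Real.exp |y| / 2) ^ 2 = Real.exp (2 * Real.pi * |η|) / 4 := by
      rw [div_pow, ← Real.exp_nat_mul, hy, abs_mul, abs_of_pos Real.pi_pos]
      norm_num
      ring_nf
    rw [e4, Real.cosh_sq] at e3
    have e5 := sq_nonneg (Real.sinh y)
    have e6 := sq_nonneg (Real.sin (Real.pi / 12))
    nlinarith
  have h5 : 0 < ‖Complex.sin (Real.pi * lin D η)‖ ^ 2 := by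
    have := norm_pos_iff.2 (sin_ne D η)
    positivity
  have h6 : ‖ker D η‖ = Real.pi ^ 2 / ‖Complex.sin (Real.pi * lin D η)‖ ^ 2 := by
    rw [ker, norm_div, norm_pow, norm_pow, Complex.norm_real, Real.norm_eq_abs,
      abs_of_pos Real.pi_pos]
  rw [h6, div_le_iff₀ h5]
  have h7 : 0 < Real.exp (-(2 * Real.pi * |η|)) := Real.exp_pos _
  have h8 : Real.exp (-(2 * Real.pi * |η|)) * Real.exp (2 * Real.pi * |η|) = 1 := by
    rw [← Real.exp_add]; simp
  have h9 : 0 < 4 * Real.pi ^ 2 / Real.sin (Real.pi / 12) ^ 2 * Real.exp (-(2 * Real.pi * |η|)) := by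
    positivity
  refine le_trans (le_of_eq ?_) (mul_le_mul_of_nonneg_left h4 h9.le)
  calc Real.pi ^ 2 = Real.pi ^ 2 * (Real.exp (-(2 * Real.pi * |η|)) *
        Real.exp (2 * Real.pi * |η|)) := by rw [h8, mul_one]
    _ = _ := by field_simp

namespace KI

/-- `π²/sin²(πz) = ∑ 1/(z+n)²` in the upper half plane. -/
lemma sin_series_up {z : ℂ} (hz : 0 < z.im) :
    (Real.pi : ℂ) ^ 2 / Complex.sin (Real.pi * z) ^ 2 = ∑' n : ℤ, 1 / (z + n) ^ 2 := by
  have hzH : z ∈ UpperHalfPlane.upperHalfPlaneSet := hz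
  have h1 := iteratedDerivWithin_cot_pi_mul_eq_mul_tsum_div_pow (k := 1) le_rfl hzH
  have hsin : Complex.sin (Real.pi * z) ≠ 0 := by
    intro h
    rw [Complex.sin_eq_zero_iff] at h
    obtain ⟨k, hk⟩ := h
    have hpi : (Real.pi : ℂ) ≠ 0 := by exact_mod_cast Real.pi_ne_zero
    have h2 : z = k := by
      apply mul_left_cancel₀ hpi
      rw [hk]; ring
    rw [h2] at hz
    simp at hz
  have hd : HasDerivAt (fun x : ℂ => (Real.pi : ℂ) * Complex.cot (Real.pi * x))
      (-((Real.pi : ℂ) ^ 2 / Complex.sin (Real.pi * z) ^ 2)) z := by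
    have e0 : HasDerivAt (fun x : ℂ => (Real.pi : ℂ) * x) (Real.pi : ℂ) z := by
      simpa using (hasDerivAt_id z).const_mul (Real.pi : ℂ)
    have e1 := (Complex.hasDerivAt_cos ((Real.pi : ℂ) * z)).comp z e0
    have e2 := (Complex.hasDerivAt_sin ((Real.pi : ℂ) * z)).comp z e0
    have e3 := (e1.div e2 hsin).const_mul (Real.pi : ℂ)
    refine (e3.congr_deriv ?_)
    have e4 := Complex.sin_sq_add_cos_sq ((Real.pi : ℂ) * z)
    simp only [Function.comp]
    rw [← neg_div, ← mul_div_assoc]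
    congr 1
    linear_combination (-(Real.pi : ℂ) ^ 2) * e4
  rw [iteratedDerivWithin_one, derivWithin_of_isOpen UpperHalfPlane.isOpen_upperHalfPlaneSet hzH,
    hd.deriv] at h1
  simp only [pow_one, Nat.factorial_one, Nat.cast_one, mul_one, neg_mul, one_mul] at h1
  have h3 := neg_injective h1
  exact h3

lemma sin_series {z : ℂ} (hz : z.im ≠ 0) :
    (Real.pi : ℂ) ^ 2 / Complex.sin (Real.pi * z) ^ 2 = ∑' n : ℤ, 1 / (z - n) ^ 2 := by
  rcases lt_or_gt_of_ne hz with h | h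
  · have h1 := sin_series_up (z := -z) (by simpa using h)
    rw [mul_neg, Complex.sin_neg, neg_sq] at h1
    rw [h1]
    refine tsum_congr fun n => ?_
    congr 1
    ring
  · rw [sin_series_up h, ← (Equiv.neg ℤ).tsum_eq]
    refine tsum_congr fun n => ?_
    congr 2
    simp
    ring

lemma ker_series (D : ℕ) {η : ℝ} (hη : η ≠ 0) :
    ker D η = ∑' n : ℤ, 1 / (lin D η - n) ^ 2 :=
  sin_series (by rw [lin_im]; exact hη)

end KI

end

end Run7.K3
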