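import Pool.Agent.Run7.K3.Defs
import Pool.Agent.Run7.K3.KerIdA
import Pool.Agent.Run7.K3.KerIdB

/-!
Piece J (`KerId`): the kernel identity.
-/

set_option autoImplicit false

namespace Run7.K3

noncomputable section

open MeasureTheory Filter Topology Complex Finset

namespace KI

/-- the terms of the series -/
def hN (x i r : ℕ) (k : ℕ) : ℝ :=
  (1 / ((k : ℝ) - ((x : ℝ) - 1 + r / 6)) ^ 2 - 1 / ((k : ℝ) + i + 1) ^ 2) / ((x : ℝ) + i + r / 6)

lemma summable_sq : Summable fun l : ℕ => 1 / ((l : ℝ) + 1) ^ 2 := by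
  have h := (summable_nat_add_iff (f := fun n : ℕ => 1 / (n : ℝ) ^ 2) 1).2
    (Real.summable_one_div_nat_pow.2 one_lt_two)
  refine h.congr fun n => ?_
  push_cast
  rfl

lemma summable_del (r : ℕ) (hr5 : r ≤ 5) :
    Summable fun l : ℕ => 1 / ((l : ℝ) + 1 - r / 6) ^ 2 := by
  refine Summable.of_nonneg_of_le (fun l => by positivity) (fun l => ?_) (summable_sq.mul_left 36)
  have h1 : (r : ℝ) ≤ 5 := by exact_mod_cast hr5
  have h2 : ((l : ℝ) + 1) / 6 ≤ (l : ℝ) + 1 - r / 6 := by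
    have : (0 : ℝ) ≤ l := Nat.cast_nonneg l
    linarith
  have h3 : 0 < ((l : ℝ) + 1) / 6 := by positivity
  calc 1 / ((l : ℝ) + 1 - r / 6) ^ 2 ≤ 1 / (((l : ℝ) + 1) / 6) ^ 2 :=
        one_div_le_one_div_of_le (by positivity) (pow_le_pow_left₀ h3.le h2 2)
    _ = 36 * (1 / ((l : ℝ) + 1) ^ 2) := by field_simp; norm_num

lemma hasSum_H2 (y : ℕ) : HasSum (fun l : ℕ => 1 / ((l : ℝ) + 1) ^ 2 - 1 / ((l : ℝ) + 1 + y) ^ 2)
    ((H2 y : ℚ) : ℝ) := by
  have h1 := summable_sq.hasSum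
  have h2 := (hasSum_nat_add_iff' (f := fun l : ℕ => 1 / ((l : ℝ) + 1) ^ 2) y).2 h1
  have h3 := h1.sub h2
  have h4 : ∑' l : ℕ, 1 / ((l : ℝ) + 1) ^ 2 - (∑' l : ℕ, 1 / ((l : ℝ) + 1) ^ 2 -
      ∑ l ∈ range y, 1 / ((l : ℝ) + 1) ^ 2) = ((H2 y : ℚ) : ℝ) := by
    rw [sub_sub_cancel, H2]
    push_cast
    rfl
  rw [h4] at h3
  have h5 : (fun l : ℕ => 1 / ((l : ℝ) + 1) ^ 2 - 1 / ((l : ℝ) + 1 + y) ^ 2) =
      fun l : ℕ => 1 / ((l : ℝ) + 1) ^ 2 - 1 / (((l + y : ℕ) : ℝ) + 1) ^ 2 := by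
    funext l
    push_cast
    ring
  rw [h5]
  exact h3

lemma hasSum_ser (x i r : ℕ) (hr : 1 ≤ r) (hr5 : r ≤ 5) :
    HasSum (fun l : ℕ => hN x i r (x + l))
      ((((H2 (x + i) : ℚ) : ℝ) - cr r) / ((x : ℝ) + i + r / 6)) := by
  have h1 := hasSum_H2 (x + i)
  have h2 : HasSum (fun l : ℕ => 1 / ((l : ℝ) + 1) ^ 2 - 1 / ((l : ℝ) + 1 - r / 6) ^ 2) (cr r) :=
    (summable_sq.sub (summable_del r hr5)).hasSum
  have h3 := (h1.sub h2).div_const ((x : ℝ) + i + r / 6)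
  have h5 : (fun l : ℕ => hN x i r (x + l)) = fun l : ℕ =>
      (1 / ((l : ℝ) + 1) ^ 2 - 1 / ((l : ℝ) + 1 + (x + i : ℕ)) ^ 2 -
        (1 / ((l : ℝ) + 1) ^ 2 - 1 / ((l : ℝ) + 1 - r / 6) ^ 2)) / ((x : ℝ) + i + r / 6) := by
    funext l
    simp only [hN]
    congr 1
    push_cast
    ring
  rw [h5]
  exact h3

/-- the two-pole function on the line -/
def gg (a A B : ℝ) (k : ℤ) (η : ℝ) : ℂ := 1 / (P A η * P B η) * (1 / P (a - k) η ^ 2)

lemma gg_eq {a A B : ℝ} (hA : A ≠ 0) (hB : B ≠ 0) (hAB : A ≠ B) (k : ℤ) (ha : a - k ≠ 0) (η : ℝ) :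
    gg a A B k η = ((B - A : ℝ) : ℂ)⁻¹ * (1 / (P A η * P (a - k) η ^ 2)) -
      ((B - A : ℝ) : ℂ)⁻¹ * (1 / (P B η * P (a - k) η ^ 2)) := by
  have h1 := P_ne hA η
  have h2 := P_ne hB η
  have h3 := P_ne ha η
  have h4 : ((B - A : ℝ) : ℂ) ≠ 0 := by exact_mod_cast sub_ne_zero.2 (Ne.symm hAB)
  have h5 : ((B - A : ℝ) : ℂ) = P B η - P A η := by simp [P]
  rw [gg]
  rw [h5] at h4 ⊢
  field_simp

lemma gg_int {a A B : ℝ} (hA : 0 < A) (hB : 0 < B) (hAB : A ≠ B) (k : ℤ) (ha : a - k ≠ 0) :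
    Integrable (gg a A B k) ∧ ∫ η, gg a A B k η = if 0 < a - k then 0 else
      2 * (Real.pi : ℂ) * (((1 / (A - (a - k)) ^ 2 - 1 / (B - (a - k)) ^ 2) / (B - A) : ℝ) : ℂ) := by
  have e : gg a A B k = fun η => ((B - A : ℝ) : ℂ)⁻¹ * (1 / (P A η * P (a - k) η ^ 2)) -
      ((B - A : ℝ) : ℂ)⁻¹ * (1 / (P B η * P (a - k) η ^ 2)) :=
    funext fun η => gg_eq hA.ne' hB.ne' hAB k ha η
  have i1 := (integrable_inv_PPP hA.ne' ha).const_mul ((B - A : ℝ) : ℂ)⁻¹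
  have i2 := (integrable_inv_PPP hB.ne' ha).const_mul ((B - A : ℝ) : ℂ)⁻¹
  refine ⟨by rw [e]; exact i1.sub i2, ?_⟩
  rw [e, integral_sub i1 i2, integral_const_mul, integral_const_mul, integral_J hA ha,
    integral_J hB ha]
  split_ifs with h
  · simp
  · push_cast
    ring

/-- sum over all integers of the integrals -/
lemma gg_sum {a A B : ℝ} (hA : 0 < A) (hB : 0 < B) (hAB : A ≠ B) (ha : ∀ k : ℤ, a - k ≠ 0) :
    HasSum (fun k : ℤ => ∫ η, gg a A B k η) (∫ η, ∑' k : ℤ, gg a A B k η) := by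
  refine hasSum_integral_of_summable_integral_norm (fun k => (gg_int hA hB hAB k (ha k)).1) ?_
  have hg : Integrable fun η : ℝ => 1 / (P A η * P B η) := integrable_inv_PP hA.ne' hB.ne'
  have hs : Summable fun k : ℤ => 1 / (a - k) ^ 2 * ∫ η, ‖1 / (P A η * P B η)‖ := by
    refine Summable.mul_right _ ?_
    have := (Real.summable_one_div_int_add_rpow (-a) 2).2 one_lt_two
    refine this.congr fun k => ?_
    rw [Real.rpow_two, sq_abs]
    congr 1
    ring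
  refine Summable.of_nonneg_of_le (fun k => integral_nonneg fun η => norm_nonneg _)
    (fun k => ?_) hs
  rw [← integral_const_mul]
  refine integral_mono (gg_int hA hB hAB k (ha k)).1.norm (hg.norm.const_mul _) fun η => ?_
  simp only [gg]
  rw [norm_mul, mul_comm]
  refine mul_le_mul_of_nonneg_right ?_ (norm_nonneg _)
  have h1 := norm_inv_P_le (ha k) η
  have h2 : ‖1 / P (a - k) η ^ 2‖ = ‖1 / P (a - k) η‖ ^ 2 := by
    rw [norm_div, norm_div, norm_pow, norm_one, div_pow, one_pow]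
  rw [h2]
  calc ‖1 / P (a - k) η‖ ^ 2 ≤ (|a - k|⁻¹) ^ 2 := pow_le_pow_left₀ (norm_nonneg _) h1 2
    _ = 1 / (a - k) ^ 2 := by rw [inv_pow, sq_abs, one_div]

/-- the integral of the kernel -/
lemma ker_int (D x i r : ℕ) (hx : 1 ≤ x) (hxD : x ≤ D) (hr : 1 ≤ r) (hr5 : r ≤ 5) :
    HasSum (fun n : ℕ => 2 * (Real.pi : ℂ) * ((hN x i r (D + n) : ℝ) : ℂ))
      (∫ η : ℝ, ker D η / ((lin D η - ((x : ℂ) - 1 + r / 6)) * (lin D η + i + 1))) := by
  set a : ℝ := (D : ℝ) - 1 / 12 with ha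
  set A : ℝ := a - ((x : ℝ) - 1 + r / 6) with hA
  set B : ℝ := a + i + 1 with hB
  have hxD' : (x : ℝ) ≤ D := by exact_mod_cast hxD
  have hx' : (1 : ℝ) ≤ x := by exact_mod_cast hx
  have hr' : (1 : ℝ) ≤ r := by exact_mod_cast hr
  have hr5' : (r : ℝ) ≤ 5 := by exact_mod_cast hr5
  have hi' : (0 : ℝ) ≤ i := Nat.cast_nonneg i
  have hA0 : 0 < A := by rw [hA, ha]; linarith
  have hBA : B - A = (x : ℝ) + i + r / 6 := by rw [hA, hB]; ring
  have hB0 : 0 < B := by rw [hB, ha]; linarith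
  have hAB : A ≠ B := by
    intro h
    rw [h, sub_self] at hBA
    linarith
  have hk : ∀ k : ℤ, a - k ≠ 0 := by
    intro k h
    have h2 : (12 * (D : ℤ) - 1 : ℤ) = 12 * k := by
      have : (12 * (D : ℝ) - 1) = 12 * (k : ℝ) := by rw [ha] at h; linarith
      exact_mod_cast this
    omega
  have hsum := gg_sum hA0 hB0 hAB hk
  -- the integrals on the left vanish for `k < D`
  have hval : ∀ k : ℤ, ∫ η, gg a A B k η = if k < D then 0 else
      2 * (Real.pi : ℂ) * (((1 / ((k : ℝ) - ((x : ℝ) - 1 + r / 6)) ^ 2 -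
        1 / ((k : ℝ) + i + 1) ^ 2) / ((x : ℝ) + i + r / 6) : ℝ) : ℂ) := by
    intro k
    rw [(gg_int hA0 hB0 hAB k (hk k)).2]
    by_cases h : k < D
    · have h1 : (k : ℝ) ≤ (D : ℝ) - 1 := by
        have : k ≤ (D : ℤ) - 1 := by omega
        exact_mod_cast this
      rw [if_pos h, if_pos]
      rw [ha]; linarith
    · have h1 : (D : ℝ) ≤ (k : ℝ) := by
        have : (D : ℤ) ≤ k := by omega
        exact_mod_cast this
      rw [if_neg h, if_neg (by rw [ha]; intro h2; linarith), hBA]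
      congr 3
      · congr 2
        · rw [hA]; ring
        · rw [hB]; ring
  have hinj : Function.Injective fun n : ℕ => ((D : ℤ) + n) := by
    intro m n h
    have : (D : ℤ) + m = D + n := h
    omega
  have hsum2 := (hinj.hasSum_iff (f := fun k : ℤ => ∫ η, gg a A B k η)
    (a := ∫ η, ∑' k : ℤ, gg a A B k η) (by
      intro k hkk
      rw [hval, if_pos]
      by_contra hlt
      apply hkk
      refine ⟨(k - D).toNat, ?_⟩
      show (D : ℤ) + ((k - D).toNat : ℤ) = k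
      omega)).2 hsum
  have hfun : ((fun k : ℤ => ∫ η, gg a A B k η) ∘ fun n : ℕ => ((D : ℤ) + n)) =
      fun n : ℕ => 2 * (Real.pi : ℂ) * ((hN x i r (D + n) : ℝ) : ℂ) := by
    funext n
    simp only [Function.comp]
    rw [hval, if_neg (by omega), hN]
    push_cast
    rfl
  rw [hfun] at hsum2
  have hint : (∫ η, ∑' k : ℤ, gg a A B k η) =
      ∫ η : ℝ, ker D η / ((lin D η - ((x : ℂ) - 1 + r / 6)) * (lin D η + i + 1)) := by
    refine integral_congr_ae ?_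
    have h0 : ∀ᵐ η : ℝ, η ≠ 0 := by
      simp [ae_iff, measure_singleton]
    filter_upwards [h0] with η hη
    have e1 : lin D η - ((x : ℂ) - 1 + r / 6) = P A η := by
      simp only [lin, P, hA, ha]; push_cast; ring
    have e2 : lin D η + i + 1 = P B η := by
      simp only [lin, P, hB, ha]; push_cast; ring
    have e3 : ∀ k : ℤ, lin D η - k = P (a - k) η := by
      intro k
      simp only [lin, P, ha]; push_cast; ring
    simp only [gg]
    rw [e1, e2, tsum_mul_left, ker_series D hη]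
    simp only [e3]
    rw [mul_comm, mul_one_div]
  rw [hint] at hsum2
  exact hsum2

end KI

open KI

theorem ker_id (D x i r : ℕ) (hx : 1 ≤ x) (hxD : x ≤ D) (hr : 1 ≤ r) (hr5 : r ≤ 5) :
    ((H2 (x + i) : ℚ) : ℂ) / (6 * ((x : ℂ) + i) + r) =
      1 / 6 * ((cr r : ℂ) / (((x : ℂ) - 1 + r / 6) + i + 1) +
        ∑ k ∈ Ico x D, (1 / (((k : ℂ) - ((x : ℂ) - 1 + r / 6)) ^ 2 * ((k : ℂ) + i + 1)) +
          1 / (((k : ℂ) - ((x : ℂ) - 1 + r / 6)) * ((k : ℂ) + i + 1) ^ 2)) +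
        1 / (2 * (Real.pi : ℂ)) *
          ∫ η : ℝ, ker D η / ((lin D η - ((x : ℂ) - 1 + r / 6)) * (lin D η + i + 1))) := by
  have hpi : (Real.pi : ℂ) ≠ 0 := by exact_mod_cast Real.pi_ne_zero
  have hx' : (1 : ℝ) ≤ x := by exact_mod_cast hx
  have hr' : (1 : ℝ) ≤ r := by exact_mod_cast hr
  have hr5' : (r : ℝ) ≤ 5 := by exact_mod_cast hr5
  have hi' : (0 : ℝ) ≤ i := Nat.cast_nonneg i
  have hT : (0 : ℝ) < (x : ℝ) + i + r / 6 := by positivity
  have hTC : (x : ℂ) + i + r / 6 ≠ 0 := by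
    have : (((x : ℝ) + i + r / 6 : ℝ) : ℂ) ≠ 0 := by exact_mod_cast hT.ne'
    intro h
    apply this
    push_cast
    exact h
  -- the tail of the series
  have h1 := (hasSum_nat_add_iff' (f := fun l : ℕ => hN x i r (x + l)) (D - x)).2
    (hasSum_ser x i r hr hr5)
  have h2 : (fun n : ℕ => hN x i r (x + (n + (D - x)))) = fun n : ℕ => hN x i r (D + n) := by
    funext n
    congr 1
    omega
  rw [h2] at h1
  have h3 := (Complex.hasSum_ofReal.2 h1).mul_left (2 * (Real.pi : ℂ))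
  have h4 := (ker_int D x i r hx hxD hr hr5).unique h3
  have h5 : ∑ l ∈ range (D - x), hN x i r (x + l) = ∑ k ∈ Ico x D, hN x i r k :=
    (Finset.sum_Ico_eq_sum_range (hN x i r) x D).symm
  have h6 : ∀ k ∈ Ico x D, (1 / (((k : ℂ) - ((x : ℂ) - 1 + r / 6)) ^ 2 * ((k : ℂ) + i + 1)) +
          1 / (((k : ℂ) - ((x : ℂ) - 1 + r / 6)) * ((k : ℂ) + i + 1) ^ 2)) =
      ((hN x i r k : ℝ) : ℂ) := by
    intro k hk
    have hk1 : (x : ℝ) ≤ k := by exact_mod_cast (Finset.mem_Ico.1 hk).1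
    have e1 : (0 : ℝ) < (k : ℝ) - ((x : ℝ) - 1 + r / 6) := by linarith
    have e2 : (0 : ℝ) < (k : ℝ) + i + 1 := by positivity
    have e3 : 1 / (((k : ℝ) - ((x : ℝ) - 1 + r / 6)) ^ 2 * ((k : ℝ) + i + 1)) +
          1 / (((k : ℝ) - ((x : ℝ) - 1 + r / 6)) * ((k : ℝ) + i + 1) ^ 2) = hN x i r k := by
      rw [hN]
      have e4 : (x : ℝ) + i + r / 6 = ((k : ℝ) + i + 1) - ((k : ℝ) - ((x : ℝ) - 1 + r / 6)) := by
        ring
      rw [e4] at hT ⊢
      have e5 := hT.ne'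
      have e1' := e1.ne'
      have e2' := e2.ne'
      generalize (k : ℝ) - ((x : ℝ) - 1 + r / 6) = u at *
      generalize (k : ℝ) + i + 1 = v at *
      field_simp
      ring
    rw [← e3]
    push_cast
    rfl
  rw [Finset.sum_congr rfl h6, h4, h5]
  have h7 : (x : ℂ) - 1 + r / 6 + i + 1 = (x : ℂ) + i + r / 6 := by ring
  rw [h7]
  push_cast
  have h8 : 1 / (2 * (Real.pi : ℂ)) * (2 * (Real.pi : ℂ) *
      ((((H2 (x + i) : ℚ) : ℂ) - (cr r : ℂ)) / ((x : ℂ) + i + r / 6) -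
        ∑ k ∈ Ico x D, ((hN x i r k : ℝ) : ℂ))) =
      (((H2 (x + i) : ℚ) : ℂ) - (cr r : ℂ)) / ((x : ℂ) + i + r / 6) -
        ∑ k ∈ Ico x D, ((hN x i r k : ℝ) : ℂ) := by
    field_simp
  rw [h8]
  have h9 : 6 * ((x : ℂ) + i) + r = 6 * ((x : ℂ) + i + r / 6) := by ring
  rw [h9]
  field_simp
  ring

end

end Run7.K3
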