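import Mathlib
import Pool.Agent.Run7.K3.Defs

/-!
Piece I (`PFrac`) of project K3: partial fractions of the rational functions `RR` (Lagrange
interpolation at `-1, ..., -Z-1`).
-/

namespace Run7.K3

noncomputable section

open Finset Polynomial

/-- the factor of `qq` at `k`, as a polynomial with real coefficients -/
def pfFac (c b g M k : ℕ) : ℝ[X] :=
  if k < b * M ∨ g * M ≤ k then
    (X - C (k : ℝ)) ^ 2 * ∏ r ∈ Icc (1 : ℕ) 5, (X - C ((k : ℝ) + (r : ℝ) / 6))
  else (X - C (k : ℝ)) ^ c

/-- `qq` as a real polynomial -/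
def pfPol (c b g M : ℕ) : ℝ[X] := ∏ k ∈ range (100 * M), pfFac c b g M k

lemma pfPol_eval (c b g M : ℕ) (s : ℂ) :
    ((pfPol c b g M).map (algebraMap ℝ ℂ)).eval s = qq c b g M s := by
  unfold pfPol qq
  rw [Polynomial.map_prod, Polynomial.eval_prod]
  refine prod_congr rfl fun k _ => ?_
  unfold pfFac
  split_ifs with h
  · simp only [Polynomial.map_mul, Polynomial.map_pow, Polynomial.map_sub, map_X, map_C,
      Polynomial.map_prod, eval_mul, eval_pow, eval_sub, eval_X, eval_C, eval_prod]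
    congr 1
    refine prod_congr rfl fun r _ => ?_
    simp only [Complex.coe_algebraMap]
    push_cast
    ring
  · simp

lemma pfPol_eval_real (c b g M : ℕ) (s : ℝ) :
    (((pfPol c b g M).eval s : ℝ) : ℂ) = qq c b g M (s : ℂ) := by
  rw [← pfPol_eval, ← Complex.coe_algebraMap, Polynomial.eval_map_algebraMap,
    Polynomial.aeval_algebraMap_apply]
  simp

lemma pfFac_natDegree (c b g M k : ℕ) :
    (pfFac c b g M k).natDegree ≤ if k < b * M ∨ g * M ≤ k then 7 else c := by
  unfold pfFac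
  split_ifs with h
  · refine (Polynomial.natDegree_mul_le).trans ?_
    have h1 : ((X - C (k : ℝ)) ^ 2 : ℝ[X]).natDegree = 2 := by
      rw [Polynomial.natDegree_pow, Polynomial.natDegree_X_sub_C]
    have h2 : (∏ r ∈ Icc (1 : ℕ) 5, (X - C ((k : ℝ) + (r : ℝ) / 6)) : ℝ[X]).natDegree ≤ 5 := by
      refine (Polynomial.natDegree_prod_le _ _).trans ?_
      refine (sum_le_sum fun r _ => (Polynomial.natDegree_X_sub_C _).le).trans ?_
      simp
    omega
  · rw [Polynomial.natDegree_pow, Polynomial.natDegree_X_sub_C]; simp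

lemma pf_count (c b g ζ M : ℕ) (h : Adm c b g ζ) :
    ∑ k ∈ range (100 * M), (if k < b * M ∨ g * M ≤ k then 7 else c) ≤ ζ * M := by
  obtain ⟨hc, hb, hbg, hg, hζ, hA⟩ := h
  have e1 : ∀ k ∈ range (100 * M), (if k < b * M ∨ g * M ≤ k then 7 else c) =
      c + (if k < b * M ∨ g * M ≤ k then (7 - c) else 0) := by
    intro k _
    split_ifs <;> omega
  rw [sum_congr rfl e1, sum_add_distrib, sum_const, card_range, ← sum_filter, sum_const]
  have hcard : (filter (fun k => k < b * M ∨ g * M ≤ k) (range (100 * M))).card ≤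
      b * M + (100 - g) * M := by
    have hsub : filter (fun k => k < b * M ∨ g * M ≤ k) (range (100 * M)) ⊆
        range (b * M) ∪ Ico (g * M) (100 * M) := by
      intro k hk
      simp only [mem_filter, mem_range, mem_union, mem_Ico] at hk ⊢
      omega
    refine (card_le_card hsub).trans ((card_union_le _ _).trans ?_)
    rw [card_range, Nat.card_Ico, Nat.sub_mul]
  simp only [smul_eq_mul]
  have h7 : 7 - c = (7 - c) := rfl
  calc 100 * M * c + (filter (fun k => k < b * M ∨ g * M ≤ k) (range (100 * M))).card * (7 - c)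
      ≤ 100 * M * c + (b * M + (100 - g) * M) * (7 - c) := by
        gcongr
    _ = (100 * c + (7 - c) * (b + 100 - g)) * M := by
        have : b + 100 - g = b + (100 - g) := by omega
        rw [this]; ring
    _ ≤ ζ * M := by gcongr

lemma pfPol_natDegree (c b g ζ M : ℕ) (h : Adm c b g ζ) :
    (pfPol c b g M).natDegree ≤ ζ * M := by
  refine (Polynomial.natDegree_prod_le _ _).trans ?_
  refine (sum_le_sum fun k _ => pfFac_natDegree c b g M k).trans ?_
  exact pf_count c b g ζ M h

/-- the coefficients -/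
def pfA (c b g M Z i : ℕ) : ℝ :=
  AA c b g M Z * (∏ j ∈ (range (Z + 1)).erase i, ((j : ℝ) - i)⁻¹) *
    (pfPol c b g M).eval (-(i : ℝ) - 1)

lemma pf_abs_prod (Z : ℕ) :
    |∏ j ∈ (range (Z + 1)).erase Z, ((j : ℝ) - Z)⁻¹| = ((Nat.factorial Z : ℝ))⁻¹ := by
  have e : (range (Z + 1)).erase Z = range Z := by
    rw [range_add_one, erase_insert (by simp)]
  rw [e, Finset.abs_prod, ← Finset.prod_range_add_one_eq_factorial, ← Finset.prod_range_reflect]
  push_cast
  rw [← Finset.prod_inv_distrib]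
  refine prod_congr rfl fun j hj => ?_
  have hj' := mem_range.1 hj
  rw [abs_inv]
  congr 1
  have h1 : ((Z - 1 - j : ℕ) : ℝ) = (Z : ℝ) - 1 - j := by
    rw [Nat.cast_sub (by omega), Nat.cast_sub (by omega)]; simp
  rw [h1]
  have : (Z : ℝ) - 1 - j - Z = -((j : ℝ) + 1) := by ring
  rw [this, abs_neg, abs_of_pos (by positivity)]

lemma pf_abs_eval (c b g M Z : ℕ) :
    |(pfPol c b g M).eval (-(Z : ℝ) - 1)| =
      ∏ k ∈ range (100 * M), if k < b * M ∨ g * M ≤ k then
        ((Z : ℝ) + 1 + k) ^ 2 * ∏ r ∈ Icc (1 : ℕ) 5, ((Z : ℝ) + 1 + k + (r : ℝ) / 6)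
        else ((Z : ℝ) + 1 + k) ^ c := by
  unfold pfPol
  rw [Polynomial.eval_prod, Finset.abs_prod]
  refine prod_congr rfl fun k _ => ?_
  unfold pfFac
  have h0 : |-(Z : ℝ) - 1 - k| = (Z : ℝ) + 1 + k := by
    have : -(Z : ℝ) - 1 - k = -((Z : ℝ) + 1 + k) := by ring
    rw [this, abs_neg, abs_of_pos (by positivity)]
  split_ifs with h
  · simp only [eval_mul, eval_pow, eval_sub, eval_X, eval_C, eval_prod, abs_mul, abs_pow, h0,
      Finset.abs_prod]
    congr 1
    refine prod_congr rfl fun r _ => ?_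
    have : -(Z : ℝ) - 1 - (k + (r : ℝ) / 6) = -((Z : ℝ) + 1 + k + r / 6) := by ring
    rw [this, abs_neg, abs_of_pos (by positivity)]
  · simp only [eval_pow, eval_sub, eval_X, eval_C, abs_pow, h0]

theorem pfrac (c b g ζ : ℕ) (h : Adm c b g ζ) (M Z : ℕ) (hM : 1 ≤ M) (hZ : ζ * M ≤ Z) :
    ∃ a : ℕ → ℝ, |a Z| = 1 ∧ ∀ s : ℂ, (∀ i ∈ range (Z + 1), s + i + 1 ≠ 0) →
      RR c b g M Z s = ∑ i ∈ range (Z + 1), (a i : ℂ) / (s + i + 1) := by
  refine ⟨pfA c b g M Z, ?_, ?_⟩
  · unfold pfA
    rw [abs_mul, abs_mul, pf_abs_prod, pf_abs_eval]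
    unfold AA
    set P := ∏ k ∈ range (100 * M), if k < b * M ∨ g * M ≤ k then
        ((Z : ℝ) + 1 + k) ^ 2 * ∏ r ∈ Icc (1 : ℕ) 5, ((Z : ℝ) + 1 + k + (r : ℝ) / 6)
        else ((Z : ℝ) + 1 + k) ^ c with hP
    have hPpos : 0 < P := by
      refine prod_pos fun k _ => ?_
      split_ifs
      · refine mul_pos (by positivity) (prod_pos fun r _ => by positivity)
      · positivity
    have hf : (0 : ℝ) < (Nat.factorial Z : ℝ) := by exact_mod_cast Nat.factorial_pos Z
    rw [abs_of_pos (by positivity)]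
    field_simp
  · intro s hs
    set v : ℕ → ℂ := fun i => -(i : ℂ) - 1 with hv
    set P : ℂ[X] := (pfPol c b g M).map (algebraMap ℝ ℂ) with hP
    have hinj : Set.InjOn v (range (Z + 1) : Set ℕ) := by
      intro i _ j _ hij
      simp only [hv] at hij
      have : (i : ℂ) = j := by linear_combination -hij
      exact_mod_cast this
    have hdeg : P.degree < (range (Z + 1)).card := by
      refine lt_of_le_of_lt (Polynomial.degree_le_natDegree) ?_
      rw [card_range, Nat.cast_lt]
      have h1 : P.natDegree ≤ (pfPol c b g M).natDegree := Polynomial.natDegree_map_le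
      have h2 := pfPol_natDegree c b g ζ M h
      omega
    have hI := Lagrange.eq_interpolate_of_eval_eq (fun i => P.eval (v i)) hinj hdeg
      (fun i _ => rfl)
    have hx : ∀ i ∈ range (Z + 1), s ≠ v i := by
      intro i hi h0
      apply hs i hi
      rw [h0, hv]; ring
    have hE := Lagrange.eval_interpolate_not_at_node (r := fun i => P.eval (v i)) (x := s)
      (s := range (Z + 1)) (v := v) hx
    rw [← hI, Lagrange.eval_nodal] at hE
    have hq : P.eval s = qq c b g M s := pfPol_eval c b g M s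
    have hprod : ∏ i ∈ range (Z + 1), (s - v i) = ∏ i ∈ range (Z + 1), (s + i + 1) :=
      prod_congr rfl fun i _ => by simp only [hv]; ring
    have hne : ∏ i ∈ range (Z + 1), (s + i + 1) ≠ 0 := prod_ne_zero_iff.2 hs
    unfold RR
    rw [← hq, hE, hprod]
    rw [mul_div_assoc, mul_div_cancel_left₀ _ hne, mul_sum]
    refine sum_congr rfl fun i hi => ?_
    unfold pfA Lagrange.nodalWeight
    have e1 : P.eval (v i) = (((pfPol c b g M).eval (-(i : ℝ) - 1) : ℝ) : ℂ) := by
      rw [pfPol_eval_real, hP, pfPol_eval]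
      simp only [hv]; push_cast; rfl
    have e2 : s - v i = s + i + 1 := by simp only [hv]; ring
    have e3 : ∏ j ∈ (range (Z + 1)).erase i, (v i - v j)⁻¹ =
        ((∏ j ∈ (range (Z + 1)).erase i, ((j : ℝ) - i)⁻¹ : ℝ) : ℂ) := by
      push_cast
      refine prod_congr rfl fun j _ => ?_
      simp only [hv]; congr 1; ring
    rw [e1, e2, e3]
    push_cast
    ring

end

end Run7.K3
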