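import Mathlib
import Pool.Agent.Run7.K3.Defs
import Pool.Agent.Run7.K3.PFrac
import Pool.Agent.Run7.K3.KerId
import Pool.Agent.Run7.K3.ArchColC

/-!
Piece M (`ArchCol`), fourth part: assembly, with the pieces K and L as hypotheses.
-/

namespace Run7.K3

noncomputable section

open Finset

lemma cells_adm : ∀ x ∈ cells, Adm x.2.1 x.2.2.1 x.2.2.2.1 x.1 := by
  unfold cells Adm
  decide

theorem arch_col_of
    (hRR : ∀ c b g ζ : ℕ, Adm c b g ζ → ∃ (C : ℝ) (K : ℕ), ∀ M Z k : ℕ, 1 ≤ M →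
      ζ * M ≤ Z → b * M ≤ k → k < g * M → ∀ s : ℂ, ‖s - k‖ ≤ 1 →
        ‖RR c b g M Z s‖ ≤ C * (M : ℝ) ^ K *
          Real.exp (100 * M * VV c (ζ / 100) (b / 100) (g / 100) (k / (100 * M))))
    (hRL : ∀ c b g ζ : ℕ, Adm c b g ζ → ∃ (C : ℝ) (K : ℕ), ∀ M Z : ℕ, 1 ≤ M →
      ζ * M ≤ Z → ∀ η : ℝ,
        ‖RR c b g M Z (lin (100 * M) η)‖ ≤ C * ((M : ℝ) + |η|) ^ K *
          Real.exp (100 * M * VL c (ζ / 100) (b / 100) (g / 100) (|η| / (100 * M))))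
    (hCR : ∀ x ∈ cells, ∀ s : ℝ, (x.2.2.1 : ℝ) / 100 ≤ s → s ≤ (x.2.2.2.1 : ℝ) / 100 →
      VV x.2.1 ((x.1 : ℝ) / 100) ((x.2.2.1 : ℝ) / 100) ((x.2.2.2.1 : ℝ) / 100) s ≤
        -((x.2.2.2.2 : ℝ) / 100))
    (hCL : ∀ x ∈ cells, ∀ e : ℝ, 0 ≤ e →
      VL x.2.1 ((x.1 : ℝ) / 100) ((x.2.2.1 : ℝ) / 100) ((x.2.2.2.1 : ℝ) / 100) e ≤
        628 / 100 * e - (x.2.2.2.2 : ℝ) / 100) :
    ∀ x ∈ cells, ∃ (C : ℝ) (K : ℕ), ∀ M n : ℕ, 1 ≤ M → (100 + x.1) * M ≤ n →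
      ∃ lam : ℕ → ℝ, |lam n| = 1 ∧ ∀ r < 8 * (100 * M),
        |∑ k ∈ range (n + 1), lam k * ((row (100 * M) r k : ℚ) : ℝ)| ≤
          C * (M : ℝ) ^ K * Real.exp (-((x.2.2.2.2 : ℝ) * M)) := by
  intro x hx
  have hA := cells_adm x hx
  have h1 := hCR x hx
  have h2 := hCL x hx
  obtain ⟨ζ, c, b, g, κ⟩ := x
  simp only at hA h1 h2 ⊢
  obtain ⟨C1, K1, hR⟩ := hRR c b g ζ hA
  obtain ⟨C2, K2, hL⟩ := hRL c b g ζ hA
  refine arch_core c b g ζ κ hA.2.1 (fun M Z hM hZ => pfrac c b g ζ hA M Z hM hZ)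
    (fun D x i r hx hxD hr hr5 => ker_id D x i r hx hxD hr hr5) ker_norm ker_cont ?_ ?_
  · refine ⟨|C1|, K1, ?_⟩
    intro M Z k hM hZ hbk hkg s hs
    have hMr : (0 : ℝ) < M := by exact_mod_cast hM
    have hbk' : (b : ℝ) * M ≤ k := by exact_mod_cast hbk
    have hkg' : (k : ℝ) ≤ g * M := by exact_mod_cast hkg.le
    have e1 := h1 (k / (100 * M)) (by
      rw [div_le_div_iff₀ (by norm_num) (by positivity)]
      nlinarith) (by
      rw [div_le_div_iff₀ (by positivity) (by norm_num)]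
      nlinarith)
    refine (hR M Z k hM hZ hbk hkg s hs).trans ?_
    have e2 : (100 : ℝ) * M * VV c (ζ / 100) (b / 100) (g / 100) (k / (100 * M)) ≤
        -((κ : ℝ) * M) := by
      calc (100 : ℝ) * M * VV c (ζ / 100) (b / 100) (g / 100) (k / (100 * M))
          ≤ 100 * M * (-((κ : ℝ) / 100)) := by gcongr
        _ = _ := by ring
    gcongr
    exact le_abs_self C1
  · refine ⟨|C2|, K2, ?_⟩
    intro M Z hM hZ η
    have hMr : (0 : ℝ) < M := by exact_mod_cast hM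
    have e1 := h2 (|η| / (100 * M)) (by positivity)
    refine (hL M Z hM hZ η).trans ?_
    have e2 : (100 : ℝ) * M * VL c (ζ / 100) (b / 100) (g / 100) (|η| / (100 * M)) ≤
        628 / 100 * |η| - (κ : ℝ) * M := by
      calc (100 : ℝ) * M * VL c (ζ / 100) (b / 100) (g / 100) (|η| / (100 * M))
          ≤ 100 * M * (628 / 100 * (|η| / (100 * M)) - (κ : ℝ) / 100) := by gcongr
        _ = _ := by field_simp
    gcongr
    exact le_abs_self C2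

end

end Run7.K3
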