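import Mathlib
import Pool.Agent.Run7.K3.Defs

/-!
# Infinitely many `p` with `∑_{k ≤ p/3} 1/k² ≢ 0 (mod p)`: interface

Each piece is independent of the others.  Write piece `X` in `Pool/Agent/Run7/K3/X.lean`
(module `Pool.Agent.Run7.K3.X`, namespace `Run7.K3`), importing `Pool.Agent.Run7.K3.Defs` (NOT this
file), with the same theorem names and statements.  `D = 100 M`.

PLAN.  Suppose `p ∣ H2 (p/3)` for all primes `p > P₀`.  Then `p ∣ H2 (a p/6)`, `a = 1..5` (A), so the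
coefficients `H2 k/(6k+r)` have no pole of order 3 at `p` for `6k+r < 7p` (B).  Take the `N = 8 D`
rows `u^j f_i` (`j < D`, `i < 8`).  They are linearly independent, even their coefficients of
index `< 8p` for a prime `p ≥ D` (H), choose columns `n_t` greedily (`exists_sel`); `Δ = det ≠ 0`.
`p`-adically for `p > 3`: `-v_p(Δ) ≤ ∑_{t≥D} log_p n_t + ∑_{t≥2D} log_p n_t + ∑_{t≥3D} dd p n_t` (B, C), in
total `(31.5 + 30 + 27.5·6/7) D² = 85.07 D²` (PNT).  `v_2(Δ) ≥ 6 D²`, `v_3(Δ) ≥ 7 D²` (E, F, G).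
So `log |Δ| ≥ -(85.07 - 6 log 2 - 7 log 3) D² = -73.23 D²`.
Archimedean: by Gram-Schmidt `|Δ| ≤ ∏_t (distance of column n_t to the span of the columns before)`,
and for `n_t = D + Z` a linear combination `∑ λ_k col_k` (`k ≤ n_t`, `|λ_{n_t}| = 1`) is obtained from the
partial fractions of `R(s) = A q(s)/∏_{i ≤ Z}(s+i+1)` (I): its entries are values of `R, R'` at
`0,...,D-1` and `x - 1 + r/6` and one integral over `Re s = D - 1/12` (J).  With 65 choices of `q` (cells)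
(K, L) one gets `log |Δ| ≤ -74.56 D²` (M).  Contradiction (N).
-/

namespace Run7.K3

noncomputable section

open Finset

/-! ### Piece A (`Harm`).
In `ZMod p`: let `s_i = ∑_{ip/6 < k < (i+1)p/6} 1/k²`, `i = 0..5`.  `k ↦ p - k`: `s_{5-i} = s_i`;
`s_0+...+s_5 = ∑_{k<p} 1/k² = 0`, so `s_0+s_1+s_2 = 0`.  `s_0 + s_1 = ∑_{m < p/3} 1/m²`: the even `m = 2k` give
`s_0/4`, the odd `m = p - 2k`, `p/3 < k < p/2`, give `s_2/4`.  Hence `4(s_0+s_1) = s_0 + s_2 = -s_1`,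
`s_1 = -4/5 s_0`, `s_0 + s_1 = s_0/5`.  So `p ∣ H2 (p/3)` gives `s_0 = 0`, then all `s_i = 0`, and
`H2 (a p/6) = s_0 + ... + s_{a-1}`. -/
theorem H2_kill {p : ℕ} (hp : p.Prime) (h5 : 5 < p) (h3 : padicNorm p (H2 (p / 3)) ≤ (p : ℚ)⁻¹)
    (a : ℕ) (ha1 : 1 ≤ a) (ha5 : a ≤ 5) : padicNorm p (H2 (a * p / 6)) ≤ (p : ℚ)⁻¹ := sorry

/-! ### Piece B (`Entries`).
`‖H2 k‖ ≤ p^(2 log_p k)`.  If `P₀ < p`, `6n+5 < 7p` and `p ∣ 6k+r`, `k ≤ n`, `1 ≤ r ≤ 5`, then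
`6k+r = a p` with `1 ≤ a ≤ 5` (`a = 6` would give `6 ∣ r`), `k = a p/6`, so `‖H2 k/(6k+r)‖ ≤ 1`. -/
theorem row_norm {p P₀ : ℕ} (hp : p.Prime) (h3 : 3 < p) (hP : 5 ≤ P₀)
    (hH : P₀ < p → ∀ a : ℕ, 1 ≤ a → a ≤ 5 → padicNorm p (H2 (a * p / 6)) ≤ (p : ℚ)⁻¹)
    (D r n : ℕ) (hr : r < 8 * D) :
    padicNorm p (row D r n) ≤ (p : ℚ) ^ ((if D ≤ r then Nat.log p n else 0) +
      (if 2 * D ≤ r then Nat.log p n else 0) + (if 3 * D ≤ r then dd P₀ p n else 0)) := sorry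

/-! ### Piece C (`Perm3`).  As `Run7.h257.det_norm_le` (`Pool/Agent/Run7/h257/Perm.lean`), three
thresholds. -/
theorem det_norm_le3 {N p : ℕ} (hp : p.Prime) (A : Matrix (Fin N) (Fin N) ℚ) (m₁ m₂ m₃ : ℕ)
    (a b c : Fin N → ℕ) (ha : Monotone a) (hb : Monotone b) (hc : Monotone c)
    (h : ∀ r t, padicNorm p (A r t) ≤ (p : ℚ) ^ ((if m₁ ≤ (r : ℕ) then a t else 0) +
      (if m₂ ≤ (r : ℕ) then b t else 0) + (if m₃ ≤ (r : ℕ) then c t else 0))) :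
    padicNorm p A.det ≤ (p : ℚ) ^ (∑ t : Fin N, (if m₁ ≤ (t : ℕ) then a t else 0) +
      ∑ t : Fin N, (if m₂ ≤ (t : ℕ) then b t else 0) +
      ∑ t : Fin N, (if m₃ ≤ (t : ℕ) then c t else 0)) := sorry

/-! ### Piece D (`PntK`).  See `Pool/Agent/Run7/h257/Pnt.lean` (same proofs; `psi_bound` is there). -/
theorem dd_bound (P₀ : ℕ) (ε : ℝ) (hε : 0 < ε) : ∃ C : ℝ, ∀ n : ℕ,
    ∑ p ∈ (Finset.range (6 * n + 6)).filter Nat.Prime, (dd P₀ p n : ℝ) * Real.log p ≤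
      (6 / 7 + ε) * n + C := sorry

/-- a prime in `[D, (1+ε) D]` -/
theorem exists_prime_near (ε : ℝ) (hε : 0 < ε) : ∃ D₀ : ℕ, ∀ D : ℕ, D₀ ≤ D →
    ∃ p : ℕ, p.Prime ∧ D ≤ p ∧ (p : ℝ) ≤ (1 + ε) * D := sorry

/-! ### Piece E (`Trans`): passing to the variable `v`, `u = v/(1+v)`.
(1) `tc D n n = 1`, so `TT D g n = g n + ∑_{k<n} ...`; by `hg` the columns `k < n t` of `row D` are in the
span of the columns `n s`, `s < t` (a vector orthogonal to the latter is orthogonal to the former), hence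
`det (TT D (row D r) (n t)) = det (row D r (n t))` (each new column = old column + combination of earlier ones).
(2) For `r = i D + j`: `TT D (row D r) = ∑_{m < D-j} C(D-1-j, m) vrow D (i D + j + m)`; this is the Vandermonde
identity `Ring.add_choose_eq` for `choose (D-1-j-k) N = ∑_m C(D-1-j,m) choose (-k) (N-m)`.  The
transition matrix is unitriangular. -/
theorem det_transfer (D : ℕ) (hD : 1 ≤ D) (n : Fin (8 * D) → ℕ) (hn : StrictMono n)
    (hg : ∀ (t : Fin (8 * D)) (k : ℕ), k < n t → ∀ c : Fin (8 * D) → ℝ,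
      (∀ s, s < t → ∑ r, c r * ((row D r (n s) : ℚ) : ℝ) = 0) →
        ∑ r, c r * ((row D r k : ℚ) : ℝ) = 0) :
    (mat D n).det = (vmat D n).det := sorry

/-! ### Piece F (`SerK`): the series in `v`.
Let `c_{k,n} = choose (-k) (n-k)`.  `k c_{k,n} = n c_{k,n} + (n-1) c_{k,n-1}`, so for `g` with
`TT 1 g = G`: `TT 1 (k g_k) n = n G_n + (n-1) G_{n-1}` (`v(1+v) d/dv`), and `TT 1 (∑_{i≤k} g_i) n = G_n + G_{n-1}`
(multiplication by `1/(1-u) = 1+v`).  Hence with `ℓ = tf 1`, `Λ = tf 2`, `φ = tf (r+2)`: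
`n ℓ_n + (n-1) ℓ_{n-1} = [n = 1]`, `n Λ_n + (n-1) Λ_{n-1} = ℓ_n`,
`(6n+r) φ_n + 6(n-1) φ_{n-1} = Λ_n + Λ_{n-1}` (`φ_{-1} = 0`).  The right side of `tf_struct` satisfies the
same recurrence, because `(6k+r) al k + 6(k-1) al (k-1) = [k=0] + [k=1]`,
`(6k+r) be k + 6(k-1) be (k-1) + 6 al k = 0`, `(6k+r) ga k + 6(k-1) ga (k-1) + 6 be (k-1) = 0`
(checked by computer). -/
theorem tf_zero (n : ℕ) : tf 0 n = if n = 0 then 1 else 0 := sorry

theorem tf_struct (r : ℕ) (hr : 1 ≤ r) (hr5 : r ≤ 5) (n : ℕ) :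
    tf (r + 2) n = ∑ k ∈ range (n + 1), (al r k * tf 2 (n - k) + be r k * tf 1 (n - k)) +
      ga r n := sorry

/-- `tc 1 k n` is an integer. -/
theorem tf_norm {p : ℕ} (hp : p.Prime) (i : ℕ) (hi : i < 8) (n : ℕ) :
    padicNorm p (tf i n) ≤ (p : ℚ) ^ (3 * Nat.log p (6 * n + 5)) := sorry

/-- `v_p(al r k) = (k-1) + v_p((k-1)!)`, the factors `6 i + r` are units. -/
theorem al_norm {p r : ℕ} (h : (p = 2 ∧ (r = 1 ∨ r = 3 ∨ r = 5)) ∨
      (p = 3 ∧ (r = 1 ∨ r = 2 ∨ r = 4 ∨ r = 5))) (k : ℕ) :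
    ((padicNorm p (al r k) : ℚ) : ℝ) ≤
        (p : ℝ) ^ (-((if p = 2 then 2 else 3 / 2 : ℝ) * k) + 3 * Nat.log p (k + 1) + 6) ∧
    ((padicNorm p (be r k) : ℚ) : ℝ) ≤
        (p : ℝ) ^ (-((if p = 2 then 2 else 3 / 2 : ℝ) * k) + 3 * Nat.log p (k + 1) + 6) ∧
    ((padicNorm p (ga r k) : ℚ) : ℝ) ≤
        (p : ℝ) ^ (-((if p = 2 then 2 else 3 / 2 : ℝ) * k) + 3 * Nat.log p (k + 1) + 6) := sorry

/-! ### Piece G (`DetK`): the determinant at `p = 2, 3` (uses F).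
Let `S = {1,3,5}` (`p=2`), `S = {1,2,4,5}` (`p=3`).  The rows `v^j f_{r+2}`, `r ∈ S`, are
`∑_m (al (m-j) v^m Λ + be (m-j) v^m ℓ + ga (m-j) v^m)`.  Expand the determinant by multilinearity in these
rows (finite sums, `m ≤ 9D`): a term in which two chosen rows `(τ, m)` (`τ ∈ {0,1,2}`) coincide, or one of
them has `m < D` (it is then one of the rows of type `τ`), vanishes.  So in each nonzero term
the `|S| D` pairs `(τ, m)` are distinct with `m ≥ D`, at most three for each `m`: `∑ m ≥ 4.5 D² - O(D)` (`p=2`),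
`≥ 20/3 D² - O(D)` (`p=3`), `∑ j = |S| D(D-1)/2`; the factors have norm `≤ p^(-s (m-j) + O(log D))`,
`s = 2, 3/2`; `2·(4.5-1.5) = 6`, `3/2·(20/3-2) = 7`.  The other entries have norm `≤ p^(O(log D))`.
A similar proof: `Pool/Agent/Run7/h257/TwoDetCore.lean`, `TwoDet.lean`. -/
theorem vdet_bound (p : ℕ) (hp : p = 2 ∨ p = 3) (ε : ℝ) (hε : 0 < ε) : ∃ C : ℝ, ∀ D : ℕ, 1 ≤ D →
    ∀ n : Fin (8 * D) → ℕ, StrictMono n → (∀ t, n t ≤ 9 * D) → (vmat D n).det ≠ 0 →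
      ((if p = 2 then 6 else 7 : ℝ) - ε) * (D : ℝ) ^ 2 - C ≤
        (padicValRat p (vmat D n).det : ℝ) := sorry

/-! ### Piece H (`Zero`): the `p`-adic zero estimate.
Let `c ≠ 0`; scale: all `c r` are `p`-integral, not all `≡ 0 mod p`.  Show all `c r ≡ 0 mod p`.
Write `n = ν + l p`, `0 ≤ ν < p`, `0 ≤ l ≤ 7`.  `H2 k = p^{-2} H2 (k/p) + (p-integral)`.
For `r = 1..5` let `a ∈ {1..5}` with `a p ≡ r mod 6`, `κ = (a p - r)/6 < p`.  `p ∣ 6k+r` iff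
`k = κ + l' p`, and then `6k+r = (a+6l') p` (prime to `p^2`).  The types `f_r` are indexed by `a`; for given `ν`
there is at most one `j < D ≤ p` with `ν - j ≡ κ mod p`; if `j = ν - κ` then `l' = l`, if `j = ν - κ + p` then
`l' = l - 1` ('wrapped').  `κ` increases with `a`, so the wrapped ones are those with `a > m` for some
`m ∈ {0,...,5}`.
Step 1: multiply the equation `n` by `p^3`: `∑_a c_{a,j} H2(l')/(a+6l') ≡ 0` for `l = 0..7`, so all coefficients of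
`f`-rows are `≡ 0 mod p`.  Step 2: then multiply by `p^2`: the same with the coefficients of `f` divided by `p` and
the term `c_{2,ν}/l²` (`ν < D`): coefficients of `Li₂` divisible by `p`, those of `f` by `p²`.  Step 3: multiply by
`p`: term `c_{1,ν}/l`: coefficients of `L` divisible by `p`, of `Li₂` by `p²`, of `f` by `p³`.  Step 4:
`l = 0`: coefficients of `1` divisible by `p`.  In each step one needs that the `7 × 7` matrix with rows `l = 1..7`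
and columns `1/l`, `1/l²`, `H2(l)/(a+6l)` (`a ≤ m`), `H2(l-1)/(a+6(l-1))` (`a > m`) is invertible
mod `p` for `m = 0,...,5` (checked: the six determinants are nonzero rationals with numerators `< 10^16` and
denominators composed of primes `≤ 47`; any subset of the columns is then independent too). -/
theorem zero_est (D p : ℕ) (hp : p.Prime) (hD : D ≤ p) (hp0 : 10 ^ 20 < p)
    (c : Fin (8 * D) → ℚ) (hc : ∀ n < 8 * p, ∑ r, c r * row D r n = 0) : c = 0 := sorry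

/-! ### Piece I (`PFrac`): partial fractions (Lagrange interpolation at `-1,...,-Z-1`).
The degree of `qq` is `M (100 c + (7-c)(b+100-g)) ≤ ζ M ≤ Z`; the coefficient at `i` is
`AA · qq(-i-1)/∏_{j≠i}(j-i)`, real, of absolute value `1` for `i = Z`. -/
theorem pfrac (c b g ζ : ℕ) (h : Adm c b g ζ) (M Z : ℕ) (hM : 1 ≤ M) (hZ : ζ * M ≤ Z) :
    ∃ a : ℕ → ℝ, |a Z| = 1 ∧ ∀ s : ℂ, (∀ i ∈ range (Z + 1), s + i + 1 ≠ 0) →
      RR c b g M Z s = ∑ i ∈ range (Z + 1), (a i : ℂ) / (s + i + 1) := sorry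

/-! ### Piece J (`KerId`): the kernel identity (checked numerically).
`w = x-1+r/6`, `y = x+i`, `T = w+i+1 = y + r/6`, `δ_l = l - r/6`, `l ≥ 1`.
`H2 y = ∑_{l≥1} (1/l² - 1/(l+y)²)`, `l + y = T + δ_l`, and `1/(T(T+δ)²) = 1/(δ²T) - 1/(δ²(T+δ)) - 1/(δ(T+δ)²)`, so
`H2 y/T = cr/T + ∑_l (1/(δ_l²(T+δ_l)) + 1/(δ_l(T+δ_l)²))`.  With `k = x + l - 1 ≥ x`: `δ_l = k - w`,
`T + δ_l = k+i+1`: this is `cr/T - ∑_{k≥x} G'(k)`, `G(s) = 1/((s-w)(s+i+1))`.
For `k ≥ D`, `a = D - 1/12 > w`: `G'(k) = -(1/2π) ∫ G(a+iη)/(a+iη-k)² dη`, and for integers `k < D` this integral is `0`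
(partial fractions `G = (1/(s-w) - 1/(s+i+1))/T`; for `u < a`:
`(1/2π) ∫ dη/((a+iη-u)(a+iη-k)²) = 1/(u-k)²` if `k > a`, `= 0` if `k < a`: primitive
`A (log(s-u) - log(s-k)) - B/(s-k)`, `A = 1/(u-k)²`, `B = 1/(k-u)`).  Sum over `k ∈ ℤ`:
`∑_k 1/(s-k)² = π²/sin²(πs)` (Mathlib: cotangent series / Eisenstein series files). -/
theorem ker_id (D x i r : ℕ) (hx : 1 ≤ x) (hxD : x ≤ D) (hr : 1 ≤ r) (hr5 : r ≤ 5) :
    ((H2 (x + i) : ℚ) : ℂ) / (6 * ((x : ℂ) + i) + r) =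
      1 / 6 * ((cr r : ℂ) / (((x : ℂ) - 1 + r / 6) + i + 1) +
        ∑ k ∈ Ico x D, (1 / (((k : ℂ) - ((x : ℂ) - 1 + r / 6)) ^ 2 * ((k : ℂ) + i + 1)) +
          1 / (((k : ℂ) - ((x : ℂ) - 1 + r / 6)) * ((k : ℂ) + i + 1) ^ 2)) +
        1 / (2 * (Real.pi : ℂ)) *
          ∫ η : ℝ, ker D η / ((lin D η - ((x : ℂ) - 1 + r / 6)) * (lin D η + i + 1))) := sorry

/-- `|sin(π(a+iη))|² = sin²(π/12) + sinh²(πη)`. -/
theorem ker_norm : ∃ C : ℝ, ∀ (D : ℕ) (η : ℝ), ‖ker D η‖ ≤ C * Real.exp (-(2 * Real.pi * |η|)) :=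
  sorry

theorem ker_cont (D : ℕ) : Continuous (ker D) := sorry

/-! ### Piece K (`RBnd`): bounds for `R` by the potentials.
(1) For `Re s ≥ 0` the norm decreases with `Z`: `‖RR (Z+1) s‖/‖RR Z s‖ = (Z+1)/‖s+Z+2‖ ·
∏_zeros (Z+1+x)/(Z+2+x) ≤ 1`.  So take `Z = ζ M`.
(2) `|s - k₀| ≤ 1`: `‖s - x‖ ≤ |k₀ - k| + 2` for a zero `x = k, k + r/6`; `‖s+i+1‖ ≥ k₀ + i`;
`Z+1+x ≥ Z+1+k`.  So `‖R‖ ≤ Z! ∏_k ((|k₀-k|+2)/(Z+1+k))^{w_k} / ∏_{i≤Z} (k₀+i)`, `w_k = 7` or `c`; these are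
products of factorials and `log n! = FF n + O(log (n+2))` (Stirling, or elementary).  With `FF (D x) = D FF x + D x log D`
the terms `log D` cancel except `O(log D)` (the number of zeros is `≤ Z`, the rest has the favourable
sign: `log(|k₀-k|..)-log(Z+..)` is homogeneous, and `Z! / ∏_{i≤Z}` is homogeneous of degree `-1`).
(3) On the line `s = D - 1/12 + iη`: `‖s - x‖ ≤ √((D-k)² + η²)`, `‖s+i+1‖ ≥ √((D+i)² + η²)`; sums against integrals by
monotonicity; `Ph u e = ∫_0^u ½ log(t²+e²) dt`, `Ph (D u) (D e) = D Ph u e + D u log D`. -/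
theorem RR_real (c b g ζ : ℕ) (h : Adm c b g ζ) : ∃ (C : ℝ) (K : ℕ), ∀ M Z k : ℕ, 1 ≤ M →
    ζ * M ≤ Z → b * M ≤ k → k < g * M → ∀ s : ℂ, ‖s - k‖ ≤ 1 →
      ‖RR c b g M Z s‖ ≤ C * (M : ℝ) ^ K *
        Real.exp (100 * M * VV c (ζ / 100) (b / 100) (g / 100) (k / (100 * M))) := sorry

theorem RR_line (c b g ζ : ℕ) (h : Adm c b g ζ) : ∃ (C : ℝ) (K : ℕ), ∀ M Z : ℕ, 1 ≤ M →
    ζ * M ≤ Z → ∀ η : ℝ,
      ‖RR c b g M Z (lin (100 * M) η)‖ ≤ C * ((M : ℝ) + |η|) ^ K *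
        Real.exp (100 * M * VL c (ζ / 100) (b / 100) (g / 100) (|η| / (100 * M))) := sorry

/-! ### Piece L (`Num`): the numerical inequalities for the 65 cells (checked in floating point with
margin `0.01`).
Real axis: `VV` = convex part `8 FF s + 7 FF (1-s)` (chord) minus convex part (tangent at the midpoint) on
subintervals of length `1/100` or so: an affine function, check it at the end points.
Line: `d/de Ph u e = arctan (u/e)`; for `e ≥ 1.02` the derivative of `VL - 6.28 e` is `≤ 0`: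
`4π - 6.28 - 8 arctan e ≤ 0`.  On `[0, 1.02]` again chords and tangents on short intervals, or any other method.
Suggested: a verified checker with integer arithmetic evaluated by `decide +kernel` (no `native_decide`);
the logarithms of integers by recursion `log(2m+1) = (log 2m + log(2m+2))/2 + ...`.
The starting files (`Pool/Agent/Y801/Z5S/Num1.lean`, `Cells.lean`, `Fin.lean`) contain a similar check. -/
theorem cells_real : ∀ x ∈ cells, ∀ s : ℝ, (x.2.2.1 : ℝ) / 100 ≤ s → s ≤ (x.2.2.2.1 : ℝ) / 100 →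
    VV x.2.1 ((x.1 : ℝ) / 100) ((x.2.2.1 : ℝ) / 100) ((x.2.2.2.1 : ℝ) / 100) s ≤
      -((x.2.2.2.2 : ℝ) / 100) := sorry

theorem cells_line : ∀ x ∈ cells, ∀ e : ℝ, 0 ≤ e →
    VL x.2.1 ((x.1 : ℝ) / 100) ((x.2.2.1 : ℝ) / 100) ((x.2.2.2.1 : ℝ) / 100) e ≤
      628 / 100 * e - (x.2.2.2.2 : ℝ) / 100 := sorry

/-! ### Piece M (`ArchCol`): uses I, J, K, L.
`n = 100 M + Z`, `lam (100 M + i) = a i`, `lam k = 0` for `k < 100 M`.  Row `(0, j)`: the sum is `0`.  With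
`x = D - j ∈ [1, D]`: row `(1,j)`: `∑ a_i/(x+i) = R(x-1)`; row `(2,j)`: `∑ a_i/(x+i)² = -R'(x-1)`; row
`(r+2, j)`: by `ker_id` `1/6 (cr r · R(x-1+r/6) + ∑_{k∈[x,D)} (R(k)/(k-w)² - R'(k)/(k-w)) +
1/(2π) ∫ ker · R/(s-w))`.  `R(x-1+r/6) = 0` or bounded by `RR_real` (`k = x-1`); `R(k) = R'(k) = 0` for `k < bM` or
`k ≥ gM` (double zeros), bounded by `RR_real` and the Cauchy estimate (radius 1) otherwise; the integral by
`RR_line`, `ker_norm`, `cells_line` (`2π > 6.28`, so a factor `exp(-0.003 |η|)` is left). -/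
theorem arch_col : ∀ x ∈ cells, ∃ (C : ℝ) (K : ℕ), ∀ M n : ℕ, 1 ≤ M → (100 + x.1) * M ≤ n →
    ∃ lam : ℕ → ℝ, |lam n| = 1 ∧ ∀ r < 8 * (100 * M),
      |∑ k ∈ range (n + 1), lam k * ((row (100 * M) r k : ℚ) : ℝ)| ≤
        C * (M : ℝ) ^ K * Real.exp (-((x.2.2.2.2 : ℝ) * M)) := sorry

/-! ### Piece N (`Final`, helper257). -/
-- theorem not_hyp (P₀ : ℕ) : ¬ Hyp P₀

/-! ### Piece O (`PadicL`): the `p`-adic `L`-value.  For `p > 5` and `r ≥ 2`, `r ≡ 2 mod p-1`, the numbers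
`(1/(r-1)) (1/(3 p^k)) ∑_{0<m<3p^k, p∤m} χ(m) m^(1-r)` (`χ` the character mod 3) converge in `ℚ_p` for `k → ∞`, to
`L_p(r, χ ω^(1-r))`, and the limit is a unit if `p ∤ H2 (p/3)`.
Sketch: sum over `m = m₀ + p m₁...`; mod `p` the value is a unit multiple of `∑_{m<p} ... = ± H2(p/3)`.
(The precise statement will be fixed by whoever takes this piece; see
`Pool/Agent/TH350/SC/Defs.lean` for the `ζ_p` analogue in the starting tree.) -/

end

end Run7.K3
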