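import Mathlib
import Pool.Agent.Run7.K3.Defs
import Pool.Agent.Run7.K3.Iface
import Pool.Agent.Run7.h257.Sel
import Pool.Agent.Run7.h257.GS
import Pool.Agent.Run7.h257.Pnt
import Pool.Agent.Run7.h257.Prod

/-!
Piece N: the final contradiction.
-/

namespace Run7.K3

noncomputable section

open Finset Filter Topology

lemma fin_le_of_sm {N : ℕ} (n : Fin N → ℕ) (hn : StrictMono n) (t : Fin N) :
    (t : ℕ) ≤ n t := by
  obtain ⟨t, ht⟩ := t
  induction t with
  | zero => exact Nat.zero_le _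
  | succ k ih =>
    have h1 := ih (by omega)
    have h2 : n ⟨k, by omega⟩ < n ⟨k + 1, ht⟩ := hn (by simp)
    simp only at h1 ⊢
    omega

/-- `n t ≤ n s - (s - t)` for `t ≤ s`. -/
lemma sm_gap {N : ℕ} (n : Fin N → ℕ) (hn : StrictMono n) (t : Fin N) (k : ℕ) (hk : (t : ℕ) + k < N) :
    n t + k ≤ n ⟨(t : ℕ) + k, hk⟩ := by
  induction k with
  | zero => simp
  | succ k ih =>
    have h1 := ih (by omega)
    have h2 : n ⟨(t : ℕ) + k, by omega⟩ < n ⟨(t : ℕ) + (k + 1), hk⟩ := hn (by simp)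
    omega

lemma rows_indep (D : ℕ) :
    LinearIndependent ℚ (fun r : Fin (8 * D) => row D (r : ℕ)) := by
  rw [Fintype.linearIndependent_iff]
  intro g hg
  obtain ⟨p, hp1, hp⟩ := Nat.exists_infinite_primes (D + 10 ^ 20 + 1)
  have h := zero_est D p hp (by omega) (by omega) g ?_
  · intro i
    rw [h]
    rfl
  · intro n _
    have := congrFun hg n
    rw [Finset.sum_apply] at this
    simpa [Pi.smul_apply, smul_eq_mul] using this

lemma n_lt {D p : ℕ} (hp : p.Prime) (hD : D ≤ p) (hp0 : 10 ^ 20 < p)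
    (n : Fin (8 * D) → ℕ)
    (hg : ∀ (t : Fin (8 * D)) (k : ℕ), k < n t → ∀ c : Fin (8 * D) → ℝ,
      (∀ s, s < t → ∑ r, c r * ((row D r (n s) : ℚ) : ℝ) = 0) →
        ∑ r, c r * ((row D r k : ℚ) : ℝ) = 0) (t : Fin (8 * D)) : n t < 8 * p := by
  by_contra hcon
  have h8 : 8 * p ≤ n t := not_lt.mp hcon
  let f : (Fin (8 * D) → ℚ) →ₗ[ℚ] (Fin (t : ℕ) → ℚ) :=
    { toFun := fun c s => ∑ r, c r * row D r (n ⟨s, s.isLt.trans t.isLt⟩)
      map_add' := by
        intro c d
        ext s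
        simp only [Pi.add_apply]
        rw [← Finset.sum_add_distrib]
        exact Finset.sum_congr rfl fun r _ => by ring
      map_smul' := by
        intro a c
        ext s
        simp only [Pi.smul_apply, smul_eq_mul, RingHom.id_apply]
        rw [Finset.mul_sum]
        exact Finset.sum_congr rfl fun r _ => by ring }
  have hker : LinearMap.ker f ≠ ⊥ := by
    apply LinearMap.ker_ne_bot_of_finrank_lt
    simp
  obtain ⟨c, hc, hc0⟩ := Submodule.ne_bot_iff _ |>.mp hker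
  apply hc0
  apply zero_est D p hp hD hp0 c
  intro k hk
  have h1 := hg t k (by omega) (fun r => (c r : ℝ)) ?_
  · exact_mod_cast h1
  · intro s hst
    have h2 := congrFun (LinearMap.mem_ker.mp hc) ⟨s, hst⟩
    simp only [f, LinearMap.coe_mk, AddHom.coe_mk, Pi.zero_apply] at h2
    exact_mod_cast h2

/-- the columns are almost the first ones -/
lemma n_near (ε : ℝ) (hε : 0 < ε) : ∃ D₀ : ℕ, ∀ D : ℕ, D₀ ≤ D → ∀ n : Fin (8 * D) → ℕ,
    StrictMono n →
    (∀ (t : Fin (8 * D)) (k : ℕ), k < n t → ∀ c : Fin (8 * D) → ℝ,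
      (∀ s, s < t → ∑ r, c r * ((row D r (n s) : ℚ) : ℝ) = 0) →
        ∑ r, c r * ((row D r k : ℚ) : ℝ) = 0) →
    ∀ t : Fin (8 * D), (n t : ℝ) ≤ (t : ℕ) + 8 * ε * D := by
  obtain ⟨D₀, h0⟩ := exists_prime_near ε hε
  refine ⟨D₀ + 10 ^ 20 + 1, ?_⟩
  intro D hD n hn hg t
  obtain ⟨p, hp, hDp, hpe⟩ := h0 D (by omega)
  have h1 : (t : ℕ) + (8 * D - 1 - t) < 8 * D := by
    have := t.isLt
    omega
  have h2 := sm_gap n hn t (8 * D - 1 - t) h1
  have h3 := n_lt hp hDp (by omega) n hg ⟨(t : ℕ) + (8 * D - 1 - t), h1⟩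
  have h4 : n t + 8 * D ≤ t + 8 * p := by
    have := t.isLt
    omega
  have h5 : (n t : ℝ) + 8 * D ≤ (t : ℕ) + 8 * p := by exact_mod_cast h4
  nlinarith


/-! ### The upper bound -/

lemma H2_nonneg (k : ℕ) : 0 ≤ H2 k := Finset.sum_nonneg fun j _ => by positivity

lemma H2_le (k : ℕ) : H2 k ≤ k := by
  unfold H2
  have : ∀ j ∈ range k, 1 / ((j : ℚ) + 1) ^ 2 ≤ 1 := by
    intro j _
    rw [div_le_one (by positivity)]
    have : (0 : ℚ) ≤ j := Nat.cast_nonneg _
    nlinarith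
  refine (Finset.sum_le_sum this).trans ?_
  simp

lemma cf_abs (i k : ℕ) : |cf i k| ≤ 1 := by
  unfold cf
  split_ifs with h0 h1 h2 h3
  · simp
  · simp
  · rcases Nat.eq_zero_or_pos k with hk | hk
    · subst hk; simp
    · rw [abs_of_nonneg (by positivity), div_le_one (by positivity)]
      exact_mod_cast hk
  · rcases Nat.eq_zero_or_pos k with hk | hk
    · subst hk; simp
    · have hk' : (1 : ℚ) ≤ k := by exact_mod_cast hk
      rw [abs_of_nonneg (by positivity), div_le_one (by positivity)]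
      nlinarith
  · have hi : (1 : ℚ) ≤ (i : ℚ) - 2 := by
      have : 3 ≤ i := by omega
      have : (3 : ℚ) ≤ i := by exact_mod_cast this
      linarith
    have hk' : (0 : ℚ) ≤ k := Nat.cast_nonneg _
    rw [abs_of_nonneg (div_nonneg (H2_nonneg k) (by linarith)), div_le_one (by linarith)]
    have := H2_le k
    linarith

lemma row_abs (D r n : ℕ) : |((row D r n : ℚ) : ℝ)| ≤ 1 := by
  have : |row D r n| ≤ 1 := by
    unfold row
    split_ifs
    · exact cf_abs _ _
    · simp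
  exact_mod_cast this

/-- uniform constants -/
lemma unif_list (P : (ℕ × ℕ × ℕ × ℕ × ℕ) → ℝ → ℕ → Prop)
    (hmono : ∀ x C C' K K', C ≤ C' → K ≤ K' → P x C K → P x C' K')
    (l : List (ℕ × ℕ × ℕ × ℕ × ℕ)) (h : ∀ x ∈ l, ∃ C K, P x C K) :
    ∃ C K, 1 ≤ C ∧ ∀ x ∈ l, P x C K := by
  induction l with
  | nil => exact ⟨1, 0, le_rfl, by simp⟩
  | cons a l ih =>
    obtain ⟨C, K, hC, hl⟩ := ih (fun x hx => h x (List.mem_cons_of_mem _ hx))
    obtain ⟨C', K', ha⟩ := h a List.mem_cons_self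
    refine ⟨max C C', max K K', hC.trans (le_max_left _ _), ?_⟩
    intro x hx
    rcases List.mem_cons.mp hx with hx | hx
    · subst hx
      exact hmono _ _ _ _ _ (le_max_right _ _) (le_max_right _ _) ha
    · exact hmono _ _ _ _ _ (le_max_left _ _) (le_max_left _ _) (hl x hx)

/-- the decay of the columns `t ∈ [10 i M, 10 (i+1) M)` -/
def kap (i : ℕ) : ℕ := if 15 ≤ i then (cells.getD (i - 15) (0, 0, 0, 0, 0)).2.2.2.2 else 0

lemma kap_sum : ∑ i ∈ range 80, kap i = 74565 := by decide +kernel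

lemma kap_idx1 : ∀ i ∈ List.range 65,
    100 + (cells.getD i (0, 0, 0, 0, 0)).1 = 10 * (i + 15) := by decide +kernel

lemma cells_len : cells.length = 65 := by decide +kernel

lemma cells_idx (i : ℕ) (hi : i < 80) (h15 : 15 ≤ i) :
    cells.getD (i - 15) (0, 0, 0, 0, 0) ∈ cells ∧
    100 + (cells.getD (i - 15) (0, 0, 0, 0, 0)).1 = 10 * i := by
  have h1 : i - 15 < cells.length := by rw [cells_len]; omega
  constructor
  · rw [List.getD_eq_getElem _ _ h1]
    exact List.getElem_mem h1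
  · have := kap_idx1 (i - 15) (List.mem_range.mpr (by omega))
    rw [this]
    omega

lemma sum_div (m : ℕ) (f : ℕ → ℝ) (a : ℕ) (hm : 0 < m) :
    ∑ t ∈ range (a * m), f (t / m) = m * ∑ i ∈ range a, f i := by
  induction a with
  | zero => simp
  | succ a ih =>
    rw [Nat.succ_mul, Finset.sum_range_add, ih, Finset.sum_range_succ, mul_add]
    congr 1
    have : ∀ t ∈ range m, f ((a * m + t) / m) = f a := by
      intro t ht
      rw [Finset.mem_range] at ht
      congr 1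
      rw [Nat.add_comm, Nat.add_mul_div_right _ _ hm, Nat.div_eq_of_lt ht, Nat.zero_add]
    rw [Finset.sum_congr rfl this]
    simp

/-- one column -/
lemma col_bound : ∃ (C : ℝ) (K : ℕ), 1 ≤ C ∧ ∀ M : ℕ, 1 ≤ M → ∀ t n : ℕ, t < 800 * M → t ≤ n →
    ∃ lam : ℕ → ℝ, |lam n| = 1 ∧ ∀ r < 8 * (100 * M),
      |∑ k ∈ range (n + 1), lam k * ((row (100 * M) r k : ℚ) : ℝ)| ≤
        C * (M : ℝ) ^ K * Real.exp (-((kap (t / (10 * M)) : ℝ) * M)) := by
  obtain ⟨C, K, hC, h⟩ := unif_list (fun x C K => ∀ M n : ℕ, 1 ≤ M → (100 + x.1) * M ≤ n →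
    ∃ lam : ℕ → ℝ, |lam n| = 1 ∧ ∀ r < 8 * (100 * M),
      |∑ k ∈ range (n + 1), lam k * ((row (100 * M) r k : ℚ) : ℝ)| ≤
        C * (M : ℝ) ^ K * Real.exp (-((x.2.2.2.2 : ℝ) * M))) (by
      intro x C C' K K' hC hK h M n hM hn
      obtain ⟨lam, h1, h2⟩ := h M n hM hn
      refine ⟨lam, h1, fun r hr => (h2 r hr).trans ?_⟩
      have hMr : (1 : ℝ) ≤ M := by exact_mod_cast hM
      have hE : 0 < Real.exp (-((x.2.2.2.2 : ℝ) * M)) := Real.exp_pos _
      have h3 : (M : ℝ) ^ K ≤ (M : ℝ) ^ K' := pow_le_pow_right₀ hMr hK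
      have h4 : 0 ≤ C * (M : ℝ) ^ K * Real.exp (-((x.2.2.2.2 : ℝ) * M)) :=
        (abs_nonneg _).trans (h2 r hr)
      have h5 : 0 < (M : ℝ) ^ K := by positivity
      have h6 : 0 ≤ C := by
        by_contra hneg
        have : C * (M : ℝ) ^ K < 0 := mul_neg_of_neg_of_pos (not_le.mp hneg) h5
        have := mul_neg_of_neg_of_pos this hE
        linarith
      apply mul_le_mul_of_nonneg_right _ hE.le
      exact mul_le_mul hC h3 h5.le (h6.trans hC)) cells arch_col
  refine ⟨C, K, hC, ?_⟩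
  intro M hM t n ht htn
  have hMr : (1 : ℝ) ≤ M := by exact_mod_cast hM
  set i := t / (10 * M) with hi
  have hi80 : i < 80 := by
    rw [hi, Nat.div_lt_iff_lt_mul (by omega)]
    omega
  have hit : i * (10 * M) ≤ t := by
    rw [hi]
    exact Nat.div_mul_le_self _ _
  by_cases h15 : 15 ≤ i
  · obtain ⟨hx1, hx2⟩ := cells_idx i hi80 h15
    obtain ⟨lam, h1, h2⟩ := h _ hx1 M n hM (by
      rw [hx2]
      calc 10 * i * M = i * (10 * M) := by ring
        _ ≤ t := hit
        _ ≤ n := htn)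
    refine ⟨lam, h1, ?_⟩
    intro r hr
    refine (h2 r hr).trans (le_of_eq ?_)
    rw [kap, if_pos h15]
  · refine ⟨fun k => if k = n then 1 else 0, by simp, ?_⟩
    intro r hr
    rw [kap, if_neg h15]
    simp only [ite_mul, one_mul, zero_mul, Finset.sum_ite_eq', Nat.cast_zero, neg_zero, Real.exp_zero,
      mul_one]
    rw [if_pos (by simp)]
    refine (row_abs _ _ _).trans ?_
    have : (1 : ℝ) ≤ (M : ℝ) ^ K := one_le_pow₀ hMr
    nlinarith

lemma upper : ∃ (C : ℝ) (K : ℕ), 1 ≤ C ∧ ∀ M : ℕ, 1 ≤ M → ∀ n : Fin (8 * (100 * M)) → ℕ,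
    StrictMono n → (mat (100 * M) n).det ≠ 0 →
    (∀ (t : Fin (8 * (100 * M))) (k : ℕ), k < n t → ∀ c : Fin (8 * (100 * M)) → ℝ,
      (∀ s, s < t → ∑ r, c r * ((row (100 * M) r (n s) : ℚ) : ℝ) = 0) →
        ∑ r, c r * ((row (100 * M) r k : ℚ) : ℝ) = 0) →
    Real.log |((mat (100 * M) n).det : ℝ)| ≤
      800 * M * (Real.log C + K * Real.log M) - 745650 * (M : ℝ) ^ 2 := by
  obtain ⟨C, K, hC, hcol⟩ := col_bound
  refine ⟨800 * C, K + 1, by linarith, ?_⟩
  intro M hM n hn hdet hg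
  have hMr : (1 : ℝ) ≤ M := by exact_mod_cast hM
  set b : Fin (8 * (100 * M)) → ℝ := fun t =>
    800 * M * (C * (M : ℝ) ^ K * Real.exp (-((kap ((t : ℕ) / (10 * M)) : ℝ) * M))) with hb
  have hbpos : ∀ t, 0 < b t := fun t => by rw [hb]; positivity
  set A : Matrix (Fin (8 * (100 * M))) (Fin (8 * (100 * M))) ℝ :=
    (mat (100 * M) n).map (Rat.cast : ℚ → ℝ) with hA
  have hdetA : A.det = ((mat (100 * M) n).det : ℝ) := by
    rw [hA]
    exact (RingHom.map_det (Rat.castHom ℝ) (mat (100 * M) n)).symm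
  have hAe : ∀ r t, A r t = ((row (100 * M) (r : ℕ) (n t) : ℚ) : ℝ) := fun r t => rfl
  have h1 : |A.det| ≤ ∏ t, b t := by
    apply Run7.h257.det_le_prod
    intro t c hc hs
    obtain ⟨lam, hl1, hl2⟩ := hcol M hM t (n t) (by have := t.isLt; omega) (fin_le_of_sm n hn t)
    have e1 : ∑ k ∈ range (n t + 1), lam k * ∑ r, c r * ((row (100 * M) (r : ℕ) k : ℚ) : ℝ) =
        lam (n t) * ∑ r, c r * ((row (100 * M) (r : ℕ) (n t) : ℚ) : ℝ) := by
      rw [Finset.sum_range_succ, Finset.sum_eq_zero, zero_add]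
      intro k hk
      rw [Finset.mem_range] at hk
      rw [hg t k hk c (fun s hst => hs s hst), mul_zero]
    have e2 : ∑ k ∈ range (n t + 1), lam k * ∑ r, c r * ((row (100 * M) (r : ℕ) k : ℚ) : ℝ) =
        ∑ r, c r * ∑ k ∈ range (n t + 1), lam k * ((row (100 * M) (r : ℕ) k : ℚ) : ℝ) := by
      simp_rw [Finset.mul_sum]
      rw [Finset.sum_comm]
      apply Finset.sum_congr rfl
      intro r _
      apply Finset.sum_congr rfl
      intro k _
      ring
    have e3 : |∑ r, c r * A r t| = |∑ r, c r * ∑ k ∈ range (n t + 1),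
        lam k * ((row (100 * M) (r : ℕ) k : ℚ) : ℝ)| := by
      rw [← e2, e1, abs_mul, hl1, one_mul]
      rfl
    rw [e3]
    refine (Finset.abs_sum_le_sum_abs _ _).trans ?_
    have hcr : ∀ r, |c r| ≤ 1 := by
      intro r
      have : c r ^ 2 ≤ 1 := by
        rw [← hc]
        exact Finset.single_le_sum (f := fun r => c r ^ 2) (fun _ _ => sq_nonneg _)
          (Finset.mem_univ r)
      exact abs_le_one_iff_mul_self_le_one.mpr (by nlinarith)
    have e4 : ∀ r ∈ (Finset.univ : Finset (Fin (8 * (100 * M)))),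
        |c r * ∑ k ∈ range (n t + 1), lam k * ((row (100 * M) (r : ℕ) k : ℚ) : ℝ)| ≤
        C * (M : ℝ) ^ K * Real.exp (-((kap ((t : ℕ) / (10 * M)) : ℝ) * M)) := by
      intro r _
      rw [abs_mul]
      have h3 := hl2 r r.isLt
      have h4 := hcr r
      calc _ ≤ 1 * (C * (M : ℝ) ^ K * Real.exp (-((kap ((t : ℕ) / (10 * M)) : ℝ) * M))) :=
            mul_le_mul h4 h3 (abs_nonneg _) zero_le_one
        _ = _ := one_mul _
    refine (Finset.sum_le_sum e4).trans (le_of_eq ?_)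
    rw [Finset.sum_const, Finset.card_univ, Fintype.card_fin, nsmul_eq_mul, hb]
    push_cast
    ring
  have hdet' : ((mat (100 * M) n).det : ℝ) ≠ 0 := by exact_mod_cast hdet
  rw [hdetA] at h1
  have h2 := Real.log_le_log (abs_pos.mpr hdet') h1
  rw [Real.log_prod (fun t _ => (hbpos t).ne')] at h2
  refine h2.trans (le_of_eq ?_)
  have h3 : ∀ t : Fin (8 * (100 * M)), Real.log (b t) =
      (Real.log (800 * C) + (K + 1 : ℕ) * Real.log M) - (kap ((t : ℕ) / (10 * M)) : ℝ) * M := by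
    intro t
    simp only [hb]
    rw [show 800 * (M : ℝ) * (C * (M : ℝ) ^ K *
        Real.exp (-((kap ((t : ℕ) / (10 * M)) : ℝ) * M))) = (800 * C) * (M : ℝ) ^ (K + 1) *
        Real.exp (-((kap ((t : ℕ) / (10 * M)) : ℝ) * M)) by ring,
      Real.log_mul (by positivity) (Real.exp_pos _).ne', Real.log_exp,
      Real.log_mul (by positivity) (by positivity), Real.log_pow]
    ring
  rw [Finset.sum_congr rfl (fun t _ => h3 t), Finset.sum_sub_distrib, Finset.sum_const,
    Finset.card_univ, Fintype.card_fin, nsmul_eq_mul]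
  have h4 : ∑ t : Fin (8 * (100 * M)), (kap ((t : ℕ) / (10 * M)) : ℝ) * M = 745650 * (M : ℝ) ^ 2 := by
    rw [← Finset.sum_mul]
    have e0 := Fin.sum_univ_eq_sum_range (fun t : ℕ => (kap (t / (10 * M)) : ℝ)) (8 * (100 * M))
    rw [e0, show 8 * (100 * M) = 80 * (10 * M) by ring,
      sum_div (10 * M) (fun i => (kap i : ℝ)) 80 (by omega)]
    have : ∑ i ∈ range 80, (kap i : ℝ) = 74565 := by exact_mod_cast kap_sum
    rw [this]
    push_cast
    ring
  rw [h4]
  push_cast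
  ring

/-! ### The lower bound -/

lemma dd_mono (P₀ p : ℕ) : Monotone (dd P₀ p) := by
  intro m n hmn
  unfold dd
  split_ifs with h1 h2 h2
  · exact Nat.log_mono_right (by omega)
  · exfalso
    apply h2
    rcases h1 with h | h
    · exact Or.inl h
    · exact Or.inr (by omega)
  · exact Nat.zero_le _
  · exact le_refl _

lemma dd_eq_zero {P₀ p n : ℕ} (h : 6 * n + 5 < p) : dd P₀ p n = 0 := by
  unfold dd
  split_ifs
  · exact Nat.log_of_lt h
  · rfl

lemma val_of_norm {p K : ℕ} (hp : p.Prime) {q : ℚ} (hq : q ≠ 0)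
    (h : padicNorm p q ≤ (p : ℚ) ^ K) : -(K : ℤ) ≤ padicValRat p q := by
  have := Fact.mk hp
  rw [padicNorm.eq_zpow_of_nonzero hq, ← zpow_natCast] at h
  have h1 : (1 : ℚ) < p := by exact_mod_cast hp.one_lt
  have := (zpow_le_zpow_iff_right₀ h1).mp h
  omega

lemma sum_ge_range (m N : ℕ) (h : m ≤ N) :
    ∑ i ∈ Finset.range N, (if m ≤ i then (i : ℝ) else 0) =
      ((N : ℝ) * (N - 1) - m * (m - 1)) / 2 := by
  induction N, h using Nat.le_induction with
  | base =>
    rw [sub_self, zero_div]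
    apply Finset.sum_eq_zero
    intro i hi
    rw [Finset.mem_range] at hi
    rw [if_neg (by omega)]
  | succ k hk ih =>
    rw [Finset.sum_range_succ, ih, if_pos hk]
    push_cast
    ring

lemma lower (P₀ : ℕ) (h5 : 5 ≤ P₀) (hP : Hyp P₀) (ε : ℝ) (hε : 0 < ε) (hε1 : ε ≤ 1 / 100) :
    ∃ C : ℝ, ∀ D : ℕ, 1 ≤ D → ∀ n : Fin (8 * D) → ℕ, StrictMono n → (mat D n).det ≠ 0 →
    (∀ (t : Fin (8 * D)) (k : ℕ), k < n t → ∀ c : Fin (8 * D) → ℝ,
      (∀ s, s < t → ∑ r, c r * ((row D r (n s) : ℚ) : ℝ) = 0) →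
        ∑ r, c r * ((row D r k : ℚ) : ℝ) = 0) →
    (∀ t : Fin (8 * D), (n t : ℝ) ≤ (t : ℕ) + 8 * ε * D) →
      (6 * Real.log 2 + 7 * Real.log 3 - 85.0715 - 500 * ε) * (D : ℝ) ^ 2 - C * D ≤
        Real.log |((mat D n).det : ℝ)| := by
  obtain ⟨C1, h1⟩ := Run7.h257.psi_bound ε hε
  obtain ⟨C2, h2⟩ := dd_bound P₀ ε hε
  obtain ⟨C3, h3⟩ := vdet_bound 2 (Or.inl rfl) ε hε
  obtain ⟨C4, h4⟩ := vdet_bound 3 (Or.inr rfl) ε hε
  refine ⟨8 * (2 * |C1| + |C2|) + Real.log 2 * |C3| + Real.log 3 * |C4|, ?_⟩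
  intro D hD n hn hdet hg hnear
  have hDr : (1 : ℝ) ≤ D := by exact_mod_cast hD
  have hkill : ∀ p : ℕ, p.Prime → P₀ < p → ∀ a : ℕ, 1 ≤ a → a ≤ 5 →
      padicNorm p (H2 (a * p / 6)) ≤ (p : ℚ)⁻¹ := fun p hp hPp a ha1 ha5 =>
    H2_kill hp (by omega) (hP p hp hPp) a ha1 ha5
  have hval : ∀ p : ℕ, p.Prime → 3 < p →
      -(((∑ t : Fin (8 * D), (if D ≤ (t : ℕ) then Nat.log p (n t) else 0) +
        ∑ t : Fin (8 * D), (if 2 * D ≤ (t : ℕ) then Nat.log p (n t) else 0) +
        ∑ t : Fin (8 * D), (if 3 * D ≤ (t : ℕ) then dd P₀ p (n t) else 0) : ℕ) : ℤ)) ≤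
        padicValRat p (mat D n).det := by
    intro p hp hp3
    apply val_of_norm hp hdet
    apply det_norm_le3 hp (mat D n) D (2 * D) (3 * D) (fun t => Nat.log p (n t))
      (fun t => Nat.log p (n t)) (fun t => dd P₀ p (n t))
    · intro s t hst
      exact Nat.log_mono_right (hn.monotone hst)
    · intro s t hst
      exact Nat.log_mono_right (hn.monotone hst)
    · intro s t hst
      exact dd_mono P₀ p (hn.monotone hst)
    · intro r t
      exact row_norm hp hp3 h5 (hkill p hp) D r (n t) r.isLt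
  set l : Fin (8 * D) := ⟨8 * D - 1, by omega⟩ with hl
  have hnl : ∀ t, n t ≤ n l := fun t => hn.monotone (by
    rw [hl, Fin.le_def]
    have := t.isLt
    simp only
    omega)
  set S : Finset ℕ := (Finset.range (6 * n l + 6)).filter Nat.Prime with hS
  have hSp : ∀ p ∈ S, p.Prime := fun p hp => (Finset.mem_filter.mp hp).2
  have h2S : 2 ∈ S := by
    rw [hS, Finset.mem_filter, Finset.mem_range]
    exact ⟨by omega, Nat.prime_two⟩
  have h3S : 3 ∈ S.erase 2 := by
    rw [Finset.mem_erase, hS, Finset.mem_filter, Finset.mem_range]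
    exact ⟨by norm_num, by omega, Nat.prime_three⟩
  have hout : ∀ p : ℕ, p.Prime → p ∉ S → 0 ≤ padicValRat p (mat D n).det := by
    intro p hp hpS
    have hpl : 6 * n l + 6 ≤ p := by
      by_contra hcon
      apply hpS
      rw [hS, Finset.mem_filter, Finset.mem_range]
      exact ⟨by omega, hp⟩
    have := hval p hp (by omega)
    have z1 : ∀ m : ℕ, ∑ t : Fin (8 * D), (if m ≤ (t : ℕ) then Nat.log p (n t) else 0) = 0 := by
      intro m
      apply Finset.sum_eq_zero
      intro t _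
      have := hnl t
      rw [Nat.log_of_lt (by omega)]
      simp
    have z2 : ∑ t : Fin (8 * D), (if 3 * D ≤ (t : ℕ) then dd P₀ p (n t) else 0) = 0 := by
      apply Finset.sum_eq_zero
      intro t _
      have := hnl t
      rw [dd_eq_zero (by omega)]
      simp
    rw [z1, z1, z2] at this
    simpa using this
  have hprod := Run7.h257.log_abs_ge hdet S hSp hout
  rw [← Finset.add_sum_erase S _ h2S, ← Finset.add_sum_erase (S.erase 2) _ h3S] at hprod
  have hlog2 : 0 < Real.log 2 := Real.log_pos (by norm_num)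
  have hlog3 : 0 < Real.log 3 := Real.log_pos (by norm_num)
  have hlog2' : Real.log 2 ≤ 1 := by
    have := Real.log_two_lt_d9
    linarith
  have hlog3' : Real.log 3 ≤ 2 := by
    have := Real.log_le_sub_one_of_pos (show (0 : ℝ) < 3 by norm_num)
    linarith
  -- the 2-part and the 3-part
  have htr := det_transfer D hD n hn hg
  have h9 : ∀ t, n t ≤ 9 * D := by
    intro t
    have e1 := hnear t
    have e2 : ((t : ℕ) : ℝ) ≤ 8 * D := by exact_mod_cast t.isLt.le
    have e3 : 8 * ε * D ≤ 1 * D := by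
      apply mul_le_mul_of_nonneg_right _ (by linarith)
      linarith
    have e4 : (n t : ℝ) ≤ 9 * D := by linarith
    exact_mod_cast e4
  have h2part := h3 D hD n hn h9 (by rw [← htr]; exact hdet)
  have h3part := h4 D hD n hn h9 (by rw [← htr]; exact hdet)
  rw [← htr] at h2part h3part
  rw [if_pos rfl] at h2part
  rw [if_neg (by norm_num)] at h3part
  have h2part' := mul_le_mul_of_nonneg_right h2part hlog2.le
  have h3part' := mul_le_mul_of_nonneg_right h3part hlog3.le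
  -- the part of the other primes
  have hodd : -(∑ p ∈ S, ((∑ t : Fin (8 * D), (if D ≤ (t : ℕ) then (Nat.log p (n t) : ℝ) else 0)) +
        (∑ t : Fin (8 * D), (if 2 * D ≤ (t : ℕ) then (Nat.log p (n t) : ℝ) else 0)) +
        ∑ t : Fin (8 * D), (if 3 * D ≤ (t : ℕ) then (dd P₀ p (n t) : ℝ) else 0)) * Real.log p) ≤
      ∑ p ∈ (S.erase 2).erase 3, (padicValRat p (mat D n).det : ℝ) * Real.log p := by
    have e1 : ∑ p ∈ (S.erase 2).erase 3, ((∑ t : Fin (8 * D),
        (if D ≤ (t : ℕ) then (Nat.log p (n t) : ℝ) else 0)) +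
        (∑ t : Fin (8 * D), (if 2 * D ≤ (t : ℕ) then (Nat.log p (n t) : ℝ) else 0)) +
        ∑ t : Fin (8 * D), (if 3 * D ≤ (t : ℕ) then (dd P₀ p (n t) : ℝ) else 0)) * Real.log p ≤
        ∑ p ∈ S, ((∑ t : Fin (8 * D), (if D ≤ (t : ℕ) then (Nat.log p (n t) : ℝ) else 0)) +
        (∑ t : Fin (8 * D), (if 2 * D ≤ (t : ℕ) then (Nat.log p (n t) : ℝ) else 0)) +
        ∑ t : Fin (8 * D), (if 3 * D ≤ (t : ℕ) then (dd P₀ p (n t) : ℝ) else 0)) * Real.log p := by
      apply Finset.sum_le_sum_of_subset_of_nonneg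
        ((Finset.erase_subset _ _).trans (Finset.erase_subset _ _))
      intro p hp _
      apply mul_nonneg
      · refine add_nonneg (add_nonneg ?_ ?_) ?_ <;>
        · apply Finset.sum_nonneg
          intro t _
          split_ifs <;> positivity
      · exact Real.log_nonneg (by exact_mod_cast (hSp p hp).one_lt.le)
    refine le_trans (neg_le_neg e1) ?_
    rw [← Finset.sum_neg_distrib]
    apply Finset.sum_le_sum
    intro p hp
    have hpS2 := Finset.mem_of_mem_erase hp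
    have hpS := Finset.mem_of_mem_erase hpS2
    have hpp := hSp p hpS
    have hp2 : 2 < p := lt_of_le_of_ne hpp.two_le (Finset.ne_of_mem_erase hpS2).symm
    have hp3 : 3 < p := lt_of_le_of_ne hp2 (Finset.ne_of_mem_erase hp).symm
    have hv := hval p hpp hp3
    have hlogp : 0 ≤ Real.log p := Real.log_nonneg (by exact_mod_cast hpp.one_lt.le)
    rw [← neg_mul]
    apply mul_le_mul_of_nonneg_right _ hlogp
    have hv' : (((-(((∑ t : Fin (8 * D), (if D ≤ (t : ℕ) then Nat.log p (n t) else 0) +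
        ∑ t : Fin (8 * D), (if 2 * D ≤ (t : ℕ) then Nat.log p (n t) else 0) +
        ∑ t : Fin (8 * D), (if 3 * D ≤ (t : ℕ) then dd P₀ p (n t) else 0) : ℕ) : ℤ)) : ℤ)) : ℝ) ≤
        ((padicValRat p (mat D n).det : ℤ) : ℝ) := by exact_mod_cast hv
    push_cast at hv'
    linarith
  have hA : ∑ p ∈ S, ((∑ t : Fin (8 * D), (if D ≤ (t : ℕ) then (Nat.log p (n t) : ℝ) else 0)) +
        (∑ t : Fin (8 * D), (if 2 * D ≤ (t : ℕ) then (Nat.log p (n t) : ℝ) else 0)) +
        ∑ t : Fin (8 * D), (if 3 * D ≤ (t : ℕ) then (dd P₀ p (n t) : ℝ) else 0)) * Real.log p =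
      (∑ t : Fin (8 * D), (if D ≤ (t : ℕ) then
        ∑ p ∈ S, (Nat.log p (n t) : ℝ) * Real.log p else 0)) +
      (∑ t : Fin (8 * D), (if 2 * D ≤ (t : ℕ) then
        ∑ p ∈ S, (Nat.log p (n t) : ℝ) * Real.log p else 0)) +
      ∑ t : Fin (8 * D), (if 3 * D ≤ (t : ℕ) then
        ∑ p ∈ S, (dd P₀ p (n t) : ℝ) * Real.log p else 0) := by
    have : ∀ (m : ℕ) (f : ℕ → Fin (8 * D) → ℝ),
        ∑ p ∈ S, (∑ t : Fin (8 * D), (if m ≤ (t : ℕ) then f p t else 0)) * Real.log p =
        ∑ t : Fin (8 * D), (if m ≤ (t : ℕ) then ∑ p ∈ S, f p t * Real.log p else 0) := by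
      intro m f
      simp_rw [Finset.sum_mul]
      rw [Finset.sum_comm]
      apply Finset.sum_congr rfl
      intro t _
      split_ifs with h
      · rfl
      · simp
    simp_rw [add_mul]
    rw [Finset.sum_add_distrib, Finset.sum_add_distrib, this D (fun p t => (Nat.log p (n t) : ℝ)),
      this (2 * D) (fun p t => (Nat.log p (n t) : ℝ)),
      this (3 * D) (fun p t => (dd P₀ p (n t) : ℝ))]
  have hB1 : ∀ t : Fin (8 * D), ∑ p ∈ S, (Nat.log p (n t) : ℝ) * Real.log p ≤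
      (1 + ε) * n t + |C1| := by
    intro t
    have e1 : ∑ p ∈ (Finset.range (n t + 1)).filter Nat.Prime, (Nat.log p (n t) : ℝ) * Real.log p =
        ∑ p ∈ S, (Nat.log p (n t) : ℝ) * Real.log p := by
      apply Finset.sum_subset
      · intro p hp
        rw [Finset.mem_filter, Finset.mem_range] at hp
        rw [hS, Finset.mem_filter, Finset.mem_range]
        have := hnl t
        exact ⟨by omega, hp.2⟩
      · intro p hpS hp
        have : n t < p := by
          by_contra hcon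
          apply hp
          rw [Finset.mem_filter, Finset.mem_range]
          exact ⟨by omega, hSp p hpS⟩
        rw [Nat.log_of_lt this]
        simp
    rw [← e1]
    exact (h1 (n t)).trans (by linarith [le_abs_self C1])
  have hB2 : ∀ t : Fin (8 * D), ∑ p ∈ S, (dd P₀ p (n t) : ℝ) * Real.log p ≤
      (6 / 7 + ε) * n t + |C2| := by
    intro t
    have e1 : ∑ p ∈ (Finset.range (6 * n t + 6)).filter Nat.Prime,
        (dd P₀ p (n t) : ℝ) * Real.log p = ∑ p ∈ S, (dd P₀ p (n t) : ℝ) * Real.log p := by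
      apply Finset.sum_subset
      · intro p hp
        rw [Finset.mem_filter, Finset.mem_range] at hp
        rw [hS, Finset.mem_filter, Finset.mem_range]
        have := hnl t
        exact ⟨by omega, hp.2⟩
      · intro p hpS hp
        have : 6 * n t + 5 < p := by
          by_contra hcon
          apply hp
          rw [Finset.mem_filter, Finset.mem_range]
          exact ⟨by omega, hSp p hpS⟩
        rw [dd_eq_zero this]
        simp
    rw [← e1]
    exact (h2 (n t)).trans (by linarith [le_abs_self C2])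
  have hgen : ∀ (m : ℕ) (κ C : ℝ) (_ : 0 ≤ κ) (_ : κ ≤ 2) (_ : 0 ≤ C) (_ : m ≤ 8 * D)
      (f : Fin (8 * D) → ℝ) (_ : ∀ t, f t ≤ κ * n t + C),
      ∑ t : Fin (8 * D), (if m ≤ (t : ℕ) then f t else 0) ≤
        κ * (((8 * D : ℝ) * (8 * D - 1) - m * (m - 1)) / 2) + 128 * ε * (D : ℝ) ^ 2 +
          8 * D * C := by
    intro m κ C hκ hκ2 hC hm f hf
    have : ∀ t ∈ (Finset.univ : Finset (Fin (8 * D))), (if m ≤ (t : ℕ) then f t else 0) ≤
        κ * (if m ≤ (t : ℕ) then ((t : ℕ) : ℝ) else 0) + (16 * ε * D + C) := by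
      intro t _
      split_ifs
      · have e1 := hf t
        have e2 := mul_le_mul_of_nonneg_left (hnear t) hκ
        have e3 : κ * (8 * ε * D) ≤ 2 * (8 * ε * D) :=
          mul_le_mul_of_nonneg_right hκ2 (by positivity)
        linarith
      · have : 0 ≤ 16 * ε * D + C := by positivity
        linarith
    refine (Finset.sum_le_sum this).trans (le_of_eq ?_)
    rw [Finset.sum_add_distrib, Finset.sum_const, Finset.card_univ, Fintype.card_fin, nsmul_eq_mul,
      ← Finset.mul_sum]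
    have e0 := Fin.sum_univ_eq_sum_range (fun i : ℕ => (if m ≤ i then (i : ℝ) else 0)) (8 * D)
    rw [e0, sum_ge_range m (8 * D) hm]
    push_cast
    ring
  have hC1 := hgen D (1 + ε) |C1| (by linarith) (by linarith) (abs_nonneg _) (by omega) _ hB1
  have hC2 := hgen (2 * D) (1 + ε) |C1| (by linarith) (by linarith) (abs_nonneg _) (by omega) _ hB1
  have hC3 := hgen (3 * D) (6 / 7 + ε) |C2| (by linarith) (by linarith) (abs_nonneg _)
    (by omega) _ hB2
  rw [hA] at hodd
  have hcast2 : Real.log ((2 : ℕ) : ℝ) = Real.log 2 := by norm_num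
  have hcast3 : Real.log ((3 : ℕ) : ℝ) = Real.log 3 := by norm_num
  rw [hcast2, hcast3] at hprod
  have q1 : (1 + ε) * (((8 * D : ℝ) * (8 * D - 1) - D * (D - 1)) / 2) ≤
      (31.5 + 31.5 * ε) * (D : ℝ) ^ 2 := by nlinarith
  have q2 : (1 + ε) * (((8 * D : ℝ) * (8 * D - 1) - ((2 * D : ℕ) : ℝ) * (((2 * D : ℕ) : ℝ) - 1)) / 2) ≤
      (30 + 30 * ε) * (D : ℝ) ^ 2 := by
    push_cast
    nlinarith
  have q3 : (6 / 7 + ε) * (((8 * D : ℝ) * (8 * D - 1) -
      ((3 * D : ℕ) : ℝ) * (((3 * D : ℕ) : ℝ) - 1)) / 2) ≤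
      (27.5 * (6 / 7) + 27.5 * ε) * (D : ℝ) ^ 2 := by
    push_cast
    nlinarith
  have q4 : Real.log 2 * C3 ≤ Real.log 2 * |C3| * D := by
    calc Real.log 2 * C3 ≤ Real.log 2 * |C3| := mul_le_mul_of_nonneg_left (le_abs_self _) hlog2.le
      _ ≤ Real.log 2 * |C3| * D := le_mul_of_one_le_right (by positivity) hDr
  have q5 : Real.log 3 * C4 ≤ Real.log 3 * |C4| * D := by
    calc Real.log 3 * C4 ≤ Real.log 3 * |C4| := mul_le_mul_of_nonneg_left (le_abs_self _) hlog3.le
      _ ≤ Real.log 3 * |C4| * D := le_mul_of_one_le_right (by positivity) hDr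
  have q6 : ε * Real.log 2 * (D : ℝ) ^ 2 ≤ ε * 1 * (D : ℝ) ^ 2 := by gcongr
  have q7 : ε * Real.log 3 * (D : ℝ) ^ 2 ≤ ε * 2 * (D : ℝ) ^ 2 := by gcongr
  have q8 : 0 ≤ ε * (D : ℝ) ^ 2 := by positivity
  have q9 : 0 ≤ (D : ℝ) ^ 2 := by positivity
  nlinarith

/-- **Theorem.** It is not the case that `p ∣ ∑_{k ≤ p/3} 1/k²` for all large primes `p`. -/
theorem not_hyp (P₀ : ℕ) : ¬ Hyp P₀ := by
  intro hP0
  have hP : Hyp (max P₀ 5) := fun p hp hpp => hP0 p hp (lt_of_le_of_lt (le_max_left _ _) hpp)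
  obtain ⟨C, K, hC, hup⟩ := upper
  obtain ⟨C', hlow⟩ := lower (max P₀ 5) (le_max_right _ _) hP (1 / 10000) (by norm_num) (by norm_num)
  obtain ⟨D₀, hD₀⟩ := n_near (1 / 10000) (by norm_num)
  -- the inequality for every large M
  have key : ∀ M : ℕ, D₀ + 1 ≤ M →
      1000 * (M : ℝ) ^ 2 ≤ 800 * M * (Real.log C + K * Real.log M) + 100 * C' * M := by
    intro M hM
    obtain ⟨n, hn, hdet, hgr⟩ := Run7.h257.exists_sel _ (rows_indep (100 * M))
    have hdet' : (mat (100 * M) n).det ≠ 0 := hdet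
    have hnear := hD₀ (100 * M) (by omega) n hn hgr
    have u := hup M (by omega) n hn hdet' hgr
    have l := hlow (100 * M) (by omega) n hn hdet' hgr hnear
    have hMr : (1 : ℝ) ≤ M := by exact_mod_cast (by omega : 1 ≤ M)
    have hlog2 : 0.6931 < Real.log 2 := lt_trans (by norm_num) Real.log_two_gt_d9
    have hlog3 : 1 < Real.log 3 := by
      rw [Real.lt_log_iff_exp_lt (by norm_num)]
      exact lt_trans Real.exp_one_lt_d9 (by norm_num)
    rw [show ((100 * M : ℕ) : ℝ) = 100 * (M : ℝ) by push_cast; ring] at l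
    have hM2 : 0 < (M : ℝ) ^ 2 := by positivity
    nlinarith
  -- contradiction for large M
  have hlim : Tendsto (fun M : ℕ => (800 * (Real.log C + K * Real.log M) + 100 * C') / (M : ℝ))
      atTop (𝓝 0) := by
    have l1 : Tendsto (fun x : ℝ => Real.log x / x) atTop (𝓝 0) :=
      Real.isLittleO_log_id_atTop.tendsto_div_nhds_zero
    have l3 := (l1.comp tendsto_natCast_atTop_atTop).const_mul (800 * (K : ℝ))
    have l4 : Tendsto (fun M : ℕ => (800 * Real.log C + 100 * C') / (M : ℝ)) atTop (𝓝 0) :=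
      tendsto_const_div_atTop_nhds_zero_nat _
    have l5 := l3.add l4
    rw [mul_zero, add_zero] at l5
    refine l5.congr ?_
    intro M
    simp only [Function.comp_apply]
    ring
  have hev := hlim.eventually (gt_mem_nhds (show (0 : ℝ) < 1000 by norm_num))
  obtain ⟨M, hM1, hM2⟩ := (hev.and (eventually_ge_atTop (D₀ + 1))).exists
  have hMr : (0 : ℝ) < M := by exact_mod_cast (by omega : 0 < M)
  have h1 := key M hM2
  rw [div_lt_iff₀ hMr] at hM1
  nlinarith

end

end Run7.K3
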