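import Mathlib
import Pool.Agent.Run7.K3.Defs

/-! Piece F: the series in the variable `v`. -/

namespace Run7.K3

open Finset

theorem tc_one_self (n : ℕ) : tc 1 n n = 1 := by
  unfold tc
  simp

theorem tc_one_gt (k n : ℕ) (h : n < k) : tc 1 k n = 0 := by
  unfold tc
  rw [if_neg (by omega)]

theorem tc_one_add (k j : ℕ) : tc 1 k (k + j) = Ring.choose (-(k : ℤ)) j := by
  unfold tc
  rw [if_pos (by omega)]
  congr 1
  · push_cast; ring
  · omega

theorem choose_succ_mul' (r : ℤ) (j : ℕ) :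
    ((j : ℤ) + 1) * Ring.choose r (j + 1) = (r - j) * Ring.choose r j := by
  have h := Ring.choose_smul_choose r (n := j + 1) (k := j) (by omega)
  rw [Nat.choose_succ_self_right, show j + 1 - j = 1 by omega, Ring.choose_one_right,
    nsmul_eq_mul] at h
  push_cast at h
  rw [h]; ring

/-- `k c_{k,n} = n c_{k,n} + (n-1) c_{k,n-1}` -/
theorem tc_one_mul (k m : ℕ) :
    (k : ℤ) * tc 1 k (m + 1) = ((m : ℤ) + 1) * tc 1 k (m + 1) + m * tc 1 k m := by
  rcases lt_trichotomy k (m + 1) with h | h | h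
  · obtain ⟨j, rfl⟩ := Nat.exists_eq_add_of_le (Nat.lt_succ_iff.mp h)
    rw [show k + j + 1 = k + (j + 1) by ring, tc_one_add, tc_one_add]
    have h1 := choose_succ_mul' (-(k : ℤ)) j
    push_cast
    linear_combination -h1
  · subst h
    rw [tc_one_self, tc_one_gt _ _ (by omega)]
    push_cast; ring
  · rw [tc_one_gt _ _ h, tc_one_gt _ _ (by omega)]
    ring

/-- `c_{k,m} = c_{k+1,m+1} + c_{k+1,m}` -/
theorem tc_one_pascal (k m : ℕ) : tc 1 k m = tc 1 (k + 1) (m + 1) + tc 1 (k + 1) m := by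
  rcases lt_trichotomy k m with h | h | h
  · obtain ⟨j, rfl⟩ := Nat.exists_eq_add_of_lt h
    rw [show k + j + 1 + 1 = (k + 1) + (j + 1) by ring, tc_one_add (k + 1) (j + 1),
      show k + j + 1 = (k + 1) + j by ring, tc_one_add (k + 1) j,
      show k + 1 + j = k + (j + 1) by ring, tc_one_add k (j + 1)]
    have h1 := Ring.choose_succ_succ (-((k + 1 : ℕ) : ℤ)) j
    rw [show (-((k + 1 : ℕ) : ℤ)) + 1 = -(k : ℤ) by push_cast; ring] at h1
    rw [h1]; ring
  · subst h
    rw [tc_one_self, tc_one_self, tc_one_gt _ _ (by omega)]; norm_num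
  · rw [tc_one_gt _ _ h, tc_one_gt _ _ (by omega), tc_one_gt _ _ (by omega)]; norm_num

/-- `∑_{i ≤ k ≤ m+1} c_{k,m+1} = c_{i,m+1} + c_{i,m}` -/
theorem tc_one_sum (m i : ℕ) (hi : i ≤ m + 1) :
    ∑ k ∈ Ico i (m + 2), tc 1 k (m + 1) = tc 1 i (m + 1) + tc 1 i m := by
  obtain ⟨d, hd⟩ := Nat.exists_eq_add_of_le hi
  induction d generalizing i with
  | zero =>
    obtain rfl : i = m + 1 := by omega
    rw [show m + 2 = (m + 1) + 1 by ring, Nat.Ico_succ_singleton, sum_singleton,
      tc_one_gt (m + 1) m (by omega)]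
    ring
  | succ d ih =>
    rw [sum_eq_sum_Ico_succ_bot (by omega), ih (i + 1) (by omega) (by omega),
      tc_one_pascal i m]

theorem TT_mul (g : ℕ → ℚ) (m : ℕ) :
    TT 1 (fun k => (k : ℚ) * g k) (m + 1) = ((m : ℚ) + 1) * TT 1 g (m + 1) + m * TT 1 g m := by
  have e : TT 1 g m = ∑ k ∈ range (m + 1 + 1), (tc 1 k m : ℚ) * g k := by
    rw [sum_range_succ, tc_one_gt (m + 1) m (by omega)]
    simp [TT]
  rw [e]
  unfold TT
  rw [mul_sum, mul_sum, ← sum_add_distrib]
  refine sum_congr rfl fun k _ => ?_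
  have h := congrArg (Int.cast : ℤ → ℚ) (tc_one_mul k m)
  push_cast at h
  linear_combination g k * h

theorem TT_sum (g : ℕ → ℚ) (m : ℕ) :
    TT 1 (fun k => ∑ i ∈ range (k + 1), g i) (m + 1) = TT 1 g (m + 1) + TT 1 g m := by
  have e : TT 1 g m = ∑ k ∈ range (m + 1 + 1), (tc 1 k m : ℚ) * g k := by
    rw [sum_range_succ, tc_one_gt (m + 1) m (by omega)]
    simp [TT]
  rw [e]
  unfold TT
  rw [← sum_add_distrib]
  simp_rw [mul_sum]
  rw [Finset.sum_sigma', ]
  have : ∀ i ∈ range (m + 1 + 1), (tc 1 i (m + 1) : ℚ) * g i + (tc 1 i m : ℚ) * g i =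
      ∑ k ∈ Ico i (m + 2), (tc 1 k (m + 1) : ℚ) * g i := by
    intro i hi
    rw [← sum_mul, ← add_mul]
    congr 1
    have h := congrArg (Int.cast : ℤ → ℚ) (tc_one_sum m i (by simp at hi; omega))
    push_cast at h
    rw [h]
  rw [sum_congr rfl this, Finset.sum_sigma']
  refine sum_bij' (fun x _ => ⟨x.2, x.1⟩) (fun x _ => ⟨x.2, x.1⟩) ?_ ?_ ?_ ?_ ?_
  · rintro ⟨a, b⟩ h; simp at h ⊢; omega
  · rintro ⟨a, b⟩ h; simp at h ⊢; omega
  · rintro ⟨a, b⟩ _; rfl
  · rintro ⟨a, b⟩ _; rfl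
  · rintro ⟨a, b⟩ _; rfl

theorem TT_zero (g : ℕ → ℚ) : TT 1 g 0 = g 0 := by
  unfold TT
  simp [tc_one_self 0]

theorem TT_lin (a b : ℚ) (g h : ℕ → ℚ) (n : ℕ) :
    TT 1 (fun k => a * g k + b * h k) n = a * TT 1 g n + b * TT 1 h n := by
  unfold TT
  rw [mul_sum, mul_sum, ← sum_add_distrib]
  exact sum_congr rfl fun k _ => by ring

theorem tf_zero (n : ℕ) : tf 0 n = if n = 0 then 1 else 0 := by
  unfold tf TT
  rw [sum_eq_single 0]
  · unfold tc cf
    simp [Ring.choose_zero_ite]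
  · intro k _ hk
    unfold cf; simp [hk]
  · intro h; simp at h


/-! ### The recurrences -/

theorem tf1_rec (m : ℕ) :
    ((m : ℚ) + 1) * tf 1 (m + 1) + m * tf 1 m = if m = 0 then 1 else 0 := by
  unfold tf
  rw [← TT_mul]
  have h1 : (fun k : ℕ => (k : ℚ) * cf 1 k) =
      fun k => 1 * (∑ i ∈ range (k + 1), cf 0 i) + (-1) * cf 0 k := by
    funext k
    rw [sum_range_succ', sum_eq_zero (fun i _ => by simp [cf])]
    rcases Nat.eq_zero_or_pos k with rfl | hk
    · simp [cf]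
    · have hk' : (k : ℚ) ≠ 0 := by positivity
      have : k ≠ 0 := by omega
      simp [cf, hk', this]
  rw [h1, TT_lin, TT_sum]
  have h2 := tf_zero (m + 1)
  have h3 := tf_zero m
  unfold tf at h2 h3
  rw [h2, h3]
  simp

theorem tf2_rec (m : ℕ) :
    ((m : ℚ) + 1) * tf 2 (m + 1) + m * tf 2 m = tf 1 (m + 1) := by
  unfold tf
  rw [← TT_mul]
  congr 1
  funext k
  rcases Nat.eq_zero_or_pos k with rfl | hk
  · simp [cf]
  · have hk' : (k : ℚ) ≠ 0 := by positivity
    simp [cf]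
    field_simp

theorem H2_eqS (k : ℕ) : H2 k = ∑ i ∈ range (k + 1), cf 2 i := by
  unfold H2
  rw [sum_range_succ']
  simp [cf]

theorem tfr_rec (r : ℕ) (hr : 1 ≤ r) (m : ℕ) :
    (6 * ((m : ℚ) + 1) + r) * tf (r + 2) (m + 1) + 6 * m * tf (r + 2) m =
      tf 2 (m + 1) + tf 2 m := by
  unfold tf
  have h := TT_mul (cf (r + 2)) m
  have h1 : (fun k : ℕ => 6 * ((k : ℚ) * cf (r + 2) k) + r * cf (r + 2) k) =
      fun k => ∑ i ∈ range (k + 1), cf 2 i := by
    funext k
    rw [← H2_eqS]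
    have h6 : (6 * (k : ℚ) + r) ≠ 0 := by positivity
    have h7 : cf (r + 2) k = H2 k / (6 * (k : ℚ) + r) := by
      unfold cf
      rw [if_neg (by omega), if_neg (by omega), if_neg (by omega)]
      push_cast
      congr 2
      ring
    rw [h7]
    field_simp
  have h2 := TT_lin 6 r (fun k : ℕ => (k : ℚ) * cf (r + 2) k) (cf (r + 2)) (m + 1)
  rw [h1, TT_sum, h] at h2
  rw [h2]; ring

theorem tfr_zero (r : ℕ) (hr : 1 ≤ r) : tf (r + 2) 0 = 0 := by
  unfold tf
  rw [TT_zero]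
  unfold cf
  rw [if_neg (by omega), if_neg (by omega), if_neg (by omega)]
  simp [H2]

theorem tf1_zero : tf 1 0 = 0 := by
  unfold tf; rw [TT_zero]; simp [cf]

theorem tf2_zero : tf 2 0 = 0 := by
  unfold tf; rw [TT_zero]; simp [cf]

/-! ### Recurrences of `al`, `be`, `ga` -/

theorem al_zero (r : ℕ) (hr : 1 ≤ r) : (r : ℚ) * al r 0 = 1 := by
  unfold al; simp; field_simp

theorem al_one (r : ℕ) : (6 + (r : ℚ)) * al r 1 = 1 := by
  have h6 : (6 + (r : ℚ)) ≠ 0 := by positivity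
  unfold al; simp [h6]

theorem al_succ (r k : ℕ) :
    (6 * ((k : ℚ) + 2) + r) * al r (k + 2) = -(6 * ((k : ℚ) + 1) * al r (k + 1)) := by
  unfold al
  rw [if_neg (by omega), if_neg (by omega)]
  rw [show k + 2 - 1 = k + 1 by omega, show k + 1 - 1 = k by omega,
    prod_Icc_succ_top (by omega), Nat.factorial_succ, pow_succ]
  have h6 : (6 * ((k : ℚ) + 2) + r) ≠ 0 := by positivity
  have h7 : (∏ i ∈ Icc 1 (k + 1), (6 * (i : ℚ) + r)) ≠ 0 := by
    refine prod_ne_zero_iff.mpr fun i hi => ?_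
    have : 1 ≤ i := (mem_Icc.mp hi).1
    positivity
  push_cast
  have h8 : 6 * ((k : ℚ) + 1 + 1) + r = 6 * ((k : ℚ) + 2) + r := by ring
  rw [h8]
  field_simp


theorem be_zero (r : ℕ) (hr : 1 ≤ r) : (r : ℚ) * be r 0 = -6 * al r 0 := by
  have h : (r : ℚ) ≠ 0 := by positivity
  unfold be al; simp; field_simp

theorem be_one (r : ℕ) : (6 + (r : ℚ)) * be r 1 = -6 * al r 1 := by
  have h6 : (6 + (r : ℚ)) ≠ 0 := by positivity
  unfold be; simp; field_simp

theorem be_succ (r k : ℕ) :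
    (6 * ((k : ℚ) + 2) + r) * be r (k + 2) + 6 * ((k : ℚ) + 1) * be r (k + 1) =
      -6 * al r (k + 2) := by
  have h := al_succ r k
  have h6 : (6 * ((k : ℚ) + 2) + r) ≠ 0 := by positivity
  unfold be
  rw [if_neg (by omega), if_neg (by omega), sum_Icc_succ_top (by omega)]
  set S := ∑ i ∈ Icc 1 (k + 1), 1 / (6 * (i : ℚ) + r)
  push_cast
  have h8 : 6 * ((k : ℚ) + 1 + 1) + r = 6 * ((k : ℚ) + 2) + r := by ring
  rw [h8]
  have h9 : (6 * ((k : ℚ) + 2) + r) * (1 / (6 * ((k : ℚ) + 2) + r)) = 1 := by field_simp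
  linear_combination (-6 * S) * h - 6 * al r (k + 2) * h9

theorem ga_one (r : ℕ) (hr : 1 ≤ r) : (6 + (r : ℚ)) * ga r 1 = -6 * be r 0 := by
  have h6 : (6 + (r : ℚ)) ≠ 0 := by positivity
  have h : (r : ℚ) ≠ 0 := by positivity
  have h1 := al_one r
  unfold ga be
  simp
  linear_combination (36 / (r : ℚ) ^ 2) * h1

theorem ga_succ (r k : ℕ) :
    (6 * ((k : ℚ) + 2) + r) * ga r (k + 2) + 6 * ((k : ℚ) + 1) * ga r (k + 1) =
      -6 * be r (k + 1) := by
  have h := al_succ r k
  unfold ga be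
  rw [if_neg (by omega), if_neg (by omega), if_neg (by omega), sum_Icc_succ_top (by omega)]
  rw [show k + 1 + 1 - 1 = k + 1 by omega]
  set S := ∑ i ∈ Icc 2 (k + 1), (-6 * ∑ l ∈ Icc 1 (i - 1), 1 / (6 * (l : ℚ) + r)) / ((i : ℚ) - 1)
  set T := ∑ l ∈ Icc 1 (k + 1), 1 / (6 * (l : ℚ) + r)
  push_cast
  have h9 : ((k : ℚ) + 1) * ((-6 * T) / ((k : ℚ) + 1 + 1 - 1)) = -6 * T := by
    have : ((k : ℚ) + 1 + 1 - 1) = (k : ℚ) + 1 := by ring
    rw [this]; field_simp
  linear_combination (36 / (r : ℚ) ^ 2 + S + (-6 * T) / ((k : ℚ) + 1 + 1 - 1)) * h -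
    6 * al r (k + 1) * h9

/-! ### The differential equations -/

open PowerSeries in
/-- `v (1+v) d/dv` -/
noncomputable def th (f : PowerSeries ℚ) : PowerSeries ℚ :=
  X * (1 + X) * PowerSeries.derivative ℚ f

open PowerSeries in
theorem coeff_th_zero (f : PowerSeries ℚ) : coeff 0 (th f) = 0 := by
  unfold th
  rw [mul_assoc]
  simp

open PowerSeries in
theorem coeff_th_succ (f : PowerSeries ℚ) (m : ℕ) :
    coeff (m + 1) (th f) = ((m : ℚ) + 1) * coeff (m + 1) f + m * coeff m f := by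
  unfold th
  rw [mul_assoc, coeff_succ_X_mul, add_mul, one_mul, map_add, coeff_derivative]
  rcases m with _ | m
  · simp
  · rw [coeff_succ_X_mul, coeff_derivative]
    push_cast; ring

theorem th_mul (f g : PowerSeries ℚ) : th (f * g) = th f * g + f * th g := by
  unfold th
  rw [Derivation.leibniz]
  simp only [smul_eq_mul]
  ring

theorem th_add (f g : PowerSeries ℚ) : th (f + g) = th f + th g := by
  unfold th
  rw [map_add]
  ring

open PowerSeries in
theorem th_L : th (PowerSeries.mk (tf 1)) = PowerSeries.X := by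
  ext n
  rcases n with _ | m
  · rw [coeff_th_zero]; simp
  · rw [coeff_th_succ, coeff_mk, coeff_mk, tf1_rec, coeff_X]
    simp

open PowerSeries in
theorem th_Li : th (PowerSeries.mk (tf 2)) = PowerSeries.mk (tf 1) := by
  ext n
  rcases n with _ | m
  · rw [coeff_th_zero, coeff_mk, tf1_zero]
  · rw [coeff_th_succ, coeff_mk, coeff_mk, tf2_rec, coeff_mk]

open PowerSeries in
theorem th_al (r : ℕ) (hr : 1 ≤ r) :
    6 * th (PowerSeries.mk (al r)) + (r : PowerSeries ℚ) * PowerSeries.mk (al r) =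
      1 + PowerSeries.X := by
  ext n
  have e6 : (6 : PowerSeries ℚ) = C (6 : ℚ) := (map_ofNat _ 6).symm
  have er : (r : PowerSeries ℚ) = C (r : ℚ) := by simp
  rw [e6, er, map_add, coeff_C_mul, coeff_C_mul, coeff_mk, map_add]
  rcases n with _ | _ | k
  · rw [coeff_th_zero, al_zero r hr]; simp
  · rw [coeff_th_succ]
    simp only [coeff_mk, coeff_one, coeff_X]
    have := al_one r
    push_cast
    simp
    linear_combination this
  · rw [coeff_th_succ]
    simp only [coeff_mk, coeff_one, coeff_X]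
    have := al_succ r k
    push_cast
    simp
    linear_combination this

open PowerSeries in
theorem th_be (r : ℕ) (hr : 1 ≤ r) :
    6 * th (PowerSeries.mk (be r)) + (r : PowerSeries ℚ) * PowerSeries.mk (be r) =
      -6 * PowerSeries.mk (al r) := by
  ext n
  have e6 : (6 : PowerSeries ℚ) = C (6 : ℚ) := (map_ofNat _ 6).symm
  have e6' : (-6 : PowerSeries ℚ) = C (-6 : ℚ) := by rw [map_neg, map_ofNat]
  have er : (r : PowerSeries ℚ) = C (r : ℚ) := by simp
  rw [e6', e6, er, map_add, coeff_C_mul, coeff_C_mul, coeff_mk, coeff_C_mul, coeff_mk]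
  rcases n with _ | _ | k
  · rw [coeff_th_zero]
    linear_combination be_zero r hr
  · rw [coeff_th_succ]
    simp only [coeff_mk]
    push_cast
    linear_combination be_one r
  · rw [coeff_th_succ]
    simp only [coeff_mk]
    push_cast
    linear_combination be_succ r k

open PowerSeries in
theorem th_ga (r : ℕ) (hr : 1 ≤ r) :
    6 * th (PowerSeries.mk (ga r)) + (r : PowerSeries ℚ) * PowerSeries.mk (ga r) =
      -6 * (PowerSeries.X * PowerSeries.mk (be r)) := by
  ext n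
  have e6 : (6 : PowerSeries ℚ) = C (6 : ℚ) := (map_ofNat _ 6).symm
  have e6' : (-6 : PowerSeries ℚ) = C (-6 : ℚ) := by rw [map_neg, map_ofNat]
  have er : (r : PowerSeries ℚ) = C (r : ℚ) := by simp
  rw [e6', e6, er, map_add, coeff_C_mul, coeff_C_mul, coeff_mk, coeff_C_mul]
  rcases n with _ | _ | k
  · rw [coeff_th_zero]
    simp [ga]
  · rw [coeff_th_succ, coeff_succ_X_mul]
    simp only [coeff_mk]
    push_cast
    linear_combination ga_one r hr
  · rw [coeff_th_succ, coeff_succ_X_mul]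
    simp only [coeff_mk]
    push_cast
    linear_combination ga_succ r k

open PowerSeries in
theorem th_tf (r : ℕ) (hr : 1 ≤ r) :
    6 * th (PowerSeries.mk (tf (r + 2))) + (r : PowerSeries ℚ) * PowerSeries.mk (tf (r + 2)) =
      (1 + PowerSeries.X) * PowerSeries.mk (tf 2) := by
  ext n
  have e6 : (6 : PowerSeries ℚ) = C (6 : ℚ) := (map_ofNat _ 6).symm
  have er : (r : PowerSeries ℚ) = C (r : ℚ) := by simp
  rw [e6, er, map_add, coeff_C_mul, coeff_C_mul, coeff_mk, add_mul, one_mul, map_add, coeff_mk]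
  rcases n with _ | m
  · rw [coeff_th_zero, tfr_zero r hr, tf2_zero]; simp
  · rw [coeff_th_succ, coeff_succ_X_mul]
    simp only [coeff_mk]
    linear_combination tfr_rec r hr m

open PowerSeries in
theorem th_unique (r : ℕ) (hr : 1 ≤ r) (f : PowerSeries ℚ)
    (h : 6 * th f + (r : PowerSeries ℚ) * f = 0) : f = 0 := by
  have e6 : (6 : PowerSeries ℚ) = C (6 : ℚ) := (map_ofNat _ 6).symm
  have er : (r : PowerSeries ℚ) = C (r : ℚ) := by simp
  have key : ∀ n, coeff n f = 0 := by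
    intro n
    induction n with
    | zero =>
      have h1 := congrArg (coeff 0) h
      rw [e6, er, map_add, coeff_C_mul, coeff_C_mul, coeff_th_zero, mul_zero, zero_add,
        map_zero] at h1
      have : (r : ℚ) ≠ 0 := by positivity
      exact (mul_eq_zero.mp h1).resolve_left this
    | succ m ih =>
      have h1 := congrArg (coeff (m + 1)) h
      rw [e6, er, map_add, coeff_C_mul, coeff_C_mul, coeff_th_succ, ih, map_zero] at h1
      have h2 : (6 * ((m : ℚ) + 1) + r) * coeff (m + 1) f = 0 := by linear_combination h1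
      have : (6 * ((m : ℚ) + 1) + r) ≠ 0 := by positivity
      exact (mul_eq_zero.mp h2).resolve_left this
  ext n
  rw [key n, map_zero]

open PowerSeries in
theorem tf_struct (r : ℕ) (hr : 1 ≤ r) (hr5 : r ≤ 5) (n : ℕ) :
    tf (r + 2) n = ∑ k ∈ range (n + 1), (al r k * tf 2 (n - k) + be r k * tf 1 (n - k)) +
      ga r n := by
  have h : PowerSeries.mk (tf (r + 2)) - (PowerSeries.mk (al r) * PowerSeries.mk (tf 2) +
      PowerSeries.mk (be r) * PowerSeries.mk (tf 1) + PowerSeries.mk (ga r)) = 0 := by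
    apply th_unique r hr
    have e : ∀ f g : PowerSeries ℚ, th (f - g) = th f - th g := by
      intro f g; unfold th; rw [map_sub]; ring
    rw [e, th_add, th_add, th_mul, th_mul, th_L, th_Li]
    linear_combination th_tf r hr - PowerSeries.mk (tf 2) * th_al r hr -
      PowerSeries.mk (tf 1) * th_be r hr - th_ga r hr
  have h1 := congrArg (coeff n) h
  rw [map_sub, map_add, map_add, coeff_mul, coeff_mul, coeff_mk, coeff_mk, map_zero,
    Finset.Nat.sum_antidiagonal_eq_sum_range_succ_mk,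
    Finset.Nat.sum_antidiagonal_eq_sum_range_succ_mk] at h1
  simp only [coeff_mk] at h1
  rw [sum_add_distrib]
  linear_combination h1


/-! ### `p`-adic bounds -/

theorem norm_inv_le {p : ℕ} (hp : p.Prime) {m N : ℕ} (hm : m ≠ 0) (hN : m ≤ N) :
    padicNorm p ((m : ℚ)⁻¹) ≤ (p : ℚ) ^ Nat.log p N := by
  have := Fact.mk hp
  have hm' : (m : ℚ) ≠ 0 := by exact_mod_cast hm
  rw [padicNorm.eq_zpow_of_nonzero (inv_ne_zero hm'), padicValRat.inv, neg_neg, padicValRat.of_nat,
    zpow_natCast]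
  exact pow_le_pow_right₀ (by exact_mod_cast hp.one_lt.le)
    ((padicValNat_le_nat_log m).trans (Nat.log_mono_right hN))

theorem H2_norm {p : ℕ} (hp : p.Prime) (k N : ℕ) (hN : k ≤ N) :
    padicNorm p (H2 k) ≤ (p : ℚ) ^ (2 * Nat.log p N) := by
  have := Fact.mk hp
  unfold H2
  refine padicNorm.sum_le' (fun j hj => ?_) (by positivity)
  have hj' : j + 1 ≤ N := by have := mem_range.mp hj; omega
  rw [one_div, ← inv_pow, pow_two, padicNorm.mul, two_mul, pow_add]
  have h := norm_inv_le hp (Nat.succ_ne_zero j) hj'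
  push_cast at h
  exact mul_le_mul h h (padicNorm.nonneg _) (by positivity)

theorem cf_norm {p : ℕ} (hp : p.Prime) (i : ℕ) (hi : i < 8) (k : ℕ) :
    padicNorm p (cf i k) ≤ (p : ℚ) ^ (3 * Nat.log p (6 * k + 5)) := by
  have := Fact.mk hp
  have hp1 : (1 : ℚ) ≤ p := by exact_mod_cast hp.one_lt.le
  have hmono : ∀ j, j ≤ 3 → (p : ℚ) ^ (j * Nat.log p (6 * k + 5)) ≤
      (p : ℚ) ^ (3 * Nat.log p (6 * k + 5)) := fun j hj =>
    pow_le_pow_right₀ hp1 (Nat.mul_le_mul_right _ hj)
  have h1 : k ≠ 0 → padicNorm p ((k : ℚ)⁻¹) ≤ (p : ℚ) ^ Nat.log p (6 * k + 5) := fun hk =>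
    norm_inv_le hp hk (by omega)
  by_cases h0 : i = 0
  · subst h0
    unfold cf
    rw [if_pos rfl]
    split_ifs
    · rw [padicNorm.one]; exact one_le_pow₀ hp1
    · rw [padicNorm.zero]; positivity
  by_cases h1' : i = 1
  · subst h1'
    unfold cf
    rw [if_neg (by omega), if_pos rfl, one_div]
    rcases eq_or_ne k 0 with rfl | hk
    · simp only [Nat.cast_zero, inv_zero, padicNorm.zero]; positivity
    · refine (h1 hk).trans ?_
      simpa using hmono 1 (by omega)
  by_cases h2' : i = 2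
  · subst h2'
    unfold cf
    rw [if_neg (by omega), if_neg (by omega), if_pos rfl, one_div, ← inv_pow, pow_two,
      padicNorm.mul]
    rcases eq_or_ne k 0 with rfl | hk
    · simp only [Nat.cast_zero, inv_zero, padicNorm.zero, zero_mul]; positivity
    · refine (mul_le_mul (h1 hk) (h1 hk) (padicNorm.nonneg _) (by positivity)).trans ?_
      rw [← pow_add, ← two_mul]
      exact hmono 2 (by omega)
  · obtain ⟨r, rfl⟩ : ∃ r, i = r + 2 := ⟨i - 2, by omega⟩
    have h7 : cf (r + 2) k = H2 k * ((6 * k + r : ℕ) : ℚ)⁻¹ := by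
      unfold cf
      rw [if_neg (by omega), if_neg (by omega), if_neg (by omega), div_eq_mul_inv]
      push_cast
      congr 2
      ring
    rw [h7, padicNorm.mul]
    have h8 : padicNorm p (((6 * k + r : ℕ) : ℚ)⁻¹) ≤ (p : ℚ) ^ Nat.log p (6 * k + 5) :=
      norm_inv_le hp (by omega) (by omega)
    have h9 := H2_norm hp k (6 * k + 5) (by omega)
    refine (mul_le_mul h9 h8 (padicNorm.nonneg _) (by positivity)).trans (le_of_eq ?_)
    rw [← pow_add]
    congr 1
    ring

theorem tf_norm {p : ℕ} (hp : p.Prime) (i : ℕ) (hi : i < 8) (n : ℕ) :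
    padicNorm p (tf i n) ≤ (p : ℚ) ^ (3 * Nat.log p (6 * n + 5)) := by
  have := Fact.mk hp
  have hp1 : (1 : ℚ) ≤ p := by exact_mod_cast hp.one_lt.le
  unfold tf TT
  refine padicNorm.sum_le' (fun k hk => ?_) (by positivity)
  have hk' : k ≤ n := by have := mem_range.mp hk; omega
  rw [padicNorm.mul]
  calc padicNorm p ((tc 1 k n : ℤ) : ℚ) * padicNorm p (cf i k) ≤
      1 * (p : ℚ) ^ (3 * Nat.log p (6 * k + 5)) :=
        mul_le_mul (padicNorm.of_int _) (cf_norm hp i hi k) (padicNorm.nonneg _) (by norm_num)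
    _ ≤ _ := by
        rw [one_mul]
        exact pow_le_pow_right₀ hp1 (Nat.mul_le_mul_left _ (Nat.log_mono_right (by omega)))

theorem fac_val {p : ℕ} (hp : p.Prime) (n : ℕ) :
    n ≤ (p - 1) * (padicValNat p n.factorial + (Nat.log p n + 1)) := by
  have := Fact.mk hp
  have h := sub_one_mul_padicValNat_factorial (p := p) n
  have hS : (Nat.digits p n).sum ≤ (p - 1) * (Nat.log p n + 1) := by
    rcases eq_or_ne n 0 with rfl | hn
    · simp
    · have h1 := List.sum_le_card_nsmul (Nat.digits p n) (p - 1) (fun x hx => by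
        have := Nat.digits_lt_base hp.one_lt hx; omega)
      rw [Nat.length_digits p n hp.one_lt hn, smul_eq_mul] at h1
      rw [mul_comm]; exact h1
  rw [mul_add, h]
  omega

/-- the hypothesis of `al_norm` -/
def Good (p r : ℕ) : Prop := (p = 2 ∧ (r = 1 ∨ r = 3 ∨ r = 5)) ∨
      (p = 3 ∧ (r = 1 ∨ r = 2 ∨ r = 4 ∨ r = 5))

theorem Good.prime {p r : ℕ} (h : Good p r) : p.Prime := by
  rcases h with ⟨rfl, _⟩ | ⟨rfl, _⟩ <;> norm_num

theorem Good.unit {p r : ℕ} (h : Good p r) (i : ℕ) : ¬ p ∣ 6 * i + r := by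
  rcases h with ⟨rfl, h⟩ | ⟨rfl, h⟩ <;> omega

theorem Good.norm_unit {p r : ℕ} (h : Good p r) (i : ℕ) : padicNorm p (6 * (i : ℚ) + r) = 1 := by
  have := Fact.mk h.prime
  have := (padicNorm.nat_eq_one_iff (p := p) (6 * i + r)).mpr (h.unit i)
  push_cast at this
  exact this

theorem Good.norm_six {p r : ℕ} (h : Good p r) : padicNorm p (-6) = (p : ℚ)⁻¹ := by
  have := Fact.mk h.prime
  rw [padicNorm.neg]
  have h2 : (6 : ℚ) = (p : ℚ) * ((6 / p : ℕ) : ℚ) := by
    rcases h with ⟨rfl, h⟩ | ⟨rfl, h⟩ <;> norm_num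
  rw [h2, padicNorm.mul, padicNorm.padicNorm_p_of_prime,
    (padicNorm.nat_eq_one_iff (p := p) (6 / p)).mpr (by
      rcases h with ⟨rfl, h⟩ | ⟨rfl, h⟩ <;> norm_num), mul_one]

theorem norm_prod_one {p : ℕ} (hp : p.Prime) (s : Finset ℕ) (f : ℕ → ℚ)
    (h : ∀ i ∈ s, padicNorm p (f i) = 1) : padicNorm p (∏ i ∈ s, f i) = 1 := by
  have := Fact.mk hp
  refine Finset.prod_induction f (fun x => padicNorm p x = 1) (fun a b ha hb => ?_) ?_ h
  · rw [padicNorm.mul, ha, hb, mul_one]
  · exact padicNorm.one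

theorem norm_pow' {p : ℕ} (hp : p.Prime) (x : ℚ) (n : ℕ) :
    padicNorm p (x ^ n) = padicNorm p x ^ n := by
  have := Fact.mk hp
  induction n with
  | zero => simp
  | succ n ih => rw [pow_succ, pow_succ, padicNorm.mul, ih]

theorem Good.al_eq {p r : ℕ} (h : Good p r) (m : ℕ) :
    padicNorm p (al r (m + 1)) = ((p : ℚ) ^ (m + padicValNat p m.factorial))⁻¹ := by
  have := Fact.mk h.prime
  unfold al
  rw [if_neg (by omega), show m + 1 - 1 = m by omega, padicNorm.div,
    norm_prod_one h.prime _ _ (fun i _ => h.norm_unit i), div_one, padicNorm.mul,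
    norm_pow' h.prime, h.norm_six]
  have hf : ((m.factorial : ℕ) : ℚ) ≠ 0 := by exact_mod_cast m.factorial_ne_zero
  rw [padicNorm.eq_zpow_of_nonzero hf, padicValRat.of_nat, zpow_neg, zpow_natCast, pow_add,
    mul_inv, inv_pow]

/-- the exponent -/
noncomputable def sx (p : ℕ) : ℝ := if p = 2 then 2 else 3 / 2

theorem Good.al_real {p r : ℕ} (h : Good p r) (k : ℕ) :
    ((padicNorm p (al r k) : ℚ) : ℝ) ≤
        (p : ℝ) ^ (-(sx p * k) + Nat.log p (k + 1) + 3) := by
  have := Fact.mk h.prime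
  have hp1 : (1 : ℝ) ≤ p := by exact_mod_cast h.prime.one_lt.le
  have hp0 : (0 : ℝ) < p := by linarith
  rcases k with _ | m
  · have : padicNorm p (al r 0) = 1 := by
      unfold al
      rw [if_pos rfl, padicNorm.div, padicNorm.one]
      have := h.norm_unit 0
      rw [Nat.cast_zero, mul_zero, zero_add] at this
      rw [this, div_one]
    rw [this]
    push_cast
    exact Real.one_le_rpow hp1 (by simp)
  · rw [h.al_eq]
    push_cast
    rw [← Real.rpow_natCast, ← Real.rpow_neg hp0.le]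
    apply Real.rpow_le_rpow_of_exponent_le hp1
    have hl : Nat.log p m ≤ Nat.log p (m + 1 + 1) := Nat.log_mono_right (by omega)
    have hl' : (Nat.log p m : ℝ) ≤ (Nat.log p (m + 1 + 1) : ℝ) := by exact_mod_cast hl
    have hf := fac_val h.prime m
    push_cast
    unfold sx
    rcases h with ⟨rfl, _⟩ | ⟨rfl, _⟩
    · have hf' : (m : ℝ) ≤ (padicValNat 2 m.factorial : ℝ) + (Nat.log 2 m + 1) := by
        have : m ≤ padicValNat 2 m.factorial + (Nat.log 2 m + 1) := by omega
        exact_mod_cast this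
      rw [if_pos rfl]
      linarith
    · have hf' : (m : ℝ) ≤ 2 * ((padicValNat 3 m.factorial : ℝ) + (Nat.log 3 m + 1)) := by
        have : m ≤ 2 * (padicValNat 3 m.factorial + (Nat.log 3 m + 1)) := by omega
        exact_mod_cast this
      rw [if_neg (by norm_num)]
      linarith

theorem Good.sum_inv {p r : ℕ} (h : Good p r) (s : Finset ℕ) :
    padicNorm p (-6 * ∑ i ∈ s, 1 / (6 * (i : ℚ) + r)) ≤ 1 := by
  have := Fact.mk h.prime
  rw [padicNorm.mul]
  have h1 : padicNorm p (-6) ≤ 1 := by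
    have := padicNorm.of_int (p := p) (-6); push_cast at this; exact this
  have h2 : padicNorm p (∑ i ∈ s, 1 / (6 * (i : ℚ) + r)) ≤ 1 := by
    refine padicNorm.sum_le' (fun i _ => ?_) (by norm_num)
    rw [padicNorm.div, padicNorm.one, h.norm_unit i]; norm_num
  calc _ ≤ (1 : ℚ) * 1 := mul_le_mul h1 h2 (padicNorm.nonneg _) (by norm_num)
    _ = 1 := by norm_num

theorem Good.norm_r {p r : ℕ} (h : Good p r) : padicNorm p (r : ℚ) = 1 := by
  have := h.norm_unit 0
  rw [Nat.cast_zero, mul_zero, zero_add] at this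
  exact this

theorem Good.be_le {p r : ℕ} (h : Good p r) (k : ℕ) :
    padicNorm p (be r (k + 1)) ≤ padicNorm p (al r (k + 1)) := by
  have := Fact.mk h.prime
  unfold be
  rw [if_neg (by omega), padicNorm.mul]
  exact mul_le_of_le_one_right (padicNorm.nonneg _) (h.sum_inv _)

theorem Good.ga_le {p r : ℕ} (h : Good p r) (k : ℕ) :
    padicNorm p (ga r (k + 1)) ≤ padicNorm p (al r (k + 1)) * (p : ℚ) ^ (Nat.log p (k + 1 + 1)) := by
  have := Fact.mk h.prime
  have hp1 : (1 : ℚ) ≤ p := by exact_mod_cast h.prime.one_lt.le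
  unfold ga
  rw [if_neg (by omega), padicNorm.mul]
  refine mul_le_mul_of_nonneg_left ?_ (padicNorm.nonneg _)
  refine padicNorm.nonarchimedean.trans (max_le ?_ ?_)
  · rw [padicNorm.div, norm_pow' h.prime, h.norm_r]
    have h1 : padicNorm p 36 ≤ 1 := by
      have := padicNorm.of_int (p := p) 36; push_cast at this; exact this
    calc _ ≤ (1 : ℚ) := by simpa using h1
      _ ≤ _ := one_le_pow₀ hp1
  · refine padicNorm.sum_le' (fun i hi => ?_) (by positivity)
    have hi2 := mem_Icc.mp hi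
    rw [div_eq_mul_inv, padicNorm.mul]
    have h3 : padicNorm p (((i : ℚ) - 1)⁻¹) ≤ (p : ℚ) ^ (Nat.log p (k + 1 + 1)) := by
      have := norm_inv_le h.prime (m := i - 1) (N := k + 1 + 1) (by omega) (by omega)
      rw [Nat.cast_sub (by omega)] at this
      simpa using this
    calc _ ≤ 1 * (p : ℚ) ^ (Nat.log p (k + 1 + 1)) :=
          mul_le_mul (h.sum_inv _) h3 (padicNorm.nonneg _) (by norm_num)
      _ = _ := one_mul _

theorem al_norm {p r : ℕ} (h : (p = 2 ∧ (r = 1 ∨ r = 3 ∨ r = 5)) ∨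
      (p = 3 ∧ (r = 1 ∨ r = 2 ∨ r = 4 ∨ r = 5))) (k : ℕ) :
    ((padicNorm p (al r k) : ℚ) : ℝ) ≤
        (p : ℝ) ^ (-((if p = 2 then 2 else 3 / 2 : ℝ) * k) + 3 * Nat.log p (k + 1) + 6) ∧
    ((padicNorm p (be r k) : ℚ) : ℝ) ≤
        (p : ℝ) ^ (-((if p = 2 then 2 else 3 / 2 : ℝ) * k) + 3 * Nat.log p (k + 1) + 6) ∧
    ((padicNorm p (ga r k) : ℚ) : ℝ) ≤
        (p : ℝ) ^ (-((if p = 2 then 2 else 3 / 2 : ℝ) * k) + 3 * Nat.log p (k + 1) + 6) := by
  have h' : Good p r := h
  have := Fact.mk h'.prime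
  have hp1 : (1 : ℝ) ≤ p := by exact_mod_cast h'.prime.one_lt.le
  have hp0 : (0 : ℝ) < p := by linarith
  have hal := h'.al_real k
  have hs : sx p = (if p = 2 then 2 else 3 / 2 : ℝ) := rfl
  rw [← hs]
  have hlog : (0 : ℝ) ≤ Nat.log p (k + 1) := Nat.cast_nonneg _
  refine ⟨hal.trans (Real.rpow_le_rpow_of_exponent_le hp1 (by linarith)), ?_, ?_⟩
  · rcases k with _ | k
    · have h1 : padicNorm p (be r 0) ≤ 1 := by
        unfold be
        rw [if_pos rfl, padicNorm.div, norm_pow' h'.prime, h'.norm_r]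
        have := padicNorm.of_int (p := p) (-6); push_cast at this; simpa using this
      have h2 : ((padicNorm p (be r 0) : ℚ) : ℝ) ≤ 1 := by exact_mod_cast h1
      refine h2.trans (Real.one_le_rpow hp1 (by simp))
    · have h1 : ((padicNorm p (be r (k + 1)) : ℚ) : ℝ) ≤ ((padicNorm p (al r (k + 1)) : ℚ) : ℝ) := by
        exact_mod_cast h'.be_le k
      exact h1.trans (hal.trans (Real.rpow_le_rpow_of_exponent_le hp1 (by linarith)))
  · rcases k with _ | k
    · have h1 : ga r 0 = 0 := by unfold ga; rw [if_pos rfl]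
      rw [h1, padicNorm.zero]
      push_cast
      positivity
    · have h1 : ((padicNorm p (ga r (k + 1)) : ℚ) : ℝ) ≤
          ((padicNorm p (al r (k + 1)) : ℚ) : ℝ) * (p : ℝ) ^ (Nat.log p (k + 1 + 1)) := by
        exact_mod_cast h'.ga_le k
      refine h1.trans ((mul_le_mul_of_nonneg_right hal (by positivity)).trans ?_)
      rw [← Real.rpow_natCast, ← Real.rpow_add hp0]
      exact Real.rpow_le_rpow_of_exponent_le hp1 (by linarith)

end Run7.K3
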